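import Pool.Agent.Lib.MP_42532b_al.L2.Basic

namespace L2B
variable {A : Type*} [Group A] {ℓ : A → ℕ}

/-- `w ^ i` is a nearest point of the line `⟨w⟩` to `x` -/
def Near (ℓ : A → ℕ) (w x : A) (i : ℤ) : Prop := ∀ j : ℤ, gd ℓ x (w ^ i) ≤ gd ℓ x (w ^ j)

/-- constants -/
def Q0 (ℓ : A → ℕ) (w : A) (c δ : ℕ) : ℕ := ℓ w + c + 2 * δ
def Q1 (ℓ : A → ℕ) (w : A) (c δ : ℕ) : ℕ := 2 * (2 * δ + Q0 ℓ w c δ + 1)

theorem near_exists (h : GNorm ℓ) (w x : A) : ∃ i, Near ℓ w x i := by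
  obtain ⟨i, -, hi⟩ := WellFounded.has_min (measure (fun i : ℤ => gd ℓ x (w ^ i))).wf
    Set.univ ⟨0, trivial⟩
  exact ⟨i, fun j => not_lt.1 (hi j trivial)⟩

private theorem InfOrd.zpow_inj {w : A} (hw : InfOrd w) : Function.Injective fun i : ℤ => w ^ i := by
  have key : ∀ i j : ℤ, i < j → w ^ i ≠ w ^ j := by
    intro i j hij he
    have h1 : w ^ (j - i) = 1 := by rw [zpow_sub, ← he, mul_inv_cancel]
    have h2 : w ^ (j - i).toNat = 1 := by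
      rw [← zpow_natCast, Int.toNat_of_nonneg (by omega)]
      exact h1
    exact hw _ (by omega) h2
  intro i j he
  by_contra hne
  rcases lt_or_gt_of_ne hne with h | h
  · exact key i j h he
  · exact key j i h he.symm

/-- the set of nearest indices is finite -/
theorem near_finite (h : GNorm ℓ) {w : A} (hw : InfOrd w) (x : A) :
    {i | Near ℓ w x i}.Finite := by
  obtain ⟨i₀, hi₀⟩ := near_exists h w x
  have h1 : ((fun i : ℤ => x⁻¹ * w ^ i) ⁻¹' {g | ℓ g ≤ gd ℓ x (w ^ i₀)}).Finite := by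
    apply (h.fin _).preimage
    intro i _ j _ he
    exact InfOrd.zpow_inj hw (mul_left_cancel he)
  refine h1.subset ?_
  intro i hi
  exact hi i₀

private theorem axis_qc_nat (h : GNorm ℓ) {δ : ℕ} (hyp : Hyp ℓ δ) {w : A} {c : ℕ}
    (hc : ∀ i j : ℕ, ℓ (w ^ i) + ℓ (w ^ j) ≤ ℓ (w ^ (i + j)) + c)
    (i : ℤ) (N : ℕ) (z : A) (hz : Btw ℓ (w ^ i) (w ^ (i + N)) z) :
    ∃ k : ℤ, gd ℓ z (w ^ k) ≤ Q0 ℓ w c δ := by
  have hd : ∀ (a : ℤ) (s : ℕ), gd ℓ (w ^ a) (w ^ (a + s)) = ℓ (w ^ s) := by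
    intro a s
    unfold gd
    congr 1
    rw [zpow_add, inv_mul_cancel_left, zpow_natCast]
  rcases Nat.eq_zero_or_pos N with hN | hN
  · subst hN
    refine ⟨i, ?_⟩
    have h1 := hd i 0
    unfold Btw at hz
    rw [h1, pow_zero, h.one] at hz
    have h2 := h.gd_comm z (w ^ i)
    omega
  · obtain ⟨s, hs, hs1, hs2⟩ := ivt (fun s => ℓ (w ^ s)) N (gd ℓ (w ^ i) z)
      (by simp only [pow_zero, h.one]; omega)
      (by
        have := hd i N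
        unfold Btw at hz
        omega) hN
    refine ⟨i + s, ?_⟩
    have e1 := hd i s
    have e2 := hd i N
    have e3 : gd ℓ (w ^ (i + (s : ℤ))) (w ^ (i + (N : ℤ))) = ℓ (w ^ (N - s)) := by
      have := hd (i + s) (N - s)
      have e4 : i + (s : ℤ) + ((N - s : ℕ) : ℤ) = i + N := by
        rw [Nat.cast_sub hs.le]; ring
      rwa [e4] at this
    have e5 := hc s (N - s)
    have e6 : s + (N - s) = N := by omega
    rw [e6] at e5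
    have e7 : ℓ (w ^ (s + 1)) ≤ ℓ (w ^ s) + ℓ w := by
      rw [pow_succ]; exact h.mul _ _
    have H := hyp z (w ^ (i + (s : ℤ))) (w ^ i) (w ^ (i + (N : ℤ)))
    have c1 := h.gd_comm z (w ^ i)
    have c2 := h.gd_comm (w ^ (i + (s : ℤ))) (w ^ i)
    unfold Btw at hz
    unfold Q0
    omega

/-- quasiconvexity of the axis -/
theorem axis_qc (h : GNorm ℓ) {δ : ℕ} (hyp : Hyp ℓ δ) {w : A} {c : ℕ}
    (hc : ∀ i j : ℕ, ℓ (w ^ i) + ℓ (w ^ j) ≤ ℓ (w ^ (i + j)) + c)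
    (i j : ℤ) (z : A) (hz : Btw ℓ (w ^ i) (w ^ j) z) :
    ∃ k : ℤ, gd ℓ z (w ^ k) ≤ Q0 ℓ w c δ := by
  rcases le_total i j with hij | hij
  · refine axis_qc_nat h hyp hc i (j - i).toNat z ?_
    have : i + ((j - i).toNat : ℤ) = j := by omega
    rwa [this]
  · refine axis_qc_nat h hyp hc j (i - j).toNat z ?_
    have : j + ((i - j).toNat : ℤ) = i := by omega
    rw [this]
    exact h.btw_comm.1 hz

private theorem gd_zpow (ℓ : A → ℕ) (w : A) (i j : ℤ) : gd ℓ (w ^ i) (w ^ j) = ℓ (w ^ (j - i)) := by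
  unfold gd
  congr 1
  rw [← zpow_neg, ← zpow_add]
  congr 1
  ring

theorem near_align (h : GNorm ℓ) {δ : ℕ} (hyp : Hyp ℓ δ) {w : A} {c : ℕ}
    (hc : ∀ i j : ℕ, ℓ (w ^ i) + ℓ (w ^ j) ≤ ℓ (w ^ (i + j)) + c)
    (x : A) (i j : ℤ) (hi : Near ℓ w x i) :
    gd ℓ x (w ^ i) + ℓ (w ^ (j - i)) ≤ gd ℓ x (w ^ j) + Q1 ℓ w c δ := by
  by_contra hcon
  push Not at hcon
  rw [← gd_zpow ℓ w i j] at hcon
  have t1 := h.gd_tri x (w ^ j) (w ^ i)
  have c1 := h.gd_comm (w ^ j) (w ^ i)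
  have hQ : Q1 ℓ w c δ = 2 * (2 * δ + Q0 ℓ w c δ + 1) := rfl
  obtain ⟨z, hz1, hz2⟩ := h.exists_btw (w ^ i) (w ^ j) (2 * δ + Q0 ℓ w c δ + 1) (by omega)
  obtain ⟨k, hk⟩ := axis_qc h hyp hc i j z hz2
  have H := hyp x z (w ^ i) (w ^ j)
  have t2 := h.gd_tri x z (w ^ k)
  have n1 := hi k
  have c2 := h.gd_comm z (w ^ i)
  unfold Btw at hz2
  omega

theorem near_pass (h : GNorm ℓ) {δ : ℕ} (hyp : Hyp ℓ δ) {w : A} {c : ℕ}
    (hc : ∀ i j : ℕ, ℓ (w ^ i) + ℓ (w ^ j) ≤ ℓ (w ^ (i + j)) + c)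
    (x z : A) (i j : ℤ) (hi : Near ℓ w x i) (hj : Near ℓ w z j)
    (hf : Q1 ℓ w c δ + δ < ℓ (w ^ (j - i))) :
    gd ℓ x (w ^ i) + ℓ (w ^ (j - i)) + gd ℓ (w ^ j) z ≤
      gd ℓ x z + 2 * Q1 ℓ w c δ + 2 * δ := by
  have a1 := near_align h hyp hc x i j hi
  have a2 := near_align h hyp hc z j i hj
  rw [← gd_zpow ℓ w i j] at a1 hf ⊢
  rw [← gd_zpow ℓ w j i] at a2
  have H := hyp x (w ^ j) (w ^ i) z
  have c1 := h.gd_comm (w ^ j) (w ^ i)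
  have c2 := h.gd_comm z (w ^ j)
  have c3 := h.gd_comm z (w ^ i)
  omega

end L2B
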