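import Mathlib

/-!
# The first L²-Betti number of a finitely generated group, and amenability

Let `G` be a group generated by `s 0, …, s (d - 1)`. A 1-cocycle `c : G → ℓ²(G)`,
`c (g h) = c g + g • c h` (`G` acts on `ℓ²(G)` by left translations), is determined by the tuple
`(c (s 0), …, c (s (d - 1)))` in the Hilbert space `ℓ²(G) ^ d = ℓ²(G × Fin d)`. The first reduced
ℓ²-cohomology of `G` is the space of these tuples modulo the closure of the tuples coming from
coboundaries `c g = g • u - u`; we realise it as the orthogonal complement of the coboundaries in the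
space of cocycles. It is invariant under the right translations, and its von Neumann dimension is
the sum over `i` of the squared norms of the projections of the basis vectors `δ_(1,i)`, i.e. the
value of the canonical trace on its projection. For a finitely generated group `G` the first
L²-Betti number is the von Neumann dimension of the reduced cohomology `H¹(G; ℓ²(G))`
(Bekka–Valette 1997, Peterson–Thom 2011); the value does not depend on the generating tuple.
-/

noncomputable section

namespace Pool.Agent.Lib.MP_42532b_al

/-- the Hilbert space `ℓ²(G)` of square summable complex functions -/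
abbrev SqSum (G : Type*) : Type _ := lp (fun _ : G => ℂ) 2

/-- the Hilbert space `ℓ²(G) ^ d`, written as `ℓ²(G × Fin d)` -/
abbrev SqSumPow (G : Type*) (d : ℕ) : Type _ := lp (fun _ : G × Fin d => ℂ) 2

variable {G : Type*} [Group G] {d : ℕ}

/-- `c : G → ℓ²(G)` is a 1-cocycle for the left regular representation:
`c (g h) = c g + g • c h` -/
def IsCocycle (c : G → SqSum G) : Prop :=
  ∀ g h x, c (g * h) x = c g x + c h (g⁻¹ * x)

/-- the tuples `(c (s i))_i` of the 1-cocycles `c : G → ℓ²(G)` -/
def cocycleSpace (s : Fin d → G) : Submodule ℂ (SqSumPow G d) where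
  carrier := {v | ∃ c : G → SqSum G, IsCocycle c ∧ ∀ x i, v (x, i) = c (s i) x}
  zero_mem' := ⟨0, fun g h x => by simp, fun x i => by simp⟩
  add_mem' := by
    rintro u v ⟨c, hc, hu⟩ ⟨c', hc', hv⟩
    refine ⟨c + c', fun g h x => ?_, fun x i => ?_⟩
    · simp only [Pi.add_apply, lp.coeFn_add]
      rw [hc, hc']
      ring
    · simp only [Pi.add_apply, lp.coeFn_add]
      rw [hu, hv]
  smul_mem' := by
    rintro a u ⟨c, hc, hu⟩
    refine ⟨a • c, fun g h x => ?_, fun x i => ?_⟩
    · simp only [Pi.smul_apply, lp.coeFn_smul, smul_eq_mul]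
      rw [hc]
      ring
    · simp only [Pi.smul_apply, lp.coeFn_smul, smul_eq_mul]
      rw [hu]

/-- the tuples `(s i • u - u)_i` of the coboundaries, `u` in `ℓ²(G)` -/
def coboundarySpace (s : Fin d → G) : Submodule ℂ (SqSumPow G d) where
  carrier := {v | ∃ u : SqSum G, ∀ x i, v (x, i) = u ((s i)⁻¹ * x) - u x}
  zero_mem' := ⟨0, fun x i => by simp⟩
  add_mem' := by
    rintro v v' ⟨u, hu⟩ ⟨u', hu'⟩
    refine ⟨u + u', fun x i => ?_⟩
    simp only [Pi.add_apply, lp.coeFn_add]
    rw [hu, hu']
    ring
  smul_mem' := by
    rintro a v ⟨u, hu⟩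
    refine ⟨a • u, fun x i => ?_⟩
    simp only [Pi.smul_apply, lp.coeFn_smul, smul_eq_mul]
    rw [hu]
    ring

open Classical in
/-- von Neumann dimension of the closure of a translation invariant subspace of `ℓ²(G) ^ d`:
`∑ i, ⟨P δ_(1,i), δ_(1,i)⟩ = ∑ i, ‖P δ_(1,i)‖²`, `P` the orthogonal projection -/
def vnDim (W : Submodule ℂ (SqSumPow G d)) : ℝ :=
  ∑ i : Fin d, ‖W.topologicalClosure.starProjection (lp.single 2 ((1 : G), i) (1 : ℂ))‖ ^ 2

/-- the first L²-Betti number of a group `G` generated by the tuple `s`: the von Neumann dimension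
of the first reduced ℓ²-cohomology, realised as the orthogonal complement of the coboundaries in
the space of cocycles -/
def bettiOne (s : Fin d → G) : ℝ := vnDim (cocycleSpace s ⊓ (coboundarySpace s)ᗮ)

open Classical in
/-- amenability of a discrete group, in Følner's form: for every finite set `S` and every `ε > 0`
there is a nonempty finite set `F` such that for each `s` in `S` at most `ε |F|` elements `g` of `F`
have `g s` outside `F` -/
def IsAmenable (G : Type*) [Group G] : Prop :=
  ∀ S : Finset G, ∀ ε : ℝ, 0 < ε → ∃ F : Finset G, F.Nonempty ∧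
    ∀ s ∈ S, (({g ∈ F | g * s ∉ F} : Finset G).card : ℝ) ≤ ε * F.card

end Pool.Agent.Lib.MP_42532b_al
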