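import Pool.Agent.Lib.MP_42532b_al.L2.Basic

namespace L2B
variable {A : Type*} [Group A] {ℓ : A → ℕ}

/-! ### exact calculus of `dl` -/
theorem dl_self (e : A → ℤ) (g x : A) : dl e g x x = 0 := by simp [dl]
theorem dl_add (e : A → ℤ) (g x y z : A) : dl e g x y + dl e g y z = dl e g x z := by
  unfold dl; ring
theorem dl_symm (e : A → ℤ) (g x y : A) : dl e g y x = - dl e g x y := by unfold dl; ring
theorem dl_left (e : A → ℤ) (a g x y : A) : dl e (a * g) (a * x) (a * y) = dl e g x y := by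
  unfold dl; congr 2 <;> group

/-- `dl` only depends on the line -/
theorem PS.dl_coset {w : A} {κ : ℕ} {e : A → ℤ} (ps : PS ℓ w κ e) (g x y : A) (i : ℤ) :
    dl e (g * w ^ i) x y = dl e g x y := by
  have h : ∀ z, e ((g * w ^ i)⁻¹ * z) = e (g⁻¹ * z) - i := by
    intro z
    have := ps.shift (-i) (g⁻¹ * z)
    have e1 : w ^ (-i) * (g⁻¹ * z) = (g * w ^ i)⁻¹ * z := by group
    rw [e1] at this; omega
  unfold dl; rw [h, h]; ring

theorem PS.dl_on {w : A} {κ : ℕ} {e : A → ℤ} (ps : PS ℓ w κ e) (g : A) (i j : ℤ) :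
    dl e g (g * w ^ i) (g * w ^ j) = j - i := by
  have h : ∀ i : ℤ, e (g⁻¹ * (g * w ^ i)) = i := by
    intro i
    have := ps.shift i 1
    rw [ps.one] at this
    have e1 : g⁻¹ * (g * w ^ i) = w ^ i * 1 := by group
    rw [e1]; omega
  unfold dl; rw [h, h]

/-- rotation about the line `g⟨w⟩` shifts the coordinate -/
theorem PS.dl_rot {w : A} {κ : ℕ} {e : A → ℤ} (ps : PS ℓ w κ e) (g x y : A) (i : ℤ) :
    dl e g x (g * w ^ i * g⁻¹ * y) = dl e g x y + i := by
  have := ps.shift i (g⁻¹ * y)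
  have e1 : g⁻¹ * (g * w ^ i * g⁻¹ * y) = w ^ i * (g⁻¹ * y) := by group
  unfold dl; rw [e1]; omega

theorem PS.dl_lip {w : A} {κ : ℕ} {e : A → ℤ} (ps : PS ℓ w κ e) (g x z : A) :
    |dl e g x z| ≤ κ * (gd ℓ x z + 1) := by
  have := ps.lip (g⁻¹ * x) (g⁻¹ * z)
  rw [gd_left] at this
  exact this

theorem PS.dl_overlap {w : A} {κ : ℕ} {e : A → ℤ} (ps : PS ℓ w κ e) (g h : A)
    (hgh : ¬ SameL w g h) (i j : ℤ) : |dl e g (h * w ^ i) (h * w ^ j)| ≤ κ := by
  have := ps.overlap (g⁻¹ * h) (by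
    rintro ⟨k, hk⟩; exact hgh ⟨k, by rw [one_mul] at hk; rw [← hk]; group⟩) j i
  unfold dl
  have e1 : ∀ i : ℤ, g⁻¹ * (h * w ^ i) = g⁻¹ * h * w ^ i := by intro i; group
  rw [e1, e1]; exact this

theorem PS.dl_behr {w : A} {κ : ℕ} {e : A → ℤ} (ps : PS ℓ w κ e) (g h x : A)
    (hgh : ¬ SameL w g h) :
    (∀ i : ℤ, |dl e g x (h * w ^ i)| ≤ κ) ∨ (∀ i : ℤ, |dl e h x (g * w ^ i)| ≤ κ) := by
  have := ps.behr (g⁻¹ * h) (g⁻¹ * x) (by
    rintro ⟨k, hk⟩; exact hgh ⟨k, by rw [one_mul] at hk; rw [← hk]; group⟩)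
  rcases this with H | H
  · left; intro i
    have := H i
    unfold dl
    have e1 : g⁻¹ * (h * w ^ i) = g⁻¹ * h * w ^ i := by group
    rw [e1]; exact this
  · right; intro i
    have := H i
    unfold dl
    have e1 : h⁻¹ * (g * w ^ i) = (g⁻¹ * h)⁻¹ * w ^ i := by group
    have e2 : h⁻¹ * x = (g⁻¹ * h)⁻¹ * (g⁻¹ * x) := by group
    rw [e1, e2]; exact this

theorem SameL.symm {w g h : A} (H : SameL w g h) : SameL w h g := by
  obtain ⟨i, rfl⟩ := H; exact ⟨-i, by group⟩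

private theorem chain_ne {w : A} {e : A → ℤ} {Λ : ℤ} {m : ℕ} {S : ℕ → Set A} {V : ℕ → A}
    (C : Chain w e Λ m S V) {x y : A} (hx : S 0 = {x}) (hy : S (m+1) = {y}) {i : ℕ}
    (hi : i ≤ m + 1) : ∃ u, u ∈ S i := by
  rcases Nat.eq_zero_or_pos i with rfl | h0
  · exact ⟨x, by rw [hx]; rfl⟩
  rcases Nat.lt_or_ge m i with h1 | h1
  · have : i = m + 1 := by omega
    subst this
    exact ⟨y, by rw [hy]; rfl⟩
  · exact ⟨V i, by rw [C.line i h0 h1]; exact ⟨0, by simp⟩⟩

/-- (6.1) Lemma A -/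
theorem chainA (h : GNorm ℓ) {w : A} {κ : ℕ} {e : A → ℤ} (ps : PS ℓ w κ e) {Λ : ℤ}
    (hΛ : 3 * κ < Λ) {m : ℕ} {S : ℕ → Set A} {V : ℕ → A} (C : Chain w e Λ m S V) (x y : A)
    (hx : S 0 = {x}) (hy : S (m+1) = {y}) :
    ∀ i, 1 ≤ i → i ≤ m → (∀ u ∈ S (i-1), |dl e (V i) x u| ≤ κ) ∧
      (∀ v ∈ S (i+1), |dl e (V i) v y| ≤ κ) ∧ Λ ≤ |dl e (V i) x y| + 2 * κ := by
  have ne := fun {i : ℕ} (hi : i ≤ m + 1) => chain_ne C hx hy hi
  have hκ : (0 : ℤ) ≤ κ := by positivity
  -- first claim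
  have h1 : ∀ i, i + 1 ≤ m → ∀ u ∈ S i, |dl e (V (i+1)) x u| ≤ κ := by
    intro i
    induction i with
    | zero =>
      intro _ u hu
      rw [hx] at hu
      rw [Set.mem_singleton_iff.1 hu, dl_self]
      simpa using hκ
    | succ i ih =>
      intro him u hu
      have ih' := ih (by omega)
      rw [C.line (i+1) (by omega) (by omega)] at hu
      rcases ps.dl_behr (V (i+1)) (V (i+1+1)) x (C.diff (i+1) (by omega) him) with H | H
      · exfalso
        obtain ⟨u', hu'⟩ := ne (i := i) (by omega)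
        have hv : V (i+1+1) * w ^ (0:ℤ) ∈ S (i+2) := by
          rw [C.line (i+2) (by omega) (by omega)]
          exact ⟨0, rfl⟩
        have f1 := C.far i (by omega) u' hu' _ hv
        have f2 := ih' u' hu'
        have f3 := H 0
        have f4 := dl_add e (V (i+1)) x u' (V (i+1+1) * w ^ (0:ℤ))
        rw [abs_le] at f2 f3
        rw [le_abs] at f1
        omega
      · obtain ⟨j, rfl⟩ := hu
        exact H j
  -- second claim
  have h2 : ∀ k i, 1 ≤ i → i + k = m → ∀ v ∈ S (i+1), |dl e (V i) v y| ≤ κ := by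
    intro k
    induction k with
    | zero =>
      intro i _ him v hv
      have : i = m := by omega
      subst this
      rw [hy] at hv
      rw [Set.mem_singleton_iff.1 hv, dl_self]
      simpa using hκ
    | succ k ih =>
      intro i hi him v hv
      have ih' := ih (i+1) (by omega) (by omega)
      rw [C.line (i+1) (by omega) (by omega)] at hv
      rcases ps.dl_behr (V i) (V (i+1)) y (C.diff i hi (by omega)) with H | H
      · obtain ⟨j, rfl⟩ := hv
        have := H j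
        rw [dl_symm, abs_neg] at this
        exact this
      · exfalso
        obtain ⟨v', hv'⟩ := ne (i := i+2) (by omega)
        have hu : V i * w ^ (0:ℤ) ∈ S i := by
          rw [C.line i hi (by omega)]
          exact ⟨0, rfl⟩
        have f1 := C.far i (by omega) _ hu v' hv'
        have f2 := ih' v' hv'
        have f3 := H 0
        have f4 := dl_add e (V (i+1)) (V i * w ^ (0:ℤ)) v' y
        have f5 := dl_symm e (V (i+1)) y (V i * w ^ (0:ℤ))
        rw [abs_le] at f2 f3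
        rw [le_abs] at f1
        omega
  intro i hi him
  have c1 : ∀ u ∈ S (i-1), |dl e (V i) x u| ≤ κ := by
    intro u hu
    have := h1 (i-1) (by omega) u hu
    rwa [show i - 1 + 1 = i by omega] at this
  have c2 : ∀ v ∈ S (i+1), |dl e (V i) v y| ≤ κ := h2 (m - i) i hi (by omega)
  refine ⟨c1, c2, ?_⟩
  obtain ⟨u, hu⟩ := ne (i := i-1) (by omega)
  obtain ⟨v, hv⟩ := ne (i := i+1) (by omega)
  have f1 := C.far (i-1) (by omega) u hu v (by rwa [show i - 1 + 2 = i + 1 by omega])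
  rw [show i - 1 + 1 = i by omega] at f1
  have f2 := c1 u hu
  have f3 := c2 v hv
  have f4 := dl_add e (V i) x u v
  have f5 := dl_add e (V i) x v y
  rw [abs_le] at f2 f3
  rw [le_abs] at f1
  rcases f1 with f1 | f1
  · have : dl e (V i) x y ≤ |dl e (V i) x y| := le_abs_self _
    omega
  · have : -dl e (V i) x y ≤ |dl e (V i) x y| := neg_le_abs _
    omega

/-- (6.2) Lemma B -/
theorem chainB (h : GNorm ℓ) {w : A} {κ : ℕ} {e : A → ℤ} (ps : PS ℓ w κ e) {Λ : ℤ}
    (hΛ : 4 * κ < Λ) {m : ℕ} {S : ℕ → Set A} {V : ℕ → A} (C : Chain w e Λ m S V) (x y : A)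
    (hx : S 0 = {x}) (hy : S (m+1) = {y}) (Z : A) (hZ : ∀ i, 1 ≤ i → i ≤ m → ¬ SameL w (V i) Z)
    (b : ℤ) (hb : ∀ i ≤ m, ∀ u ∈ S i, ∀ v ∈ S (i+1), |dl e Z u v| ≤ b) :
    |dl e Z x y| ≤ b + 2 * κ := by
  have hκ : (0 : ℤ) ≤ κ := by positivity
  have hA := chainA h ps (by omega) C x y hx hy
  have key : ∀ i, 1 ≤ i → i ≤ m →
      (∀ u ∈ S i, |dl e Z x u| ≤ κ) ∨ (∀ u ∈ S i, |dl e Z u y| ≤ κ) := by
    intro i hi him
    rw [C.line i hi him]
    rcases ps.dl_behr (V i) Z x (hZ i hi him) with H | H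
    · rcases ps.dl_behr (V i) Z y (hZ i hi him) with H' | H'
      · exfalso
        have f1 := H 0
        have f2 := H' 0
        have f3 := (hA i hi him).2.2
        have f4 := dl_add e (V i) x y (Z * w ^ (0:ℤ))
        have f5 : |dl e (V i) x y| ≤ 2 * κ := by
          rw [abs_le] at f1 f2 ⊢
          omega
        omega
      · right
        rintro u ⟨j, rfl⟩
        have := H' j
        rw [dl_symm, abs_neg] at this
        exact this
    · left
      rintro u ⟨j, rfl⟩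
      exact H j
  have ex : ∃ i, i ≤ m ∧ (∀ u ∈ S i, |dl e Z x u| ≤ κ) ∧ (∀ u ∈ S (i+1), |dl e Z u y| ≤ κ) := by
    by_contra hcon
    push Not at hcon
    have hP : ∀ i, i ≤ m → ∀ u ∈ S i, |dl e Z x u| ≤ κ := by
      intro i
      induction i with
      | zero =>
        intro _ u hu
        rw [hx] at hu
        rw [Set.mem_singleton_iff.1 hu, dl_self]
        simpa using hκ
      | succ i ih =>
        intro him
        obtain ⟨u0, hu0, hlt⟩ := hcon i (by omega) (ih (by omega))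
        rcases key (i+1) (by omega) him with H | H
        · exact H
        · have := H u0 hu0
          omega
    obtain ⟨u0, hu0, hlt⟩ := hcon m le_rfl (hP m le_rfl)
    rw [hy] at hu0
    rw [Set.mem_singleton_iff.1 hu0, dl_self] at hlt
    simp at hlt
    omega
  obtain ⟨i, him, hP, hQ⟩ := ex
  obtain ⟨u, hu⟩ := chain_ne C hx hy (i := i) (by omega)
  obtain ⟨v, hv⟩ := chain_ne C hx hy (i := i+1) (by omega)
  have f1 := hP u hu
  have f2 := hQ v hv
  have f3 := hb i him u hu v hv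
  have f4 := dl_add e Z x u v
  have f5 := dl_add e Z x v y
  rw [abs_le] at f1 f2 f3 ⊢
  omega

end L2B
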