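import Pool.Agent.Lib.MP_42532b_al.L2.Grad
import Pool.Agent.Lib.MP_42532b_al.Axis1

section

namespace L2B
variable {A : Type*} [Group A] {ℓ : A → ℕ}

private theorem rf_abs (h : GNorm ℓ) (g : A) (m : ℤ) : ℓ (g ^ m) = ℓ (g ^ m.natAbs) := by
  rcases Int.natAbs_eq m with e | e
  · have h2 : g ^ m = g ^ m.natAbs := by conv_lhs => rw [e, zpow_natCast]
    rw [h2]
  · have h2 : g ^ m = (g ^ m.natAbs)⁻¹ := by conv_lhs => rw [e, zpow_neg, zpow_natCast]
    rw [h2, h.inv]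

/-- (5.1) -/
theorem inE_near (h : GNorm ℓ) {δ : ℕ} (hyp : Hyp ℓ δ) {g : A} (hg : Lox ℓ g) :
    ∃ C : ℕ, ∀ u : A, InE g u → ∃ i : ℤ, ℓ (g ^ i * u) ≤ C := by
  obtain ⟨c, hc⟩ := lox_ax h hyp hg
  obtain ⟨c0, hc0p, hc0⟩ := hg
  refine ⟨c + 10 * δ + Q0 ℓ g c δ, fun u hu => ?_⟩
  obtain ⟨m, m', hm, hm', hmm⟩ := hu
  -- commutation
  have hcomm : ∀ N : ℤ, u * g ^ (m * N) = g ^ (m' * N) * u := by
    intro N
    have h1 : (u * g ^ m * u⁻¹) ^ N = (g ^ m') ^ N := by rw [hmm]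
    rw [conj_zpow, ← zpow_mul, ← zpow_mul] at h1
    rw [← h1]; group
  -- choose N
  obtain ⟨N, hN⟩ : ∃ N : ℕ, c0 * (c + 10 * δ + ℓ u) < N := ⟨_, Nat.lt_succ_self _⟩
  set n : ℤ := m * (N : ℤ) with hn
  set n' : ℤ := m' * (N : ℤ) with hn'
  have hD : c + 10 * δ + ℓ u < ℓ (g ^ n) := by
    by_contra hcon
    push Not at hcon
    have h1 := hc0 n.natAbs
    rw [← rf_abs h] at h1
    have h2 : c0 * ℓ (g ^ n) ≤ c0 * (c + 10 * δ + ℓ u) := Nat.mul_le_mul_left _ hcon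
    have h3 : N ≤ n.natAbs := by
      rw [hn, Int.natAbs_mul, Int.natAbs_natCast]
      exact Nat.le_mul_of_pos_left _ (Int.natAbs_pos.2 hm)
    omega
  -- the points
  have hneg : ℓ (g ^ (-n)) = ℓ (g ^ n) := by rw [zpow_neg, h.inv]
  have dP : gd ℓ (g ^ n') (u * g ^ n) = ℓ u := by
    unfold gd
    rw [hn, hcomm, inv_mul_cancel_left]
  have dM : gd ℓ (g ^ (-n')) (u * g ^ (-n)) = ℓ u := by
    unfold gd
    have e1 : -n = m * (-(N : ℤ)) := by rw [hn]; ring
    have e2 : -n' = m' * (-(N : ℤ)) := by rw [hn']; ring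
    rw [e1, e2, hcomm, inv_mul_cancel_left]
  have dR : gd ℓ u (u * g ^ n) = ℓ (g ^ n) := by
    unfold gd; rw [inv_mul_cancel_left]
  have dRm : gd ℓ u (u * g ^ (-n)) = ℓ (g ^ n) := by
    unfold gd; rw [inv_mul_cancel_left, hneg]
  have dRR : gd ℓ (u * g ^ (-n)) (u * g ^ n) = ℓ (g ^ (2 * n)) := by
    unfold gd
    congr 1
    rw [mul_inv_rev, mul_assoc, inv_mul_cancel_left, ← zpow_neg, ← zpow_add]
    congr 1; ring
  have hax : ℓ (g ^ n) + ℓ (g ^ n) ≤ ℓ (g ^ (2 * n)) + c := by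
    rw [rf_abs h g n, rf_abs h g (2 * n)]
    have e : (2 * n).natAbs = n.natAbs + n.natAbs := by omega
    rw [e]
    exact hc _ _
  have c1 := h.gd_comm (u * g ^ (-n)) u
  have hz : gd ℓ (u * g ^ (-n)) u + gd ℓ u (u * g ^ n) ≤
      gd ℓ (u * g ^ (-n)) (u * g ^ n) + c := by
    rw [c1, dRm, dR, dRR]; exact hax
  obtain ⟨z0, hz0, hz0'⟩ := nearBtw h hyp hz
  obtain ⟨z1, hz1, hz1'⟩ := thinTri h hyp hz0 (g ^ (-n'))
  have t1 := h.gd_tri u z0 z1
  rcases hz1 with hz1 | hz1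
  · exfalso
    have t2 := h.gd_tri u z1 (u * g ^ (-n))
    unfold Btw at hz1
    have c2 := h.gd_comm z1 (u * g ^ (-n))
    have c3 := h.gd_comm (u * g ^ (-n)) (g ^ (-n'))
    omega
  · obtain ⟨z2, hz2, hz2'⟩ := thinTri h hyp hz1 (g ^ n')
    have t3 := h.gd_tri u z1 z2
    rcases hz2 with hz2 | hz2
    · obtain ⟨k, hk⟩ := axis_qc h hyp hc (-n') n' z2 hz2
      refine ⟨-k, ?_⟩
      have t4 := h.gd_tri u z2 (g ^ k)
      have c4 := h.gd_comm u (g ^ k)
      have e : ℓ (g ^ (-k) * u) = gd ℓ (g ^ k) u := by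
        unfold gd; rw [zpow_neg]
      rw [e]
      omega
    · exfalso
      have t2 := h.gd_tri u z2 (u * g ^ n)
      unfold Btw at hz2
      omega

end L2B
end

section

namespace L2B
variable {A : Type*} [Group A] {ℓ : A → ℕ}

/-- torsion elements have odd order and finite centralizers -/
def TorsGood (A : Type*) [Group A] : Prop :=
  ∀ t : A, t ≠ 1 → (∃ m : ℕ, 0 < m ∧ t ^ m = 1) → t ^ 2 ≠ 1 ∧ {b : A | b * t = t * b}.Finite

theorem InfOrd.zpow_ne {g : A} (hg : InfOrd g) {m : ℤ} (hm : m ≠ 0) : g ^ m ≠ 1 := by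
  intro h
  rcases Int.natAbs_eq m with h1 | h1
  · apply hg m.natAbs (Int.natAbs_pos.mpr hm)
    rw [h1, zpow_natCast] at h
    exact h
  · apply hg m.natAbs (Int.natAbs_pos.mpr hm)
    rw [h1, zpow_neg, zpow_natCast, inv_eq_one] at h
    exact h

theorem InfOrd.zpow_inj {g : A} (hg : InfOrd g) {m n : ℤ} (h : g ^ m = g ^ n) : m = n := by
  by_contra hne
  apply hg.zpow_ne (sub_ne_zero.mpr hne)
  rw [zpow_sub, h, mul_inv_cancel]

/-- conjugation acts on powers -/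
theorem conj_zpow_pow {u g : A} {m m' : ℤ} (h : u * g ^ m * u⁻¹ = g ^ m') (k : ℤ) :
    u * g ^ (m * k) * u⁻¹ = g ^ (m' * k) := by
  rw [zpow_mul, zpow_mul, ← conj_zpow, h]

/-- the set `E⁺(g)` -/
def EP (g : A) : Subgroup A where
  carrier := {u | ∃ m : ℕ, 0 < m ∧ Commute u (g ^ m)}
  one_mem' := ⟨1, one_pos, Commute.one_left _⟩
  mul_mem' := by
    rintro a b ⟨m, hm, ha⟩ ⟨n, hn, hb⟩
    refine ⟨m * n, Nat.mul_pos hm hn, ?_⟩
    apply Commute.mul_left
    · rw [pow_mul]; exact ha.pow_right n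
    · rw [mul_comm, pow_mul]; exact hb.pow_right m
  inv_mem' := by
    rintro a ⟨m, hm, ha⟩
    exact ⟨m, hm, ha.inv_left⟩

theorem mem_EP {g u : A} : u ∈ EP g ↔ ∃ m : ℕ, 0 < m ∧ Commute u (g ^ m) := Iff.rfl

theorem self_mem_EP (g : A) : g ∈ EP g := ⟨1, one_pos, by rw [pow_one]⟩

theorem EP_InE {g u : A} (hu : u ∈ EP g) : InE g u := by
  obtain ⟨m, hm, h⟩ := hu
  refine ⟨m, m, by omega, by omega, ?_⟩
  rw [zpow_natCast, h.eq, mul_assoc, mul_inv_cancel, mul_one]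

/-- `InE g u` and `g ^ i` -/
theorem InE_pow {g u : A} (hu : InE g u) (n : ℕ) : InE g (u ^ n) := by
  obtain ⟨m, m', hm, hm', h⟩ := hu
  refine ⟨m ^ n, m' ^ n, pow_ne_zero _ hm, pow_ne_zero _ hm', ?_⟩
  induction n with
  | zero => simp
  | succ n ih =>
    have h1 : u ^ n * g ^ (m ^ n * m) * (u ^ n)⁻¹ = g ^ (m' ^ n * m) := conj_zpow_pow ih m
    have h2 : u * g ^ (m * m' ^ n) * u⁻¹ = g ^ (m' * m' ^ n) := conj_zpow_pow h (m' ^ n)
    rw [pow_succ', pow_succ, mul_inv_rev]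
    calc u * u ^ n * g ^ (m ^ n * m) * ((u ^ n)⁻¹ * u⁻¹)
        = u * (u ^ n * g ^ (m ^ n * m) * (u ^ n)⁻¹) * u⁻¹ := by group
      _ = u * g ^ (m * m' ^ n) * u⁻¹ := by rw [h1, mul_comm]
      _ = g ^ (m' ^ (n + 1)) := by rw [h2, pow_succ']

theorem conj_pow_iter {g u : A} {m m' : ℤ} (h : u * g ^ m * u⁻¹ = g ^ m') (n : ℕ) :
    u ^ n * g ^ (m ^ n) * (u ^ n)⁻¹ = g ^ (m' ^ n) := by
  induction n with
  | zero => simp
  | succ n ih =>
    have h1 : u ^ n * g ^ (m ^ n * m) * (u ^ n)⁻¹ = g ^ (m' ^ n * m) := conj_zpow_pow ih m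
    have h2 : u * g ^ (m * m' ^ n) * u⁻¹ = g ^ (m' * m' ^ n) := conj_zpow_pow h (m' ^ n)
    rw [pow_succ', pow_succ, mul_inv_rev]
    calc u * u ^ n * g ^ (m ^ n * m) * ((u ^ n)⁻¹ * u⁻¹)
        = u * (u ^ n * g ^ (m ^ n * m) * (u ^ n)⁻¹) * u⁻¹ := by group
      _ = u * g ^ (m * m' ^ n) * u⁻¹ := by rw [h1, mul_comm]
      _ = g ^ (m' ^ (n + 1)) := by rw [h2, pow_succ']

/-- pigeonhole: some positive power of `u ∈ E(g)` is a power of `g` -/
theorem exists_pow_mem {g : A} {C : ℕ} (hfin : {x : A | ℓ x ≤ C}.Finite)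
    (hC : ∀ u : A, InE g u → ∃ i : ℤ, ℓ (g ^ i * u) ≤ C) {u : A} (hu : InE g u) :
    ∃ n : ℕ, 0 < n ∧ ∃ k : ℤ, u ^ n = g ^ k := by
  choose i hi using fun n : ℕ => hC (u ^ n) (InE_pow hu n)
  have hmaps : Set.MapsTo (fun n : ℕ => g ^ (i n) * u ^ n) Set.univ {x : A | ℓ x ≤ C} :=
    fun n _ => hi n
  obtain ⟨a, -, b, -, hab, heq⟩ :=
    Set.infinite_univ.exists_ne_map_eq_of_mapsTo hmaps hfin
  have key : ∀ a b : ℕ, a < b → g ^ (i a) * u ^ a = g ^ (i b) * u ^ b →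
      ∃ n : ℕ, 0 < n ∧ ∃ k : ℤ, u ^ n = g ^ k := by
    intro a b hlt he
    refine ⟨b - a, by omega, i a - i b, ?_⟩
    have hb : u ^ b = u ^ (b - a) * u ^ a := by rw [← pow_add]; congr 1; omega
    rw [hb, ← mul_assoc] at he
    have h2 := mul_right_cancel he
    rw [sub_eq_neg_add, zpow_add, h2, zpow_neg, inv_mul_cancel_left]
  rcases lt_or_gt_of_ne hab with hlt | hlt
  · exact key a b hlt heq
  · exact key b a hlt heq.symm

/-- exponents have the same absolute value -/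
theorem abs_eq_of_conj {g : A} (hg : InfOrd g) {C : ℕ} (hfin : {x : A | ℓ x ≤ C}.Finite)
    (hC : ∀ u : A, InE g u → ∃ i : ℤ, ℓ (g ^ i * u) ≤ C) {u : A} {m m' : ℤ} (hm : m ≠ 0)
    (hm' : m' ≠ 0) (h : u * g ^ m * u⁻¹ = g ^ m') : m' = m ∨ m' = -m := by
  obtain ⟨n, hn, k, hk⟩ := exists_pow_mem hfin hC (u := u) ⟨m, m', hm, hm', h⟩
  have h1 := conj_pow_iter h n
  rw [hk] at h1
  have h2 : g ^ k * g ^ (m ^ n) * (g ^ k)⁻¹ = g ^ (m ^ n) := by
    rw [← zpow_add, ← zpow_neg, ← zpow_add]; congr 1; ring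
  rw [h2] at h1
  have h3 : m ^ n = m' ^ n := hg.zpow_inj h1
  have h4 : |m'| ^ n = |m| ^ n := by rw [← abs_pow, ← abs_pow, h3]
  have h5 : |m'| = |m| := by
    exact (pow_left_inj₀ (abs_nonneg _) (abs_nonneg _) (by omega)).mp h4
  exact abs_eq_abs.mp h5

/-- `E⁺` is torsion free -/
theorem EP_torsion_free (hT : TorsGood A) {g : A} (hg : InfOrd g) {t : A} (ht : t ∈ EP g)
    {k : ℕ} (hk : 0 < k) (htk : t ^ k = 1) : t = 1 := by
  by_contra hne
  obtain ⟨m, hm, hc⟩ := ht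
  have hfin := (hT t hne ⟨k, hk, htk⟩).2
  have hinj : Function.Injective (fun n : ℕ => (g ^ m) ^ n) := by
    intro a b hab
    simp only [← pow_mul] at hab
    have : ((m * a : ℕ) : ℤ) = ((m * b : ℕ) : ℤ) := by
      apply hg.zpow_inj
      rw [zpow_natCast, zpow_natCast, hab]
    have h2 : m * a = m * b := by exact_mod_cast this
    exact Nat.eq_of_mul_eq_mul_left hm h2
  have hinf : (Set.range (fun n : ℕ => (g ^ m) ^ n)).Infinite := Set.infinite_range_of_injective hinj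
  apply hinf
  apply hfin.subset
  rintro _ ⟨n, rfl⟩
  exact ((hc.pow_right n).eq).symm

/-- a uniform exponent -/
theorem EP_uniform {g : A} {C : ℕ} (hfin : {x : A | ℓ x ≤ C}.Finite)
    (hC : ∀ u : A, InE g u → ∃ i : ℤ, ℓ (g ^ i * u) ≤ C) :
    ∃ M : ℕ, 0 < M ∧ ∀ u ∈ EP g, Commute u (g ^ M) := by
  classical
  have hex : ∀ x : A, ∃ m : ℕ, 0 < m ∧ (x ∈ EP g → Commute x (g ^ m)) := by
    intro x
    by_cases hx : x ∈ EP g
    · obtain ⟨m, hm, h⟩ := hx
      exact ⟨m, hm, fun _ => h⟩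
    · exact ⟨1, one_pos, fun h => absurd h hx⟩
  choose m hm hcm using hex
  refine ⟨∏ x ∈ hfin.toFinset, m x, Finset.prod_pos fun x _ => hm x, ?_⟩
  intro u hu
  obtain ⟨i, hi⟩ := hC u (EP_InE hu)
  have hx : g ^ i * u ∈ EP g := (EP g).mul_mem ((EP g).zpow_mem (self_mem_EP g) i) hu
  have hc1 := hcm _ hx
  have hmem : g ^ i * u ∈ hfin.toFinset := by
    rw [Set.Finite.mem_toFinset]; exact hi
  have hdvd : m (g ^ i * u) ∣ ∏ x ∈ hfin.toFinset, m x := Finset.dvd_prod_of_mem m hmem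
  obtain ⟨q, hq⟩ := hdvd
  rw [hq, pow_mul]
  have hc2 : Commute (g ^ i * u) ((g ^ m (g ^ i * u)) ^ q) := hc1.pow_right q
  have hc3 : Commute (g ^ (-i)) ((g ^ m (g ^ i * u)) ^ q) := by
    rw [← pow_mul]
    exact (Commute.refl g).zpow_left _ |>.pow_right _
  have : u = g ^ (-i) * (g ^ i * u) := by
    rw [zpow_neg, inv_mul_cancel_left]
  rw [this]
  have h4 := hc3.mul_left hc2
  have h5 : g ^ i * (g ^ (-i) * (g ^ i * u)) = g ^ i * u := by
    rw [zpow_neg, inv_mul_cancel_left]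
  rw [h5]
  exact h4

/-- `E⁺` is cyclic -/
theorem EP_cyclic (h : GNorm ℓ) (hT : TorsGood A) {g : A} (hg : InfOrd g) {C : ℕ}
    (hC : ∀ u : A, InE g u → ∃ i : ℤ, ℓ (g ^ i * u) ≤ C) : IsCyclic (EP g) := by
  classical
  obtain ⟨M, hM, hcM⟩ := EP_uniform (h.fin C) hC
  let γ : EP g := ⟨g ^ M, (EP g).pow_mem (self_mem_EP g) M⟩
  let K : Subgroup (EP g) := Subgroup.zpowers γ
  have hcentral : ∀ x : EP g, ∀ y ∈ K, Commute x y := by
    rintro x y ⟨k, rfl⟩
    apply Commute.zpow_right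
    apply Subtype.ext
    exact (hcM x.1 x.2).eq
  -- finite index
  have hfinq : Finite (EP g ⧸ K) := by
    let C' : ℕ := M * ℓ g + C
    have hF : {x : A | ℓ x ≤ C'}.Finite := h.fin C'
    have _ : Finite {x : A | ℓ x ≤ C'} := hF
    let f : {x : A | ℓ x ≤ C'} → EP g ⧸ K := fun x =>
      if hx : x.1 ∈ EP g then QuotientGroup.mk (⟨x.1, hx⟩⁻¹ : EP g) else QuotientGroup.mk 1
    apply Finite.of_surjective f
    intro q
    induction q using QuotientGroup.induction_on with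
    | H u =>
      have hu : u.1⁻¹ ∈ EP g := (EP g).inv_mem u.2
      obtain ⟨i, hi⟩ := hC u.1⁻¹ (EP_InE hu)
      have hpow : ∀ r : ℕ, ℓ (g ^ r) ≤ r * ℓ g := by
        intro r
        induction r with
        | zero => simp [h.one]
        | succ r ih =>
          calc ℓ (g ^ (r + 1)) ≤ ℓ (g ^ r) + ℓ g := by rw [pow_succ]; exact h.mul _ _
            _ ≤ r * ℓ g + ℓ g := by omega
            _ = (r + 1) * ℓ g := by ring
      have hMz : (M : ℤ) ≠ 0 := by exact_mod_cast hM.ne'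
      have hr0 : 0 ≤ i % M := Int.emod_nonneg _ hMz
      have hrM : i % M < M := Int.emod_lt_of_pos _ (by exact_mod_cast hM)
      obtain ⟨r, hr⟩ : ∃ r : ℕ, (r : ℤ) = i % M := ⟨(i % M).toNat, Int.toNat_of_nonneg hr0⟩
      have hrM' : r ≤ M := by
        have : (r : ℤ) < M := by rw [hr]; exact hrM
        have h2 : r < M := by exact_mod_cast this
        omega
      have hdiv : i = M * (i / M) + r := by
        rw [hr]; exact (Int.mul_ediv_add_emod i M).symm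
      set q : ℤ := i / M with hq
      have hxe : (g ^ M) ^ q * u.1⁻¹ = (g ^ r)⁻¹ * (g ^ i * u.1⁻¹) := by
        rw [← mul_assoc]
        congr 1
        rw [← zpow_natCast g M, ← zpow_natCast g r, ← zpow_mul, ← zpow_neg, ← zpow_add, hdiv]
        congr 1
        ring
      have hx : ℓ ((g ^ M) ^ q * u.1⁻¹) ≤ C' := by
        rw [hxe]
        calc ℓ ((g ^ r)⁻¹ * (g ^ i * u.1⁻¹)) ≤ ℓ (g ^ r)⁻¹ + ℓ (g ^ i * u.1⁻¹) := h.mul _ _
          _ = ℓ (g ^ r) + ℓ (g ^ i * u.1⁻¹) := by rw [h.inv]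
          _ ≤ r * ℓ g + C := Nat.add_le_add (hpow r) hi
          _ ≤ M * ℓ g + C := by
            have := Nat.mul_le_mul_right (ℓ g) hrM'
            omega
      refine ⟨⟨(g ^ M) ^ q * u.1⁻¹, hx⟩, ?_⟩
      have hmem : (g ^ M) ^ q * u.1⁻¹ ∈ EP g :=
        (EP g).mul_mem ((EP g).zpow_mem ((EP g).pow_mem (self_mem_EP g) M) q) hu
      have hfe : f ⟨(g ^ M) ^ q * u.1⁻¹, hx⟩ =
          QuotientGroup.mk (⟨(g ^ M) ^ q * u.1⁻¹, hmem⟩⁻¹ : EP g) := by
        simp only [f]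
        rw [dif_pos hmem]
      rw [hfe]
      rw [QuotientGroup.eq]
      refine ⟨q, ?_⟩
      apply Subtype.ext
      simp [γ]
  have _ : K.FiniteIndex := Subgroup.finiteIndex_of_finite_quotient
  have key : ∀ (x : EP g) (k : ℕ) (g₀ : EP g), g₀⁻¹ * x ^ k * g₀ ∈ K →
      g₀⁻¹ * x ^ k * g₀ = x ^ k := by
    intro x k g₀ hk
    have h1 := hcentral g₀ _ hk
    have h2 : g₀ * (g₀⁻¹ * x ^ k * g₀) = (g₀⁻¹ * x ^ k * g₀) * g₀ := h1.eq
    have h3 : g₀ * (g₀⁻¹ * x ^ k * g₀) = x ^ k * g₀ := by group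
    rw [h3] at h2
    exact (mul_right_cancel h2).symm
  let _ : CommGroup K :=
    { (inferInstance : Group K) with
      mul_comm := fun a b => Subtype.ext (hcentral a.1 b.1 b.2).eq }
  let φ : EP g →* K := MonoidHom.transfer (MonoidHom.id K)
  have hφ : ∀ x : EP g, ((φ x : K) : EP g) = x ^ K.index := by
    intro x
    have := MonoidHom.transfer_eq_pow (MonoidHom.id K) x (key x)
    simp only [φ]
    rw [this]
    rfl
  have hidx : 0 < K.index := Nat.pos_of_ne_zero Subgroup.FiniteIndex.index_ne_zero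
  have hinj : Function.Injective φ := by
    rw [injective_iff_map_eq_one]
    intro x hx
    have h1 := hφ x
    rw [hx] at h1
    have h2 : x.1 ^ K.index = 1 := by
      have := congrArg Subtype.val h1
      simpa using this.symm
    exact Subtype.ext (EP_torsion_free hT hg x.2 hidx h2)
  exact isCyclic_of_injective φ hinj

/-- (5.2) -/
theorem exists_root (h : GNorm ℓ) {δ : ℕ} (hyp : Hyp ℓ δ) (hT : TorsGood A) {g : A}
    (hg : InfOrd g) : ∃ w : A, IsRoot w ∧ ∃ i : ℤ, g = w ^ i := by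
  obtain ⟨C, hC⟩ := inE_near h hyp (lox_of_infOrd h hyp hg)
  have hfin := h.fin C
  obtain ⟨c0, hc0⟩ := (EP_cyclic h hT hg hC).exists_generator
  obtain ⟨c, hc⟩ := c0
  have hgen : ∀ u ∈ EP g, ∃ k : ℤ, u = c ^ k := by
    intro u hu
    obtain ⟨k, hk⟩ := hc0 ⟨u, hu⟩
    refine ⟨k, ?_⟩
    have := congrArg Subtype.val hk
    simpa using this.symm
  obtain ⟨i, hi⟩ := hgen g (self_mem_EP g)
  have hcinf : InfOrd c := by
    intro m hm hcm
    apply hg m hm
    rw [hi, ← zpow_natCast, ← zpow_mul, mul_comm, zpow_mul, zpow_natCast, hcm, one_zpow]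
  have hi0 : i ≠ 0 := by
    rintro rfl
    apply hg 1 one_pos
    rw [hi]; simp
  -- `E = E⁺`
  have hE : ∀ t : A, InE g t → t ∈ EP g := by
    rintro t ⟨m, m', hm, hm', ht⟩
    rcases abs_eq_of_conj hg hfin hC hm hm' ht with rfl | rfl
    · -- commutes
      have hcomm : Commute t (g ^ m') := by
        have := congrArg (· * t) ht
        show t * g ^ m' = g ^ m' * t
        simpa [mul_assoc] using this
      refine ⟨m'.natAbs, Int.natAbs_pos.mpr hm, ?_⟩
      rcases Int.natAbs_eq m' with h1 | h1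
      · rw [h1, zpow_natCast] at hcomm
        simpa using hcomm
      · rw [h1, zpow_neg, zpow_natCast] at hcomm
        have := hcomm.inv_right
        simpa using this
    · exfalso
      -- t c t⁻¹ = c⁻¹
      have hcg : Commute c (g ^ m) := by
        rw [hi]
        exact ((Commute.refl c).zpow_right i).zpow_right m
      have htc : t * c * t⁻¹ ∈ EP g := by
        have hcomm : Commute (t * c * t⁻¹) (g ^ (-m)) := by
          rw [← ht]
          have : t * c * t⁻¹ * (t * g ^ m * t⁻¹) = t * (c * g ^ m) * t⁻¹ := by group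
          show t * c * t⁻¹ * (t * g ^ m * t⁻¹) = (t * g ^ m * t⁻¹) * (t * c * t⁻¹)
          rw [this, hcg.eq]
          group
        refine ⟨m.natAbs, Int.natAbs_pos.mpr hm, ?_⟩
        rcases Int.natAbs_eq m with h1 | h1
        · rw [h1, zpow_neg, zpow_natCast] at hcomm
          have := hcomm.inv_right
          simpa using this
        · rw [h1, neg_neg, zpow_natCast] at hcomm
          simpa using hcomm
      obtain ⟨a, ha⟩ := hgen _ htc
      have h1 : t * g ^ m * t⁻¹ = c ^ (a * (i * m)) := by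
        rw [hi, ← zpow_mul, ← conj_zpow, ha, ← zpow_mul]
      rw [ht, hi, ← zpow_mul] at h1
      have h2 := hcinf.zpow_inj h1
      have h3 : a = -1 := by
        have h4 : (i * m) * (a + 1) = 0 := by linarith
        rcases mul_eq_zero.mp h4 with h5 | h5
        · exact absurd h5 (mul_ne_zero hi0 hm)
        · omega
      subst h3
      have hsq : t ^ 2 ∈ EP g := by
        have e1 : t * g ^ (m * (-1)) * t⁻¹ = g ^ ((-m) * (-1)) := conj_zpow_pow ht (-1)
        have e2 : t ^ 2 * g ^ m * (t ^ 2)⁻¹ = g ^ m := by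
          calc t ^ 2 * g ^ m * (t ^ 2)⁻¹ = t * (t * g ^ m * t⁻¹) * t⁻¹ := by
                simp only [pow_two, mul_inv_rev, mul_assoc]
            _ = t * g ^ (m * (-1)) * t⁻¹ := by rw [ht]; congr 3; ring
            _ = g ^ m := by rw [e1]; congr 1; ring
        have hcomm : Commute (t ^ 2) (g ^ m) := by
          have := congrArg (· * t ^ 2) e2
          show t ^ 2 * g ^ m = g ^ m * t ^ 2
          simpa [mul_assoc] using this
        refine ⟨m.natAbs, Int.natAbs_pos.mpr hm, ?_⟩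
        rcases Int.natAbs_eq m with h1 | h1
        · rw [h1, zpow_natCast] at hcomm
          simpa using hcomm
        · rw [h1, zpow_neg, zpow_natCast] at hcomm
          have := hcomm.inv_right
          simpa using this
      obtain ⟨j, hj⟩ := hgen _ hsq
      have e3 : t * c ^ j * t⁻¹ = c ^ (-j) := by
        rw [← conj_zpow, ha, ← zpow_mul]; congr 1; ring
      have e4 : t * c ^ j * t⁻¹ = c ^ j := by
        rw [← hj]; group
      rw [e3] at e4
      have e5 := hcinf.zpow_inj e4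
      have e6 : j = 0 := by omega
      subst e6
      rw [zpow_zero] at hj
      have htne : t ≠ 1 := by
        rintro rfl
        rw [one_mul, inv_one, mul_one] at ht
        have := hg.zpow_inj ht
        omega
      exact (hT t htne ⟨2, by norm_num, hj⟩).1 hj
  refine ⟨c, ⟨hcinf, ?_⟩, i, hi⟩
  rintro u ⟨m, m', hm, hm', hu⟩
  apply hgen
  apply hE
  refine ⟨m, m', hm, hm', ?_⟩
  have := conj_zpow_pow hu i
  rw [hi, ← zpow_mul, ← zpow_mul, mul_comm i m, mul_comm i m']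
  exact this

end L2B
end
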