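import Pool.Agent.Lib.MP_42532b_al.L2.Grad
import Pool.Agent.Lib.MP_42532b_al.ChainAB

namespace L2B
variable {A : Type*} [Group A] {ℓ : A → ℕ}

/-- (6.6)(0): elements of `K` move every point a lot -/
theorem green_move (h : GNorm ℓ) {w : A} {e : A → ℤ} {κ n C : ℕ} (ps : PS ℓ w κ e)
    (hG : Green w e n C) (k : A) (hk : k ∈ KK w n) (hk1 : k ≠ 1) (x : A) :
    n ≤ κ * (gd ℓ x (k * x) + 1) + C := by
  obtain ⟨g, hg⟩ := hG k hk hk1 x
  have := ps.dl_lip g x (k * x)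
  zify
  omega

/-- (6.6)(i): elements of finite order are not in `K` -/
theorem fin_not_mem (h : GNorm ℓ) {δ : ℕ} (hyp : Hyp ℓ δ) {w : A} {e : A → ℤ} {κ n C : ℕ}
    (ps : PS ℓ w κ e) (hG : Green w e n C) (hn : κ * (18 * δ + 5) + C < n) (t : A)
    (ht : t ≠ 1) (htf : ∃ m : ℕ, 0 < m ∧ t ^ m = 1) : t ∉ KK w n := by
  intro htK
  have hfin : IsOfFinOrder t := by
    obtain ⟨m, hm, hm1⟩ := htf
    exact isOfFinOrder_iff_pow_eq_one.2 ⟨m, hm, hm1⟩
  have hP : ((Subgroup.zpowers t : Subgroup A) : Set A).Finite := by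
    have := hfin.finite_zpowers
    exact this
  obtain ⟨x, hx⟩ := finite_subgroup_fix h hyp (Subgroup.zpowers t) hP
  have h1 := hx t (Subgroup.mem_zpowers t)
  have h2 := green_move h ps hG t htK ht x
  have h3 : κ * (gd ℓ x (t * x) + 1) ≤ κ * (18 * δ + 5) := Nat.mul_le_mul_left _ (by omega)
  omega

private theorem zpow_ne_one_of_infOrd {w : A} (hw : InfOrd w) {s : ℤ} (hs : s ≠ 0) :
    w ^ s ≠ 1 := by
  intro h1
  rcases lt_or_gt_of_ne hs with h | h
  · have h2 : w ^ (-s) = 1 := by rw [zpow_neg, h1, inv_one]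
    have h3 : (-s) = (((-s).toNat : ℕ) : ℤ) := (Int.toNat_of_nonneg (by omega)).symm
    rw [h3, zpow_natCast] at h2
    exact hw _ (by omega) h2
  · have h3 : s = ((s.toNat : ℕ) : ℤ) := (Int.toNat_of_nonneg (by omega)).symm
    rw [h3, zpow_natCast] at h1
    exact hw _ (by omega) h1

/-- (6.6)(ii): the order of `w` in the quotient is `n` -/
theorem w_order {w : A} {e : A → ℤ} {κ n C : ℕ} (ps : PS ℓ w κ e) (hG : Green w e n C)
    (hw : InfOrd w) (hn : κ + 2 * C < n) (j : ℤ) : w ^ j ∈ KK w n ↔ (n : ℤ) ∣ j := by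
  have hwn : w ^ (n : ℤ) ∈ KK w n := by
    rw [zpow_natCast]
    exact Subgroup.subset_normalClosure (Set.mem_singleton _)
  have key : ∀ s : ℤ, w ^ s ∈ KK w n → s ≠ 0 → (n : ℤ) ≤ |s| + C := by
    intro s hs hs0
    obtain ⟨g, hg⟩ := hG (w ^ s) hs (zpow_ne_one_of_infOrd hw hs0) 1
    by_cases hsl : SameL w g 1
    · obtain ⟨i, hi⟩ := hsl
      have hg1 : g = 1 * w ^ (-i) := by
        rw [one_mul, zpow_neg]
        exact eq_inv_of_mul_eq_one_left hi.symm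
      have e1 : dl e g 1 (w ^ s * 1) = s := by
        rw [hg1, ps.dl_coset]
        have := ps.dl_on 1 0 s
        simpa using this
      rw [e1] at hg
      exact hg
    · have := ps.dl_overlap g 1 hsl 0 s
      have e1 : dl e g (1 * w ^ (0 : ℤ)) (1 * w ^ s) = dl e g 1 (w ^ s * 1) := by simp
      rw [e1] at this
      have hC : (0 : ℤ) ≤ C := Int.natCast_nonneg _
      have h3 : ((κ + 2 * C : ℕ) : ℤ) < n := by exact_mod_cast hn
      push_cast at h3
      have := abs_nonneg s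
      omega
  constructor
  · intro hj
    have hn0 : (0 : ℤ) < n := by
      have : 0 < n := by omega
      exact_mod_cast this
    set r := j % n with hr
    have hr0 : 0 ≤ r := Int.emod_nonneg _ (by omega)
    have hrn : r < n := Int.emod_lt_of_pos _ hn0
    have hjr : j = n * (j / n) + r := (Int.mul_ediv_add_emod j n).symm
    have hwr : w ^ r ∈ KK w n := by
      have e1 : w ^ r = (w ^ (n : ℤ)) ^ (-(j / n)) * w ^ j := by
        rw [← zpow_mul, ← zpow_add]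
        congr 1
        linarith [hjr]
      rw [e1]
      exact (KK w n).mul_mem ((KK w n).zpow_mem hwn _) hj
    by_cases hr00 : r = 0
    · exact Int.dvd_of_emod_eq_zero hr00
    · exfalso
      have k1 := key r hwr hr00
      have hwr2 : w ^ (r - n) ∈ KK w n := by
        rw [zpow_sub]
        exact (KK w n).mul_mem hwr ((KK w n).inv_mem hwn)
      have k2 := key (r - n) hwr2 (by omega)
      rw [abs_of_nonneg hr0] at k1
      rw [abs_of_nonpos (by omega)] at k2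
      have h3 : ((κ + 2 * C : ℕ) : ℤ) < n := by exact_mod_cast hn
      push_cast at h3
      have hκ : (0 : ℤ) ≤ κ := Int.natCast_nonneg _
      omega
  · rintro ⟨c, rfl⟩
    rw [zpow_mul]
    exact (KK w n).zpow_mem hwn c

/-- constant for shortest pairs -/
def k2 (κ : ℕ) : ℕ := κ * (2 * κ + 1) + 2 * κ

private theorem sp_aux (h : GNorm ℓ) {w : A} {e : A → ℤ} {κ n : ℕ} (ps : PS ℓ w κ e)
    (hn : k2 κ < n) (x y : A) (hD : 0 < e y - e x)
    (h2 : gd ℓ x y ≤ gd ℓ x (w ^ (-(n : ℤ)) * y)) :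
    2 * (e y - e x) ≤ n + k2 κ := by
  by_contra hcon
  push Not at hcon
  set D := e y - e x with hDdef
  have hk2 : (k2 κ : ℤ) = κ * (2 * κ + 1) + 2 * κ := by unfold k2; push_cast; ring
  have hκ0 : (0 : ℤ) ≤ κ := Int.natCast_nonneg _
  have hn0 : (0 : ℤ) ≤ n := Int.natCast_nonneg _
  have hκκ : (0 : ℤ) ≤ κ * (2 * κ + 1) := by positivity
  have hκD : (κ : ℤ) < |e y - e x| := by
    rw [abs_of_pos (by omega)]
    omega
  have hpass := ps.pass x y hκD
  rw [← hDdef] at hpass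
  -- the translated path
  have t1 := h.gd_tri x (w ^ e x) (w ^ (-(n : ℤ)) * y)
  have t2 := h.gd_tri (w ^ e x) (w ^ (-(n : ℤ)) * w ^ e y) (w ^ (-(n : ℤ)) * y)
  rw [gd_left] at t2
  have t3 : gd ℓ (w ^ e x) (w ^ (-(n : ℤ)) * w ^ e y) = ℓ (w ^ (D - n)) := by
    unfold gd
    congr 1
    rw [← zpow_neg, ← zpow_add, ← zpow_add]
    congr 1
    omega
  have t4 : ℓ (w ^ D) ≤ ℓ (w ^ (D - n)) + κ := by omega
  -- natural numbers
  obtain ⟨i, hi⟩ : ∃ i : ℕ, (i : ℤ) = |D - n| := ⟨_, Int.natCast_natAbs _⟩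
  have hDi : ℓ (w ^ (D - n)) = ℓ (w ^ i) := by
    rcases le_total 0 (D - n) with hs | hs
    · rw [abs_of_nonneg hs] at hi
      rw [← hi, zpow_natCast]
    · rw [abs_of_nonpos hs] at hi
      have : D - n = -(i : ℤ) := by omega
      rw [this, zpow_neg, h.inv, zpow_natCast]
  obtain ⟨r, hr, hrk⟩ : ∃ r : ℕ, D = i + r ∧ k2 κ < r := by
    rcases le_total D n with hs | hs
    · rw [abs_of_nonpos (by omega)] at hi
      refine ⟨(2 * D - n).toNat, ?_, ?_⟩
      · rw [Int.toNat_of_nonneg (by omega)]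
        omega
      · have : ((k2 κ : ℕ) : ℤ) < ((2 * D - n).toNat : ℤ) := by
          rw [Int.toNat_of_nonneg (by omega)]
          omega
        exact_mod_cast this
    · rw [abs_of_nonneg (by omega)] at hi
      exact ⟨n, by omega, hn⟩
  have hax := ps.ax i r
  have hwD : ℓ (w ^ D) = ℓ (w ^ (i + r)) := by
    rw [hr]
    congr 1
    rw [← Nat.cast_add, zpow_natCast]
  have hlr : ℓ (w ^ r) ≤ 2 * κ := by omega
  have hlow := ps.low (r : ℤ)
  rw [zpow_natCast, abs_of_nonneg (Int.natCast_nonneg _)] at hlow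
  have h5 : (κ : ℤ) * (ℓ (w ^ r) + 1) ≤ κ * (2 * κ + 1) :=
    mul_le_mul_of_nonneg_left (by exact_mod_cast Nat.succ_le_succ hlr) hκ0
  have h6 : ((k2 κ : ℕ) : ℤ) < r := by exact_mod_cast hrk
  omega

/-- (6.6)(iii) -/
theorem sp_bound (h : GNorm ℓ) {w : A} {e : A → ℤ} {κ n : ℕ} (ps : PS ℓ w κ e)
    (hn : k2 κ < n) (x y g : A)
    (h1 : gd ℓ x y ≤ gd ℓ x (g * w ^ (n : ℤ) * g⁻¹ * y))
    (h2 : gd ℓ x y ≤ gd ℓ x (g * w ^ (-(n : ℤ)) * g⁻¹ * y)) :
    2 * |dl e g x y| ≤ n + k2 κ := by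
  have e0 : gd ℓ x y = gd ℓ (g⁻¹ * x) (g⁻¹ * y) := (gd_left ℓ g⁻¹ x y).symm
  have ei : ∀ i : ℤ, gd ℓ x (g * w ^ i * g⁻¹ * y) = gd ℓ (g⁻¹ * x) (w ^ i * (g⁻¹ * y)) := by
    intro i
    rw [← gd_left ℓ g⁻¹ x]
    congr 1
    group
  rw [e0, ei] at h1 h2
  unfold dl
  rcases lt_trichotomy 0 (e (g⁻¹ * y) - e (g⁻¹ * x)) with hD | hD | hD
  · rw [abs_of_pos hD]
    exact sp_aux h ps hn _ _ hD h2
  · rw [← hD]
    simp only [abs_zero, mul_zero]
    positivity
  · rw [abs_of_neg hD]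
    have h3 : gd ℓ (g⁻¹ * y) (g⁻¹ * x) ≤ gd ℓ (g⁻¹ * y) (w ^ (-(n : ℤ)) * (g⁻¹ * x)) := by
      rw [h.gd_comm, h.gd_comm (g⁻¹ * y), ← gd_left ℓ (w ^ (n : ℤ)) (w ^ (-(n : ℤ)) * (g⁻¹ * x))]
      have e1 : w ^ (n : ℤ) * (w ^ (-(n : ℤ)) * (g⁻¹ * x)) = g⁻¹ * x := by group
      rw [e1]
      exact h1
    have := sp_aux h ps hn (g⁻¹ * y) (g⁻¹ * x) (by omega) h3
    omega

end L2B
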