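import Mathlib
import Pool.Agent.Lib.MP_42532b_al.L2.Grad
import Pool.Agent.Lib.MP_42532b_al.L2.Cosets
import Pool.Agent.Lib.MP_42532b_al.Orders

section

/-! # The trace of the compression of a projection is at most the rank -/

noncomputable section

namespace MP42532b.L2

open scoped InnerProductSpace

theorem sum_norm_sq_starProjection_le {E : Type*} [NormedAddCommGroup E] [InnerProductSpace ℝ E]
    (W : Submodule ℝ E) [W.HasOrthogonalProjection] {X Y : Type*} [Fintype X] [Fintype Y]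
    (e : X → E) (he : Orthonormal ℝ e) (θ : W →ₗ[ℝ] (Y → ℝ))
    (hθ : ∀ u : W, θ u = 0 → ∀ x, ⟪(u : E), e x⟫_ℝ = 0) :
    ∑ x, ‖W.starProjection (e x)‖ ^ 2 ≤ Fintype.card Y := by
  classical
  have hmem : ∀ x, W.starProjection (e x) ∈ W := fun x => Submodule.starProjection_apply_mem W _
  set p : X → W := fun x => ⟨W.starProjection (e x), hmem x⟩ with hp
  set U : Submodule ℝ W := Submodule.span ℝ (Set.range p) with hU
  have : FiniteDimensional ℝ U := FiniteDimensional.span_of_finite ℝ (Set.finite_range p)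
  -- inner products with elements of `W`
  have hinner : ∀ (u : W) (x : X), ⟪(u : E), W.starProjection (e x)⟫_ℝ = ⟪(u : E), e x⟫_ℝ := by
    intro u x
    rw [← Submodule.inner_starProjection_left_eq_right, Submodule.starProjection_eq_self_iff.2 u.2]
  -- injectivity
  have hinj : Function.Injective (θ ∘ₗ U.subtype) := by
    rw [← LinearMap.ker_eq_bot, LinearMap.ker_eq_bot']
    intro u hu
    have h1 := hθ (u : W) hu
    have h2 : ∀ w ∈ U, ⟪(u : W), w⟫_ℝ = 0 := by
      intro w hw
      rw [hU] at hw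
      induction hw using Submodule.span_induction with
      | mem w hw =>
        obtain ⟨x, rfl⟩ := hw
        rw [Submodule.coe_inner, hp]
        simp only
        rw [hinner, h1 x]
      | zero => exact inner_zero_right _
      | add a b _ _ ha hb => rw [inner_add_right, ha, hb, add_zero]
      | smul c a _ ha => rw [inner_smul_right, ha, mul_zero]
    have h3 := h2 u u.2
    rw [inner_self_eq_zero] at h3
    exact Subtype.ext h3
  have hrank : Module.finrank ℝ U ≤ Fintype.card Y := by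
    have := LinearMap.finrank_le_finrank_of_injective hinj
    rwa [Module.finrank_fintype_fun_eq_card] at this
  -- orthonormal basis
  set b := stdOrthonormalBasis ℝ U with hb
  have hbo : Orthonormal ℝ (fun k => ((b k : W) : E)) := by
    have h := b.orthonormal
    constructor
    · intro k
      exact h.1 k
    · intro k l hkl
      exact h.2 hkl
  have hsq : ∀ x, ‖W.starProjection (e x)‖ ^ 2 = ∑ k, ⟪((b k : W) : E), e x⟫_ℝ ^ 2 := by
    intro x
    have hx : p x ∈ U := Submodule.subset_span ⟨x, rfl⟩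
    have h1 := b.sum_sq_norm_inner_right ⟨p x, hx⟩
    have h2 : ‖(⟨p x, hx⟩ : U)‖ = ‖W.starProjection (e x)‖ := rfl
    rw [h2] at h1
    rw [← h1]
    refine Finset.sum_congr rfl fun k _ => ?_
    rw [Real.norm_eq_abs, sq_abs]
    congr 1
    exact hinner (b k : W) x
  calc ∑ x, ‖W.starProjection (e x)‖ ^ 2
      = ∑ x, ∑ k, ⟪((b k : W) : E), e x⟫_ℝ ^ 2 := Finset.sum_congr rfl fun x _ => hsq x
    _ = ∑ k, ∑ x, ⟪((b k : W) : E), e x⟫_ℝ ^ 2 := Finset.sum_comm
    _ ≤ ∑ k : Fin (Module.finrank ℝ U), (1 : ℝ) := by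
        refine Finset.sum_le_sum fun k _ => ?_
        have h1 := he.sum_inner_products_le (s := Finset.univ) ((b k : W) : E)
        have h2 : ‖((b k : W) : E)‖ = 1 := hbo.1 k
        rw [h2] at h1
        refine le_trans (Finset.sum_le_sum fun x _ => ?_) (h1.trans (by norm_num))
        rw [Real.norm_eq_abs, sq_abs, real_inner_comm]
    _ = (Module.finrank ℝ U : ℝ) := by simp
    _ ≤ Fintype.card Y := by exact_mod_cast hrank

end MP42532b.L2
end
end

section

/-! # Groups with positive first `L²`-Betti number are not amenable -/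

noncomputable section

namespace MP42532b.L2

open scoped InnerProductSpace

variable {G : Type*} [Group G] {d : ℕ} (s : Fin d → G)

open Classical in
/-- `F` together with the end points of the edges starting in `F` -/
def thick (F : Finset G) : Finset G := F ∪ Finset.univ.biUnion fun i => F.image (· * s i)

open Classical in
/-- the elements of `thick s F` with a neighbour outside -/
def bdry (F : Finset G) : Finset G :=
  {v ∈ thick s F | ∃ i, v * s i ∉ thick s F ∨ v * (s i)⁻¹ ∉ thick s F}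

theorem subset_thick (F : Finset G) : F ⊆ thick s F := by
  classical
  unfold thick
  exact Finset.subset_union_left

theorem mul_mem_thick {F : Finset G} {v : G} (hv : v ∈ F) (i : Fin d) : v * s i ∈ thick s F := by
  classical
  unfold thick
  refine Finset.mem_union_right _ (Finset.mem_biUnion.2 ⟨i, Finset.mem_univ i, ?_⟩)
  exact Finset.mem_image_of_mem _ hv

theorem mem_thick_iff {F : Finset G} {v : G} :
    v ∈ thick s F ↔ v ∈ F ∨ ∃ i, ∃ g ∈ F, g * s i = v := by
  classical
  unfold thick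
  simp only [Finset.mem_union, Finset.mem_biUnion, Finset.mem_univ, true_and, Finset.mem_image]

theorem mem_bdry_iff {F : Finset G} {v : G} :
    v ∈ bdry s F ↔ v ∈ thick s F ∧ ∃ i, v * s i ∉ thick s F ∨ v * (s i)⁻¹ ∉ thick s F := by
  classical
  unfold bdry
  rw [Finset.mem_filter]

theorem harm_nonpos [Infinite G] (hs : Function.Surjective (FreeGroup.lift s)) (F : Finset G)
    (f : G → ℝ) (hf : IsHarm s f) (h0 : ∀ v ∈ bdry s F, f v = 0) : ∀ v ∈ thick s F, f v ≤ 0 := by
  classical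
  intro v0 hv0
  by_contra hpos
  push Not at hpos
  obtain ⟨vm, hvm, hmax⟩ := Finset.exists_max_image (thick s F) f ⟨v0, hv0⟩
  have hM : 0 < f vm := hpos.trans_le (hmax v0 hv0)
  have hstep : ∀ v, (v ∈ thick s F ∧ f v = f vm) → ∀ i,
      (v * s i ∈ thick s F ∧ f (v * s i) = f vm) ∧
      (v * (s i)⁻¹ ∈ thick s F ∧ f (v * (s i)⁻¹) = f vm) := by
    rintro v ⟨hv, hfv⟩
    have hnb : v ∉ bdry s F := fun hb => by
      have := h0 v hb
      linarith
    rw [mem_bdry_iff, not_and] at hnb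
    have hnb' := hnb hv
    push Not at hnb'
    have hterm : ∀ i ∈ Finset.univ, (f (v * s i) - f v) + (f (v * (s i)⁻¹) - f v) ≤ 0 := by
      intro i _
      have h1 := hmax _ (hnb' i).1
      have h2 := hmax _ (hnb' i).2
      linarith
    have hz := (Finset.sum_eq_zero_iff_of_nonpos hterm).1 (hf v)
    intro i
    have h1 := hmax _ (hnb' i).1
    have h2 := hmax _ (hnb' i).2
    have h3 := hz i (Finset.mem_univ i)
    exact ⟨⟨(hnb' i).1, by linarith⟩, ⟨(hnb' i).2, by linarith⟩⟩
  have hword : ∀ w : FreeGroup (Fin d), ∀ v, (v ∈ thick s F ∧ f v = f vm) →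
      (v * FreeGroup.lift s w ∈ thick s F ∧ f (v * FreeGroup.lift s w) = f vm) := by
    intro w
    induction w using FreeGroup.induction_on with
    | C1 => intro v hv; rw [map_one, mul_one]; exact hv
    | of i =>
      intro v hv
      have h1 : FreeGroup.lift s (FreeGroup.of i) = s i := FreeGroup.lift_apply_of
      rw [h1]
      exact (hstep v hv i).1
    | inv_of i _ =>
      intro v hv
      have h1 : FreeGroup.lift s (FreeGroup.of i) = s i := FreeGroup.lift_apply_of
      rw [map_inv, h1]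
      exact (hstep v hv i).2
    | mul x y hx hy =>
      intro v hv
      rw [map_mul, ← mul_assoc]
      exact hy _ (hx v hv)
  have hall : ∀ g : G, g ∈ thick s F := by
    intro g
    obtain ⟨w, hw⟩ := hs (vm⁻¹ * g)
    have h1 := (hword w vm ⟨hvm, rfl⟩).1
    rwa [hw, mul_inv_cancel_left] at h1
  exact Infinite.not_finite (α := G) (Finite.of_finite_univ
    ((thick s F).finite_toSet.subset fun g _ => hall g))

/-- the maximum principle -/
theorem harm_eq_zero [Infinite G] (hs : Function.Surjective (FreeGroup.lift s)) (F : Finset G)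
    (f : G → ℝ) (hf : IsHarm s f) (h0 : ∀ v ∈ bdry s F, f v = 0) : ∀ v ∈ thick s F, f v = 0 := by
  intro v hv
  have h1 := harm_nonpos s hs F f hf h0 v hv
  have hf' : IsHarm s (fun g => -f g) := by
    intro g
    have h2 := hf g
    rw [← neg_eq_zero, ← Finset.sum_neg_distrib] at h2
    rw [← h2]
    exact Finset.sum_congr rfl fun i _ => by ring
  have h2 := harm_nonpos s hs F (fun g => -f g) hf' (fun v hv => by rw [h0 v hv, neg_zero]) v hv
  linarith

theorem orthonormal_ee {I : Type*} (F : Finset G) :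
    Orthonormal ℝ (fun x : F × I => (ee x.1.1 x.2 : Hi G I)) := by
  classical
  refine ⟨fun x => norm_ee _ _, fun x y hxy => ?_⟩
  beta_reduce
  rw [inner_ee_left, ee_apply_ne]
  intro h
  apply hxy
  obtain ⟨h1, h2⟩ := Prod.mk.inj h
  exact Prod.ext (Subtype.ext h1) h2

/-- the isoperimetric inequality -/
theorem beta_mul_card_le [Infinite G] (hs : Function.Surjective (FreeGroup.lift s))
    (F : Finset G) : beta s * F.card ≤ (bdry s F).card := by
  classical
  have hcl : (harmS s).topologicalClosure = harmS s :=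
    (isClosed_harmS s hs).submodule_topologicalClosure_eq
  choose wd hwd using hs
  choose D hD1 hD2 using fun w : FreeGroup (Fin d) => exists_pathOp s w
  let θ : (harmS s).topologicalClosure →ₗ[ℝ] (bdry s F → ℝ) :=
    LinearMap.pi fun b =>
      ((innerSL ℝ (ee 1 () : Hi G Unit)).toLinearMap ∘ₗ (D (wd b.1)).toLinearMap) ∘ₗ
        (harmS s).topologicalClosure.subtype
  have hθ : ∀ u : (harmS s).topologicalClosure, θ u = 0 →
      ∀ x : F × Fin d, ⟪(u : Hi G (Fin d)), ee x.1.1 x.2⟫_ℝ = 0 := by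
    intro u hu x
    have hu' : (u : Hi G (Fin d)) ∈ harmS s := hcl.le u.2
    obtain ⟨f, hf, hgrad⟩ := hu'
    have hval : ∀ b ∈ bdry s F, f b - f 1 = 0 := by
      intro b hb
      have h1 : θ u ⟨b, hb⟩ = 0 := by rw [hu]; rfl
      have h2 : θ u ⟨b, hb⟩ = ⟪(ee 1 () : Hi G Unit), D (wd b) u⟫_ℝ := rfl
      rw [h2, inner_ee_left, hD2, pint_grad s _ f hgrad, one_mul, hwd] at h1
      exact h1
    have hf' : IsHarm s (fun g => f g - f 1) := by
      intro g
      rw [← hf g]
      exact Finset.sum_congr rfl fun i _ => by ring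
    have h3 := harm_eq_zero s (fun g => ⟨wd g, hwd g⟩) F (fun g => f g - f 1) hf' hval
    have h4 := h3 _ (subset_thick s F x.1.2)
    have h5 := h3 _ (mul_mem_thick s x.1.2 x.2)
    rw [inner_ee_right, hgrad]
    linarith
  have h := sum_norm_sq_starProjection_le (harmS s).topologicalClosure
    (fun x : F × Fin d => (ee x.1.1 x.2 : Hi G (Fin d))) (orthonormal_ee F) θ hθ
  have hinv : Equivar (harmS s).topologicalClosure.starProjection :=
    (invar_harmS s).closure.starProjection
  have hsum : ∑ x : F × Fin d, ‖(harmS s).topologicalClosure.starProjection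
      (ee x.1.1 x.2 : Hi G (Fin d))‖ ^ 2 = beta s * F.card := by
    rw [Fintype.sum_prod_type]
    have h6 : ∀ g : F, ∑ i : Fin d, ‖(harmS s).topologicalClosure.starProjection
        (ee g.1 i : Hi G (Fin d))‖ ^ 2 = beta s := by
      intro g
      unfold beta vdim
      refine Finset.sum_congr rfl fun i _ => ?_
      rw [hinv.apply_ee, LinearIsometryEquiv.norm_map]
    simp only [h6]
    rw [Finset.sum_const, Finset.card_univ, Fintype.card_coe, nsmul_eq_mul, mul_comm]
  rw [hsum, Fintype.card_coe] at h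
  exact h

open Classical in
theorem bdry_subset (F : Finset G) : bdry s F ⊆ Finset.univ.biUnion fun i =>
    ({g ∈ F | g * s i ∉ F} : Finset G).image (· * s i) ∪
      ({g ∈ F | g * (s i)⁻¹ ∉ F} : Finset G) := by
  intro v hv
  rw [mem_bdry_iff] at hv
  obtain ⟨hv1, j, hj⟩ := hv
  rw [Finset.mem_biUnion]
  by_cases hvF : v ∈ F
  · rcases hj with hj | hj
    · exact absurd (mul_mem_thick s hvF j) hj
    · refine ⟨j, Finset.mem_univ j, Finset.mem_union_right _ (Finset.mem_filter.2 ⟨hvF, ?_⟩)⟩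
      exact fun h => hj (subset_thick s F h)
  · rcases (mem_thick_iff s).1 hv1 with h | ⟨i, g, hg, rfl⟩
    · exact absurd h hvF
    · exact ⟨i, Finset.mem_univ i, Finset.mem_union_left _
        (Finset.mem_image_of_mem _ (Finset.mem_filter.2 ⟨hg, hvF⟩))⟩

/-- **infinite amenable groups have vanishing first `L²`-Betti number** -/
theorem beta_eq_zero_of_amen [Infinite G] (hs : Function.Surjective (FreeGroup.lift s))
    (hA : Amen G) : beta s = 0 := by
  classical
  refine le_antisymm ?_ (vdim_nonneg _)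
  have key : ∀ ε : ℝ, 0 < ε → beta s ≤ 2 * d * ε := by
    intro ε hε
    obtain ⟨F, hF, hFS⟩ := hA (Finset.univ.image s ∪ Finset.univ.image fun i => (s i)⁻¹) ε hε
    have hFc : (0 : ℝ) < F.card := by exact_mod_cast Finset.card_pos.2 hF
    have h1 : ((bdry s F).card : ℝ) ≤ 2 * d * ε * F.card := by
      have h2 : (bdry s F).card ≤ ∑ i : Fin d, (({g ∈ F | g * s i ∉ F} : Finset G).card +
          ({g ∈ F | g * (s i)⁻¹ ∉ F} : Finset G).card) := by
        refine (Finset.card_le_card (bdry_subset s F)).trans (Finset.card_biUnion_le.trans ?_)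
        refine Finset.sum_le_sum fun i _ => ?_
        exact (Finset.card_union_le _ _).trans (Nat.add_le_add_right Finset.card_image_le _)
      have h3 : ((bdry s F).card : ℝ) ≤ ∑ i : Fin d, ((({g ∈ F | g * s i ∉ F} : Finset G).card : ℝ) +
          ({g ∈ F | g * (s i)⁻¹ ∉ F} : Finset G).card) := by exact_mod_cast h2
      refine h3.trans ?_
      have h4 : ∀ i ∈ Finset.univ, ((({g ∈ F | g * s i ∉ F} : Finset G).card : ℝ) +
          ({g ∈ F | g * (s i)⁻¹ ∉ F} : Finset G).card) ≤ 2 * (ε * F.card) := by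
        intro i _
        have h5 := hFS (s i) (Finset.mem_union_left _ (Finset.mem_image_of_mem _ (Finset.mem_univ i)))
        have h6 := hFS (s i)⁻¹ (Finset.mem_union_right _
          (Finset.mem_image_of_mem (fun i => (s i)⁻¹) (Finset.mem_univ i)))
        have h7 := add_le_add h5 h6
        refine le_trans ?_ (h7.trans (le_of_eq (by ring)))
        refine add_le_add (le_of_eq ?_) (le_of_eq ?_) <;> congr! 
      refine (Finset.sum_le_sum h4).trans (le_of_eq ?_)
      rw [Finset.sum_const, Finset.card_univ, Fintype.card_fin, nsmul_eq_mul]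
      ring
    have h8 := (beta_mul_card_le s hs F).trans h1
    exact le_of_mul_le_mul_right h8 hFc
  refine le_of_forall_pos_le_add fun ε hε => ?_
  have h9 := key (ε / (2 * d + 1)) (by positivity)
  rw [zero_add]
  refine h9.trans ?_
  rw [mul_div_assoc', div_le_iff₀ (by positivity)]
  nlinarith

end MP42532b.L2
end
end

section

/-! # Upper bound: a generator of finite order -/

noncomputable section

namespace MP42532b.L2

variable {G : Type*} [Group G] {d : ℕ} (s : Fin d → G)

theorem beta_le_card_sub_one [Infinite G] (hs : Function.Surjective (FreeGroup.lift s)) :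
    beta s ≤ (d : ℝ) - 1 := by
  obtain ⟨A, hA', hA⟩ := exists_gradOp s
  have h1 := vdim_gradS s hs hA
  have h2 := vdim_range_gradOp_eq s hs hA' hA
  have h3 := vdim_orth (gradS s)
  have h4 := vdim_nonneg (gradS s)ᗮ
  rw [Fintype.card_fin] at h3
  linarith

/-- **upper bound for the first `L²`-Betti number** -/
theorem beta_le [Infinite G] (hs : Function.Surjective (FreeGroup.lift s)) (i : Fin d)
    (hi : 0 < orderOf (s i)) : beta s ≤ (d : ℝ) - 1 - 1 / orderOf (s i) := by
  obtain ⟨A, hA', hA⟩ := exists_gradOp s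
  obtain ⟨D, hD', hD⟩ := exists_pathOp s (FreeGroup.of i ^ orderOf (s i))
  obtain ⟨κ, hκ', hκ⟩ := exists_inclOp G i
  have hfin : IsOfFinOrder (s i) := orderOf_pos_iff.1 hi
  have h1 := vdim_gradS s hs hA
  have h2 := vdim_range_gradOp_eq s hs hA' hA
  -- gradients are in the kernel of the path operator
  have hker : gradS s ≤ (D : Hi G (Fin d) →ₗ[ℝ] Hi G Unit).ker := by
    intro v hv
    obtain ⟨f, hf⟩ := hv
    rw [LinearMap.mem_ker]
    change D v = 0
    ext p
    obtain ⟨g, ⟨⟩⟩ := p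
    rw [hD, pint_grad s v f hf, map_pow, FreeGroup.lift_apply_of, pow_orderOf_eq_one, mul_one,
      sub_self]
    rfl
  have h3 := vdim_mono hker
  have h4 := vdim_orth (D : Hi G (Fin d) →ₗ[ℝ] Hi G Unit).ker
  rw [Fintype.card_fin, rank_nullity hD'] at h4
  -- the functions constant on the cosets are in the range
  have hran : invR (Subgroup.zpowers (s i)) ≤ (D : Hi G (Fin d) →ₗ[ℝ] Hi G Unit).range := by
    intro u hu
    refine ⟨κ ((orderOf (s i) : ℝ)⁻¹ • u), ?_⟩
    change D (κ ((orderOf (s i) : ℝ)⁻¹ • u)) = u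
    ext p
    obtain ⟨g, ⟨⟩⟩ := p
    rw [hD, pint_of_pow]
    have h5 : ∀ k ∈ Finset.range (orderOf (s i)),
        (κ ((orderOf (s i) : ℝ)⁻¹ • u)) (g * s i ^ k, i) = (orderOf (s i) : ℝ)⁻¹ * u (g, ()) := by
      intro k _
      rw [hκ, if_pos rfl]
      change (orderOf (s i) : ℝ)⁻¹ * u (g * s i ^ k, ()) = _
      rw [hu g (s i ^ k) (Subgroup.pow_mem _ (Subgroup.mem_zpowers _) k)]
    rw [Finset.sum_congr rfl h5, Finset.sum_const, Finset.card_range, nsmul_eq_mul,
      ← mul_assoc, mul_inv_cancel₀ (by exact_mod_cast hi.ne'), one_mul]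
  have h6 := vdim_mono hran
  have hF : Finite (Subgroup.zpowers (s i)) := finite_zpowers.2 hfin
  rw [vdim_invR, Nat.card_zpowers] at h6
  linarith

end MP42532b.L2
end
end

section

namespace L2B
variable {A : Type*} [Group A] {ℓ : A → ℕ}

/-! ### auxiliary facts on words -/

private theorem bd_append (c : A) (f : Fin 4 → A) (N : Fin 4 → ℕ) (l l' : Wd) :
    wval c f N (l ++ l') = wval c f N l * wval c f N l' := by
  unfold wval; rw [List.map_append, List.prod_append]

private theorem bd_succ (c : A) (f : Fin 4 → A) (N : Fin 4 → ℕ) (l : Wd) (t : ℕ)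
    (ht : t < l.length) :
    wval c f N (l.take (t + 1)) =
      wval c f N (l.take t) * Uu c f N (l[t]'ht).1 ^ sg (l[t]'ht).2 := by
  rw [List.take_add_one, List.getElem?_eq_getElem ht, bd_append]
  simp [wval]

private theorem bd_U (c : A) (f : Fin 4 → A) (N : Fin 4 → ℕ) (i : Fin 4) (k : ℤ) :
    Uu c f N i ^ k = f i * c ^ (k * N i) * (f i)⁻¹ := by
  unfold Uu
  rw [conj_zpow, ← zpow_natCast, ← zpow_mul, mul_comm]

private theorem bd_line (c : A) (f : Fin 4 → A) (N : Fin 4 → ℕ) (l : Wd) (t : ℕ)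
    (ht : t < l.length) :
    wline c f N l t ht = wval c f N (l.take (t + 1)) * f (l[t]'ht).1 *
      c ^ (-(sg (l[t]'ht).2 * N (l[t]'ht).1)) := by
  rw [bd_succ c f N l t ht, bd_U]
  unfold wline
  group

private def rev (l : Wd) : Wd := l.reverse.map (fun p => (p.1, !p.2))

private theorem rev_append (l l' : Wd) : rev (l ++ l') = rev l' ++ rev l := by
  unfold rev; rw [List.reverse_append, List.map_append]

private theorem rev_length (l : Wd) : (rev l).length = l.length := by
  unfold rev; simp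

private theorem sg_not (b : Bool) : sg (!b) = - sg b := by cases b <;> simp [sg]

private theorem wval_rev (c : A) (f : Fin 4 → A) (N : Fin 4 → ℕ) (l : Wd) :
    wval c f N (rev l) = (wval c f N l)⁻¹ := by
  induction l with
  | nil => simp [rev, wval]
  | cons p l ih =>
    rw [show p :: l = [p] ++ l from rfl, rev_append, bd_append, bd_append, ih, mul_inv_rev]
    congr 1
    simp [rev, wval, sg_not]

private theorem rev_alt {l : Wd} (h : Alt l) : Alt (rev l) := by
  unfold Alt rev
  rw [List.isChain_map, List.isChain_reverse]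
  unfold Alt at h
  exact h.imp fun a b hab => fun hba => hab hba.symm

private theorem rev_take (l : Wd) (t : ℕ) (ht : t < l.length) :
    (rev l).take (l.length - 1 - t) = rev (l.drop (t + 1)) := by
  conv_lhs => rw [← List.take_append_drop (t + 1) l]
  rw [rev_append]
  apply List.take_left'
  rw [rev_length, List.length_drop, List.take_append_drop]
  omega

private theorem rev_get (l : Wd) (t : ℕ) (ht : t < l.length)
    (ht' : l.length - 1 - t < (rev l).length) :
    (rev l)[l.length - 1 - t]'ht' = ((l[t]'ht).1, !(l[t]'ht).2) := by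
  unfold rev
  rw [List.getElem_map, List.getElem_reverse]
  have : l.length - 1 - (l.length - 1 - t) = t := by omega
  simp only [this]

private theorem wline_rev (c : A) (f : Fin 4 → A) (N : Fin 4 → ℕ) (l : Wd) (t : ℕ)
    (ht : t < l.length) (ht' : l.length - 1 - t < (rev l).length) :
    wline c f N (rev l) (l.length - 1 - t) ht' =
      (wval c f N l)⁻¹ * wline c f N l t ht * c ^ (sg (l[t]'ht).2 * N (l[t]'ht).1) := by
  have e1 : wval c f N l = wval c f N (l.take (t + 1)) * wval c f N (l.drop (t + 1)) := by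
    rw [← bd_append, List.take_append_drop]
  rw [bd_line c f N l t ht, e1]
  unfold wline
  rw [rev_take l t ht, wval_rev, rev_get l t ht ht']
  group

private theorem bd_mem (c : A) (f : Fin 4 → A) (N : Fin 4 → ℕ) (x : A)
    (hx : x ∈ Subgroup.closure {Uu c f N 0 * Uu c f N 1, Uu c f N 2 * Uu c f N 3}) :
    ∃ L : List (Fin 2 × Bool), FreeGroup.reduce L = L ∧ wval c f N (expd L) = x := by
  have hset : ({Uu c f N 0 * Uu c f N 1, Uu c f N 2 * Uu c f N 3} : Set A) =
      Set.range (![Uu c f N 0 * Uu c f N 1, Uu c f N 2 * Uu c f N 3] : Fin 2 → A) := by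
    ext y
    simp only [Set.mem_insert_iff, Set.mem_singleton_iff, Set.mem_range, Fin.exists_fin_two,
      Matrix.cons_val_zero, Matrix.cons_val_one]
    constructor
    · rintro (h | h)
      · exact Or.inl h.symm
      · exact Or.inr h.symm
    · rintro (h | h)
      · exact Or.inl h.symm
      · exact Or.inr h.symm
  rw [hset, ← FreeGroup.range_lift_eq_closure] at hx
  obtain ⟨z, hz⟩ := hx
  refine ⟨z.toWord, FreeGroup.reduce_toWord z, ?_⟩
  rw [expd_val, FreeGroup.mk_toWord]
  exact hz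

private theorem not_same_of_bound {c : A} {e : A → ℤ} {κ : ℕ} (ps : PS ℓ c κ e) {g v : A}
    {C : ℕ} (H : ∀ i : ℤ, |dl e g 1 (v * c ^ i)| ≤ C) : ¬ SameL c v g := by
  rintro ⟨k, rfl⟩
  have h1 := H 0
  have h2 := H (2 * C + 1)
  have h3 := dl_add e (v * c ^ k) 1 (v * c ^ (0 : ℤ)) (v * c ^ (2 * (C : ℤ) + 1))
  have h4 : dl e (v * c ^ k) (v * c ^ (0 : ℤ)) (v * c ^ (2 * (C : ℤ) + 1)) = 2 * C + 1 - 0 := by
    rw [ps.dl_coset, ps.dl_on]
  rw [abs_le] at h1 h2
  omega

private theorem same_left {c b g v : A} (H : SameL c g (b⁻¹ * v)) : SameL c (b * g) v := by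
  obtain ⟨k, hk⟩ := H
  exact ⟨k, by rw [mul_assoc, ← hk]; group⟩

private theorem same_trans {c g v u : A} (H : SameL c g v) (H' : SameL c v u) : SameL c g u := by
  obtain ⟨k, rfl⟩ := H
  obtain ⟨k', rfl⟩ := H'
  exact ⟨k + k', by rw [zpow_add, mul_assoc]⟩

private theorem bd_words (c : A) (f : Fin 4 → A) (N : Fin 4 → ℕ) (K : ℕ)
    (b h1 : A)
    (hh1 : h1 ∈ Subgroup.closure {Uu c f N 0 * Uu c f N 1, Uu c f N 2 * Uu c f N 3})
    (hinf : InfOrd h1)
    (hconj : b * h1 * b⁻¹ ∈
      Subgroup.closure {Uu c f N 0 * Uu c f N 1, Uu c f N 2 * Uu c f N 3}) :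
    ∃ L1 L2 : List (Fin 2 × Bool), FreeGroup.reduce L1 = L1 ∧ FreeGroup.reduce L2 = L2 ∧
      b * wval c f N (expd L1) = wval c f N (expd L2) * b ∧ K < (expd L2).length := by
  have hinf2 : InfOrd (b * h1 * b⁻¹) := by
    intro m hm hp
    rw [conj_pow] at hp
    apply hinf m hm
    have : h1 ^ m = b⁻¹ * (b * h1 ^ m * b⁻¹) * b := by group
    rw [this, hp]; group
  obtain ⟨n, L2, hr2, hv2, hlen⟩ : ∃ (n : ℕ) (L2 : List (Fin 2 × Bool)),
      FreeGroup.reduce L2 = L2 ∧ wval c f N (expd L2) = (b * h1 * b⁻¹) ^ n ∧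
      K < (expd L2).length := by
    by_contra hcon
    push Not at hcon
    have hfin : ((fun L : List (Fin 2 × Bool) => wval c f N (expd L)) ''
        {L | L.length ≤ K}).Finite := (List.finite_length_le _ K).image _
    obtain ⟨x, _, y, _, hxy, heq⟩ := (Set.infinite_univ (α := ℕ)).exists_ne_map_eq_of_mapsTo
      (f := fun n : ℕ => (b * h1 * b⁻¹) ^ n) (t := (fun L : List (Fin 2 × Bool) =>
        wval c f N (expd L)) '' {L | L.length ≤ K}) (by
        intro n _
        obtain ⟨L, hr, hv⟩ := bd_mem c f N _ (Subgroup.pow_mem _ hconj n)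
        have := hcon n L hr hv
        rw [expd_length] at this
        exact ⟨L, show L.length ≤ K by omega, hv⟩) hfin
    have key : ∀ x y : ℕ, x < y → (b * h1 * b⁻¹) ^ x = (b * h1 * b⁻¹) ^ y → False := by
      intro x y hlt he
      apply hinf2 (y - x) (by omega)
      have h2 : (b * h1 * b⁻¹) ^ y = (b * h1 * b⁻¹) ^ x * (b * h1 * b⁻¹) ^ (y - x) := by
        rw [← pow_add]; congr 1; omega
      rw [← he] at h2
      exact (mul_eq_left.mp h2.symm)
    rcases lt_or_gt_of_ne hxy with hlt | hlt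
    · exact key x y hlt heq
    · exact key y x hlt heq.symm
  obtain ⟨L1, hr1, hv1⟩ := bd_mem c f N _ (Subgroup.pow_mem _ hh1 n)
  refine ⟨L1, L2, hr1, hr2, ?_, hlen⟩
  rw [hv1, hv2, conj_pow]; group

/-- (9.3): malnormality -/
theorem base_mn (h : GNorm ℓ) {δ : ℕ} (hyp : Hyp ℓ δ) {c : A} (hc : IsRoot c) {e : A → ℤ}
    {κ : ℕ} (ps : PS ℓ c κ e) (f : Fin 4 → A) (hf : ∀ i j, i ≠ j → ¬ SameL c (f i) (f j)) :
    ∃ E : ℕ, ∀ N : Fin 4 → ℕ, (∀ i, E ≤ N i) → (∀ i j, i < j → N i + E ≤ N j) →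
      MN (Subgroup.closure {Uu c f N 0 * Uu c f N 1, Uu c f N 2 * Uu c f N 3}) := by
  obtain ⟨C, E0, hB⟩ := base_chain h hyp ps f hf
  refine ⟨E0 + 4 * C + 4 * κ + 4, fun N hN hsep b h1 hh1 hinf hconj => ?_⟩
  have hE0 : ∀ i, E0 ≤ N i := fun i => by have := hN i; omega
  obtain ⟨L1, L2, hr1, hr2, hcomm, hlen⟩ :=
    bd_words c f N (2 * (ℓ b + C) + 6) b h1 hh1 hinf hconj
  obtain ⟨a1, -, a3, -, -, a6, a7, -⟩ := hB N hE0 (expd L1) (expd_alt L1 hr1)
  obtain ⟨b1, -, -, -, b5, -, b7, b8⟩ := hB N hE0 (expd L2) (expd_alt L2 hr2)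
  obtain ⟨-, -, -, -, c5, -, -, -⟩ := hB N hE0 (rev (expd L2)) (rev_alt (expd_alt L2 hr2))
  have halt2 := expd_alt L2 hr2
  have hpre1 := expd_prefix c f N L1
  have hpre2 := expd_prefix c f N L2
  set l1 := expd L1 with hl1
  set l2 := expd L2 with hl2
  clear_value l1 l2
  set H := Subgroup.closure {Uu c f N 0 * Uu c f N 1, Uu c f N 2 * Uu c f N 3} with hH
  -- (a)
  have ha1 : ∀ (t : ℕ) (ht : t < l2.length), ℓ b + C < t →
      |dl e (wline c f N l2 t ht) 1 b| ≤ κ := by
    intro t ht hlt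
    by_contra hcon
    push Not at hcon
    have := b5 t ht b hcon
    omega
  have ha2 : ∀ (t : ℕ) (ht : t < l2.length), t + (ℓ b + C) + 1 < l2.length →
      |dl e (wline c f N l2 t ht) (wval c f N l2) (wval c f N l2 * b)| ≤ κ := by
    intro t ht hlt
    have ht' : l2.length - 1 - t < (rev l2).length := by rw [rev_length]; omega
    by_contra hcon
    push Not at hcon
    have h2 := c5 (l2.length - 1 - t) ht' b (by
      rw [wline_rev c f N l2 t ht ht', ps.dl_coset]
      have e1 := dl_left e (wval c f N l2)⁻¹ (wline c f N l2 t ht) (wval c f N l2)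
        (wval c f N l2 * b)
      rw [inv_mul_cancel, inv_mul_cancel_left] at e1
      rw [e1]; exact hcon)
    omega
  have hmid : ∀ (t : ℕ) (ht : t < l2.length), ℓ b + C < t → t + (ℓ b + C) + 1 < l2.length →
      |dl e (b⁻¹ * wline c f N l2 t ht) 1 (wval c f N l1) - sg (l2[t]'ht).2 * N (l2[t]'ht).1| ≤
        C + 2 * κ := by
    intro t ht hlt1 hlt2
    have e1 := dl_left e b⁻¹ (wline c f N l2 t ht) b (b * wval c f N l1)
    rw [inv_mul_cancel, inv_mul_cancel_left, hcomm] at e1
    rw [e1]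
    have f1 := ha1 t ht hlt1
    have f2 := ha2 t ht hlt2
    have f3 := b1 t ht
    have f4 := dl_add e (wline c f N l2 t ht) 1 b (wval c f N l2 * b)
    have f5 := dl_add e (wline c f N l2 t ht) 1 (wval c f N l2) (wval c f N l2 * b)
    rw [abs_le] at f1 f2 f3 ⊢
    omega
  -- (b)
  have hb : ∀ (t : ℕ) (ht : t < l2.length), ℓ b + C < t → t + (ℓ b + C) + 1 < l2.length →
      ∃ (s : ℕ) (hs : s < l1.length), SameL c (wline c f N l1 s hs) (b⁻¹ * wline c f N l2 t ht) ∧
        l1[s]'hs = l2[t]'ht := by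
    intro t ht hlt1 hlt2
    have hm := hmid t ht hlt1 hlt2
    have hNt := hN (l2[t]'ht).1
    have hex : ∃ (s : ℕ) (hs : s < l1.length),
        SameL c (wline c f N l1 s hs) (b⁻¹ * wline c f N l2 t ht) := by
      by_contra hcon
      push Not at hcon
      have h3 := a3 (b⁻¹ * wline c f N l2 t ht) hcon
      rw [abs_le] at h3 hm
      cases hb2 : (l2[t]'ht).2 <;> rw [hb2] at hm <;> simp only [sg, if_true, one_mul,
        Bool.false_eq_true, if_false, neg_mul] at hm <;> omega
    obtain ⟨s, hs, hsame⟩ := hex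
    refine ⟨s, hs, hsame, ?_⟩
    have h1s := a1 s hs
    obtain ⟨k, hk⟩ := hsame
    rw [hk, ps.dl_coset] at hm
    have hNs := hN (l1[s]'hs).1
    have hidx : (l1[s]'hs).1 = (l2[t]'ht).1 ∧ (l1[s]'hs).2 = (l2[t]'ht).2 := by
      rw [abs_le] at hm h1s
      have hsg : (l1[s]'hs).2 = (l2[t]'ht).2 := by
        cases h5 : (l1[s]'hs).2 <;> cases h6 : (l2[t]'ht).2 <;> rw [h5] at h1s <;>
          rw [h6] at hm <;> simp only [sg, if_true, one_mul, Bool.false_eq_true, if_false,
            neg_mul] at hm h1s <;> first | rfl | omega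
      refine ⟨?_, hsg⟩
      rw [hsg] at h1s
      rcases lt_trichotomy (l1[s]'hs).1 (l2[t]'ht).1 with hlt | heq | hgt
      · have := hsep _ _ hlt
        cases h6 : (l2[t]'ht).2 <;> rw [h6] at hm h1s <;> simp only [sg, if_true, one_mul,
          Bool.false_eq_true, if_false, neg_mul] at hm h1s <;> omega
      · exact heq
      · have := hsep _ _ hgt
        cases h6 : (l2[t]'ht).2 <;> rw [h6] at hm h1s <;> simp only [sg, if_true, one_mul,
          Bool.false_eq_true, if_false, neg_mul] at hm h1s <;> omega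
    exact Prod.ext hidx.1 hidx.2
  -- (c)
  obtain ⟨t, htdef⟩ : ∃ t, t = ℓ b + C + 1 := ⟨_, rfl⟩
  have ht1 : t + 1 < l2.length := by omega
  have ht : t < l2.length := by omega
  obtain ⟨s, hs, hsame, hlet⟩ := hb t ht (by omega) (by omega)
  obtain ⟨s', hs', hsame', hlet'⟩ := hb (t + 1) ht1 (by omega) (by omega)
  have haltt : (l2[t]'ht).1 ≠ (l2[t+1]'ht1).1 := by
    have := List.isChain_iff_getElem.mp halt2 t (by omega)
    exact this
  have hNt := hN (l2[t]'ht).1
  have hne : s ≠ s' := by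
    rintro rfl
    rw [hlet] at hlet'
    exact haltt (congrArg Prod.fst hlet')
  have hnotsame : ∀ (u v : ℕ) (hu : u < l1.length) (hv : v < l1.length), u < v →
      ¬ SameL c (wline c f N l1 u hu) (wline c f N l1 v hv) := fun u v hu hv huv =>
    not_same_of_bound ps (a6 u v hu hv huv)
  have hlt : s < s' := by
    by_contra hcon
    have hlt' : s' < s := by omega
    have g1 := ha1 t ht (by omega)
    obtain ⟨k, hk⟩ := hsame
    obtain ⟨k', hk'⟩ := hsame'
    have g2 := b7 t (t + 1) ht ht1 (by omega) 0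
    have g3 := a6 s' s hs' hs hlt' k'
    have e1 := dl_left e b⁻¹ (wline c f N l2 t ht) b (wline c f N l2 (t + 1) ht1 * c ^ (0 : ℤ))
    have e2 : b⁻¹ * (wline c f N l2 (t + 1) ht1 * c ^ (0 : ℤ)) =
        wline c f N l1 s' hs' * c ^ k' := by rw [← hk', zpow_zero, mul_one]
    rw [inv_mul_cancel, e2, hk, ps.dl_coset] at e1
    have e3 := dl_add e (wline c f N l2 t ht) 1 b (wline c f N l2 (t + 1) ht1 * c ^ (0 : ℤ))
    rw [abs_le] at g1 g2 g3
    cases hb2 : (l2[t]'ht).2 <;> rw [hb2] at g2 <;> simp only [sg, if_true, one_mul,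
      Bool.false_eq_true, if_false, neg_mul] at g2 <;> omega
  have hsucc : s' = s + 1 := by
    by_contra hcon
    have hlt2 : s + 1 < s' := by omega
    have hs1 : s + 1 < l1.length := by omega
    have n1 : ¬ SameL c (wline c f N l2 t ht) (b * wline c f N l1 (s + 1) hs1) := by
      intro hsm
      apply hnotsame s (s + 1) hs hs1 (by omega)
      have q1 := same_left hsame
      obtain ⟨k, hk⟩ := same_trans q1 hsm
      exact ⟨k, by
        have := congrArg (fun z => b⁻¹ * z) hk
        simp only [inv_mul_cancel_left, mul_assoc] at this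
        exact this⟩
    have n2 : ¬ SameL c (wline c f N l2 (t + 1) ht1) (b * wline c f N l1 (s + 1) hs1) := by
      intro hsm
      apply hnotsame (s + 1) s' hs1 hs' hlt2
      have q1 := same_left hsame'
      obtain ⟨k, hk⟩ := (same_trans q1 hsm).symm
      exact ⟨k, by
        have := congrArg (fun z => b⁻¹ * z) hk
        simp only [inv_mul_cancel_left, mul_assoc] at this
        exact this⟩
    obtain ⟨k, hk⟩ := hsame
    obtain ⟨k', hk'⟩ := hsame'
    have g1 := b8 t ht1 (b * wline c f N l1 (s + 1) hs1) n1 n2 0 0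
    have e1 := dl_left e b (wline c f N l1 (s + 1) hs1) (wline c f N l1 s hs * c ^ k)
      (wline c f N l1 s' hs' * c ^ k')
    rw [← hk, ← hk', mul_inv_cancel_left, mul_inv_cancel_left] at e1
    rw [zpow_zero, mul_one, mul_one, e1, hk, hk'] at g1
    have g2 := a6 s (s + 1) hs hs1 (by omega) k
    have g3 := a7 (s + 1) s' hs1 hs' hlt2 k'
    have e2 := dl_add e (wline c f N l1 (s + 1) hs1) 1 (wline c f N l1 s hs * c ^ k)
      (wline c f N l1 s' hs' * c ^ k')
    have hNs := hN (l1[s+1]'hs1).1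
    rw [abs_le] at g1 g2 g3
    cases hb2 : (l1[s+1]'hs1).2 <;> rw [hb2] at g3 <;> simp only [sg, if_true, one_mul,
      Bool.false_eq_true, if_false, neg_mul] at g3 <;> omega
  subst hsucc
  -- (d)
  obtain ⟨k, hk⟩ := hsame
  obtain ⟨k', hk'⟩ := hsame'
  set P := wval c f N (l1.take (s + 1)) with hP
  set P' := wval c f N (l2.take (t + 1)) with hP'
  set x := P⁻¹ * b⁻¹ * P' with hx
  have hx1 : x = f (l2[t]'ht).1 * c ^ k * (f (l2[t]'ht).1)⁻¹ := by
    rw [bd_line c f N l1 s hs, bd_line c f N l2 t ht, hlet, ← hP, ← hP'] at hk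
    have h3 : b⁻¹ * P' * f (l2[t]'ht).1 = P * f (l2[t]'ht).1 * c ^ k := by
      have h4 : b⁻¹ * P' * f (l2[t]'ht).1 =
          (b⁻¹ * (P' * f (l2[t]'ht).1 * c ^ (-(sg (l2[t]'ht).2 * (N (l2[t]'ht).1 : ℤ))))) *
            c ^ (sg (l2[t]'ht).2 * (N (l2[t]'ht).1 : ℤ)) := by group
      rw [h4, hk]; group
    have h5 : x * f (l2[t]'ht).1 = f (l2[t]'ht).1 * c ^ k := by
      rw [hx]
      have : P⁻¹ * b⁻¹ * P' * f (l2[t]'ht).1 = P⁻¹ * (b⁻¹ * P' * f (l2[t]'ht).1) := by group
      rw [this, h3]; group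
    rw [← h5]; group
  have hx2 : x = f (l2[t+1]'ht1).1 * c ^ k' * (f (l2[t+1]'ht1).1)⁻¹ := by
    unfold wline at hk'
    rw [hlet', ← hP, ← hP'] at hk'
    have h5 : x * f (l2[t+1]'ht1).1 = f (l2[t+1]'ht1).1 * c ^ k' := by
      rw [hx]
      have : P⁻¹ * b⁻¹ * P' * f (l2[t+1]'ht1).1 = P⁻¹ * (b⁻¹ * (P' * f (l2[t+1]'ht1).1)) := by
        group
      rw [this, hk']; group
    rw [← h5]; group
  have hzinf : ∀ m : ℤ, m ≠ 0 → c ^ m ≠ 1 := by
    intro m hm hcm
    have h6 : c ^ m.natAbs = 1 := by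
      rcases Int.natAbs_eq m with h7 | h7
      · rw [← zpow_natCast, ← h7]; exact hcm
      · have h8 : c ^ (-(m.natAbs : ℤ)) = 1 := by rw [← h7]; exact hcm
        rw [zpow_neg, inv_eq_one, zpow_natCast] at h8
        exact h8
    exact hc.1 _ (Int.natAbs_pos.mpr hm) h6
  have hk0 : k = 0 := by
    by_contra hk0
    have hk0' : k' ≠ 0 := by
      rintro rfl
      rw [hx1, zpow_zero, mul_one, mul_inv_cancel] at hx2
      apply hzinf k hk0
      have h9 : c ^ k = (f (l2[t]'ht).1)⁻¹ * (f (l2[t]'ht).1 * c ^ k * (f (l2[t]'ht).1)⁻¹) *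
        f (l2[t]'ht).1 := by group
      rw [h9, hx2]; group
    obtain ⟨i, hi⟩ := hc.2 ((f (l2[t+1]'ht1).1)⁻¹ * f (l2[t]'ht).1) ⟨k, k', hk0, hk0', by
      rw [hx1] at hx2
      have h9 : (f (l2[t+1]'ht1).1)⁻¹ * f (l2[t]'ht).1 * c ^ k *
          ((f (l2[t+1]'ht1).1)⁻¹ * f (l2[t]'ht).1)⁻¹ = (f (l2[t+1]'ht1).1)⁻¹ *
          (f (l2[t]'ht).1 * c ^ k * (f (l2[t]'ht).1)⁻¹) * f (l2[t+1]'ht1).1 := by group
      rw [h9, hx2]; group⟩
    refine hf _ _ haltt.symm ⟨i, ?_⟩
    rw [← hi]; group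
  have hb' : b = P' * P⁻¹ := by
    rw [hk0, zpow_zero, mul_one, mul_inv_cancel] at hx1
    have h9 : b * P * x = P' := by rw [hx]; group
    rw [hx1, mul_one] at h9
    rw [← h9]; group
  have m1 := hpre1 s hs
  have m2 := hpre2 t ht
  rw [hlet] at m1
  rw [← hP] at m1
  rw [← hP'] at m2
  have h9 : b = (P' * (lastRep c f N (l2[t]'ht))⁻¹) * (P * (lastRep c f N (l2[t]'ht))⁻¹)⁻¹ := by
    rw [hb']; group
  rw [h9]
  exact H.mul_mem m2 (H.inv_mem m1)

end L2B
end

section

/-! # Finite groups; the vanishing theorem for all amenable groups -/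

noncomputable section

namespace MP42532b.L2

variable {G : Type*} [Group G] {d : ℕ} (s : Fin d → G)

/-- on a finite group the gradient of a harmonic function vanishes -/
theorem harmS_eq_bot_of_finite [Finite G] : harmS s = ⊥ := by
  rw [eq_bot_iff]
  rintro v ⟨f, hf, hv⟩
  rw [Submodule.mem_bot]
  have := Fintype.ofFinite G
  have h1 : ∀ i, ∑ g, f (g * s i) * (f (g * s i) - f g) =
      ∑ g, f g * (f g - f (g * (s i)⁻¹)) := by
    intro i
    refine Fintype.sum_equiv (Equiv.mulRight (s i)) _ _ fun g => ?_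
    simp
  have h2 : ∑ i, ∑ g, (f (g * s i) - f g) ^ 2 = 0 := by
    have h3 : ∀ i, ∑ g, (f (g * s i) - f g) ^ 2 =
        - ∑ g, f g * ((f (g * s i) - f g) + (f (g * (s i)⁻¹) - f g)) := by
      intro i
      have h4 : ∑ g, (f (g * s i) - f g) ^ 2 =
          ∑ g, f (g * s i) * (f (g * s i) - f g) - ∑ g, f g * (f (g * s i) - f g) := by
        rw [← Finset.sum_sub_distrib]
        exact Finset.sum_congr rfl fun g _ => by ring
      rw [h4, h1, ← Finset.sum_sub_distrib, ← Finset.sum_neg_distrib]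
      exact Finset.sum_congr rfl fun g _ => by ring
    simp_rw [h3]
    rw [Finset.sum_neg_distrib, Finset.sum_comm, neg_eq_zero]
    refine Finset.sum_eq_zero fun g _ => ?_
    rw [← Finset.mul_sum, hf g, mul_zero]
  ext ⟨g, i⟩
  have h3 := (Finset.sum_eq_zero_iff_of_nonneg fun i _ =>
    Finset.sum_nonneg fun g _ => sq_nonneg _).1 h2 i (Finset.mem_univ i)
  have h4 := (Finset.sum_eq_zero_iff_of_nonneg fun g _ => sq_nonneg _).1 h3 g (Finset.mem_univ g)
  rw [hv]
  exact pow_eq_zero_iff (two_ne_zero) |>.1 h4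

theorem beta_eq_zero_of_finite [Finite G] : beta s = 0 := by
  unfold beta
  rw [harmS_eq_bot_of_finite, vdim_bot]

/-- **amenable groups have vanishing first `L²`-Betti number** -/
theorem beta_eq_zero_of_amen' (hs : Function.Surjective (FreeGroup.lift s)) (hA : Amen G) :
    beta s = 0 := by
  rcases finite_or_infinite G with h | h
  · exact beta_eq_zero_of_finite s
  · exact beta_eq_zero_of_amen s hs hA

/-- **upper bound for the first `L²`-Betti number**, finite groups included -/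
theorem beta_lt_of_isOfFinOrder (hs : Function.Surjective (FreeGroup.lift s)) (hd : 2 ≤ d)
    (i : Fin d) (hi : 0 < orderOf (s i)) : beta s < (d : ℝ) - 1 := by
  have hd' : (2 : ℝ) ≤ d := by exact_mod_cast hd
  rcases finite_or_infinite G with h | h
  · rw [beta_eq_zero_of_finite]
    linarith
  · have h1 := beta_le s hs i hi
    have h2 : (0 : ℝ) < 1 / orderOf (s i) := by positivity
    linarith

end MP42532b.L2
end
end

section

namespace L2B
variable {A : Type*} [Group A] {ℓ : A → ℕ}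

private theorem dq_locP (h : GNorm ℓ) {δ : ℕ} (hyp : Hyp ℓ δ) (v : ℕ → A) (m R : ℕ)
    (hR : 2 * (3 * δ + 1) ≤ R)
    (hLG : ∀ i j, i ≤ j → j ≤ m → j - i ≤ R → gd ℓ (v i) (v j) = j - i) (i j : ℕ) (hij : i ≤ j)
    (hjm : j ≤ m) : j - i ≤ (3 * δ + 1) * (gd ℓ (v i) (v j) + 1) := by
  set r := 3 * δ + 1 with hr
  have hr0 : 0 < r := by omega
  set M := (j - i) / r with hM
  have hM1 : r * M ≤ j - i := Nat.mul_div_le (j - i) r
  have hM2 : j - i < r * (M + 1) := by
    have := Nat.lt_mul_div_succ (j - i) hr0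
    rw [← hM] at this; exact this
  clear_value M
  by_cases hM0 : M = 0
  · rw [hM0] at hM2
    have : r * (0 + 1) ≤ r * (gd ℓ (v i) (v j) + 1) := Nat.mul_le_mul_left _ (by omega)
    omega
  set p : ℕ → ℕ := fun l => min (i + r * l) j with hp
  have hpm : ∀ l, p l ≤ m := fun l => by simp only [hp]; omega
  have hstep : ∀ l, p l ≤ p (l + 1) ∧ p (l + 1) ≤ p l + r := by
    intro l
    have : r * (l + 1) = r * l + r := by ring
    simp only [hp]; rw [this]; omega
  have hpM : ∀ l, l ≤ M → p l = i + r * l := by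
    intro l hl
    have : r * l ≤ r * M := Nat.mul_le_mul_left _ hl
    simp only [hp]; omega
  have key := lg_progress h hyp (fun l => v (p l)) (fun _ => 0) (M + 1)
    (by
      intro l hl
      have s1 := hstep l
      have s2 := hstep (l + 1)
      have e1 : l + 1 + 1 = l + 2 := rfl
      rw [e1] at s2
      rw [hLG _ _ s1.1 (hpm _) (by omega), hLG _ _ s2.1 (hpm _) (by omega),
        hLG (p l) (p (l + 2)) (by omega) (hpm _) (by omega)]
      omega)
    (by
      intro l hl hl2
      have s1 := hstep l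
      rw [hLG _ _ s1.1 (hpm _) (by omega), hpM l (by omega), hpM (l + 1) (by omega)]
      have : r * (l + 1) = r * l + r := by ring
      omega) M (by omega) le_rfl
  have h01 : gd ℓ (v (p 0)) (v (p 1)) = r := by
    have s1 := hstep 0
    rw [hLG _ _ s1.1 (hpm _) (by simp only [Nat.zero_add] at s1 ⊢; omega), hpM 0 (by omega),
      hpM (0 + 1) (by omega)]
    omega
  have p0 : p 0 = i := by rw [hpM 0 (by omega)]; omega
  rw [h01, p0, hpM M le_rfl] at key
  have hlast : gd ℓ (v (i + r * M)) (v j) = j - (i + r * M) := by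
    have : r * (M + 1) = r * M + r := by ring
    exact hLG _ _ (by omega) hjm (by omega)
  have tri := h.gd_tri (v i) (v j) (v (i + r * M))
  have comm := h.gd_comm (v j) (v (i + r * M))
  have e1 : r * (M + 1) = r * M + r := by ring
  have hMd : M ≤ gd ℓ (v i) (v j) := by omega
  have : r * (M + 1) ≤ r * (gd ℓ (v i) (v j) + 1) := Nat.mul_le_mul_left _ (by omega)
  omega

private theorem dq_locQ (h : GNorm ℓ) {δ : ℕ} (hyp : Hyp ℓ δ) (v : ℕ → A) (m R : ℕ)
    (hR : 2 * (3 * δ + 1) ≤ R)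
    (hLG : ∀ i j, i ≤ j → j ≤ m → j - i ≤ R → gd ℓ (v i) (v j) = j - i) (t s : ℕ) (hts : t ≤ s)
    (hsm : s ≤ m) : gd ℓ (v 0) (v t) + gd ℓ (v t) (v s) ≤ gd ℓ (v 0) (v s) + 4 * δ := by
  set r := 3 * δ + 1 with hr
  have hr0 : 0 < r := by omega
  set a := t / r with ha
  set ρ := t % r with hρ
  have hρr : ρ < r := Nat.mod_lt _ hr0
  have hta : r * a + ρ = t := Nat.div_add_mod t r
  set b := (s - t) / r with hb
  have hb1 : r * b ≤ s - t := Nat.mul_div_le (s - t) r
  have hb2 : s - t < r * (b + 1) := by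
    have := Nat.lt_mul_div_succ (s - t) hr0
    rw [← hb] at this; exact this
  clear_value a b ρ
  set p : ℕ → ℕ := fun l => min (ρ + r * l - r) s with hp
  have hpm : ∀ l, p l ≤ m := fun l => by simp only [hp]; omega
  have hstep : ∀ l, p l ≤ p (l + 1) ∧ p (l + 1) ≤ p l + r := by
    intro l
    have : r * (l + 1) = r * l + r := by ring
    simp only [hp]; rw [this]; omega
  have hpM : ∀ l, l ≤ a + b → p (l + 1) = ρ + r * l := by
    intro l hl
    have h1 : r * l ≤ r * (a + b) := Nat.mul_le_mul_left _ hl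
    have h2 : r * (a + b) = r * a + r * b := by ring
    have : r * (l + 1) = r * l + r := by ring
    simp only [hp]; rw [this]; omega
  have key := lg2 h hyp (fun l => v (p l)) (fun _ => 0) (a + b + 2)
    (by
      intro l hl
      have s1 := hstep l
      have s2 := hstep (l + 1)
      have e1 : l + 1 + 1 = l + 2 := rfl
      rw [e1] at s2
      rw [hLG _ _ s1.1 (hpm _) (by omega), hLG _ _ s2.1 (hpm _) (by omega),
        hLG (p l) (p (l + 2)) (by omega) (hpm _) (by omega)]
      omega)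
    (by
      intro l hl hl2
      obtain ⟨l', rfl⟩ : ∃ l', l = l' + 1 := ⟨l - 1, by omega⟩
      have s1 := hstep (l' + 1)
      rw [hLG _ _ s1.1 (hpm _) (by omega), hpM l' (by omega), hpM (l' + 1) (by omega)]
      have : r * (l' + 1) = r * l' + r := by ring
      omega) (a + 1) (by omega) (by omega)
  have p0 : p 0 = 0 := by simp only [hp]; omega
  have p1 : p (a + 1) = t := by rw [hpM a (by omega)]; omega
  have p2 : p (a + b + 2) = s := by
    have h1 : r * (b + 1) = r * b + r := by ring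
    have h2 : r * (a + b + 2) = r * a + r * b + r + r := by ring
    simp only [hp]; rw [h2]; omega
  rw [p0, p1, p2] at key
  omega

/-- discrete continuity -/
private theorem dq_ivt (f : ℕ → ℕ) (m T : ℕ) (h0 : f 0 = 0) (hT : T ≤ f m)
    (hs : ∀ i < m, f (i + 1) ≤ f i + 1) : ∃ s ≤ m, f s = T := by
  induction m with
  | zero => exact ⟨0, le_rfl, by omega⟩
  | succ m ih =>
    by_cases hc : T ≤ f m
    · obtain ⟨s, h1, h2⟩ := ih hc (fun i hi => hs i (by omega))
      exact ⟨s, by omega, h2⟩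
    · have := hs m (by omega)
      exact ⟨m + 1, le_rfl, by omega⟩

private theorem dq_near (h : GNorm ℓ) {δ : ℕ} (hyp : Hyp ℓ δ) (v : ℕ → A) (m κ : ℕ)
    (hstep : ∀ i < m, gd ℓ (v i) (v (i + 1)) ≤ 1)
    (hQ : ∀ t ≤ m, gd ℓ (v 0) (v t) + gd ℓ (v t) (v m) ≤ gd ℓ (v 0) (v m) + 4 * δ) (X : A)
    (hX : gd ℓ (v 0) X + gd ℓ X (v m) ≤ gd ℓ (v 0) (v m) + 2 * κ) :
    ∃ s ≤ m, gd ℓ (v s) X ≤ 2 * κ + 6 * δ := by
  by_cases hc : gd ℓ (v 0) X ≤ gd ℓ (v 0) (v m)
  · obtain ⟨s, hs, he⟩ := dq_ivt (fun i => gd ℓ (v 0) (v i)) m (gd ℓ (v 0) X)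
      (h.gd_self _) hc (by
        intro i hi
        have := hstep i hi
        have := h.gd_tri (v 0) (v i) (v (i + 1))
        omega)
    refine ⟨s, hs, ?_⟩
    have H := hyp (v s) X (v 0) (v m)
    have q := hQ s hs
    have c1 := h.gd_comm (v s) (v 0)
    have c2 := h.gd_comm X (v 0)
    omega
  · refine ⟨m, le_rfl, ?_⟩
    have c1 := h.gd_comm (v m) X
    omega

private theorem dq_pow (h : GNorm ℓ) (u : A) (k : ℕ) : ℓ (u ^ k) ≤ k * ℓ u := by
  induction k with
  | zero => simp [h.one]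
  | succ k ih =>
    rw [pow_succ]
    have := h.mul (u ^ k) u
    nlinarith

/-- (7.2): the quotient has the Dehn property -/
theorem dehn_quot (h : GNorm ℓ) {δ : ℕ} (hyp : Hyp ℓ δ) {w : A} {e : A → ℤ} {κ : ℕ}
    (ps : PS ℓ w κ e) (C : ℕ) : ∃ N : ℕ, ∀ n : ℕ, N ≤ n → Green w e n C →
      ∀ (A' : Type) [Group A'] (q : A →* A') (ℓ' : A' → ℕ), Function.Surjective q → q.ker = KK w n → QNorm q ℓ ℓ' →
        ∃ R, DehnP ℓ' R := by
  set r := 3 * δ + 1 with hr
  set D := 2 * κ + 6 * δ with hD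
  refine ⟨C + κ + κ * (4 * D + C * ℓ w + 2) + 1, ?_⟩
  intro n hn hG A' _ q ℓ' hq hker hqn
  have h' : GNorm ℓ' := QNorm.gnorm hq hqn h
  refine ⟨4 * r + r * (n * ℓ w + 2 * D + 3), ?_⟩
  set R := 4 * r + r * (n * ℓ w + 2 * D + 3) with hRdef
  intro m v' hm hclosed hstep'
  by_contra hcon
  push Not at hcon
  -- the lift
  obtain ⟨x0, hx0⟩ := hq (v' 0)
  have hF : ∀ (i : ℕ) (x : A), ∃ y, q y = v' (i + 1) ∧ gd ℓ x y = gd ℓ' (q x) (v' (i + 1)) :=
    fun i x => hqn.lift_gd x (v' (i + 1))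
  choose F hF1 hF2 using hF
  set v : ℕ → A := fun i => Nat.rec x0 (fun i x => F i x) i with hv
  have hv0 : v 0 = x0 := rfl
  have hvs : ∀ i, v (i + 1) = F i (v i) := fun i => rfl
  have hqv : ∀ i, q (v i) = v' i := by
    intro i
    rcases i with _ | i
    · rw [hv0]; exact hx0
    · rw [hvs]; exact hF1 _ _
  have hstep : ∀ i < m, gd ℓ (v i) (v (i + 1)) ≤ 1 := by
    intro i hi
    rw [hvs, hF2, hqv]
    exact hstep' i hi
  have hup : ∀ i j, i ≤ j → j ≤ m → gd ℓ (v i) (v j) ≤ j - i := by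
    intro i j hij
    induction j, hij using Nat.le_induction with
    | base => intro _; rw [h.gd_self]; omega
    | succ j hj ih =>
      intro hjm
      have h1 := ih (by omega)
      have h2 := hstep j (by omega)
      have h3 := h.gd_tri (v i) (v j) (v (j + 1))
      omega
  have hlow : ∀ i j, i ≤ j → j ≤ m → j - i ≤ R → j - i ≤ gd ℓ' (v' i) (v' j) := by
    intro i j hij hjm hR
    rcases Nat.eq_or_lt_of_le hij with h1 | h1
    · omega
    · exact hcon i j h1 hjm hR
  have hLG' : ∀ i j, i ≤ j → j ≤ m → j - i ≤ R → gd ℓ' (v' i) (v' j) = gd ℓ (v i) (v j) := by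
    intro i j hij hjm hR
    have h1 := hlow i j hij hjm hR
    have h2 := hup i j hij hjm
    have h3 := hqn.gd_le (v i) (v j)
    rw [hqv, hqv] at h3
    omega
  have hLG : ∀ i j, i ≤ j → j ≤ m → j - i ≤ R → gd ℓ (v i) (v j) = j - i := by
    intro i j hij hjm hR
    have h1 := hlow i j hij hjm hR
    have h2 := hup i j hij hjm
    have h3 := hqn.gd_le (v i) (v j)
    rw [hqv, hqv] at h3
    omega
  have hr4 : 4 * r ≤ R := by rw [hRdef]; omega
  have hmR : R < m := by
    by_contra hc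
    have := hcon 0 m (by omega) le_rfl (by omega)
    rw [hclosed, h'.gd_self] at this
    omega
  have hP := dq_locP h hyp v m R (by omega) hLG
  rw [← hr] at hP
  have hQ := dq_locQ h hyp v m R (by omega) hLG
  -- the element k
  set k := v m * (v 0)⁻¹ with hk
  have hkm : k * v 0 = v m := by rw [hk]; group
  have hkK : k ∈ KK w n := by
    rw [← hker, MonoidHom.mem_ker, hk, map_mul, map_inv, hqv, hqv, hclosed]
    group
  have hk1 : k ≠ 1 := by
    intro hc
    rw [hc, one_mul] at hkm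
    have h1 := hQ r m (by omega) le_rfl
    rw [← hkm] at h1
    have h2 := hLG 0 r (by omega) (by omega) (by omega)
    have h3 := h.gd_comm (v r) (v 0)
    have h4 := h.gd_self (v 0)
    omega
  obtain ⟨g, hg⟩ := hG k hkK hk1 (v 0)
  rw [hkm] at hg
  set x := g⁻¹ * v 0 with hx
  set z := g⁻¹ * v m with hz
  have hdl : dl e g (v 0) (v m) = e z - e x := rfl
  rw [hdl] at hg
  have hκ : (κ : ℤ) < |e z - e x| := by
    have : ((C + κ + κ * (4 * D + C * ℓ w + 2) + 1 : ℕ) : ℤ) ≤ n := by exact_mod_cast hn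
    have h2 : (0 : ℤ) ≤ (κ * (4 * D + C * ℓ w + 2) : ℕ) := by positivity
    push_cast at *
    linarith
  have hpass := ps.pass x z hκ
  -- sign
  obtain ⟨B, hB, σ, hσ, hBe⟩ : ∃ B : ℕ, |e z - e x| = B ∧ ∃ σ : ℤ, (σ = 1 ∨ σ = -1) ∧
      e z - e x = σ * B := by
    refine ⟨(e z - e x).natAbs, by simp, ?_⟩
    rcases le_total 0 (e z - e x) with h0 | h0
    · exact ⟨1, Or.inl rfl, by omega⟩
    · exact ⟨-1, Or.inr rfl, by omega⟩
  rw [hB] at hg hκ
  have hℓσ : ∀ i : ℕ, ℓ (w ^ (σ * (i : ℤ))) = ℓ (w ^ i) := by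
    intro i
    rcases hσ with rfl | rfl
    · rw [one_mul, zpow_natCast]
    · rw [neg_one_mul, zpow_neg, h.inv, zpow_natCast]
  set n' := min n B with hn'
  have hn'1 : n - n' ≤ C := by omega
  have hn'2 : n' ≤ n := by omega
  have hn'3 : n' ≤ B := by omega
  set p := g * w ^ (e x) with hp
  set Q := g * w ^ (e x + σ * n') with hQdef
  have hpass' : gd ℓ (v 0) p + ℓ (w ^ B) + gd ℓ (g * w ^ (e z)) (v m) ≤ gd ℓ (v 0) (v m) + κ := by
    have e1 : gd ℓ x (w ^ e x) = gd ℓ (v 0) p := by
      rw [← gd_left ℓ g x]; congr 1; rw [hx]; group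
    have e2 : gd ℓ (w ^ e z) z = gd ℓ (g * w ^ (e z)) (v m) := by
      rw [← gd_left ℓ g (w ^ e z)]; congr 1; rw [hz]; group
    have e3 : gd ℓ x z = gd ℓ (v 0) (v m) := by
      rw [hx, hz, gd_left]
    rw [hBe, hℓσ, e1, e2, e3] at hpass
    exact hpass
  have hax := ps.ax n' (B - n')
  have hBn : n' + (B - n') = B := by omega
  rw [hBn] at hax
  have hpQ : gd ℓ p Q = ℓ (w ^ n') := by
    have : p⁻¹ * Q = w ^ (σ * (n' : ℤ)) := by
      rw [hp, hQdef, zpow_add]; group
    unfold gd; rw [this, hℓσ]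
  have hQq : gd ℓ Q (g * w ^ (e z)) = ℓ (w ^ (B - n')) := by
    have hez : e z = e x + σ * B := by linarith
    have h3 : ((B - n' : ℕ) : ℤ) = B - n' := by push_cast [Nat.cast_sub hn'3]; rfl
    have : Q⁻¹ * (g * w ^ (e z)) = w ^ (σ * ((B - n' : ℕ) : ℤ)) := by
      rw [hQdef, hez, h3]
      have : (g * w ^ (e x + σ * (n' : ℤ)))⁻¹ * (g * w ^ (e x + σ * (B : ℤ))) =
        w ^ (-(e x + σ * (n' : ℤ)) + (e x + σ * (B : ℤ))) := by
        rw [mul_inv_rev, ← zpow_neg, zpow_add w (-(e x + σ * (n' : ℤ)))]; group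
      rw [this]; congr 1; ring
    unfold gd; rw [this, hℓσ]
  have hmain : gd ℓ (v 0) p + gd ℓ p Q + gd ℓ Q (v m) ≤ gd ℓ (v 0) (v m) + 2 * κ := by
    have t1 := h.gd_tri Q (g * w ^ (e z)) (v m)
    omega
  -- near points
  obtain ⟨s, hsm, hs⟩ := dq_near h hyp v m κ hstep (fun t ht => hQ t m ht le_rfl) p (by
    have := h.gd_tri p Q (v m)
    omega)
  obtain ⟨t, htm, ht⟩ := dq_near h hyp v m κ hstep (fun t ht => hQ t m ht le_rfl) Q (by
    have := h.gd_tri (v 0) p Q
    omega)
  rw [← hD] at hs ht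
  have hpQn : gd ℓ p Q ≤ n * ℓ w := by
    rw [hpQ]
    exact (dq_pow h w n').trans (Nat.mul_le_mul_right _ hn'2)
  have hst : gd ℓ (v s) (v t) ≤ gd ℓ p Q + 2 * D := by
    have t1 := h.gd_tri (v s) p (v t)
    have t2 := h.gd_tri p Q (v t)
    have c := h.gd_comm Q (v t)
    omega
  have hst2 : gd ℓ p Q ≤ gd ℓ (v s) (v t) + 2 * D := by
    have t1 := h.gd_tri p (v s) Q
    have t2 := h.gd_tri (v s) (v t) Q
    have c := h.gd_comm p (v s)
    omega
  have heq : gd ℓ' (v' s) (v' t) = gd ℓ (v s) (v t) := by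
    have hb : r * (gd ℓ (v s) (v t) + 1) ≤ R := by
      have : r * (gd ℓ (v s) (v t) + 1) ≤ r * (n * ℓ w + 2 * D + 3) :=
        Nat.mul_le_mul_left _ (by omega)
      omega
    rcases le_total s t with h1 | h1
    · have := hP s t h1 htm
      exact hLG' s t h1 htm (by omega)
    · have h2 := hP t s h1 hsm
      rw [h.gd_comm (v t) (v s)] at h2
      rw [h.gd_comm (v s) (v t), h'.gd_comm (v' s) (v' t)]
      exact hLG' t s h1 hsm (by omega)
  -- shortcut in the quotient
  have hshort : gd ℓ' (q p) (q Q) ≤ C * ℓ w := by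
    set k2 := g * w ^ (-(σ * (n : ℤ))) * g⁻¹ with hk2
    have hk2K : k2 ∈ KK w n := by
      have hwn : w ^ n ∈ KK w n := Subgroup.subset_normalClosure rfl
      have hnorm : (KK w n).Normal := Subgroup.normalClosure_normal
      have h1 : w ^ (-(σ * (n : ℤ))) ∈ KK w n := by
        rcases hσ with rfl | rfl
        · rw [one_mul, zpow_neg, zpow_natCast]; exact (KK w n).inv_mem hwn
        · rw [neg_one_mul, neg_neg, zpow_natCast]; exact hwn
      exact hnorm.conj_mem _ h1 g
    have hqk2 : q k2 = 1 := by rw [← MonoidHom.mem_ker, hker]; exact hk2K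
    have hqQ : q (k2 * Q) = q Q := by rw [map_mul, hqk2, one_mul]
    rw [← hqQ]
    refine (hqn.gd_le p (k2 * Q)).trans ?_
    have h3 : ((n - n' : ℕ) : ℤ) = n - n' := by push_cast [Nat.cast_sub hn'2]; rfl
    have h4 : p⁻¹ * (k2 * Q) = (w ^ (σ * ((n - n' : ℕ) : ℤ)))⁻¹ := by
      rw [hp, hk2, hQdef, h3]
      have : (g * w ^ e x)⁻¹ * (g * w ^ (-(σ * (n : ℤ))) * g⁻¹ * (g * w ^ (e x + σ * (n' : ℤ)))) =
          w ^ (-(e x) + -(σ * (n : ℤ)) + (e x + σ * (n' : ℤ))) := by
        rw [zpow_add w (-(e x) + -(σ * (n : ℤ))), zpow_add w (-(e x)), zpow_neg w (e x)]; group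
      rw [this, ← zpow_neg]; congr 1; ring
    unfold gd
    rw [h4, h.inv, hℓσ]
    exact (dq_pow h w _).trans (Nat.mul_le_mul_right _ hn'1)
  have hfin : gd ℓ' (v' s) (v' t) ≤ 2 * D + C * ℓ w := by
    have t1 := h'.gd_tri (v' s) (q p) (v' t)
    have t2 := h'.gd_tri (q p) (q Q) (v' t)
    have l1 := hqn.gd_le (v s) p
    have l2 := hqn.gd_le (v t) Q
    rw [hqv] at l1 l2
    have c := h'.gd_comm (q Q) (v' t)
    omega
  have hfin2 : ℓ (w ^ n') ≤ 4 * D + C * ℓ w := by omega
  have hlo := ps.low (n' : ℤ)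
  rw [zpow_natCast, Nat.abs_cast] at hlo
  have hlo2 : n' ≤ κ * (ℓ (w ^ n') + 1) := by exact_mod_cast hlo
  have hlo3 : κ * (ℓ (w ^ n') + 1) ≤ κ * (4 * D + C * ℓ w + 2) := Nat.mul_le_mul_left _ (by omega)
  omega

end L2B
end
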