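import Pool.Agent.Lib.MP_42532b_al.Root

/-!
# Torsion data (section 10)

`R` is the normal closure of the elements `w i ^ n i` (`n i` odd primes), `w i` has order exactly
`n i` modulo `R`, and the relation module `R / [R, R]` is the permutation module on
`Ω = ⨆ i, F ⧸ ⟨w i⟩ R` (`inv` gives the coordinate functions).
-/

namespace L2B

/-- the group `⟨w⟩ R` -/
def EE {F : Type} [Group F] (R : Subgroup F) (w : F) : Subgroup F := R ⊔ Subgroup.zpowers w

theorem mem_EE {F : Type} [Group F] (R : Subgroup F) [R.Normal] (w g : F) :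
    g ∈ EE R w ↔ ∃ k : ℤ, g * w ^ k ∈ R := by
  unfold EE
  constructor
  · intro hg
    rw [← SetLike.mem_coe, Subgroup.normal_mul, Set.mem_mul] at hg
    obtain ⟨r, hr, z, hz, rfl⟩ := hg
    obtain ⟨k, rfl⟩ := Subgroup.mem_zpowers_iff.1 hz
    exact ⟨-k, by rw [mul_assoc, ← zpow_add]; simpa using hr⟩
  · rintro ⟨k, hk⟩
    have : g = (g * w ^ k) * w ^ (-k) := by rw [mul_assoc, ← zpow_add]; simp
    rw [this]
    exact Subgroup.mul_mem_sup hk (Subgroup.zpow_mem _ (Subgroup.mem_zpowers w) _)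

structure TD {F : Type} [Group F] (R : Subgroup F) {ι : Type} (w : ι → F) (n : ι → ℕ) :
    Prop where
  prime : ∀ i, (n i).Prime
  odd : ∀ i, n i ≠ 2
  ord : ∀ i (j : ℤ), w i ^ j ∈ R ↔ (n i : ℤ) ∣ j
  gen : R = Subgroup.normalClosure (Set.range fun i => w i ^ n i)
  inv : ∀ i, ∃ φ : R →* Multiplicative ℤ,
    (∀ g (hg : g * w i ^ n i * g⁻¹ ∈ R), g ∈ EE R (w i) → φ ⟨_, hg⟩ = Multiplicative.ofAdd 1) ∧
    (∀ g (hg : g * w i ^ n i * g⁻¹ ∈ R), g ∉ EE R (w i) → φ ⟨_, hg⟩ = 1) ∧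
    (∀ j, j ≠ i → ∀ g (hg : g * w j ^ n j * g⁻¹ ∈ R), φ ⟨_, hg⟩ = 1)

/-- the points of `Ω` -/
abbrev Om {F : Type} [Group F] (R : Subgroup F) {ι : Type} (w : ι → F) : Type :=
  Σ i, F ⧸ EE R (w i)

/-- normal closure of `R` and `v ^ p` -/
def adj {F : Type} [Group F] (R : Subgroup F) (v : F) (p : ℕ) : Subgroup F :=
  Subgroup.normalClosure ((R : Set F) ∪ {v ^ p})

end L2B
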