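import Mathlib
import Pool.Agent.Lib.MP_42532b_al.TD

section

namespace L2B

/-- (10.3), for a finite set -/
private theorem fix_count_fin {P Y : Type} [Group P] [Fintype P] [Fintype Y] [MulAction P Y]
    (hP : 1 < Fintype.card P) (y₀ : Y)
    (h0 : ∀ y : Y, ∃ p : P, p ≠ 1 ∧ p • y = y)
    (h1 : ∀ p : P, p ≠ 1 → ∃ y : Y, p • y = y)
    (h2 : ∀ p : P, p ≠ 1 → ∀ x y : Y, p • x = x → p • y = y → x = y) :
    Fintype.card Y = 1 := by
  classical
  have hB := MulAction.sum_card_fixedBy_eq_card_orbits_mul_card_group P Y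
  have hS := MulAction.card_eq_sum_card_group_div_card_stabilizer P Y
  have hfix : ∀ p : P, p ≠ 1 → Fintype.card (MulAction.fixedBy Y p) = 1 := by
    intro p hp
    obtain ⟨y, hy⟩ := h1 p hp
    rw [Fintype.card_eq_one_iff]
    refine ⟨⟨y, hy⟩, ?_⟩
    rintro ⟨z, hz⟩
    exact Subtype.ext (h2 p hp z y hz hy)
  have hone : Fintype.card (MulAction.fixedBy Y (1 : P)) = Fintype.card Y := by
    apply Fintype.card_congr
    exact ⟨fun y => y.1, fun y => ⟨y, by simp⟩, fun y => rfl, fun y => rfl⟩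
  rw [← Finset.add_sum_erase _ _ (Finset.mem_univ (1 : P)), hone,
    Finset.sum_congr rfl (fun p hp => hfix p (Finset.ne_of_mem_erase hp)),
    Finset.sum_const, Finset.card_erase_of_mem (Finset.mem_univ _), Finset.card_univ,
    smul_eq_mul, mul_one] at hB
  have hle : Fintype.card Y ≤
      Fintype.card (Quotient (MulAction.orbitRel P Y)) * (Fintype.card P / 2) := by
    rw [hS]
    refine (Finset.sum_le_card_nsmul Finset.univ _ (Fintype.card P / 2) fun ω _ => ?_).trans
      (by rw [Finset.card_univ, smul_eq_mul])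
    apply Nat.div_le_div_left _ (by norm_num)
    rw [Nat.succ_le_iff, Fintype.one_lt_card_iff]
    obtain ⟨p, hp, hpy⟩ := h0 (Quotient.out ω)
    exact ⟨⟨p, hpy⟩, 1, fun H => hp (congrArg Subtype.val H)⟩
  have hpos : 0 < Fintype.card Y := Fintype.card_pos_iff.mpr ⟨y₀⟩
  set k := Fintype.card (Quotient (MulAction.orbitRel P Y))
  set N := Fintype.card P
  have hk : k = 1 := by
    have h3 : 2 * (k * (N / 2)) ≤ k * N := by
      have : 2 * (N / 2) ≤ N := Nat.mul_div_le N 2
      nlinarith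
    have hk0 : k ≠ 0 := by
      rintro hk0
      rw [hk0] at hle
      omega
    by_contra hk1
    have h4 : 2 * N ≤ k * N := Nat.mul_le_mul_right _ (by omega)
    omega
  rw [hk] at hB
  omega

/-- (10.3) -/
theorem fix_count {P X : Type} [Group P] [Finite P] [Nontrivial P] [MulAction P X]
    (h1 : ∀ p : P, p ≠ 1 → ∃ x : X, p • x = x)
    (h2 : ∀ p : P, p ≠ 1 → ∀ x y : X, p • x = x → p • y = y → x = y) :
    ∃ x : X, ∀ p : P, p • x = x := by
  classical
  have := Fintype.ofFinite P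
  -- the set of the points with nontrivial stabilizer
  let Y : SubMulAction P X :=
    { carrier := {x | ∃ p : P, p ≠ 1 ∧ p • x = x}
      smul_mem' := by
        rintro q x ⟨p, hp, hpx⟩
        refine ⟨q * p * q⁻¹, ?_, ?_⟩
        · intro H
          apply hp
          have : p = q⁻¹ * (q * p * q⁻¹) * q := by group
          rw [this, H]
          group
        · rw [mul_smul, mul_smul, inv_smul_smul, hpx] }
  have hfin : Finite Y := by
    have hsurj : ∀ y : Y, ∃ p : {p : P // p ≠ 1}, p.1 • (y : X) = y := by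
      rintro ⟨y, p, hp, hpy⟩
      exact ⟨⟨p, hp⟩, hpy⟩
    choose f hf using hsurj
    refine Finite.of_injective f ?_
    intro y z hyz
    apply Subtype.ext
    apply h2 (f y).1 (f y).2 _ _ (hf y)
    rw [hyz]
    exact hf z
  have := Fintype.ofFinite Y
  obtain ⟨p₀, hp₀⟩ := exists_ne (1 : P)
  obtain ⟨x₀, hx₀⟩ := h1 p₀ hp₀
  have hcard := fix_count_fin (P := P) (Y := Y)
    (Fintype.one_lt_card_iff.mpr ⟨p₀, 1, hp₀⟩) ⟨x₀, p₀, hp₀, hx₀⟩
    (by
      rintro ⟨y, p, hp, hpy⟩
      exact ⟨p, hp, Subtype.ext hpy⟩)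
    (by
      intro p hp
      obtain ⟨x, hx⟩ := h1 p hp
      exact ⟨⟨x, p, hp, hx⟩, Subtype.ext hx⟩)
    (by
      intro p hp x y hx hy
      exact Subtype.ext (h2 p hp _ _ (congrArg Subtype.val hx) (congrArg Subtype.val hy)))
  obtain ⟨y, hy⟩ := Fintype.card_eq_one_iff.mp hcard
  exact ⟨(y : X), fun p => congrArg Subtype.val (hy (p • y))⟩

end L2B
end

section

namespace L2B


/-- roots in the derived subgroup of a free group -/
theorem pow_mem_commutator {G : Type} [Group G] [IsFreeGroup G] (x : G) (p : ℕ) (hp : 0 < p)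
    (hx : x ^ p ∈ commutator G) : x ∈ commutator G := by
  let e := IsFreeGroup.toFreeGroup G
  let X := IsFreeGroup.Generators G
  -- the class of e x is trivial
  have h1 : (Abelianization.of (e x)) ^ p = 1 := by
    have h2 : commutator G ≤ ((Abelianization.of (G := FreeGroup X)).comp e.toMonoidHom).ker :=
      Abelianization.commutator_subset_ker _
    have h3 := h2 hx
    rw [MonoidHom.mem_ker, map_pow] at h3
    exact h3
  have h4 : Abelianization.of (e x) = 1 := by
    obtain ⟨y, hy⟩ : ∃ y : FreeAbelianGroup X, y = Additive.ofMul (Abelianization.of (e x)) :=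
      ⟨_, rfl⟩
    have h6 : p • y = (0 : FreeAbelianGroup X) := by
      rw [hy]
      exact congrArg Additive.ofMul h1
    obtain ⟨v, hv⟩ : ∃ v : X →₀ ℤ, v = FreeAbelianGroup.equivFinsupp X y := ⟨_, rfl⟩
    have h5 : p • v = 0 := by
      rw [hv, ← map_nsmul, h6, map_zero]
    have h8 : v = 0 := by
      ext a
      have h9 := congrArg (fun u : X →₀ ℤ => u a) h5
      simp only [Finsupp.smul_apply, Finsupp.coe_zero, Pi.zero_apply, nsmul_eq_mul] at h9
      rcases mul_eq_zero.1 h9 with h10 | h10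
      · exact absurd (by exact_mod_cast h10) hp.ne'
      · exact h10
    have h11 : y = 0 := by
      apply (FreeAbelianGroup.equivFinsupp X).injective
      rw [← hv, h8, map_zero]
    rw [hy] at h11
    exact Additive.ofMul.injective h11
  have h12 : e x ∈ commutator (FreeGroup X) := by
    rw [← Abelianization.ker_of, MonoidHom.mem_ker]
    exact h4
  have h13 : commutator (FreeGroup X) ≤
      ((Abelianization.of (G := G)).comp e.symm.toMonoidHom).ker :=
    Abelianization.commutator_subset_ker _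
  have h14 := h13 h12
  rw [MonoidHom.mem_ker] at h14
  rw [← Abelianization.ker_of, MonoidHom.mem_ker]
  have h15 : ((Abelianization.of (G := G)).comp e.symm.toMonoidHom) (e x) =
      Abelianization.of x := by
    simp
  rw [← h15]
  exact h14


section tde
variable {F : Type} [Group F] (R : Subgroup F) {ι : Type} {w : ι → F} {n : ι → ℕ}

/-- the point of `Ω` with representative `g` -/
private def tdePt (R : Subgroup F) (w : ι → F) (i : ι) (g : F) : Om R w :=
  ⟨i, (g : F ⧸ EE R (w i))⟩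

private theorem tdePt_eq_iff (i : ι) (g g' : F) :
    tdePt R w i g = tdePt R w i g' ↔ g⁻¹ * g' ∈ EE R (w i) := by
  unfold tdePt
  rw [Sigma.mk.injEq, heq_eq_eq, QuotientGroup.eq]
  simp

private theorem tdePt_surj (x : Om R w) : ∃ i g, x = tdePt R w i g := by
  obtain ⟨i, q⟩ := x
  induction q using QuotientGroup.induction_on with
  | H g => exact ⟨i, g, rfl⟩

private theorem tdePt_smul (f g : F) (i : ι) : f • tdePt R w i g = tdePt R w i (f * g) := rfl

variable [R.Normal]

/-- conjugation on `R` -/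
private def tdeC (g : F) : R →* R := (MulAut.conjNormal (H := R) g).toMonoidHom

private theorem tdeC_coe (g : F) (u : R) : ((tdeC R g u : R) : F) = g * u * g⁻¹ :=
  MulAut.conjNormal_apply g u

private theorem tde_gen_mem (td : TD R w n) (j : ι) (a : F) : a * w j ^ n j * a⁻¹ ∈ R := by
  refine Subgroup.Normal.conj_mem inferInstance _ ?_ a
  have h := (td.ord j (n j)).2 dvd_rfl
  rwa [zpow_natCast] at h

/-- induction on `R` -/
private theorem tde_ind (td : TD R w n) {P : R → Prop} (h1 : P 1)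
    (hmul : ∀ u v, P u → P v → P (u * v)) (hinv : ∀ u, P u → P u⁻¹)
    (hgen : ∀ j a (h : a * w j ^ n j * a⁻¹ ∈ R), P ⟨_, h⟩) (u : R) : P u := by
  obtain ⟨u, hu⟩ := u
  have hu' : u ∈ Subgroup.closure (Group.conjugatesOfSet (Set.range fun i => w i ^ n i)) := by
    have h := hu
    rw [td.gen] at h
    exact h
  have key : ∃ hR : u ∈ R, P ⟨u, hR⟩ := by
    refine Subgroup.closure_induction (p := fun u _ => ∃ hR : u ∈ R, P ⟨u, hR⟩)
      ?_ ?_ ?_ ?_ hu'
    · intro x hx
      obtain ⟨a, ⟨j, rfl⟩, hc⟩ := Group.mem_conjugatesOfSet_iff.1 hx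
      obtain ⟨g, rfl⟩ := isConj_iff.1 hc
      have hR : g * w j ^ n j * g⁻¹ ∈ R := tde_gen_mem R td j g
      exact ⟨hR, hgen j g hR⟩
    · exact ⟨R.one_mem, h1⟩
    · rintro x y - - ⟨hx, hPx⟩ ⟨hy, hPy⟩
      exact ⟨R.mul_mem hx hy, hmul _ _ hPx hPy⟩
    · rintro x - ⟨hx, hPx⟩
      exact ⟨R.inv_mem hx, hinv _ hPx⟩
  exact key.2

/-- the coordinate functions -/
private theorem tde_coord (td : TD R w n) : ∃ c : Om R w → R → ℤ,
    (∀ x, c x 1 = 0) ∧ (∀ x u v, c x (u * v) = c x u + c x v) ∧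
    (∀ x j a (h : a * w j ^ n j * a⁻¹ ∈ R), (x = tdePt R w j a → c x ⟨_, h⟩ = 1) ∧
      (x ≠ tdePt R w j a → c x ⟨_, h⟩ = 0)) ∧
    (∀ (f : F) x u, c (f • x) (tdeC R f u) = c x u) := by
  classical
  choose φ h1 h2 h3 using td.inv
  -- values for a representative
  have hval : ∀ i g j a (h : a * w j ^ n j * a⁻¹ ∈ R),
      (tdePt R w i g = tdePt R w j a → φ i (tdeC R g⁻¹ ⟨_, h⟩) = Multiplicative.ofAdd 1) ∧
      (tdePt R w i g ≠ tdePt R w j a → φ i (tdeC R g⁻¹ ⟨_, h⟩) = 1) := by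
    intro i g j a h
    have e1 : (g⁻¹ * a) * w j ^ n j * (g⁻¹ * a)⁻¹ ∈ R := tde_gen_mem R td j _
    have e2 : tdeC R g⁻¹ ⟨a * w j ^ n j * a⁻¹, h⟩ = ⟨(g⁻¹ * a) * w j ^ n j * (g⁻¹ * a)⁻¹, e1⟩ := by
      apply Subtype.ext
      rw [tdeC_coe]
      simp only
      group
    rw [e2]
    by_cases hij : i = j
    · subst hij
      rw [ne_eq, tdePt_eq_iff]
      exact ⟨fun hm => h1 i _ e1 hm, fun hm => h2 i _ e1 hm⟩
    · refine ⟨fun hm => ?_, fun _ => h3 i j (Ne.symm hij) _ e1⟩
      exact absurd (congrArg Sigma.fst hm) hij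
  -- independence of the representative
  have hind : ∀ i g g', tdePt R w i g = tdePt R w i g' → ∀ u : R,
      φ i (tdeC R g⁻¹ u) = φ i (tdeC R g'⁻¹ u) := by
    intro i g g' hgg u
    refine tde_ind R td (P := fun u => φ i (tdeC R g⁻¹ u) = φ i (tdeC R g'⁻¹ u)) ?_ ?_ ?_ ?_ u
    · rw [map_one, map_one, map_one, map_one]
    · intro u v hu hv
      rw [map_mul, map_mul, map_mul, map_mul, hu, hv]
    · intro u hu
      rw [map_inv, map_inv, map_inv, map_inv, hu]
    · intro j a h
      by_cases hm : tdePt R w i g = tdePt R w j a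
      · rw [(hval i g j a h).1 hm, (hval i g' j a h).1 (hgg ▸ hm)]
      · rw [(hval i g j a h).2 hm, (hval i g' j a h).2 (hgg ▸ hm)]
  -- choice of representatives
  choose ri rg hr using tdePt_surj R (w := w)
  have hrep : ∀ i g u, φ (ri (tdePt R w i g)) (tdeC R (rg (tdePt R w i g))⁻¹ u) =
      φ i (tdeC R g⁻¹ u) := by
    intro i g u
    have e := hr (tdePt R w i g)
    have e1 : i = ri (tdePt R w i g) := congrArg Sigma.fst e
    generalize hx : rg (tdePt R w i g) = g' at *
    generalize hy : ri (tdePt R w i g) = i' at *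
    subst e1
    exact (hind _ _ _ e u).symm
  refine ⟨fun x u => Multiplicative.toAdd (φ (ri x) (tdeC R (rg x)⁻¹ u)), ?_, ?_, ?_, ?_⟩
  · intro x
    simp only [map_one]
    rfl
  · intro x u v
    simp only [map_mul]
    rfl
  · intro x j a h
    obtain ⟨i, g, rfl⟩ := tdePt_surj R x
    simp only [hrep]
    exact ⟨fun hm => by rw [(hval i g j a h).1 hm]; rfl, fun hm => by
      rw [(hval i g j a h).2 hm]; rfl⟩
  · intro f x u
    obtain ⟨i, g, rfl⟩ := tdePt_surj R x
    rw [tdePt_smul]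
    simp only [hrep]
    congr 2
    apply Subtype.ext
    rw [tdeC_coe, tdeC_coe, tdeC_coe]
    group

/-- the relation module is the permutation module -/
private theorem tde_module (td : TD R w n) {c : Om R w → R → ℤ}
    (c1 : ∀ x, c x 1 = 0) (cmul : ∀ x u v, c x (u * v) = c x u + c x v)
    (cgen : ∀ x j a (h : a * w j ^ n j * a⁻¹ ∈ R), (x = tdePt R w j a → c x ⟨_, h⟩ = 1) ∧
      (x ≠ tdePt R w j a → c x ⟨_, h⟩ = 0)) :
    (∀ u : R, {x | c x u ≠ 0}.Finite) ∧ (∀ u : R, (∀ x, c x u = 0) → u ∈ commutator R) ∧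
      ∀ a : Om R w →₀ ℤ, ∃ r : R, ∀ x, c x r = a x := by
  classical
  choose ri rg hr using tdePt_surj R (w := w)
  let s : Om R w → R := fun x => ⟨rg x * w (ri x) ^ n (ri x) * (rg x)⁻¹, tde_gen_mem R td _ _⟩
  have hs : ∀ x y, c y (s x) = if y = x then 1 else 0 := by
    intro x y
    have h := cgen y (ri x) (rg x) (tde_gen_mem R td _ _)
    rw [← hr x] at h
    split_ifs with hxy
    · exact h.1 hxy
    · exact h.2 hxy
  have cinv : ∀ x u, c x u⁻¹ = - c x u := by
    intro x u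
    have := cmul x u u⁻¹
    rw [mul_inv_cancel, c1] at this
    omega
  let S : (Om R w →₀ ℤ) → Abelianization R := fun a =>
    a.prod fun x m => (Abelianization.of (s x)) ^ m
  have hSadd : ∀ a b, S (a + b) = S a * S b := by
    intro a b
    exact Finsupp.prod_add_index' (fun x => zpow_zero _) (fun x m m' => zpow_add _ _ _)
  have hS0 : S 0 = 1 := Finsupp.prod_zero_index
  have hSneg : ∀ a, S (-a) = (S a)⁻¹ := by
    intro a
    have := hSadd a (-a)
    rw [add_neg_cancel, hS0] at this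
    exact eq_inv_of_mul_eq_one_right this.symm
  have hSsingle : ∀ x, S (Finsupp.single x 1) = Abelianization.of (s x) := by
    intro x
    change Finsupp.prod _ _ = _
    rw [Finsupp.prod_single_index (zpow_zero _), zpow_one]
  have main : ∀ u : R, ∃ a : Om R w →₀ ℤ, (∀ x, c x u = a x) ∧ Abelianization.of u = S a := by
    intro u
    refine tde_ind R td (P := fun u => ∃ a : Om R w →₀ ℤ, (∀ x, c x u = a x) ∧
      Abelianization.of u = S a) ?_ ?_ ?_ ?_ u
    · exact ⟨0, fun x => c1 x, by rw [map_one, hS0]⟩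
    · rintro u v ⟨a, ha1, ha2⟩ ⟨b, hb1, hb2⟩
      exact ⟨a + b, fun x => by rw [cmul, ha1, hb1, Finsupp.add_apply], by
        rw [map_mul, ha2, hb2, hSadd]⟩
    · rintro u ⟨a, ha1, ha2⟩
      exact ⟨-a, fun x => by rw [cinv, ha1, Finsupp.neg_apply], by
        rw [map_inv, ha2, hSneg]⟩
    · intro j a h
      refine ⟨Finsupp.single (tdePt R w j a) 1, fun x => ?_, ?_⟩
      · rw [Finsupp.single_apply]
        split_ifs with hx
        · exact (cgen x j a h).1 hx.symm
        · exact (cgen x j a h).2 (Ne.symm hx)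
      · rw [hSsingle]
        -- the two generators are conjugate by an element of R
        obtain ⟨i', g', hi', hg', e⟩ : ∃ i' g', ri (tdePt R w j a) = i' ∧
            rg (tdePt R w j a) = g' ∧ tdePt R w j a = tdePt R w i' g' :=
          ⟨_, _, rfl, rfl, hr _⟩
        have hse : s (tdePt R w j a) = ⟨g' * w i' ^ n i' * g'⁻¹, tde_gen_mem R td _ _⟩ := by
          apply Subtype.ext
          simp only [s, hi', hg']
        have e1 : j = i' := congrArg Sigma.fst e
        subst e1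
        rw [tdePt_eq_iff, mem_EE] at e
        obtain ⟨k, hk⟩ := e
        have hconj : g' * w j ^ n j * g'⁻¹ =
            (a * (a⁻¹ * g' * w j ^ k) * a⁻¹) * (a * w j ^ n j * a⁻¹) *
              (a * (a⁻¹ * g' * w j ^ k) * a⁻¹)⁻¹ := by
          have e3 : w j ^ k * w j ^ n j * (w j ^ k)⁻¹ = w j ^ n j := by
            rw [← zpow_natCast, ← zpow_add, ← zpow_neg, ← zpow_add]
            congr 1
            ring
          calc g' * w j ^ n j * g'⁻¹ = g' * (w j ^ k * w j ^ n j * (w j ^ k)⁻¹) * g'⁻¹ := by rw [e3]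
            _ = _ := by group
        have hm : a * (a⁻¹ * g' * w j ^ k) * a⁻¹ ∈ R :=
          Subgroup.Normal.conj_mem inferInstance _ hk a
        have hse2 : s (tdePt R w j a) = ⟨_, hm⟩ * ⟨a * w j ^ n j * a⁻¹, h⟩ * ⟨_, hm⟩⁻¹ := by
          rw [hse]
          apply Subtype.ext
          simp only [Subgroup.coe_mul, Subgroup.coe_inv]
          exact hconj
        rw [hse2, map_mul, map_mul, map_inv, mul_comm, inv_mul_cancel_left]
  refine ⟨fun u => ?_, fun u hu => ?_, fun a => ?_⟩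
  · obtain ⟨a, ha, -⟩ := main u
    refine a.support.finite_toSet.subset ?_
    intro x hx
    have hx' : c x u ≠ 0 := hx
    rw [ha] at hx'
    exact Finsupp.mem_support_iff.2 hx'
  · obtain ⟨a, ha, ha'⟩ := main u
    have : a = 0 := by
      ext x
      rw [← ha, hu]
      rfl
    rw [this, hS0] at ha'
    rw [← Abelianization.ker_of, MonoidHom.mem_ker]
    exact ha'
  · induction a using Finsupp.induction_linear with
    | zero => exact ⟨1, fun x => c1 x⟩
    | add a b ha hb =>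
      obtain ⟨r, hr1⟩ := ha
      obtain ⟨r', hr2⟩ := hb
      exact ⟨r * r', fun x => by rw [cmul, hr1, hr2, Finsupp.add_apply]⟩
    | single x m =>
      have hpow : ∀ k : ℕ, ∀ y, c y (s x ^ k) = k * c y (s x) := by
        intro k y
        induction k with
        | zero => rw [pow_zero, c1]; simp
        | succ k ih => rw [pow_succ, cmul, ih]; push_cast; ring
      have hzpow : ∀ m : ℤ, ∀ y, c y (s x ^ m) = m * c y (s x) := by
        intro m y
        rcases Int.eq_nat_or_neg m with ⟨k, rfl | rfl⟩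
        · rw [zpow_natCast, hpow]
        · rw [zpow_neg, zpow_natCast, cinv, hpow]; ring
      refine ⟨s x ^ m, fun y => ?_⟩
      rw [hzpow, hs, Finsupp.single_apply]
      by_cases hxy : y = x
      · subst hxy; simp
      · rw [if_neg hxy, if_neg (Ne.symm hxy)]; simp

end tde

/-- (10.2), existence of the fixed point -/
theorem td_fix_exists {F : Type} [Group F] [IsFreeGroup F] (R : Subgroup F) [R.Normal] {ι : Type}
    {w : ι → F} {n : ι → ℕ} (td : TD R w n) (f : F) (hf : f ∉ R) (p : ℕ) (hp : p.Prime)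
    (hfp : f ^ p ∈ R) : ∃ x : Om R w, f • x = x := by
  classical
  by_contra hno
  push Not at hno
  obtain ⟨c, c1, cmul, cgen, cequiv⟩ := tde_coord R td
  obtain ⟨cfin, cker, csurj⟩ := tde_module R td c1 cmul cgen
  have hA : ∀ r ∈ R, ∀ x : Om R w, r • x = x := by
    intro r hr x
    obtain ⟨i, g, rfl⟩ := tdePt_surj R x
    rw [tdePt_smul, tdePt_eq_iff]
    have h : (r * g)⁻¹ * g = g⁻¹ * r⁻¹ * (g⁻¹)⁻¹ := by group
    rw [h]
    exact (le_sup_left : R ≤ EE R (w i))
      (Subgroup.Normal.conj_mem inferInstance _ (R.inv_mem hr) _)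
  have hfree : ∀ x : Om R w, ∀ k : ℕ, 0 < k → k < p → f ^ k • x ≠ x := by
    intro x k hk0 hkp hk
    apply hno x
    have hs1 : f ^ k ∈ MulAction.stabilizer F x := hk
    have hs2 : f ^ p ∈ MulAction.stabilizer F x := hA _ hfp x
    have hcop : Nat.gcd k p = 1 := by
      rw [Nat.gcd_comm]
      exact (Nat.Prime.coprime_iff_not_dvd hp).2 (Nat.not_dvd_of_pos_of_lt hk0 hkp)
    have hb := Nat.gcd_eq_gcd_ab k p
    rw [hcop] at hb
    have hf1 : f = (f ^ k) ^ (Nat.gcdA k p) * (f ^ p) ^ (Nat.gcdB k p) := by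
      rw [← zpow_natCast f k, ← zpow_natCast f p, ← zpow_mul, ← zpow_mul, ← zpow_add, ← hb]
      simp
    have hs3 : f ∈ MulAction.stabilizer F x := by
      rw [hf1]
      exact Subgroup.mul_mem _ (Subgroup.zpow_mem _ hs1 _) (Subgroup.zpow_mem _ hs2 _)
    exact hs3
  let u0 : R := ⟨f ^ p, hfp⟩
  have hu0 : ∀ (m : ℤ) x, c (f ^ m • x) u0 = c x u0 := by
    intro m x
    have h := cequiv (f ^ m) x u0
    have h2 : tdeC R (f ^ m) u0 = u0 := by
      apply Subtype.ext
      rw [tdeC_coe]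
      change f ^ m * f ^ p * (f ^ m)⁻¹ = f ^ p
      rw [← zpow_natCast, ← zpow_add, ← zpow_neg, ← zpow_add]
      congr 1
      ring
    rwa [h2] at h
  -- representatives of the orbits
  let ρ : Om R w → Om R w := fun x =>
    (Quotient.mk (MulAction.orbitRel (Subgroup.zpowers f) (Om R w)) x).out
  have hρorb : ∀ x, ∃ m : ℤ, ρ x = f ^ m • x := by
    intro x
    have h : (MulAction.orbitRel (Subgroup.zpowers f) (Om R w)) (ρ x) x :=
      Quotient.mk_out (s := MulAction.orbitRel (Subgroup.zpowers f) (Om R w)) x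
    rw [MulAction.orbitRel_apply] at h
    obtain ⟨⟨g, hg⟩, hgx⟩ := h
    obtain ⟨m, rfl⟩ := Subgroup.mem_zpowers_iff.1 hg
    exact ⟨m, hgx.symm⟩
  have hρconst : ∀ (k : ℕ) x, ρ (f ^ k • x) = ρ x := by
    intro k x
    have h : Quotient.mk (MulAction.orbitRel (Subgroup.zpowers f) (Om R w)) (f ^ k • x) =
        Quotient.mk (MulAction.orbitRel (Subgroup.zpowers f) (Om R w)) x := by
      apply Quotient.sound
      change (MulAction.orbitRel (Subgroup.zpowers f) (Om R w)) _ _
      rw [MulAction.orbitRel_apply]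
      exact ⟨⟨f ^ k, Subgroup.npow_mem_zpowers f k⟩, rfl⟩
    simp only [ρ, h]
  have hρk : ∀ x, ∃ k : ℕ, k < p ∧ ρ x = f ^ k • x := by
    intro x
    obtain ⟨m, hm⟩ := hρorb x
    have hp0 : (0 : ℤ) < p := by exact_mod_cast hp.pos
    refine ⟨(m % p).toNat, ?_, ?_⟩
    · have h1 := Int.emod_lt_of_pos m hp0
      have h2 := Int.emod_nonneg m hp0.ne'
      omega
    · have h2 := Int.emod_nonneg m hp0.ne'
      have h3 : f ^ m = f ^ (m % p).toNat * (f ^ p) ^ (m / p) := by
        rw [← zpow_natCast f, ← zpow_natCast f p, ← zpow_mul, ← zpow_add, Int.toNat_of_nonneg h2]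
        congr 1
        exact (Int.emod_add_mul_ediv m p).symm
      rw [hm, h3, mul_smul, hA _ (R.zpow_mem hfp _)]
  -- the splitting
  let a : Om R w →₀ ℤ := Finsupp.ofSupportFinite (fun x => if ρ x = x then c x u0 else 0) (by
    refine (cfin u0).subset ?_
    intro x hx
    have hx' : (if ρ x = x then c x u0 else 0) ≠ 0 := hx
    change c x u0 ≠ 0
    intro h0
    apply hx'
    split_ifs
    · exact h0
    · rfl)
  have ha : ∀ x, a x = if ρ x = x then c x u0 else 0 := fun x => rfl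
  have hsum : ∀ x, ∑ k ∈ Finset.range p, a (f ^ k • x) = c x u0 := by
    intro x
    obtain ⟨k0, hk0, hρ⟩ := hρk x
    rw [Finset.sum_eq_single_of_mem k0 (Finset.mem_range.2 hk0)]
    · rw [ha, if_pos (by rw [hρconst, hρ])]
      have := hu0 (k0 : ℤ) x
      rwa [zpow_natCast] at this
    · intro k hk hkk
      rw [ha, if_neg]
      rw [hρconst, hρ]
      intro heq
      have hk' := Finset.mem_range.1 hk
      rcases Nat.lt_or_gt_of_ne hkk with hlt | hlt
      · have h1 : f ^ (k0 - k) • (f ^ k • x) = f ^ k • x := by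
          rw [← mul_smul, ← pow_add, Nat.sub_add_cancel hlt.le, heq]
        exact hfree _ _ (by omega) (by omega) h1
      · have h1 : f ^ (k - k0) • (f ^ k0 • x) = f ^ k0 • x := by
          rw [← mul_smul, ← pow_add, Nat.sub_add_cancel hlt.le, ← heq]
        exact hfree _ _ (by omega) (by omega) h1
  obtain ⟨r, hr⟩ := csurj a
  have hrinv : ∀ x, c x r⁻¹ = - a x := by
    intro x
    have := cmul x r r⁻¹
    rw [mul_inv_cancel, c1, hr] at this
    omega
  have hQ : ∀ m : ℕ, ∃ q : R, (f * (r : F)⁻¹) ^ m = f ^ m * (q : F) ∧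
      ∀ x, c x q = - ∑ k ∈ Finset.range m, a (f ^ k • x) := by
    intro m
    induction m with
    | zero => exact ⟨1, by simp, fun x => by rw [c1]; simp⟩
    | succ m ih =>
      obtain ⟨q, hq1, hq2⟩ := ih
      refine ⟨tdeC R f⁻¹ q * r⁻¹, ?_, ?_⟩
      · rw [pow_succ, hq1, Subgroup.coe_mul, tdeC_coe, Subgroup.coe_inv, pow_succ]
        group
      · intro x
        have h1 := cequiv f⁻¹ (f • x) q
        rw [inv_smul_smul] at h1
        rw [cmul, h1, hq2, hrinv, Finset.sum_range_succ', pow_zero, one_smul]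
        have h2 : ∀ k, f ^ k • f • x = f ^ (k + 1) • x := by
          intro k
          rw [← mul_smul, ← pow_succ]
        simp only [h2]
        ring
  obtain ⟨q, hq1, hq2⟩ := hQ p
  have hv : (u0 * q : R) ∈ commutator R := by
    apply cker
    intro x
    rw [cmul, hq2, hsum]
    ring
  -- the group generated by `R` and `f`
  have hf1 : f * (r : F)⁻¹ ∈ EE R f :=
    Subgroup.mul_mem _ ((le_sup_right : Subgroup.zpowers f ≤ EE R f) (Subgroup.mem_zpowers f))
      ((le_sup_left : R ≤ EE R f) (R.inv_mem r.2))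
  let x1 : EE R f := ⟨f * (r : F)⁻¹, hf1⟩
  let j : R →* EE R f := Subgroup.inclusion (le_sup_left : R ≤ EE R f)
  have hx1p : x1 ^ p ∈ commutator (EE R f) := by
    have e : x1 ^ p = j (u0 * q) := by
      apply Subtype.ext
      change (f * (r : F)⁻¹) ^ p = f ^ p * (q : F)
      exact hq1
    rw [e, ← Abelianization.ker_of, MonoidHom.mem_ker]
    have := Abelianization.commutator_subset_ker (Abelianization.of.comp j) hv
    exact this
  have hx1 := pow_mem_commutator x1 p hp.pos hx1p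
  have hcom : commutator (EE R f) ≤ R.subgroupOf (EE R f) := by
    rw [commutator_def, Subgroup.commutator_le]
    rintro ⟨g1, h1⟩ - ⟨g2, h2⟩ -
    rw [Subgroup.mem_subgroupOf]
    change g1 * g2 * g1⁻¹ * g2⁻¹ ∈ R
    obtain ⟨k1, hk1⟩ := (mem_EE R f g1).1 h1
    obtain ⟨k2, hk2⟩ := (mem_EE R f g2).1 h2
    have e1 : (g1 : F ⧸ R) = (f : F ⧸ R) ^ (-k1) := by
      have h := (QuotientGroup.eq_one_iff _).2 hk1
      rw [QuotientGroup.mk_mul, QuotientGroup.mk_zpow] at h
      rw [zpow_neg]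
      exact eq_inv_of_mul_eq_one_left h
    have e2 : (g2 : F ⧸ R) = (f : F ⧸ R) ^ (-k2) := by
      have h := (QuotientGroup.eq_one_iff _).2 hk2
      rw [QuotientGroup.mk_mul, QuotientGroup.mk_zpow] at h
      rw [zpow_neg]
      exact eq_inv_of_mul_eq_one_left h
    rw [← QuotientGroup.eq_one_iff, QuotientGroup.mk_mul,
      QuotientGroup.mk_mul, QuotientGroup.mk_mul, QuotientGroup.mk_inv, QuotientGroup.mk_inv,
      e1, e2]
    group
  have hfin := hcom hx1
  rw [Subgroup.mem_subgroupOf] at hfin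
  have hfin' : f * (r : F)⁻¹ ∈ R := hfin
  apply hf
  have := R.mul_mem hfin' r.2
  rwa [inv_mul_cancel_right] at this

end L2B
end

section

namespace L2B

variable {F : Type} [Group F]

/-- the value of a homomorphism on `R`, extended by zero -/
private noncomputable def tduV {R : Subgroup F} (φ : R →* Multiplicative ℤ) (u : F) : ℤ :=
  open Classical in if h : u ∈ R then Multiplicative.toAdd (φ ⟨u, h⟩) else 0

private theorem tduV_of {R : Subgroup F} (φ : R →* Multiplicative ℤ) {u : F} (h : u ∈ R) :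
    tduV φ u = Multiplicative.toAdd (φ ⟨u, h⟩) := by
  unfold tduV
  rw [dif_pos h]

private theorem tduV_mul {R : Subgroup F} (φ : R →* Multiplicative ℤ) {u v : F} (hu : u ∈ R)
    (hv : v ∈ R) : tduV φ (u * v) = tduV φ u + tduV φ v := by
  rw [tduV_of φ hu, tduV_of φ hv, tduV_of φ (R.mul_mem hu hv), ← toAdd_mul, ← map_mul]
  rfl

private theorem tduV_one {R : Subgroup F} (φ : R →* Multiplicative ℤ) :
    tduV φ (1 : F) = 0 := by
  rw [tduV_of φ R.one_mem]
  have : (⟨1, R.one_mem⟩ : R) = 1 := rfl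
  rw [this, map_one, toAdd_one]

private theorem tduV_inv {R : Subgroup F} (φ : R →* Multiplicative ℤ) {u : F} (hu : u ∈ R) :
    tduV φ u⁻¹ = - tduV φ u := by
  have := tduV_mul φ hu (R.inv_mem hu)
  rw [mul_inv_cancel, tduV_one] at this
  omega

private theorem tduV_pow {R : Subgroup F} (φ : R →* Multiplicative ℤ) {u : F} (hu : u ∈ R)
    (m : ℕ) : tduV φ (u ^ m) = m * tduV φ u := by
  induction m with
  | zero => simp [tduV_one]
  | succ m ih =>
    rw [pow_succ, tduV_mul φ (R.pow_mem hu m) hu, ih]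
    push_cast
    ring

private theorem tduV_zpow {R : Subgroup F} (φ : R →* Multiplicative ℤ) {u : F} (hu : u ∈ R)
    (m : ℤ) : tduV φ (u ^ m) = m * tduV φ u := by
  obtain ⟨k, rfl | rfl⟩ := m.eq_nat_or_neg
  · rw [zpow_natCast, tduV_pow φ hu]
  · rw [zpow_neg, zpow_natCast, tduV_inv φ (R.pow_mem hu k), tduV_pow φ hu]
    ring

private theorem tdu_mem_pow (R : Subgroup F) {ι : Type} {w : ι → F} {n : ι → ℕ}
    (td : TD R w n) (i : ι) : w i ^ n i ∈ R := by
  have := (td.ord i (n i : ℤ)).2 dvd_rfl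
  rwa [zpow_natCast] at this

/-- invariance under conjugation by `w i` -/
private theorem tdu_conj (R : Subgroup F) [R.Normal] {ι : Type} {w : ι → F} {n : ι → ℕ}
    (td : TD R w n) (i : ι) (φ : R →* Multiplicative ℤ)
    (h1 : ∀ g (hg : g * w i ^ n i * g⁻¹ ∈ R), g ∈ EE R (w i) →
      φ ⟨_, hg⟩ = Multiplicative.ofAdd 1)
    (h2 : ∀ g (hg : g * w i ^ n i * g⁻¹ ∈ R), g ∉ EE R (w i) → φ ⟨_, hg⟩ = 1)
    (h3 : ∀ j, j ≠ i → ∀ g (hg : g * w j ^ n j * g⁻¹ ∈ R), φ ⟨_, hg⟩ = 1)
    (e : F) (he : e ∈ EE R (w i)) (u : F) (hu : u ∈ R) :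
    tduV φ (e * u * e⁻¹) = tduV φ u := by
  have hR : R = Subgroup.closure (Group.conjugatesOfSet (Set.range fun i => w i ^ n i)) := td.gen
  have hall : ∀ u, u ∈ Subgroup.closure
      (Group.conjugatesOfSet (Set.range fun i => w i ^ n i)) →
      u ∈ R ∧ tduV φ (e * u * e⁻¹) = tduV φ u := by
    intro u hu
    induction hu using Subgroup.closure_induction with
    | mem x hx =>
      obtain ⟨_, ⟨j, rfl⟩, hc⟩ := Group.mem_conjugatesOfSet_iff.1 hx
      obtain ⟨g, rfl⟩ := isConj_iff.1 hc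
      have hj : w j ^ n j ∈ R := tdu_mem_pow R td j
      have hg : g * w j ^ n j * g⁻¹ ∈ R := Subgroup.Normal.conj_mem inferInstance _ hj g
      refine ⟨hg, ?_⟩
      have e1 : e * (g * w j ^ n j * g⁻¹) * e⁻¹ = (e * g) * w j ^ n j * (e * g)⁻¹ := by group
      have hg' : (e * g) * w j ^ n j * (e * g)⁻¹ ∈ R :=
        Subgroup.Normal.conj_mem inferInstance _ hj _
      rw [e1, tduV_of φ hg, tduV_of φ hg']
      by_cases hji : j = i
      · subst hji
        by_cases hgE : g ∈ EE R (w j)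
        · rw [h1 g hg hgE, h1 _ hg' (Subgroup.mul_mem _ he hgE)]
        · rw [h2 g hg hgE, h2 _ hg' (fun hc => hgE ((Subgroup.mul_mem_cancel_left _ he).1 hc))]
      · rw [h3 j hji g hg, h3 j hji _ hg']
    | one => exact ⟨R.one_mem, by simp⟩
    | mul x y _ _ hx hy =>
      refine ⟨R.mul_mem hx.1 hy.1, ?_⟩
      have e1 : e * (x * y) * e⁻¹ = (e * x * e⁻¹) * (e * y * e⁻¹) := by group
      rw [e1, tduV_mul φ (Subgroup.Normal.conj_mem inferInstance _ hx.1 e)
        (Subgroup.Normal.conj_mem inferInstance _ hy.1 e), tduV_mul φ hx.1 hy.1, hx.2, hy.2]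
    | inv x _ hx =>
      refine ⟨R.inv_mem hx.1, ?_⟩
      have e1 : e * x⁻¹ * e⁻¹ = (e * x * e⁻¹)⁻¹ := by group
      rw [e1, tduV_inv φ (Subgroup.Normal.conj_mem inferInstance _ hx.1 e), tduV_inv φ hx.1, hx.2]
  exact (hall u (hR ▸ hu)).2

/-- the exponent is the prime -/
private theorem tdu_exp (R : Subgroup F) [R.Normal] {ι : Type} {w : ι → F} {n : ι → ℕ}
    (td : TD R w n) (i : ι) (f : F) (hf : f ∉ R) (p : ℕ) (hp : p.Prime) (hfp : f ^ p ∈ R)
    (c : F) (k : ℤ) (hk : f * (c * w i ^ k * c⁻¹) ∈ R) : n i = p ∧ ¬ (n i : ℤ) ∣ k := by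
  have hnd : ¬ (n i : ℤ) ∣ k := by
    intro hd
    apply hf
    have h1 : w i ^ k ∈ R := (td.ord i k).2 hd
    have h2 : c * w i ^ k * c⁻¹ ∈ R := Subgroup.Normal.conj_mem inferInstance _ h1 c
    exact (Subgroup.mul_mem_cancel_right _ h2).1 hk
  refine ⟨?_, hnd⟩
  have hq : (QuotientGroup.mk (c * w i ^ k * c⁻¹) : F ⧸ R) = (QuotientGroup.mk f)⁻¹ := by
    have h3 : (QuotientGroup.mk (f * (c * w i ^ k * c⁻¹)) : F ⧸ R) = 1 :=
      (QuotientGroup.eq_one_iff _).2 hk
    rw [QuotientGroup.mk_mul] at h3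
    exact eq_inv_of_mul_eq_one_right h3
  have hpw : c * w i ^ (k * p) * c⁻¹ ∈ R := by
    rw [← QuotientGroup.eq_one_iff]
    have e1 : c * w i ^ (k * p) * c⁻¹ = (c * w i ^ k * c⁻¹) ^ p := by
      rw [conj_pow, zpow_mul, zpow_natCast]
    rw [e1, QuotientGroup.mk_pow, hq, inv_pow, ← QuotientGroup.mk_pow,
      (QuotientGroup.eq_one_iff _).2 hfp, inv_one]
  have h4 : w i ^ (k * p) ∈ R := by
    have := Subgroup.Normal.conj_mem inferInstance _ hpw c⁻¹
    have e1 : c⁻¹ * (c * w i ^ (k * p) * c⁻¹) * c⁻¹⁻¹ = w i ^ (k * p) := by group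
    rwa [e1] at this
  have h5 : (n i : ℤ) ∣ k * p := (td.ord i _).1 h4
  have hpr : Prime (n i : ℤ) := Nat.prime_iff_prime_int.1 (td.prime i)
  rcases hpr.dvd_or_dvd h5 with h6 | h6
  · exact absurd h6 hnd
  · have h7 : n i ∣ p := Int.natCast_dvd_natCast.1 h6
    rcases (Nat.dvd_prime hp).1 h7 with h8 | h8
    · exact absurd h8 (td.prime i).one_lt.ne'
    · exact h8

/-- (10.2), uniqueness of the fixed point -/
theorem td_fix_unique (R : Subgroup F) [R.Normal] {ι : Type} {w : ι → F} {n : ι → ℕ}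
    (td : TD R w n) (f : F) (hf : f ∉ R) (p : ℕ) (hp : p.Prime) (hfp : f ^ p ∈ R)
    (x y : Om R w) (hx : f • x = x) (hy : f • y = y) : x = y := by
  classical
  obtain ⟨i, X⟩ := x
  obtain ⟨j, Y⟩ := y
  obtain ⟨g, rfl⟩ := QuotientGroup.mk_surjective X
  obtain ⟨h, rfl⟩ := QuotientGroup.mk_surjective Y
  have hx' : ∃ k : ℤ, g⁻¹ * f * g * w i ^ k ∈ R := by
    have h1 : (QuotientGroup.mk (f * g) : F ⧸ EE R (w i)) = QuotientGroup.mk g := by
      have := (Sigma.mk.inj_iff.1 hx).2
      exact eq_of_heq this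
    have h2 := QuotientGroup.eq.1 h1.symm
    have e1 : g⁻¹ * (f * g) = g⁻¹ * f * g := by group
    rw [e1] at h2
    exact (mem_EE R (w i) _).1 h2
  have hy' : ∃ k : ℤ, h⁻¹ * f * h * w j ^ k ∈ R := by
    have h1 : (QuotientGroup.mk (f * h) : F ⧸ EE R (w j)) = QuotientGroup.mk h := by
      have := (Sigma.mk.inj_iff.1 hy).2
      exact eq_of_heq this
    have h2 := QuotientGroup.eq.1 h1.symm
    have e1 : h⁻¹ * (f * h) = h⁻¹ * f * h := by group
    rw [e1] at h2
    exact (mem_EE R (w j) _).1 h2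
  by_contra hne
  have hcond : j = i → g⁻¹ * h ∉ EE R (w i) := by
    intro hji hmem
    subst hji
    apply hne
    rw [QuotientGroup.eq.2 hmem]
  obtain ⟨k, hk⟩ := hx'
  obtain ⟨l, hl⟩ := hy'
  -- conjugate everything by `g`
  set f' : F := g⁻¹ * f * g with hf'def
  have hf' : f' ∉ R := by
    intro hmem
    apply hf
    have := Subgroup.Normal.conj_mem inferInstance _ hmem g
    have e1 : g * f' * g⁻¹ = f := by rw [hf'def]; group
    rwa [e1] at this
  have hfp' : f' ^ p ∈ R := by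
    have := Subgroup.Normal.conj_mem inferInstance _ hfp g⁻¹
    have e1 : g⁻¹ * f ^ p * g⁻¹⁻¹ = f' ^ p := by
      rw [hf'def]
      have := conj_pow (i := p) (a := g⁻¹) (b := f)
      rw [inv_inv] at this ⊢
      exact this.symm
    rwa [e1] at this
  set h' : F := g⁻¹ * h with hh'def
  have hl' : f' * (h' * w j ^ l * h'⁻¹) ∈ R := by
    have := Subgroup.Normal.conj_mem inferInstance _ hl h'
    have e1 : h' * (h⁻¹ * f * h * w j ^ l) * h'⁻¹ = f' * (h' * w j ^ l * h'⁻¹) := by
      rw [hf'def, hh'def]; group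
    rwa [e1] at this
  have hk' : f' * (1 * w i ^ k * 1⁻¹) ∈ R := by simpa using hk
  obtain ⟨hni, hki⟩ := tdu_exp R td i f' hf' p hp hfp' 1 k hk'
  obtain ⟨hnj, _⟩ := tdu_exp R td j f' hf' p hp hfp' h' l hl'
  obtain ⟨φ, h1, h2, h3⟩ := td.inv i
  set a : F := w i ^ k with hadef
  set b : F := h' * w j ^ l * h'⁻¹ with hbdef
  have haE : a ∈ EE R (w i) := by
    unfold EE
    exact Subgroup.mem_sup_right (Subgroup.zpow_mem _ (Subgroup.mem_zpowers _) _)
  have hr : b * a⁻¹ ∈ R := by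
    have h4 : a⁻¹ * b ∈ R := by
      have := R.mul_mem (R.inv_mem hk) hl'
      have e1 : (f' * a)⁻¹ * (f' * b) = a⁻¹ * b := by group
      rwa [e1] at this
    have := Subgroup.Normal.conj_mem inferInstance _ h4 a
    have e1 : a * (a⁻¹ * b) * a⁻¹ = b * a⁻¹ := by group
    rwa [e1] at this
  have key : ∀ m : ℕ, ∃ ρ ∈ R, b ^ m = ρ * a ^ m ∧ tduV φ ρ = m * tduV φ (b * a⁻¹) := by
    intro m
    induction m with
    | zero => exact ⟨1, R.one_mem, by simp, by simp [tduV_one]⟩
    | succ m ih =>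
      obtain ⟨ρ, hρ, h5, h6⟩ := ih
      have h7 : a * ρ * a⁻¹ ∈ R := Subgroup.Normal.conj_mem inferInstance _ hρ a
      refine ⟨(b * a⁻¹) * (a * ρ * a⁻¹), R.mul_mem hr h7, ?_, ?_⟩
      · rw [pow_succ', h5, pow_succ' a m]
        group
      · rw [tduV_mul φ hr h7, tdu_conj R td i φ h1 h2 h3 a haE ρ hρ, h6]
        push_cast
        ring
  obtain ⟨ρ, hρ, h5, h6⟩ := key p
  have hwi : w i ^ n i ∈ R := tdu_mem_pow R td i
  have hwj : h' * w j ^ n j * h'⁻¹ ∈ R :=
    Subgroup.Normal.conj_mem inferInstance _ (tdu_mem_pow R td j) h'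
  have hVi : tduV φ (w i ^ n i) = 1 := by
    have hmem : 1 * w i ^ n i * 1⁻¹ ∈ R := by simpa using hwi
    have h8 := h1 1 hmem (Subgroup.one_mem _)
    have h9 := tduV_of φ hmem
    rw [h8] at h9
    simpa using h9
  have hVj : tduV φ (h' * w j ^ n j * h'⁻¹) = 0 := by
    rw [tduV_of φ hwj]
    by_cases hji : j = i
    · have hnE := hcond hji
      subst hji
      rw [h2 h' hwj hnE, toAdd_one]
    · rw [h3 j hji h' hwj, toAdd_one]
  have hap : a ^ p = (w i ^ n i) ^ k := by
    rw [hadef, hni, ← zpow_natCast, ← zpow_natCast, ← zpow_mul, ← zpow_mul, mul_comm]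
  have hbp : b ^ p = (h' * w j ^ n j * h'⁻¹) ^ l := by
    rw [hbdef, hnj, conj_pow, conj_zpow, ← zpow_natCast, ← zpow_natCast, ← zpow_mul, ← zpow_mul,
      mul_comm]
  have h10 : tduV φ (b ^ p) = 0 := by rw [hbp, tduV_zpow φ hwj, hVj, mul_zero]
  have h11 : tduV φ (a ^ p) = k := by rw [hap, tduV_zpow φ hwi, hVi, mul_one]
  have h12 : a ^ p ∈ R := by rw [hap]; exact R.zpow_mem hwi k
  rw [h5, tduV_mul φ hρ h12, h6, h11] at h10
  apply hki
  rw [hni]
  exact ⟨-tduV φ (b * a⁻¹), by linarith⟩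

end L2B
end

section

namespace L2B

section
variable {F : Type} [Group F] {ι : Type} {w : ι → F}

/-- `R` acts trivially -/
private theorem tdg_R_smul (R : Subgroup F) [hR : R.Normal] {r : F} (hr : r ∈ R) (x : Om R w) :
    r • x = x := by
  obtain ⟨i, q⟩ := x
  induction q using QuotientGroup.induction_on with
  | H g =>
    change (⟨i, ((r * g : F) : F ⧸ EE R (w i))⟩ : Om R w) = ⟨i, (g : F ⧸ EE R (w i))⟩
    congr 1
    rw [eq_comm, QuotientGroup.eq]
    have h1 : g⁻¹ * r * g ∈ R := by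
      have := hR.conj_mem r hr g⁻¹
      rwa [inv_inv] at this
    have h2 : g⁻¹ * (r * g) = g⁻¹ * r * g := by group
    rw [h2]
    exact Subgroup.mem_sup_left h1

/-- the action of the quotient -/
private noncomputable abbrev tdgAct (R : Subgroup F) [R.Normal] (w : ι → F) :
    MulAction (F ⧸ R) (Om R w) :=
  MulAction.compHom (Om R w) (QuotientGroup.lift R (MulAction.toPermHom F (Om R w))
    (fun r hr => by
      ext1 x
      exact tdg_R_smul R hr x))

/-- the conjugates of the cyclic groups -/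
private def tdgS (R : Subgroup F) [R.Normal] (w : ι → F) (i : ι) (g : F) : Subgroup (F ⧸ R) :=
  (Subgroup.zpowers (QuotientGroup.mk (w i) : F ⧸ R)).map
    (MulAut.conj (QuotientGroup.mk g : F ⧸ R)).toMonoidHom

private theorem tdg_stab (R : Subgroup F) [hR : R.Normal] {f g : F} {i : ι}
    (hf : f • (⟨i, (g : F ⧸ EE R (w i))⟩ : Om R w) = ⟨i, (g : F ⧸ EE R (w i))⟩) :
    (QuotientGroup.mk f : F ⧸ R) ∈ tdgS R w i g := by
  have h1 : (⟨i, ((f * g : F) : F ⧸ EE R (w i))⟩ : Om R w) = ⟨i, (g : F ⧸ EE R (w i))⟩ := hf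
  have h2 : ((f * g : F) : F ⧸ EE R (w i)) = (g : F ⧸ EE R (w i)) := by
    simpa using h1
  rw [eq_comm, QuotientGroup.eq, mem_EE] at h2
  obtain ⟨k, hk⟩ := h2
  refine ⟨(QuotientGroup.mk (w i) : F ⧸ R) ^ (-k), Subgroup.zpow_mem _ (Subgroup.mem_zpowers _) _, ?_⟩
  have h3 : (QuotientGroup.mk (g⁻¹ * (f * g) * w i ^ k) : F ⧸ R) = 1 :=
    (QuotientGroup.eq_one_iff _).2 hk
  simp only [QuotientGroup.mk_mul, QuotientGroup.mk_inv, QuotientGroup.mk_zpow] at h3
  change (QuotientGroup.mk g : F ⧸ R) * (QuotientGroup.mk (w i) : F ⧸ R) ^ (-k) *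
    (QuotientGroup.mk g : F ⧸ R)⁻¹ = QuotientGroup.mk f
  have h4 : (QuotientGroup.mk (w i) : F ⧸ R) ^ (-k) = (QuotientGroup.mk g : F ⧸ R)⁻¹ *
      ((QuotientGroup.mk f : F ⧸ R) * (QuotientGroup.mk g : F ⧸ R)) := by
    rw [zpow_neg, inv_eq_iff_mul_eq_one, mul_eq_one_iff_eq_inv]
    exact (eq_inv_of_mul_eq_one_right h3)
  rw [h4]
  group

private theorem tdg_order {R : Subgroup F} [hR : R.Normal] {n : ι → ℕ} (td : TD R w n) (i : ι) :
    orderOf (QuotientGroup.mk (w i) : F ⧸ R) = n i := by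
  have _ : Fact (n i).Prime := ⟨td.prime i⟩
  apply orderOf_eq_prime
  · rw [← QuotientGroup.mk_pow, QuotientGroup.eq_one_iff]
    have := (td.ord i (n i)).2 dvd_rfl
    rwa [zpow_natCast] at this
  · rw [Ne, QuotientGroup.eq_one_iff]
    intro h1
    have h2 := (td.ord i 1).1 (by rwa [zpow_one])
    have h3 : n i ∣ 1 := by exact_mod_cast h2
    exact (td.prime i).one_lt.ne' (Nat.dvd_one.1 h3)

private theorem tdg_card {R : Subgroup F} [hR : R.Normal] {n : ι → ℕ} (td : TD R w n) (i : ι)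
    (g : F) : Nat.card (tdgS R w i g) = n i := by
  unfold tdgS
  rw [Subgroup.card_map_of_injective (MulAut.conj (QuotientGroup.mk g : F ⧸ R)).injective,
    Nat.card_zpowers, tdg_order td]

/-- elements of finite order have exactly one fixed point -/
private theorem tdg_fix [IsFreeGroup F] (R : Subgroup F) [hR : R.Normal] {n : ι → ℕ}
    (td : TD R w n) (t : F ⧸ R) (ht : t ≠ 1) (hfin : IsOfFinOrder t) :
    letI := tdgAct R w
    (∃ x : Om R w, t • x = x) ∧ ∀ x y : Om R w, t • x = x → t • y = y → x = y := by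
  let := tdgAct R w
  -- prime order
  have hprime : ∀ s : F ⧸ R, ∀ p : ℕ, p.Prime → s ^ p = 1 → s ≠ 1 →
      (∃ x : Om R w, s • x = x) ∧ ∀ x y : Om R w, s • x = x → s • y = y → x = y := by
    intro s p hp hsp hs
    induction s using QuotientGroup.induction_on with
    | H f =>
      have hf : f ∉ R := fun h => hs ((QuotientGroup.eq_one_iff f).2 h)
      have hfp : f ^ p ∈ R := by
        rw [← QuotientGroup.mk_pow, QuotientGroup.eq_one_iff] at hsp
        exact hsp
      exact ⟨td_fix_exists R td f hf p hp hfp,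
        fun x y hx hy => td_fix_unique R td f hf p hp hfp x y hx hy⟩
  have hm : orderOf t ≠ 1 := fun h => ht (orderOf_eq_one_iff.1 h)
  have hm0 : 0 < orderOf t := hfin.orderOf_pos
  set p := (orderOf t).minFac with hpdef
  have hp : p.Prime := Nat.minFac_prime hm
  obtain ⟨k, hk⟩ := Nat.minFac_dvd (orderOf t)
  rw [← hpdef] at hk
  have hk0 : 0 < k := by
    rcases Nat.eq_zero_or_pos k with h | h
    · rw [h, mul_zero] at hk
      omega
    · exact h
  have hkp : (t ^ k) ^ p = 1 := by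
    rw [← pow_mul, mul_comm, ← hk, pow_orderOf_eq_one]
  have hk1 : t ^ k ≠ 1 := by
    intro h
    have h1 := Nat.le_of_dvd hk0 (orderOf_dvd_of_pow_eq_one h)
    have h2 := hp.two_le
    nlinarith
  obtain ⟨⟨x, hx⟩, hu⟩ := hprime (t ^ k) p hp hkp hk1
  refine ⟨⟨x, hu _ _ ?_ hx⟩, fun x y hx hy => hu x y ?_ ?_⟩
  · rw [← mul_smul, ← pow_succ, pow_succ', mul_smul, hx]
  · have h1 : t ∈ MulAction.stabilizer (F ⧸ R) x := hx
    exact (MulAction.stabilizer (F ⧸ R) x).pow_mem h1 k
  · have h1 : t ∈ MulAction.stabilizer (F ⧸ R) y := hy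
    exact (MulAction.stabilizer (F ⧸ R) y).pow_mem h1 k

private theorem tdg_stab' (R : Subgroup F) [hR : R.Normal] (x : Om R w) :
    letI := tdgAct R w
    ∃ (i : ι) (g : F), ∀ t : F ⧸ R, t • x = x → t ∈ tdgS R w i g := by
  let := tdgAct R w
  obtain ⟨i, q⟩ := x
  induction q using QuotientGroup.induction_on with
  | H g =>
    refine ⟨i, g, fun t => ?_⟩
    induction t using QuotientGroup.induction_on with
    | H f =>
      intro hf
      exact tdg_stab R hf

end

/-- (10.4) torsion in the quotient is good -/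
theorem td_good {F : Type} [Group F] [IsFreeGroup F] (R : Subgroup F) [R.Normal] {ι : Type}
    {w : ι → F} {n : ι → ℕ} (td : TD R w n) : TorsGood (F ⧸ R) := by
  let := tdgAct R w
  intro t ht hfin
  obtain ⟨m, hm, htm⟩ := hfin
  have hfin : IsOfFinOrder t := isOfFinOrder_iff_pow_eq_one.2 ⟨m, hm, htm⟩
  obtain ⟨⟨x, hx⟩, hu⟩ := tdg_fix R td t ht hfin
  obtain ⟨i, g, hS⟩ := tdg_stab' R x
  have hcard := tdg_card td i g
  have hn := td.prime i
  have hSfin : Finite (tdgS R w i g) := Nat.finite_of_card_ne_zero (by rw [hcard]; exact hn.ne_zero)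
  refine ⟨fun h2 => ?_, ?_⟩
  · have h1 := hS t hx
    have h3 : orderOf t ∣ n i := by
      rw [← hcard, ← Subgroup.orderOf_mk t h1]
      exact orderOf_dvd_natCard _
    have h4 : orderOf t ≠ 1 := fun h => ht (orderOf_eq_one_iff.1 h)
    have h5 : orderOf t = n i := ((Nat.dvd_prime hn).1 h3).resolve_left h4
    have h6 : n i ∣ 2 := by
      rw [← h5]
      exact orderOf_dvd_of_pow_eq_one h2
    exact td.odd i ((Nat.prime_dvd_prime_iff_eq hn Nat.prime_two).1 h6)
  · refine Set.Finite.subset (s := (tdgS R w i g : Set (F ⧸ R))) (Set.toFinite _) ?_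
    intro b hb
    have hb' : b * t = t * b := hb
    apply hS b
    apply hu _ _ _ hx
    rw [← mul_smul, ← hb', mul_smul, hx]

/-- (10.4) finite subgroups have prime order -/
theorem td_finite {F : Type} [Group F] [IsFreeGroup F] (R : Subgroup F) [R.Normal] {ι : Type}
    {w : ι → F} {n : ι → ℕ} (td : TD R w n) (P : Subgroup (F ⧸ R)) (hP : (P : Set (F ⧸ R)).Finite)
    (hP1 : P ≠ ⊥) : (Nat.card P).Prime := by
  let := tdgAct R w
  have _ : Finite P := hP
  have _ : Nontrivial P := (Subgroup.nontrivial_iff_ne_bot P).2 hP1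
  have hfix : ∀ p : P, p ≠ 1 → (∃ x : Om R w, p • x = x) ∧
      ∀ x y : Om R w, p • x = x → p • y = y → x = y := by
    intro p hp
    have h1 : (p : F ⧸ R) ≠ 1 := fun h => hp (Subtype.ext h)
    have h2 : IsOfFinOrder (p : F ⧸ R) := by
      have := isOfFinOrder_of_finite p
      exact (Submonoid.isOfFinOrder_coe (H := P.toSubmonoid)).2 this
    exact tdg_fix R td p h1 h2
  obtain ⟨x, hx⟩ := fix_count (P := P) (X := Om R w) (fun p hp => (hfix p hp).1)
    (fun p hp => (hfix p hp).2)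
  obtain ⟨i, g, hS⟩ := tdg_stab' R x
  have hle : P ≤ tdgS R w i g := fun p hp => hS p (hx ⟨p, hp⟩)
  have hcard := tdg_card td i g
  have hn := td.prime i
  have h1 : Nat.card P ∣ n i := by
    rw [← hcard]
    exact Subgroup.card_dvd_of_le hle
  have h2 : Nat.card P ≠ 1 := fun h => hP1 (Subgroup.eq_bot_of_card_eq P h)
  rw [((Nat.dvd_prime hn).1 h1).resolve_left h2]
  exact hn

end L2B
end
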