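import Mathlib
import Pool.Agent.Lib.MP_42532b_al.ChainAB

section

namespace L2B

/-- the product of a list -/
private def frp {α β : Type*} (h0 : FreeGroup α) (l : List (β × ℤ × FreeGroup α)) :
    FreeGroup (α ⊕ β) :=
  FreeGroup.map Sum.inl h0 *
    (l.map (fun p => FreeGroup.of (Sum.inr p.1) ^ p.2.1 * FreeGroup.map Sum.inl p.2.2)).prod

private def frOK {α β : Type*} (x : FreeGroup (α ⊕ β)) : Prop :=
  ∃ (h0 : FreeGroup α) (l : List (β × ℤ × FreeGroup α)),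
      x = frp h0 l ∧ (∀ p ∈ l, p.2.1 ≠ 0) ∧ l.IsChain (fun p q => p.1 = q.1 → p.2.2 ≠ 1)

private theorem frOK_one {α β : Type*} : frOK (1 : FreeGroup (α ⊕ β)) :=
  ⟨1, [], by simp [frp], by simp, by simp⟩

private theorem frOK_inl {α β : Type*} (h : FreeGroup α) {x : FreeGroup (α ⊕ β)} (hx : frOK x) :
    frOK (FreeGroup.map Sum.inl h * x) := by
  obtain ⟨h0, l, rfl, h1, h2⟩ := hx
  refine ⟨h * h0, l, ?_, h1, h2⟩
  unfold frp
  rw [map_mul, mul_assoc]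

private theorem frOK_inr {α β : Type*} (b : β) (k : ℤ) (hk : k ≠ 0) {x : FreeGroup (α ⊕ β)}
    (hx : frOK x) : frOK (FreeGroup.of (Sum.inr b) ^ k * x) := by
  classical
  obtain ⟨h0, l, rfl, h1, h2⟩ := hx
  by_cases hh : h0 = 1 ∧ ∃ e h l', l = (b, e, h) :: l'
  · obtain ⟨rfl, e, h, l', rfl⟩ := hh
    by_cases hke : k + e = 0
    · refine ⟨h, l', ?_, fun p hp => h1 p (List.mem_cons_of_mem _ hp), ?_⟩
      · unfold frp
        simp only [map_one, one_mul, List.map_cons, List.prod_cons]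
        rw [← mul_assoc, ← mul_assoc, ← zpow_add, hke, zpow_zero, one_mul]
      · exact h2.of_cons
    · refine ⟨1, (b, k + e, h) :: l', ?_, ?_, ?_⟩
      · unfold frp
        simp only [map_one, one_mul, List.map_cons, List.prod_cons]
        rw [zpow_add]
        simp only [mul_assoc]
      · intro p hp
        rcases List.mem_cons.1 hp with rfl | hp
        · exact hke
        · exact h1 p (List.mem_cons_of_mem _ hp)
      · cases l' with
        | nil => simp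
        | cons q l'' =>
          rw [List.isChain_cons_cons] at h2 ⊢
          exact ⟨h2.1, h2.2⟩
  · refine ⟨1, (b, k, h0) :: l, ?_, ?_, ?_⟩
    · unfold frp
      simp only [map_one, one_mul, List.map_cons, List.prod_cons, mul_assoc]
    · intro p hp
      rcases List.mem_cons.1 hp with rfl | hp
      · exact hk
      · exact h1 p hp
    · cases l with
      | nil => simp
      | cons q l'' =>
        rw [List.isChain_cons_cons]
        refine ⟨?_, h2⟩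
        intro hb h01
        apply hh
        obtain ⟨q1, q2, q3⟩ := q
        simp only at hb h01
        subst hb
        exact ⟨h01, q2, q3, l'', rfl⟩

/-- every element of a free group on `α ⊕ β` is a reduced product
`h₀ t₁^{e₁} h₁ ⋯ t_m^{e_m} h_m` with `h_i` in the free group on `α`. -/
theorem free_reduced {α β : Type*} (x : FreeGroup (α ⊕ β)) :
    ∃ (h0 : FreeGroup α) (l : List (β × ℤ × FreeGroup α)),
      x = FreeGroup.map Sum.inl h0 *
        (l.map (fun p => FreeGroup.of (Sum.inr p.1) ^ p.2.1 * FreeGroup.map Sum.inl p.2.2)).prod ∧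
      (∀ p ∈ l, p.2.1 ≠ 0) ∧ l.IsChain (fun p q => p.1 = q.1 → p.2.2 ≠ 1) := by
  classical
  change frOK x
  rw [← FreeGroup.mk_toWord (x := x)]
  generalize x.toWord = L
  induction L with
  | nil => exact frOK_one
  | cons p L ih =>
    obtain ⟨a, c⟩ := p
    have e1 : (FreeGroup.mk ((a, c) :: L) : FreeGroup (α ⊕ β)) =
        (FreeGroup.mk [(a, c)]) * FreeGroup.mk L := by
      rw [FreeGroup.mul_mk]; rfl
    rw [e1]
    have e2 : (FreeGroup.mk [(a, c)] : FreeGroup (α ⊕ β)) =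
        FreeGroup.of a ^ (if c then (1 : ℤ) else -1) := by
      cases c
      · simp only [Bool.false_eq_true, if_false, zpow_neg, zpow_one]
        rfl
      · simp only [if_true, zpow_one]
        rfl
    rw [e2]
    cases a with
    | inl a =>
      have e3 : (FreeGroup.of (Sum.inl a) ^ (if c then (1 : ℤ) else -1) : FreeGroup (α ⊕ β)) =
          FreeGroup.map Sum.inl (FreeGroup.of a ^ (if c then (1 : ℤ) else -1)) := by
        rw [map_zpow, FreeGroup.map.of]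
      rw [e3]
      exact frOK_inl _ ih
    | inr b =>
      apply frOK_inr b _ _ ih
      cases c <;> simp

end L2B
end

section

section

namespace L2B
variable {A : Type*} [Group A]

/-! constants of the windmill -/
def cC (κ δ : ℕ) : ℕ := 3 * κ + 26 * δ
def cR (κ δ : ℕ) : ℕ := cC κ δ + κ + 2 * δ + 1
def cW (κ δ : ℕ) : ℕ := 2 * (κ * (cR κ δ + 1)) + 9 * κ
def cB (κ δ : ℕ) : ℕ := cW κ δ + κ * (cR κ δ + 1) + κ
def cG (κ δ : ℕ) : ℕ := 2 * cB κ δ + 2 * κ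

/-- neighbourhood -/
def Nb (ℓ : A → ℕ) (W : Set A) (R : ℕ) : Set A := {x | ∃ u ∈ W, gd ℓ x u ≤ R}

/-- new lines: not in `L`, at distance at most `R` from `W`; as a set of points this is also the
union of these lines -/
def NL (ℓ : A → ℕ) (w : A) (W L : Set A) (R : ℕ) : Set A :=
  {Y | Y ∉ L ∧ ∃ i : ℤ, ∃ u ∈ W, gd ℓ (Y * w ^ i) u ≤ R}

/-- windmills (6.3) -/
structure WM (ℓ : A → ℕ) (w : A) (e : A → ℤ) (κ δ n : ℕ) (W : Set A) (G : Subgroup A)
    (L T : Set A) : Prop where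
  one_mem : (1 : A) ∈ W
  gW : ∀ g ∈ G, ∀ x ∈ W, g * x ∈ W
  gL : ∀ g ∈ G, ∀ x ∈ L, g * x ∈ L
  wL : ∀ x ∈ L, ∀ i : ℤ, x * w ^ i ∈ L
  qc : QCs ℓ W (cC κ δ)
  pr : ∀ Y, Y ∉ L → ∀ x ∈ W, ∀ y ∈ W, |dl e Y x y| ≤ cW κ δ
  inj : Function.Injective (FreeGroup.lift (fun t : T => (t : A) * w ^ n * (t : A)⁻¹))
  rng : (FreeGroup.lift (fun t : T => (t : A) * w ^ n * (t : A)⁻¹)).range = G
  TL : T ⊆ L
  cov : ∀ x ∈ L, ∃ g ∈ G, ∃ t ∈ T, ∃ i : ℤ, x = g * t * w ^ i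
  gre : ∀ g ∈ G, g ≠ 1 → ∃ Y, (n : ℤ) ≤ |dl e Y 1 g| + cG κ δ

/-- representatives of the `G`-orbits of lines in `N` -/
structure Reps (G : Subgroup A) (w : A) (N Tn : Set A) : Prop where
  sub : Tn ⊆ N
  cov : ∀ x ∈ N, ∃ g ∈ G, ∃ t ∈ Tn, ∃ i : ℤ, x = g * t * w ^ i
  uniq : ∀ t ∈ Tn, ∀ t' ∈ Tn, ∀ g ∈ G, ∀ i : ℤ, t' = g * t * w ^ i → t' = t

/-- the product `h₀ ρ₁ h₁ ρ₂ h₂ ⋯ ρ_m h_m`, `ρ = t w^{n e} t⁻¹` for the triple `(t, e, h)` -/
def rp (w : A) (n : ℕ) (h0 : A) (l : List (A × ℤ × A)) : A :=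
  h0 * (l.map (fun p => p.1 * w ^ ((n : ℤ) * p.2.1) * p.1⁻¹ * p.2.2)).prod

/-- reduced lists -/
structure RedL (G : Subgroup A) (Tn : Set A) (l : List (A × ℤ × A)) : Prop where
  t : ∀ p ∈ l, p.1 ∈ Tn
  e : ∀ p ∈ l, p.2.1 ≠ 0
  h : ∀ p ∈ l, p.2.2 ∈ G
  chain : l.IsChain (fun p q => p.1 = q.1 → p.2.2 ≠ 1)

/-- the new group of the windmill step -/
def newG (w : A) (n : ℕ) (G : Subgroup A) (Tn : Set A) : Subgroup A :=
  G ⊔ Subgroup.closure {x | ∃ t ∈ Tn, x = t * w ^ n * t⁻¹}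

/-- translates of a set by a subgroup -/
def tr (G : Subgroup A) (S : Set A) : Set A := {x | ∃ g ∈ G, ∃ s ∈ S, x = g * s}

end L2B
end

section

namespace L2B
variable {A : Type*} [Group A] {ℓ : A → ℕ}

private theorem windA_NL_left_aux {w : A} {e : A → ℤ} {κ δ n : ℕ} {W : Set A}
    {G : Subgroup A} {L T : Set A} (wm : WM ℓ w e κ δ n W G L T) (R : ℕ) (g : A) (hg : g ∈ G)
    (x : A) (hx : x ∈ NL ℓ w W L R) : g * x ∈ NL ℓ w W L R := by
  obtain ⟨hxL, i, u, hu, hd⟩ := hx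
  refine ⟨?_, i, g * u, wm.gW g hg u hu, ?_⟩
  · intro hL
    apply hxL
    have := wm.gL g⁻¹ (G.inv_mem hg) _ hL
    rwa [inv_mul_cancel_left] at this
  · rw [mul_assoc, gd_left]
    exact hd

/-- `NL` is invariant -/
theorem NL_left (h : GNorm ℓ) {w : A} {e : A → ℤ} {κ δ n : ℕ} {W : Set A} {G : Subgroup A}
    {L T : Set A} (wm : WM ℓ w e κ δ n W G L T) (R : ℕ) (g : A) (hg : g ∈ G) (x : A) :
    g * x ∈ NL ℓ w W L R ↔ x ∈ NL ℓ w W L R := by
  constructor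
  · intro hx
    have := windA_NL_left_aux wm R g⁻¹ (G.inv_mem hg) _ hx
    rwa [inv_mul_cancel_left] at this
  · exact windA_NL_left_aux wm R g hg x

private theorem windA_NL_right_aux {w : A} {e : A → ℤ} {κ δ n : ℕ} {W : Set A}
    {G : Subgroup A} {L T : Set A} (wm : WM ℓ w e κ δ n W G L T) (R : ℕ) (x : A) (i : ℤ)
    (hx : x ∈ NL ℓ w W L R) : x * w ^ i ∈ NL ℓ w W L R := by
  obtain ⟨hxL, j, u, hu, hd⟩ := hx
  refine ⟨?_, j - i, u, hu, ?_⟩
  · intro hL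
    apply hxL
    have := wm.wL _ hL (-i)
    have e1 : x * w ^ i * w ^ (-i) = x := by group
    rwa [e1] at this
  · have e1 : x * w ^ i * w ^ (j - i) = x * w ^ j := by group
    rw [e1]
    exact hd

theorem NL_right (h : GNorm ℓ) {w : A} {e : A → ℤ} {κ δ n : ℕ} {W : Set A} {G : Subgroup A}
    {L T : Set A} (wm : WM ℓ w e κ δ n W G L T) (R : ℕ) (x : A) (i : ℤ) :
    x * w ^ i ∈ NL ℓ w W L R ↔ x ∈ NL ℓ w W L R := by
  constructor
  · intro hx
    have := windA_NL_right_aux wm R _ (-i) hx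
    have e1 : x * w ^ i * w ^ (-i) = x := by group
    rwa [e1] at this
  · exact windA_NL_right_aux wm R x i

theorem Nb_left (h : GNorm ℓ) {w : A} {e : A → ℤ} {κ δ n : ℕ} {W : Set A} {G : Subgroup A}
    {L T : Set A} (wm : WM ℓ w e κ δ n W G L T) (R : ℕ) (g : A) (hg : g ∈ G) (x : A) :
    g * x ∈ Nb ℓ W R ↔ x ∈ Nb ℓ W R := by
  constructor
  · rintro ⟨u, hu, hd⟩
    refine ⟨g⁻¹ * u, wm.gW g⁻¹ (G.inv_mem hg) u hu, ?_⟩
    have e1 : gd ℓ (g * x) (g * (g⁻¹ * u)) = gd ℓ x (g⁻¹ * u) := gd_left ℓ g x (g⁻¹ * u)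
    rw [mul_inv_cancel_left] at e1
    rw [← e1]
    exact hd
  · rintro ⟨u, hu, hd⟩
    exact ⟨g * u, wm.gW g hg u hu, by rw [gd_left]; exact hd⟩

/-- (a), points of the neighbourhood -/
theorem wind_a1 (h : GNorm ℓ) {w : A} {e : A → ℤ} {κ δ n : ℕ} (ps : PS ℓ w κ e) {W : Set A}
    {G : Subgroup A} {L T : Set A} (wm : WM ℓ w e κ δ n W G L T) (Y : A) (hY : Y ∉ L) (x : A)
    (hx : x ∈ Nb ℓ W (cR κ δ)) : |dl e Y 1 x| ≤ cW κ δ + κ * (cR κ δ + 1) := by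
  obtain ⟨u, hu, hd⟩ := hx
  have h1 : |dl e Y 1 u| ≤ cW κ δ := wm.pr Y hY 1 wm.one_mem u hu
  have h2 : |dl e Y u x| ≤ κ * (gd ℓ u x + 1) := ps.dl_lip Y u x
  have h3 : (gd ℓ u x : ℤ) ≤ cR κ δ := by
    rw [h.gd_comm]
    exact_mod_cast hd
  have h4 : (κ : ℤ) * (gd ℓ u x + 1) ≤ κ * (cR κ δ + 1) :=
    mul_le_mul_of_nonneg_left (by omega) (by positivity)
  rw [← dl_add e Y 1 u x]
  have h5 := abs_add_le (dl e Y 1 u) (dl e Y u x)
  linarith

/-- (a), points of other new lines -/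
theorem wind_a2 (h : GNorm ℓ) {w : A} {e : A → ℤ} {κ δ n : ℕ} (ps : PS ℓ w κ e) {W : Set A}
    {G : Subgroup A} {L T : Set A} (wm : WM ℓ w e κ δ n W G L T) (Y Y' : A) (hY : Y ∉ L)
    (hY' : Y' ∈ NL ℓ w W L (cR κ δ)) (hne : ¬ SameL w Y Y') : |dl e Y 1 Y'| ≤ cB κ δ := by
  obtain ⟨-, i, u, hu, hd⟩ := hY'
  have h1 := wind_a1 h ps wm Y hY (Y' * w ^ i) ⟨u, hu, hd⟩
  have h2 := ps.dl_overlap Y Y' hne i 0
  rw [zpow_zero, mul_one] at h2
  have h3 := abs_add_le (dl e Y 1 (Y' * w ^ i)) (dl e Y (Y' * w ^ i) Y')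
  rw [dl_add] at h3
  have h4 : ((cB κ δ : ℕ) : ℤ) = cW κ δ + κ * (cR κ δ + 1) + κ := by
    unfold cB; push_cast; ring
  rw [h4]
  linarith

/-- (b) the stabilizer in `G` of a new line is trivial -/
theorem wind_b (h : GNorm ℓ) {w : A} {e : A → ℤ} {κ δ n : ℕ} (ps : PS ℓ w κ e) {W : Set A}
    {G : Subgroup A} {L T : Set A} (wm : WM ℓ w e κ δ n W G L T) (Y : A) (hY : Y ∉ L)
    (g : A) (hg : g ∈ G) (hs : SameL w Y (g * Y)) : g = 1 := by
  obtain ⟨s, hs⟩ := hs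
  have hg1 : g = Y * w ^ s * Y⁻¹ := by rw [← hs]; group
  have hpow : ∀ j : ℕ, g ^ j = Y * w ^ (s * j) * Y⁻¹ := by
    intro j
    induction j with
    | zero => simp
    | succ j ih =>
      rw [pow_succ, ih]
      nth_rewrite 1 [hg1]
      push_cast
      group
  have hb : ∀ j : ℕ, |s * j| ≤ cW κ δ := by
    intro j
    have h1 : g ^ j ∈ W := by
      have := wm.gW (g ^ j) (G.pow_mem hg j) 1 wm.one_mem
      rwa [mul_one] at this
    have h2 := wm.pr Y hY 1 wm.one_mem _ h1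
    have h3 := ps.dl_rot Y 1 1 (s * j)
    rw [mul_one, dl_self, ← hpow j, zero_add] at h3
    rw [h3] at h2
    exact h2
  have h0 : s = 0 := by
    by_contra hne
    have h1 := hb (cW κ δ + 1)
    rw [abs_mul] at h1
    have h2 : (1 : ℤ) ≤ |s| := Int.one_le_abs hne
    have h3 : |((cW κ δ + 1 : ℕ) : ℤ)| = (cW κ δ : ℤ) + 1 := by
      rw [abs_of_nonneg (by positivity)]; push_cast; ring
    rw [h3] at h1
    nlinarith
  rw [hg1, h0]
  simp

end L2B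
end

section

namespace L2B
variable {A : Type*} [Group A] {ℓ : A → ℕ}

private lemma rc_rp_succ (w : A) (n : ℕ) (h0 : A) (l : List (A × ℤ × A)) (j : ℕ)
    (hj : j < l.length) :
    rp w n h0 (l.take (j + 1)) = rp w n h0 (l.take j) *
      (l[j].1 * w ^ ((n : ℤ) * l[j].2.1) * l[j].1⁻¹ * l[j].2.2) := by
  unfold rp
  rw [List.take_add_one, List.getElem?_eq_getElem hj]
  simp only [Option.toList_some, List.map_append, List.map_cons, List.map_nil, List.prod_append,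
    List.prod_cons, List.prod_nil, mul_one]
  rw [mul_assoc h0]

private lemma rc_mem (w : A) (n : ℕ) (G : Subgroup A) (Tn : Set A) (h0 : A) (hh0 : h0 ∈ G)
    (l : List (A × ℤ × A)) (hl : RedL G Tn l) (j : ℕ) (hj : j ≤ l.length) :
    rp w n h0 (l.take j) ∈ newG w n G Tn := by
  induction j with
  | zero =>
    have : rp w n h0 (l.take 0) = h0 := by simp [rp]
    rw [this]
    exact (le_sup_left : G ≤ newG w n G Tn) hh0
  | succ j ih =>
    have hj' : j < l.length := by omega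
    rw [rc_rp_succ w n h0 l j hj']
    have hm : l[j] ∈ l := List.getElem_mem hj'
    refine mul_mem (ih (by omega)) (mul_mem ?_ ?_)
    · have h1 : l[j].1 * w ^ ((n : ℤ) * l[j].2.1) * l[j].1⁻¹ =
          (l[j].1 * w ^ n * l[j].1⁻¹) ^ l[j].2.1 := by
        rw [conj_zpow, zpow_mul, zpow_natCast]
      rw [h1]
      apply zpow_mem
      apply (le_sup_right : _ ≤ newG w n G Tn)
      exact Subgroup.subset_closure ⟨l[j].1, hl.t _ hm, rfl⟩
    · exact (le_sup_left : G ≤ newG w n G Tn) (hl.h _ hm)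

private lemma rc_diff (h : GNorm ℓ) {w : A} {e : A → ℤ} {κ δ n : ℕ} (ps : PS ℓ w κ e) {W : Set A}
    {G : Subgroup A} {L T : Set A} (wm : WM ℓ w e κ δ n W G L T) (Tn : Set A)
    (hR : Reps G w (NL ℓ w W L (cR κ δ)) Tn) (l : List (A × ℤ × A))
    (hl : RedL G Tn l) (j : ℕ) (hj : j + 1 < l.length) :
    ¬ SameL w (l[j].2.2⁻¹ * l[j].1) l[j + 1].1 := by
  rintro ⟨i, hi⟩
  have hm : l[j] ∈ l := List.getElem_mem (by omega)
  have hm1 : l[j + 1] ∈ l := List.getElem_mem hj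
  have ht := hR.uniq l[j].1 (hl.t _ hm) l[j + 1].1 (hl.t _ hm1) l[j].2.2⁻¹
    (inv_mem (hl.h _ hm)) i hi
  have hc := List.isChain_iff_getElem.mp hl.chain j hj
  apply hc ht.symm
  have hb := wind_b h ps wm l[j].1 (hR.sub (hl.t _ hm)).1 l[j].2.2⁻¹ (inv_mem (hl.h _ hm))
    ⟨-i, by
      rw [ht] at hi
      have h2 : l[j].2.2⁻¹ * l[j].1 = l[j].1 * w ^ (-i) := by
        rw [zpow_neg]
        exact eq_mul_inv_of_mul_eq hi.symm
      exact h2⟩
  exact inv_eq_one.mp hb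

private lemma rc_diff' (h : GNorm ℓ) {w : A} {e : A → ℤ} {κ δ n : ℕ} (ps : PS ℓ w κ e) {W : Set A}
    {G : Subgroup A} {L T : Set A} (wm : WM ℓ w e κ δ n W G L T) (Tn : Set A)
    (hR : Reps G w (NL ℓ w W L (cR κ δ)) Tn) (l : List (A × ℤ × A))
    (hl : RedL G Tn l) (j : ℕ) (hj : j + 1 < l.length) :
    ¬ SameL w l[j].1 (l[j].2.2 * l[j + 1].1) := by
  rintro ⟨i, hi⟩
  apply rc_diff h ps wm Tn hR l hl j hj
  refine ⟨i, ?_⟩
  rw [mul_assoc, ← hi]
  group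

/-- (6.4)(c),(d): the chain of lines of a reduced product -/
theorem redChain (h : GNorm ℓ) {w : A} {e : A → ℤ} {κ δ n : ℕ} (ps : PS ℓ w κ e) {W : Set A}
    {G : Subgroup A} {L T : Set A} (wm : WM ℓ w e κ δ n W G L T) (Tn : Set A)
    (hR : Reps G w (NL ℓ w W L (cR κ δ)) Tn) (h0 : A) (hh0 : h0 ∈ G) (l : List (A × ℤ × A))
    (hl : RedL G Tn l) (hne : l ≠ []) (x y : A) (hx : x ∈ Nb ℓ W (cR κ δ))
    (hy : y ∈ Nb ℓ W (cR κ δ)) (hn : 0 < n) :
    ∃ (S : ℕ → Set A) (V : ℕ → A),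
      Chain w e ((n : ℤ) - 2 * cB κ δ) l.length S V ∧ S 0 = {x} ∧
      S (l.length + 1) = {rp w n h0 l * y} ∧
      (∀ i ≤ l.length, ∃ a ∈ newG w n G Tn,
        (∀ u ∈ S i, a⁻¹ * u ∈ Nb ℓ W (cR κ δ) ∪ NL ℓ w W L (cR κ δ)) ∧
        (∀ u ∈ S (i+1), a⁻¹ * u ∈ Nb ℓ W (cR κ δ) ∪ NL ℓ w W L (cR κ δ))) ∧
      (∀ i, 1 ≤ i → i ≤ l.length → ∃ a ∈ newG w n G Tn, a⁻¹ * V i ∈ NL ℓ w W L (cR κ δ)) := by
  classical
  set P : ℕ → A := fun j => rp w n h0 (l.take j) with hP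
  set t : ℕ → A := fun j => (l.getD j (1, 0, 1)).1 with ht
  set V : ℕ → A := fun i => P (i - 1) * t (i - 1) with hV
  set S : ℕ → Set A := fun i => if i = 0 then {x} else if i ≤ l.length then Ln w (V i)
    else {rp w n h0 l * y} with hS
  have htj : ∀ j (hj : j < l.length), t j = l[j].1 := by
    intro j hj
    simp [ht, List.getD_eq_getElem?_getD, List.getElem?_eq_getElem hj]
  have hP0 : P 0 = h0 := by simp [hP, rp]
  have hPm : P l.length = rp w n h0 l := by simp [hP]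
  have hPs : ∀ j (hj : j < l.length), P (j + 1) = P j *
      (l[j].1 * w ^ ((n : ℤ) * l[j].2.1) * l[j].1⁻¹ * l[j].2.2) := by
    intro j hj
    exact rc_rp_succ w n h0 l j hj
  have hPmem : ∀ j ≤ l.length, P j ∈ newG w n G Tn := fun j hj =>
    rc_mem w n G Tn h0 hh0 l hl j hj
  have hS0 : S 0 = {x} := by simp [hS]
  have hSl : ∀ i, 1 ≤ i → i ≤ l.length → S i = Ln w (V i) := by
    intro i h1 h2
    simp only [hS]
    rw [if_neg (by omega), if_pos h2]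
  have hSm : S (l.length + 1) = {rp w n h0 l * y} := by
    simp only [hS]
    rw [if_neg (by omega), if_neg (by omega)]
  have hVj : ∀ j (hj : j < l.length), V (j + 1) = P j * l[j].1 := by
    intro j hj
    simp only [hV, Nat.add_sub_cancel]
    rw [htj j hj]
  have hTL : ∀ j (hj : j < l.length), l[j].1 ∈ NL ℓ w W L (cR κ δ) := fun j hj =>
    hR.sub (hl.t _ (List.getElem_mem hj))
  -- the left objects
  have hleft : ∀ j (hj : j < l.length), ∀ u ∈ S (j + 1), ∃ k : ℤ,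
      (P (j + 1))⁻¹ * u = l[j].2.2⁻¹ * l[j].1 * w ^ k := by
    intro j hj u hu
    rw [hSl (j + 1) (by omega) (by omega)] at hu
    obtain ⟨k, rfl⟩ := hu
    refine ⟨k - (n : ℤ) * l[j].2.1, ?_⟩
    rw [hVj j hj, hPs j hj, zpow_sub]
    group
  have hright : ∀ j (hj : j < l.length), ∀ u ∈ S (j + 1), ∃ k : ℤ,
      (P j)⁻¹ * u = l[j].1 * w ^ k := by
    intro j hj u hu
    rw [hSl (j + 1) (by omega) (by omega)] at hu
    obtain ⟨k, rfl⟩ := hu
    refine ⟨k, ?_⟩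
    rw [hVj j hj]
    group
  have hcB : ((cW κ δ : ℕ) : ℤ) + κ * (cR κ δ + 1) ≤ cB κ δ := by
    unfold cB
    push_cast
    have : (0 : ℤ) ≤ κ := Int.natCast_nonneg _
    linarith
  -- claim U
  have hU : ∀ i (hi : i < l.length), ∀ u ∈ S i, |dl e l[i].1 1 ((P i)⁻¹ * u)| ≤ cB κ δ := by
    intro i hi u hu
    rcases i with _ | j
    · rw [hS0, Set.mem_singleton_iff] at hu
      subst hu
      rw [hP0]
      have h1 : h0⁻¹ * u ∈ Nb ℓ W (cR κ δ) := (Nb_left h wm _ _ (inv_mem hh0) _).mpr hx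
      exact (wind_a1 h ps wm _ (hTL 0 hi).1 _ h1).trans hcB
    · obtain ⟨k, hk⟩ := hleft j (by omega) u hu
      rw [hk]
      apply wind_a2 h ps wm _ _ (hTL (j + 1) hi).1
      · rw [NL_right h wm, NL_left h wm _ _ (inv_mem (hl.h _ (List.getElem_mem (by omega))))]
        exact hTL j (by omega)
      · rintro ⟨i', hi'⟩
        apply rc_diff h ps wm Tn hR l hl j hi
        refine ⟨k - i', ?_⟩
        rw [zpow_sub, ← mul_assoc, hi']
        group
  -- claim V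
  have hVV : ∀ i (hi : i < l.length), ∀ v ∈ S (i + 2), ∃ v', |dl e l[i].1 1 v'| ≤ cB κ δ ∧
      (P i)⁻¹ * v = l[i].1 * w ^ ((n : ℤ) * l[i].2.1) * l[i].1⁻¹ * v' := by
    intro i hi v hv
    by_cases hlast : i + 1 = l.length
    · have h2 : i + 2 = l.length + 1 := by omega
      rw [h2, hSm, Set.mem_singleton_iff] at hv
      subst hv
      refine ⟨l[i].2.2 * y, ?_, ?_⟩
      · have h1 : l[i].2.2 * y ∈ Nb ℓ W (cR κ δ) :=
          (Nb_left h wm _ _ (hl.h _ (List.getElem_mem hi)) _).mpr hy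
        exact (wind_a1 h ps wm _ (hTL i hi).1 _ h1).trans hcB
      · rw [← hPm, ← hlast, hPs i hi]
        group
    · have hi1 : i + 1 < l.length := by omega
      obtain ⟨k, hk⟩ := hright (i + 1) hi1 v hv
      refine ⟨l[i].2.2 * l[i + 1].1 * w ^ k, ?_, ?_⟩
      · apply wind_a2 h ps wm _ _ (hTL i hi).1
        · rw [NL_right h wm, NL_left h wm _ _ (hl.h _ (List.getElem_mem hi))]
          exact hTL (i + 1) hi1
        · rintro ⟨i', hi'⟩
          apply rc_diff' h ps wm Tn hR l hl i hi1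
          refine ⟨i' - k, ?_⟩
          rw [zpow_sub, ← mul_assoc, ← hi']
          group
      · have h3 : v = P (i + 1) * (l[i + 1].1 * w ^ k) := by
          rw [← hk]; group
        rw [h3, hPs i hi]
        group
  refine ⟨S, V, ⟨hSl, ?_, ?_⟩, hS0, hSm, ?_, ?_⟩
  · -- diff
    intro i h1 h2
    obtain ⟨j, rfl⟩ : ∃ j, i = j + 1 := ⟨i - 1, by omega⟩
    rintro ⟨k, hk⟩
    have hj : j < l.length := by omega
    rw [hVj (j + 1) (by omega), hVj j hj, hPs j hj] at hk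
    apply rc_diff' h ps wm Tn hR l hl j (by omega)
    refine ⟨k - (n : ℤ) * l[j].2.1, ?_⟩
    have h3 : l[j].2.2 * l[j + 1].1 =
        (P j * (l[j].1 * w ^ ((n : ℤ) * l[j].2.1) * l[j].1⁻¹))⁻¹ *
          (P j * (l[j].1 * w ^ ((n : ℤ) * l[j].2.1) * l[j].1⁻¹ * l[j].2.2) * l[j + 1].1) := by
      group
    rw [h3, hk, zpow_sub]
    group
  · -- far
    intro i hi u hu v hv
    obtain ⟨v', hv1, hv2⟩ := hVV i hi v hv
    have hu1 := hU i hi u hu
    have h1 : dl e (V (i + 1)) u v = dl e l[i].1 ((P i)⁻¹ * u) ((P i)⁻¹ * v) := by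
      rw [hVj i hi, ← dl_left e (P i) l[i].1 ((P i)⁻¹ * u) ((P i)⁻¹ * v)]
      rw [mul_inv_cancel_left, mul_inv_cancel_left]
    rw [h1, hv2, ps.dl_rot]
    have h2 := dl_add e l[i].1 1 ((P i)⁻¹ * u) v'
    have he : l[i].2.1 ≠ 0 := hl.e _ (List.getElem_mem hi)
    have h3 : (n : ℤ) ≤ |(n : ℤ) * l[i].2.1| := by
      rw [abs_mul, abs_of_nonneg (Int.natCast_nonneg n)]
      have : 1 ≤ |l[i].2.1| := Int.one_le_abs he
      nlinarith
    rw [abs_le] at hv1 hu1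
    rcases abs_cases ((n : ℤ) * l[i].2.1) with ⟨h4, h5⟩ | ⟨h4, h5⟩
    · have := le_abs_self (dl e l[i].1 ((P i)⁻¹ * u) v' + (n : ℤ) * l[i].2.1)
      linarith
    · have := neg_abs_le (dl e l[i].1 ((P i)⁻¹ * u) v' + (n : ℤ) * l[i].2.1)
      linarith
  · intro i hi
    refine ⟨P i, hPmem i hi, ?_, ?_⟩
    · intro u hu
      rcases i with _ | j
      · left
        rw [hS0, Set.mem_singleton_iff] at hu
        subst hu
        rw [hP0]
        exact (Nb_left h wm _ _ (inv_mem hh0) _).mpr hx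
      · right
        obtain ⟨k, hk⟩ := hleft j (by omega) u hu
        rw [hk, NL_right h wm, NL_left h wm _ _ (inv_mem (hl.h _ (List.getElem_mem (by omega))))]
        exact hTL j (by omega)
    · intro u hu
      by_cases him : i = l.length
      · left
        rw [him, hSm, Set.mem_singleton_iff] at hu
        subst hu
        rw [him, hPm, inv_mul_cancel_left]
        exact hy
      · right
        obtain ⟨k, hk⟩ := hright i (by omega) u hu
        rw [hk, NL_right h wm]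
        exact hTL i (by omega)
  · intro i h1 h2
    obtain ⟨j, rfl⟩ : ∃ j, i = j + 1 := ⟨i - 1, by omega⟩
    refine ⟨P j, hPmem j (by omega), ?_⟩
    rw [hVj j (by omega), inv_mul_cancel_left]
    exact hTL j (by omega)

end L2B
end

section

namespace L2B
variable {A : Type*} [Group A] {ℓ : A → ℕ}

/-- quasiconvexity of the lines -/
private theorem windC_line {w : A} {e : A → ℤ} {κ : ℕ} (ps : PS ℓ w κ e)
    (a z : A) (i j : ℤ) (hz : Btw ℓ (a * w ^ i) (a * w ^ j) z) :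
    ∃ k : ℤ, gd ℓ z (a * w ^ k) ≤ κ := by
  have h1 : Btw ℓ (w ^ i) (w ^ j) (a⁻¹ * z) := by
    rw [← btw_left ℓ a, mul_inv_cancel_left]
    exact hz
  obtain ⟨k, hk⟩ := ps.qc i j _ h1
  refine ⟨k, ?_⟩
  rw [← gd_left ℓ a, mul_inv_cancel_left] at hk
  exact hk

private theorem windC_A1 {W : Set A} {R : ℕ} {a u z : A} (hu : u ∈ W) (hd : gd ℓ a u ≤ R)
    (hz : Btw ℓ a u z) : z ∈ Nb ℓ W R := by
  refine ⟨u, hu, ?_⟩
  unfold Btw at hz
  omega

private theorem windC_A1' (h : GNorm ℓ) {W : Set A} {R : ℕ} {a u z : A} (hu : u ∈ W)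
    (hd : gd ℓ a u ≤ R) (hz : Btw ℓ u a z) : z ∈ Nb ℓ W R :=
  windC_A1 hu hd (h.btw_comm.mp hz)

private theorem windC_A2 {w : A} {e : A → ℤ} {κ δ n : ℕ} {W : Set A}
    {G : Subgroup A} {L T : Set A} (wm : WM ℓ w e κ δ n W G L T) {u v z : A}
    (hu : u ∈ W) (hv : v ∈ W) (hz : Btw ℓ u v z) : z ∈ Nb ℓ W (cR κ δ) := by
  obtain ⟨s, hs, hd⟩ := wm.qc u hu v hv z hz
  refine ⟨s, hs, hd.trans ?_⟩
  unfold cR
  omega

/-- (A) -/
private theorem windC_A (h : GNorm ℓ) {δ : ℕ} (hyp : Hyp ℓ δ) {w : A} {e : A → ℤ} {κ n : ℕ}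
    {W : Set A} {G : Subgroup A} {L T : Set A} (wm : WM ℓ w e κ δ n W G L T) {a b z : A}
    (ha : a ∈ Nb ℓ W (cR κ δ)) (hb : b ∈ Nb ℓ W (cR κ δ)) (hz : Btw ℓ a b z) :
    ∃ s ∈ Nb ℓ W (cR κ δ), gd ℓ z s ≤ 8 * δ := by
  obtain ⟨u, hu, hau⟩ := ha
  obtain ⟨v, hv, hbv⟩ := hb
  obtain ⟨z1, hz1, hd1⟩ := thinTri h hyp hz u
  rcases hz1 with hz1 | hz1
  · exact ⟨z1, windC_A1 hu hau hz1, by omega⟩
  · obtain ⟨z2, hz2, hd2⟩ := thinTri h hyp hz1 v
    have ht := h.gd_tri z z1 z2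
    rcases hz2 with hz2 | hz2
    · exact ⟨z2, windC_A2 wm hu hv hz2, by omega⟩
    · exact ⟨z2, windC_A1' h hv hbv hz2, by omega⟩

/-- from a point of `Nb ∪ NL` to a point of `Nb` -/
private theorem windC_proj (h : GNorm ℓ) {w : A} {e : A → ℤ} {κ δ n : ℕ} (ps : PS ℓ w κ e)
    {W : Set A} {G : Subgroup A} {L T : Set A} (wm : WM ℓ w e κ δ n W G L T) {a : A}
    (ha : a ∈ Nb ℓ W (cR κ δ) ∪ NL ℓ w W L (cR κ δ)) :
    ∃ v u, u ∈ W ∧ gd ℓ v u ≤ cR κ δ ∧ ∀ z, Btw ℓ a v z →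
      ∃ s ∈ Nb ℓ W (cR κ δ) ∪ NL ℓ w W L (cR κ δ), gd ℓ z s ≤ κ := by
  rcases ha with ha | ha
  · obtain ⟨u, hu, hd⟩ := id ha
    refine ⟨a, u, hu, hd, ?_⟩
    intro z hz
    refine ⟨a, Or.inl ha, ?_⟩
    unfold Btw at hz
    rw [h.gd_self] at hz
    omega
  · obtain ⟨-, i, u, hu, hd⟩ := id ha
    refine ⟨a * w ^ i, u, hu, hd, ?_⟩
    intro z hz
    have hz' : Btw ℓ (a * w ^ (0 : ℤ)) (a * w ^ i) z := by
      rw [zpow_zero, mul_one]
      exact hz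
    obtain ⟨k, hk⟩ := windC_line ps a z 0 i hz'
    exact ⟨a * w ^ k, Or.inr ((NL_right h wm (cR κ δ) a k).mpr ha), hk⟩

/-- (B) -/
private theorem windC_B (h : GNorm ℓ) {δ : ℕ} (hyp : Hyp ℓ δ) {w : A} {e : A → ℤ} {κ n : ℕ}
    (ps : PS ℓ w κ e) {W : Set A} {G : Subgroup A} {L T : Set A}
    (wm : WM ℓ w e κ δ n W G L T) {a b z : A}
    (ha : a ∈ Nb ℓ W (cR κ δ) ∪ NL ℓ w W L (cR κ δ))
    (hb : b ∈ Nb ℓ W (cR κ δ) ∪ NL ℓ w W L (cR κ δ)) (hz : Btw ℓ a b z) :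
    ∃ s ∈ Nb ℓ W (cR κ δ) ∪ NL ℓ w W L (cR κ δ), gd ℓ z s ≤ 12 * δ + κ := by
  obtain ⟨v, u, hu, hvu, hv⟩ := windC_proj h ps wm ha
  obtain ⟨v', u', hu', hvu', hv'⟩ := windC_proj h ps wm hb
  obtain ⟨z1, hz1, hd1⟩ := thinTri h hyp hz u
  rcases hz1 with hz1 | hz1
  · obtain ⟨z2, hz2, hd2⟩ := thinTri h hyp hz1 v
    have ht := h.gd_tri z z1 z2
    rcases hz2 with hz2 | hz2
    · obtain ⟨s, hs, hd⟩ := hv z2 hz2
      have ht2 := h.gd_tri z z2 s
      exact ⟨s, hs, by omega⟩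
    · exact ⟨z2, Or.inl (windC_A1 hu hvu hz2), by omega⟩
  · obtain ⟨z2, hz2, hd2⟩ := thinTri h hyp hz1 v'
    have ht := h.gd_tri z z1 z2
    rcases hz2 with hz2 | hz2
    · obtain ⟨z3, hz3, hd3⟩ := thinTri h hyp hz2 u'
      have ht2 := h.gd_tri z z2 z3
      rcases hz3 with hz3 | hz3
      · exact ⟨z3, Or.inl (windC_A2 wm hu hu' hz3), by omega⟩
      · exact ⟨z3, Or.inl (windC_A1' h hu' hvu' hz3), by omega⟩
    · obtain ⟨s, hs, hd⟩ := hv' z2 (h.btw_comm.mp hz2)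
      have ht2 := h.gd_tri z z2 s
      exact ⟨s, hs, by omega⟩

/-- the marks on the lines of a chain -/
private theorem windC_marks (h : GNorm ℓ) {w : A} {e : A → ℤ} {κ : ℕ} (ps : PS ℓ w κ e)
    (V x y : A) (hd : (κ : ℤ) < |dl e V x y|) :
    gd ℓ x (V * w ^ e (V⁻¹ * x)) + gd ℓ (V * w ^ e (V⁻¹ * x)) y ≤ gd ℓ x y + κ ∧
    gd ℓ x (V * w ^ e (V⁻¹ * y)) + gd ℓ (V * w ^ e (V⁻¹ * y)) y ≤ gd ℓ x y + κ := by
  have h1 := ps.pass (V⁻¹ * x) (V⁻¹ * y) hd
  have e1 : gd ℓ (V⁻¹ * x) (w ^ e (V⁻¹ * x)) = gd ℓ x (V * w ^ e (V⁻¹ * x)) := by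
    rw [← gd_left ℓ V (V⁻¹ * x), mul_inv_cancel_left]
  have e2 : gd ℓ (w ^ e (V⁻¹ * y)) (V⁻¹ * y) = gd ℓ (V * w ^ e (V⁻¹ * y)) y := by
    rw [← gd_left ℓ V _ (V⁻¹ * y), mul_inv_cancel_left]
  have e3 : ℓ (w ^ (e (V⁻¹ * y) - e (V⁻¹ * x))) =
      gd ℓ (V * w ^ e (V⁻¹ * x)) (V * w ^ e (V⁻¹ * y)) := by
    rw [gd_left]
    unfold gd
    congr 1
    rw [← zpow_neg, ← zpow_add]
    congr 1
    ring
  have e4 : gd ℓ (V⁻¹ * x) (V⁻¹ * y) = gd ℓ x y := gd_left ℓ V⁻¹ x y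
  rw [e1, e2, e3, e4] at h1
  have t1 := h.gd_tri x (V * w ^ e (V⁻¹ * x)) (V * w ^ e (V⁻¹ * y))
  have t2 := h.gd_tri (V * w ^ e (V⁻¹ * x)) (V * w ^ e (V⁻¹ * y)) y
  constructor <;> omega

/-- (C), main case -/
private theorem windC_C (h : GNorm ℓ) {δ : ℕ} (hyp : Hyp ℓ δ) {w : A} {e : A → ℤ} {κ n : ℕ}
    (ps : PS ℓ w κ e) {W : Set A} {G : Subgroup A} {L T : Set A}
    (wm : WM ℓ w e κ δ n W G L T) (Tn : Set A) (hR : Reps G w (NL ℓ w W L (cR κ δ)) Tn)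
    (hn : 2 * cB κ δ + 4 * κ < n)
    (hred : ∀ g ∈ newG w n G Tn, g ∈ G ∨ ∃ h0 ∈ G, ∃ l, RedL G Tn l ∧ l ≠ [] ∧ g = rp w n h0 l)
    {x y z g : A} (hg : g ∈ newG w n G Tn) (hx : x ∈ Nb ℓ W (cR κ δ))
    (hy : y ∈ Nb ℓ W (cR κ δ)) (hz : Btw ℓ x (g * y) z) :
    ∃ s ∈ tr (newG w n G Tn) (Nb ℓ W (cR κ δ) ∪ NL ℓ w W L (cR κ δ)),
      gd ℓ z s ≤ 3 * κ + 18 * δ := by
  rcases hred g hg with hgG | ⟨h0, hh0, l, hl, hne, rfl⟩
  · obtain ⟨s, hs, hd⟩ := windC_A h hyp wm hx ((Nb_left h wm (cR κ δ) g hgG y).mpr hy) hz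
    exact ⟨s, ⟨1, Subgroup.one_mem _, s, Or.inl hs, (one_mul s).symm⟩, by omega⟩
  · obtain ⟨S, V, C, hS0, hSm, hpair, hline⟩ :=
      redChain h ps wm Tn hR h0 hh0 l hl hne x y hx hy (by omega)
    set m := l.length with hm
    set y' := rp w n h0 l * y with hy'
    have hm1 : 1 ≤ m := by
      rw [hm]
      exact List.length_pos_iff.mpr hne
    have hΛ : (3 * κ : ℤ) < (n : ℤ) - 2 * cB κ δ := by omega
    have hA := chainA h ps hΛ C x y' hS0 hSm
    have hmark : ∀ i, 1 ≤ i → i ≤ m →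
        gd ℓ x (V i * w ^ e ((V i)⁻¹ * x)) + gd ℓ (V i * w ^ e ((V i)⁻¹ * x)) y' ≤
          gd ℓ x y' + κ ∧
        gd ℓ x (V i * w ^ e ((V i)⁻¹ * y')) + gd ℓ (V i * w ^ e ((V i)⁻¹ * y')) y' ≤
          gd ℓ x y' + κ := by
      intro i hi1 him
      apply windC_marks h ps
      have := (hA i hi1 him).2.2
      omega
    -- the sequence of marks
    let a : ℕ → A := fun j =>
      if j = 0 then x else if j = 2 * m + 1 then y' else
        if j % 2 = 1 then V ((j + 1) / 2) * w ^ e ((V ((j + 1) / 2))⁻¹ * x)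
        else V (j / 2) * w ^ e ((V (j / 2))⁻¹ * y')
    have a0 : a 0 = x := if_pos rfl
    have aN : a (2 * m + 1) = y' := by
      simp only [a]
      rw [if_neg (by omega)]
      simp
    have aodd : ∀ i, 1 ≤ i → i ≤ m → a (2 * i - 1) = V i * w ^ e ((V i)⁻¹ * x) := by
      intro i hi1 him
      simp only [a]
      rw [if_neg (by omega), if_neg (by omega), if_pos (by omega)]
      have : (2 * i - 1 + 1) / 2 = i := by omega
      rw [this]
    have aeven : ∀ i, 1 ≤ i → i ≤ m → a (2 * i) = V i * w ^ e ((V i)⁻¹ * y') := by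
      intro i hi1 him
      simp only [a]
      rw [if_neg (by omega), if_neg (by omega), if_neg (by omega)]
      have : 2 * i / 2 = i := by omega
      rw [this]
    have ha : ∀ j ≤ 2 * m + 1, gd ℓ x (a j) + gd ℓ (a j) y' ≤ gd ℓ x y' + κ := by
      intro j hj
      rcases Nat.eq_zero_or_pos j with hj0 | hj0
      · rw [hj0, a0, h.gd_self]
        omega
      rcases eq_or_lt_of_le hj with hjN | hjN
      · rw [hjN, aN, h.gd_self]
        omega
      rcases Nat.even_or_odd' j with ⟨i, hi | hi⟩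
      · rw [hi, aeven i (by omega) (by omega)]
        exact (hmark i (by omega) (by omega)).2
      · have hji : j = 2 * (i + 1) - 1 := by omega
        rw [hji, aodd (i + 1) (by omega) (by omega)]
        exact (hmark (i + 1) (by omega) (by omega)).1
    obtain ⟨j, hj, z', hz', hd'⟩ := cover h hyp hz a (2 * m + 1) κ (by omega) a0 aN ha
    rcases Nat.even_or_odd' j with ⟨i, hi | hi⟩
    · -- marks in `S i` and `S (i+1)`
      have him : i ≤ m := by omega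
      have hu : a j ∈ S i := by
        rcases Nat.eq_zero_or_pos i with hi0 | hi0
        · subst hi0
          rw [hi, Nat.mul_zero, a0, hS0]
          rfl
        · rw [hi, aeven i hi0 him, C.line i hi0 him]
          exact ⟨_, rfl⟩
      have hv : a (j + 1) ∈ S (i + 1) := by
        rcases eq_or_lt_of_le him with hi0 | hi0
        · subst hi0
          rw [hi, aN, hSm]
          rfl
        · have : j + 1 = 2 * (i + 1) - 1 := by omega
          rw [this, aodd (i + 1) (by omega) (by omega), C.line (i + 1) (by omega) (by omega)]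
          exact ⟨_, rfl⟩
      obtain ⟨c, hc, hc1, hc2⟩ := hpair i him
      have hz'' : Btw ℓ (c⁻¹ * a j) (c⁻¹ * a (j + 1)) (c⁻¹ * z') := (btw_left ℓ _ _ _ _).mpr hz'
      obtain ⟨s, hs, hds⟩ := windC_B h hyp ps wm (hc1 _ hu) (hc2 _ hv) hz''
      refine ⟨c * s, ⟨c, hc, s, hs, rfl⟩, ?_⟩
      have e1 : gd ℓ z' (c * s) = gd ℓ (c⁻¹ * z') s := by
        rw [← gd_left ℓ c (c⁻¹ * z') s, mul_inv_cancel_left]
      have t := h.gd_tri z z' (c * s)
      omega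
    · have him : i + 1 ≤ m := by omega
      have e1 : j = 2 * (i + 1) - 1 := by omega
      have e2 : j + 1 = 2 * (i + 1) := by omega
      rw [e2] at hz'
      rw [e1, aodd (i + 1) (by omega) him, aeven (i + 1) (by omega) him] at hz'
      obtain ⟨k, hk⟩ := windC_line ps _ _ _ _ hz'
      obtain ⟨c, hc, hcV⟩ := hline (i + 1) (by omega) him
      refine ⟨V (i + 1) * w ^ k, ⟨c, hc, c⁻¹ * V (i + 1) * w ^ k, Or.inr ?_, by group⟩, ?_⟩
      · exact (NL_right h wm (cR κ δ) _ k).mpr hcV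
      · have t := h.gd_tri z z' (V (i + 1) * w ^ k)
        omega

/-- (6.4)(e): quasiconvexity of the new windmill -/
theorem wind_qc (h : GNorm ℓ) {δ : ℕ} (hyp : Hyp ℓ δ) {w : A} {e : A → ℤ} {κ n : ℕ}
    (ps : PS ℓ w κ e) {W : Set A} {G : Subgroup A} {L T : Set A}
    (wm : WM ℓ w e κ δ n W G L T) (Tn : Set A) (hR : Reps G w (NL ℓ w W L (cR κ δ)) Tn)
    (hn : 2 * cB κ δ + 4 * κ < n)
    (hred : ∀ g ∈ newG w n G Tn, g ∈ G ∨ ∃ h0 ∈ G, ∃ l, RedL G Tn l ∧ l ≠ [] ∧ g = rp w n h0 l) :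
    QCs ℓ (tr (newG w n G Tn) (Nb ℓ W (cR κ δ) ∪ NL ℓ w W L (cR κ δ))) (cC κ δ) := by
  rintro x ⟨g1, hg1, a, ha, rfl⟩ y ⟨g2, hg2, b, hb, rfl⟩ z hz
  have hcC : cC κ δ = 3 * κ + 26 * δ := rfl
  obtain ⟨v, u, hu, hvu, hv⟩ := windC_proj h ps wm ha
  obtain ⟨v', u', hu', hvu', hv'⟩ := windC_proj h ps wm hb
  -- translates
  have htr : ∀ g ∈ newG w n G Tn, ∀ c d z1 : A,
      (∀ z, Btw ℓ c d z → ∃ s ∈ Nb ℓ W (cR κ δ) ∪ NL ℓ w W L (cR κ δ), gd ℓ z s ≤ κ) →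
      Btw ℓ (g * c) (g * d) z1 →
      ∃ s ∈ tr (newG w n G Tn) (Nb ℓ W (cR κ δ) ∪ NL ℓ w W L (cR κ δ)), gd ℓ z1 s ≤ κ := by
    intro g hg c d z1 H hz1
    have h1 : Btw ℓ c d (g⁻¹ * z1) := by
      rw [← btw_left ℓ g, mul_inv_cancel_left]
      exact hz1
    obtain ⟨s, hs, hd⟩ := H _ h1
    refine ⟨g * s, ⟨g, hg, s, hs, rfl⟩, ?_⟩
    rw [← gd_left ℓ g, mul_inv_cancel_left] at hd
    exact hd
  obtain ⟨z1, hz1, hd1⟩ := thinTri h hyp hz (g1 * v)
  rcases hz1 with hz1 | hz1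
  · obtain ⟨s, hs, hd⟩ := htr g1 hg1 a v z1 hv hz1
    have t := h.gd_tri z z1 s
    exact ⟨s, hs, by omega⟩
  obtain ⟨z2, hz2, hd2⟩ := thinTri h hyp hz1 (g2 * v')
  have t2 := h.gd_tri z z1 z2
  rcases hz2 with hz2 | hz2
  · -- the main case
    have h1 : Btw ℓ v (g1⁻¹ * g2 * v') (g1⁻¹ * z2) := by
      rw [← btw_left ℓ g1, mul_inv_cancel_left]
      have : g1 * (g1⁻¹ * g2 * v') = g2 * v' := by group
      rw [this]
      exact hz2
    obtain ⟨s, ⟨c, hc, s', hs', rfl⟩, hd⟩ := windC_C h hyp ps wm Tn hR hn hred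
      ((newG w n G Tn).mul_mem ((newG w n G Tn).inv_mem hg1) hg2)
      (⟨u, hu, hvu⟩ : v ∈ Nb ℓ W (cR κ δ)) (⟨u', hu', hvu'⟩ : v' ∈ Nb ℓ W (cR κ δ)) h1
    refine ⟨g1 * (c * s'), ⟨g1 * c, (newG w n G Tn).mul_mem hg1 hc, s', hs', by group⟩, ?_⟩
    rw [← gd_left ℓ g1, mul_inv_cancel_left] at hd
    have t := h.gd_tri z z2 (g1 * (c * s'))
    omega
  · obtain ⟨s, hs, hd⟩ := htr g2 hg2 b v' z2 hv' (h.btw_comm.mp hz2)
    have t := h.gd_tri z z2 s
    exact ⟨s, hs, by omega⟩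

end L2B
end

section

namespace L2B
variable {A : Type*} [Group A] {ℓ : A → ℕ}

private theorem windD_out {w : A} {W L : Set A} {R : ℕ} {G' : Subgroup A} {Z : A}
    (hZ : Z ∉ tr G' (L ∪ NL ℓ w W L R)) {g : A} (hg : g ∈ G') :
    g * Z ∉ tr G' (L ∪ NL ℓ w W L R) := by
  rintro ⟨a, ha, s, hs, h⟩
  apply hZ
  refine ⟨g⁻¹ * a, G'.mul_mem (G'.inv_mem hg) ha, s, hs, ?_⟩
  rw [mul_assoc, ← h]; group

private theorem windD_notL {w : A} {W L : Set A} {R : ℕ} {G' : Subgroup A} {Z : A}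
    (hZ : Z ∉ tr G' (L ∪ NL ℓ w W L R)) : Z ∉ L := by
  intro h
  exact hZ ⟨1, G'.one_mem, Z, Or.inl h, by simp⟩

private theorem windD_notN {w : A} {W L : Set A} {R : ℕ} {G' : Subgroup A} {Z : A}
    (hZ : Z ∉ tr G' (L ∪ NL ℓ w W L R)) : Z ∉ NL ℓ w W L R := by
  intro h
  exact hZ ⟨1, G'.one_mem, Z, Or.inr h, by simp⟩

private theorem windD_1 (h : GNorm ℓ) {δ : ℕ} (hyp : Hyp ℓ δ) {w : A} {e : A → ℤ} {κ n : ℕ}
    (ps : PS ℓ w κ e) {W : Set A} {G : Subgroup A} {L T : Set A}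
    (wm : WM ℓ w e κ δ n W G L T) {Z : A} (hZL : Z ∉ L) (hZN : Z ∉ NL ℓ w W L (cR κ δ))
    {u u' : A} (hu : u ∈ W) (hu' : u' ∈ W) : |dl e Z u u'| ≤ κ := by
  by_contra hc
  push Not at hc
  have hp := ps.pass (Z⁻¹ * u) (Z⁻¹ * u') hc
  set a := e (Z⁻¹ * u) with ha
  set b := e (Z⁻¹ * u') with hb
  have h1 : gd ℓ (Z⁻¹ * u) (w ^ a) = gd ℓ u (Z * w ^ a) := by
    rw [← gd_left ℓ Z]; congr 1; group
  have h2 : gd ℓ (w ^ b) (Z⁻¹ * u') = gd ℓ (Z * w ^ b) u' := by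
    rw [← gd_left ℓ Z]; congr 1; group
  have h3 : gd ℓ (Z * w ^ a) (Z * w ^ b) = ℓ (w ^ (b - a)) := by
    unfold gd; congr 1; group
  have h4 : gd ℓ (Z⁻¹ * u) (Z⁻¹ * u') = gd ℓ u u' := gd_left ℓ _ _ _
  have h5 := h.gd_tri (Z * w ^ a) (Z * w ^ b) u'
  rw [h1, h2, h4, ← h3] at hp
  have h6 : gd ℓ u (Z * w ^ a) + gd ℓ (Z * w ^ a) u' ≤ gd ℓ u u' + κ := by omega
  obtain ⟨z', hz1, hz2⟩ := nearBtw h hyp h6
  obtain ⟨w0, hw0, hz3⟩ := wm.qc u hu u' hu' z' hz1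
  apply hZN
  refine ⟨hZL, a, w0, hw0, ?_⟩
  have h7 := h.gd_tri (Z * w ^ a) z' w0
  unfold cR
  omega

private theorem windD_Nb (h : GNorm ℓ) {w : A} {e : A → ℤ} {κ : ℕ}
    (ps : PS ℓ w κ e) {W : Set A} {R : ℕ} (Z : A) {a u : A} (hu : gd ℓ a u ≤ R) :
    |dl e Z u a| ≤ κ * (R + 1) := by
  have h1 := ps.dl_lip Z u a
  rw [h.gd_comm] at h1
  have h2 : (κ : ℤ) * (gd ℓ a u + 1) ≤ κ * (R + 1) := by
    apply mul_le_mul_of_nonneg_left _ (by positivity)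
    have : (gd ℓ a u : ℤ) ≤ R := by exact_mod_cast hu
    linarith
  exact le_trans h1 h2

private theorem windD_hat (h : GNorm ℓ) {w : A} {e : A → ℤ} {κ : ℕ}
    (ps : PS ℓ w κ e) {W L : Set A} {R : ℕ} {a : A} (ha : a ∈ Nb ℓ W R ∪ NL ℓ w W L R) :
    ∃ a' ∈ Nb ℓ W R, ∀ Z, (¬ SameL w Z a ∨ a ∈ Nb ℓ W R) → |dl e Z a a'| ≤ κ := by
  by_cases hN : a ∈ Nb ℓ W R
  · refine ⟨a, hN, fun Z _ => ?_⟩
    rw [dl_self]; simp
  · have ha' : a ∈ NL ℓ w W L R := by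
      rcases ha with h1 | h1
      · exact absurd h1 hN
      · exact h1
    obtain ⟨_, i, u, hu, hi⟩ := ha'
    refine ⟨a * w ^ i, ⟨u, hu, hi⟩, fun Z hZ => ?_⟩
    have hZ' : ¬ SameL w Z a := by
      rcases hZ with h1 | h1
      · exact h1
      · exact absurd h1 hN
    have := ps.dl_overlap Z a hZ' 0 i
    rwa [zpow_zero, mul_one] at this

private theorem windD_2 (h : GNorm ℓ) {δ : ℕ} (hyp : Hyp ℓ δ) {w : A} {e : A → ℤ} {κ n : ℕ}
    (ps : PS ℓ w κ e) {W : Set A} {G : Subgroup A} {L T : Set A}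
    (wm : WM ℓ w e κ δ n W G L T) {Z : A} (hZL : Z ∉ L) (hZN : Z ∉ NL ℓ w W L (cR κ δ))
    {a b : A} (ha : a ∈ Nb ℓ W (cR κ δ) ∪ NL ℓ w W L (cR κ δ))
    (hb : b ∈ Nb ℓ W (cR κ δ) ∪ NL ℓ w W L (cR κ δ)) :
    |dl e Z a b| ≤ 2 * (κ * (cR κ δ + 1)) + 3 * κ := by
  have hS : ∀ c, c ∈ Nb ℓ W (cR κ δ) ∪ NL ℓ w W L (cR κ δ) →
      (¬ SameL w Z c ∨ c ∈ Nb ℓ W (cR κ δ)) := by
    intro c hc
    rcases hc with h1 | h1
    · exact Or.inr h1
    · left
      intro hs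
      obtain ⟨i, hi⟩ := hs
      have := (NL_right h wm (cR κ δ) Z i).mp (by rw [← hi]; exact h1)
      exact hZN this
  obtain ⟨a', ⟨u, hu, hau⟩, ha2⟩ := windD_hat h ps ha
  obtain ⟨b', ⟨v, hv, hbv⟩, hb2⟩ := windD_hat h ps hb
  have A1 := ha2 Z (hS a ha)
  have B1 := hb2 Z (hS b hb)
  have A2 := windD_Nb (W := W) h ps Z hau
  have B2 := windD_Nb (W := W) h ps Z hbv
  have C := windD_1 h hyp ps wm hZL hZN hu hv
  have e1 : dl e Z a b = dl e Z a a' - dl e Z u a' + dl e Z u v + dl e Z v b' - dl e Z b b' := by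
    unfold dl; ring
  rw [e1]
  set M : ℤ := (κ : ℤ) * ((cR κ δ : ℕ) + 1) with hM
  rw [abs_le] at *
  constructor <;> linarith [A1.1, A1.2, A2.1, A2.2, B1.1, B1.2, B2.1, B2.2, C.1, C.2]

/-- (6.4)(f): projections of the new windmill to the lines which are not in it -/
theorem wind_pr (h : GNorm ℓ) {δ : ℕ} (hyp : Hyp ℓ δ) {w : A} {e : A → ℤ} {κ n : ℕ}
    (ps : PS ℓ w κ e) {W : Set A} {G : Subgroup A} {L T : Set A}
    (wm : WM ℓ w e κ δ n W G L T) (Tn : Set A) (hR : Reps G w (NL ℓ w W L (cR κ δ)) Tn)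
    (hn : 2 * cB κ δ + 4 * κ < n)
    (hred : ∀ g ∈ newG w n G Tn, g ∈ G ∨ ∃ h0 ∈ G, ∃ l, RedL G Tn l ∧ l ≠ [] ∧ g = rp w n h0 l) :
    ∀ Y, Y ∉ tr (newG w n G Tn) (L ∪ NL ℓ w W L (cR κ δ)) →
      ∀ x ∈ tr (newG w n G Tn) (Nb ℓ W (cR κ δ) ∪ NL ℓ w W L (cR κ δ)),
      ∀ y ∈ tr (newG w n G Tn) (Nb ℓ W (cR κ δ) ∪ NL ℓ w W L (cR κ δ)),
        |dl e Y x y| ≤ cW κ δ := by
  intro Y hY x hx y hy
  obtain ⟨g1, hg1, a, ha, rfl⟩ := hx
  obtain ⟨g2, hg2, b, hb, rfl⟩ := hy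
  set G' := newG w n G Tn with hG'
  have hS : ∀ Z, Z ∉ tr G' (L ∪ NL ℓ w W L (cR κ δ)) →
      ∀ c, c ∈ Nb ℓ W (cR κ δ) ∪ NL ℓ w W L (cR κ δ) →
      (¬ SameL w Z c ∨ c ∈ Nb ℓ W (cR κ δ)) := by
    intro Z hZ c hc
    rcases hc with h1 | h1
    · exact Or.inr h1
    · left
      intro hs
      obtain ⟨i, hi⟩ := hs
      have := (NL_right h wm (cR κ δ) Z i).mp (by rw [← hi]; exact h1)
      exact windD_notN hZ this
  -- translate
  set g := g1⁻¹ * g2 with hg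
  have hgG : g ∈ G' := G'.mul_mem (G'.inv_mem hg1) hg2
  set Z := g1⁻¹ * Y with hZdef
  have hZ : Z ∉ tr G' (L ∪ NL ℓ w W L (cR κ δ)) := windD_out hY (G'.inv_mem hg1)
  have e0 : dl e Y (g1 * a) (g2 * b) = dl e Z a (g * b) := by
    have := dl_left e g1 Z a (g * b)
    rw [← this]
    congr 1
    · rw [hZdef]; group
    · rw [hg]; group
  obtain ⟨a', haN, ha2⟩ := windD_hat h ps ha
  obtain ⟨b', hbN, hb2⟩ := windD_hat h ps hb
  have A1 := ha2 Z (hS Z hZ a ha)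
  have hZ2 : g⁻¹ * Z ∉ tr G' (L ∪ NL ℓ w W L (cR κ δ)) := windD_out hZ (G'.inv_mem hgG)
  have B1 := hb2 (g⁻¹ * Z) (hS _ hZ2 b hb)
  have B2 : dl e Z (g * b) (g * b') = dl e (g⁻¹ * Z) b b' := by
    have := dl_left e g (g⁻¹ * Z) b b'
    rw [← this]; congr 1; group
  rw [← B2] at B1
  have key : |dl e Z a' (g * b')| ≤ 2 * (κ * (cR κ δ + 1)) + 5 * κ := by
    rcases hred g hgG with hgin | ⟨h0, hh0, l, hl, hlne, hgl⟩
    · have hb'' : g * b' ∈ Nb ℓ W (cR κ δ) := (Nb_left h wm (cR κ δ) g hgin b').mpr hbN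
      have := windD_2 h hyp ps wm (windD_notL hZ) (windD_notN hZ) (Or.inl haN) (Or.inl hb'')
      have hk : (0 : ℤ) ≤ κ := by positivity
      linarith
    · obtain ⟨S, V, hC, hS0, hSm, hpair, hV⟩ := redChain h ps wm Tn hR h0 hh0 l hl hlne a' b'
        haN hbN (by omega)
      have hΛ : (4 * κ : ℤ) < (n : ℤ) - 2 * cB κ δ := by
        have : ((2 * cB κ δ + 4 * κ : ℕ) : ℤ) < n := by exact_mod_cast hn
        push_cast at this
        linarith
      have hfin := chainB h ps hΛ hC a' (g * b') hS0 (by rw [hSm, hgl]) Z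
        (by
          intro i hi1 hi2 hs
          obtain ⟨c, hc, hcV⟩ := hV i hi1 hi2
          obtain ⟨k, hk⟩ := hs
          have := (NL_right h wm (cR κ δ) (c⁻¹ * V i) k).mpr hcV
          apply hZ
          refine ⟨c, hc, c⁻¹ * V i * w ^ k, Or.inr this, ?_⟩
          rw [hk]; group)
        (2 * (κ * (cR κ δ + 1)) + 3 * κ)
        (by
          intro i hi u hu v hv
          obtain ⟨c, hc, hc1, hc2⟩ := hpair i hi
          have hZc : c⁻¹ * Z ∉ tr G' (L ∪ NL ℓ w W L (cR κ δ)) := windD_out hZ (G'.inv_mem hc)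
          have := windD_2 h hyp ps wm (windD_notL hZc) (windD_notN hZc) (hc1 u hu) (hc2 v hv)
          rwa [dl_left] at this)
      linarith
  have e1 : dl e Z a (g * b) = dl e Z a a' + dl e Z a' (g * b') - dl e Z (g * b) (g * b') := by
    unfold dl; ring
  rw [e0, e1]
  have hcW : ((cW κ δ : ℕ) : ℤ) = 2 * (κ * (cR κ δ + 1)) + 9 * κ := by
    unfold cW; push_cast; ring
  rw [hcW]
  have hk : (0 : ℤ) ≤ κ := by positivity
  rw [abs_le] at *
  constructor <;> linarith [A1.1, A1.2, B1.1, B1.2, key.1, key.2]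

end L2B
end

section

namespace L2B
variable {A : Type*} [Group A] {ℓ : A → ℕ}

/-- representatives exist -/
theorem reps_exist (G : Subgroup A) (w : A) (N : Set A) (hG : ∀ g ∈ G, ∀ x ∈ N, g * x ∈ N)
    (hw : ∀ x ∈ N, ∀ i : ℤ, x * w ^ i ∈ N) : ∃ Tn, Reps G w N Tn := by
  let r : Setoid A :=
    { r := fun x y => ∃ g ∈ G, ∃ i : ℤ, y = g * x * w ^ i
      iseqv :=
        { refl := fun x => ⟨1, G.one_mem, 0, by simp⟩
          symm := by
            rintro x y ⟨g, hg, i, rfl⟩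
            exact ⟨g⁻¹, G.inv_mem hg, -i, by group⟩
          trans := by
            rintro x y z ⟨g, hg, i, rfl⟩ ⟨g', hg', i', rfl⟩
            exact ⟨g' * g, G.mul_mem hg' hg, i + i', by rw [zpow_add]; group⟩ } }
  have hout : ∀ x : A, ∃ g ∈ G, ∃ i : ℤ, x = g * (Quotient.mk r x).out * w ^ i := by
    intro x
    have h1 : r ((Quotient.mk r x).out) x := Quotient.mk_out (s := r) x
    exact h1
  refine ⟨{x | x ∈ N ∧ (Quotient.mk r x).out = x}, fun x hx => hx.1, ?_, ?_⟩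
  · intro x hx
    obtain ⟨g, hg, i, hxi⟩ := hout x
    refine ⟨g, hg, (Quotient.mk r x).out, ⟨?_, ?_⟩, i, hxi⟩
    · have h1 : (Quotient.mk r x).out = g⁻¹ * x * w ^ (-i) := by
        conv_rhs => rw [hxi]
        group
      rw [h1]
      exact hw _ (hG _ (G.inv_mem hg) _ hx) _
    · rw [Quotient.out_eq]
  · rintro t ⟨_, ht⟩ t' ⟨_, ht'⟩ g hg i h1
    have h2 : Quotient.mk r t = Quotient.mk r t' := Quotient.sound ⟨g, hg, i, h1⟩
    rw [← ht, ← ht', h2]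

private theorem windE_conj (b w : A) (n : ℕ) (k : ℤ) :
    (b * w ^ n * b⁻¹) ^ k = b * w ^ ((n : ℤ) * k) * b⁻¹ := by
  rw [conj_zpow, zpow_mul, zpow_natCast]

/-- the chain of a non-trivial reduced product -/
private theorem windE_green (h : GNorm ℓ) {w : A} {e : A → ℤ} {κ δ n : ℕ} (ps : PS ℓ w κ e)
    {W : Set A} {G : Subgroup A} {L T : Set A} (wm : WM ℓ w e κ δ n W G L T) (Tn : Set A)
    (hR : Reps G w (NL ℓ w W L (cR κ δ)) Tn) (hn : 2 * cB κ δ + 4 * κ < n)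
    (h0 : A) (hh0 : h0 ∈ G) (l : List (A × ℤ × A)) (hl : RedL G Tn l) (hne : l ≠ []) :
    ∃ Y, (n : ℤ) ≤ |dl e Y 1 (rp w n h0 l)| + cG κ δ := by
  have h1 : (1 : A) ∈ Nb ℓ W (cR κ δ) := ⟨1, wm.one_mem, by rw [h.gd_self]; omega⟩
  obtain ⟨S, V, C, hS0, hS1, -, -⟩ := redChain h ps wm Tn hR h0 hh0 l hl hne 1 1 h1 h1
    (by omega)
  have hlen : 1 ≤ l.length := List.length_pos_iff.2 hne
  have h2 := (chainA h ps (by omega) C 1 (rp w n h0 l * 1) hS0 hS1 1 le_rfl hlen).2.2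
  refine ⟨V 1, ?_⟩
  rw [mul_one] at h2
  unfold cG
  push_cast
  omega

/-- the free group part, for the sum -/
private theorem windE_sum (h : GNorm ℓ) {w : A} {e : A → ℤ} {κ δ n : ℕ} (ps : PS ℓ w κ e)
    {W : Set A} {G : Subgroup A} {L T : Set A} (wm : WM ℓ w e κ δ n W G L T) (Tn : Set A)
    (hR : Reps G w (NL ℓ w W L (cR κ δ)) Tn) (hn : 2 * cB κ δ + 4 * κ < n)
    (ψ : FreeGroup (T ⊕ Tn) →* A)
    (hψ : ψ = FreeGroup.lift (Sum.elim (fun t : T => (t : A) * w ^ n * (t : A)⁻¹)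
      (fun t : Tn => (t : A) * w ^ n * (t : A)⁻¹))) :
    (∀ x, ψ x ∈ G ∨ ∃ h0 ∈ G, ∃ l, RedL G Tn l ∧ l ≠ [] ∧ ψ x = rp w n h0 l) ∧
      Function.Injective ψ := by
  set φ := FreeGroup.lift (fun t : T => (t : A) * w ^ n * (t : A)⁻¹) with hφ
  have hinl : ∀ y : FreeGroup T, ψ (FreeGroup.map Sum.inl y) = φ y := by
    intro y
    have : ψ.comp (FreeGroup.map Sum.inl) = φ := by
      ext t
      simp [hψ, hφ]
    rw [← this]
    rfl
  have hmemG : ∀ y, φ y ∈ G := by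
    intro y
    rw [← wm.rng]
    exact ⟨y, rfl⟩
  have hinj : Function.Injective φ := wm.inj
  have hinr : ∀ (b : Tn) (k : ℤ), ψ (FreeGroup.of (Sum.inr b) ^ k) =
      (b : A) * w ^ ((n : ℤ) * k) * (b : A)⁻¹ := by
    intro b k
    rw [map_zpow, hψ, FreeGroup.lift_apply_of, Sum.elim_inr, windE_conj]
  -- the basic description
  have key : ∀ x, ∃ (y0 : FreeGroup T) (l : List (Tn × ℤ × FreeGroup T)),
      x = FreeGroup.map Sum.inl y0 *
        (l.map (fun p => FreeGroup.of (Sum.inr p.1) ^ p.2.1 * FreeGroup.map Sum.inl p.2.2)).prod ∧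
      RedL G Tn (l.map fun p => ((p.1 : A), p.2.1, φ p.2.2)) ∧
      ψ x = rp w n (φ y0) (l.map fun p => ((p.1 : A), p.2.1, φ p.2.2)) := by
    intro x
    obtain ⟨y0, l, hx, hl1, hl2⟩ := free_reduced x
    refine ⟨y0, l, hx, ⟨?_, ?_, ?_, ?_⟩, ?_⟩
    · intro p hp
      obtain ⟨p', _, rfl⟩ := List.mem_map.1 hp
      exact p'.1.2
    · intro p hp
      obtain ⟨p', hp', rfl⟩ := List.mem_map.1 hp
      exact hl1 p' hp'
    · intro p hp
      obtain ⟨p', _, rfl⟩ := List.mem_map.1 hp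
      exact hmemG _
    · rw [List.isChain_map]
      refine hl2.imp fun p q hpq h1 h2 => ?_
      refine hpq (Subtype.ext h1) ?_
      apply hinj
      rw [map_one]
      exact h2
    · rw [hx, map_mul, hinl, map_list_prod, List.map_map, rp, List.map_map]
      congr 2
      refine List.map_congr_left fun p _ => ?_
      simp only [Function.comp_apply]
      rw [map_mul, hinr, hinl]
  constructor
  · intro x
    obtain ⟨y0, l, hx, hred, hψx⟩ := key x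
    by_cases hl : l = []
    · left
      rw [hψx, hl]
      simp only [List.map_nil, rp, List.prod_nil, mul_one]
      exact hmemG _
    · right
      exact ⟨φ y0, hmemG _, _, hred, by simpa using hl, hψx⟩
  · rw [injective_iff_map_eq_one]
    intro x hx1
    obtain ⟨y0, l, hx, hred, hψx⟩ := key x
    by_cases hl : l = []
    · rw [hl] at hψx hx
      simp only [List.map_nil, rp, List.prod_nil, mul_one] at hψx hx
      rw [hx1] at hψx
      have h2 : y0 = 1 := by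
        apply hinj
        rw [← hψx, map_one]
      rw [hx, h2, map_one]
    · exfalso
      obtain ⟨Y, hY⟩ := windE_green h ps wm Tn hR hn (φ y0) (hmemG _) _ hred (by simpa using hl)
      rw [← hψx, hx1, dl_self, abs_zero] at hY
      unfold cG at hY
      push_cast at hY
      omega

private theorem windE_range {w : A} {n : ℕ} {G : Subgroup A} {T : Set A} (Tn : Set A)
    (hrng : (FreeGroup.lift (fun t : T => (t : A) * w ^ n * (t : A)⁻¹)).range = G) :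
    (FreeGroup.lift (fun t : (T ∪ Tn : Set A) => (t : A) * w ^ n * (t : A)⁻¹)).range =
      newG w n G Tn := by
  have h1 : ∀ S : Set A, Set.range (fun t : S => (t : A) * w ^ n * (t : A)⁻¹) =
      {x | ∃ t ∈ S, x = t * w ^ n * t⁻¹} := by
    intro S
    ext x
    constructor
    · rintro ⟨t, rfl⟩
      exact ⟨t, t.2, rfl⟩
    · rintro ⟨t, ht, rfl⟩
      exact ⟨⟨t, ht⟩, rfl⟩
  unfold newG
  rw [← hrng, FreeGroup.range_lift_eq_closure, FreeGroup.range_lift_eq_closure, h1, h1,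
    ← Subgroup.closure_union]
  congr 1
  ext x
  constructor
  · rintro ⟨t, ht | ht, rfl⟩
    · exact Or.inl ⟨t, ht, rfl⟩
    · exact Or.inr ⟨t, ht, rfl⟩
  · rintro (⟨t, ht, rfl⟩ | ⟨t, ht, rfl⟩)
    · exact ⟨t, Or.inl ht, rfl⟩
    · exact ⟨t, Or.inr ht, rfl⟩

/-- the free group part of the windmill step -/
theorem wind_free (h : GNorm ℓ) {w : A} {e : A → ℤ} {κ δ n : ℕ} (ps : PS ℓ w κ e)
    {W : Set A} {G : Subgroup A} {L T : Set A} (wm : WM ℓ w e κ δ n W G L T) (Tn : Set A)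
    (hR : Reps G w (NL ℓ w W L (cR κ δ)) Tn) (hn : 2 * cB κ δ + 4 * κ < n) :
    (∀ g ∈ newG w n G Tn, g ∈ G ∨ ∃ h0 ∈ G, ∃ l, RedL G Tn l ∧ l ≠ [] ∧ g = rp w n h0 l) ∧
    Function.Injective
      (FreeGroup.lift (fun t : (T ∪ Tn : Set A) => (t : A) * w ^ n * (t : A)⁻¹)) ∧
    (FreeGroup.lift (fun t : (T ∪ Tn : Set A) => (t : A) * w ^ n * (t : A)⁻¹)).range =
      newG w n G Tn ∧
    ∀ g ∈ newG w n G Tn, g ≠ 1 → ∃ Y, (n : ℤ) ≤ |dl e Y 1 g| + cG κ δ := by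
  classical
  have hdis : Disjoint T Tn := by
    rw [Set.disjoint_left]
    intro t ht ht'
    exact (hR.sub ht').1 (wm.TL ht)
  set ψ : FreeGroup (T ⊕ Tn) →* A :=
    FreeGroup.lift (Sum.elim (fun t : T => (t : A) * w ^ n * (t : A)⁻¹)
      (fun t : Tn => (t : A) * w ^ n * (t : A)⁻¹)) with hψ
  obtain ⟨hred, hinj⟩ := windE_sum h ps wm Tn hR hn ψ hψ
  set f := FreeGroup.lift (fun t : (T ∪ Tn : Set A) => (t : A) * w ^ n * (t : A)⁻¹) with hf
  -- comparison of the two descriptions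
  let E : (T ∪ Tn : Set A) ≃ T ⊕ Tn := Equiv.Set.union hdis
  have hE : ∀ x, f x = ψ (FreeGroup.freeGroupCongr E x) := by
    intro x
    have : f = ψ.comp (FreeGroup.freeGroupCongr E).toMonoidHom := by
      ext t
      obtain ⟨t, ht | ht⟩ := t
      · have h1 : E ⟨t, Or.inl ht⟩ = Sum.inl ⟨t, ht⟩ := Equiv.Set.union_apply_left hdis ht
        simp [hf, hψ, h1]
      · have h1 : E ⟨t, Or.inr ht⟩ = Sum.inr ⟨t, ht⟩ := Equiv.Set.union_apply_right hdis ht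
        simp [hf, hψ, h1]
    rw [this]
    rfl
  have hrange : f.range = newG w n G Tn := windE_range Tn wm.rng
  have hmem : ∀ g ∈ newG w n G Tn, ∃ x, g = ψ x := by
    intro g hg
    rw [← hrange] at hg
    obtain ⟨x, rfl⟩ := hg
    exact ⟨_, hE x⟩
  have first : ∀ g ∈ newG w n G Tn, g ∈ G ∨ ∃ h0 ∈ G, ∃ l, RedL G Tn l ∧ l ≠ [] ∧
      g = rp w n h0 l := by
    intro g hg
    obtain ⟨x, rfl⟩ := hmem g hg
    exact hred x
  refine ⟨first, ?_, hrange, ?_⟩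
  · intro x y hxy
    rw [hE, hE] at hxy
    exact (FreeGroup.freeGroupCongr E).injective (hinj hxy)
  · intro g hg hg1
    rcases first g hg with hgG | ⟨h0, hh0, l, hl, hne, rfl⟩
    · exact wm.gre g hgG hg1
    · exact windE_green h ps wm Tn hR hn h0 hh0 l hl hne

/-- the windmill step -/
theorem wind_step (h : GNorm ℓ) {δ : ℕ} (hyp : Hyp ℓ δ) {w : A} {e : A → ℤ} {κ n : ℕ}
    (ps : PS ℓ w κ e) {W : Set A} {G : Subgroup A} {L T : Set A}
    (wm : WM ℓ w e κ δ n W G L T) (hn : 2 * cB κ δ + 4 * κ < n) :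
    ∃ (W' : Set A) (G' : Subgroup A) (L' T' : Set A), WM ℓ w e κ δ n W' G' L' T' ∧
      Nb ℓ W 1 ⊆ W' ∧ W ⊆ L' ∧ L ⊆ L' ∧ G ≤ G' ∧ T ⊆ T' := by
  obtain ⟨Tn, hR⟩ := reps_exist G w (NL ℓ w W L (cR κ δ))
    (fun g hg x hx => (NL_left h wm _ g hg x).2 hx)
    (fun x hx i => (NL_right h wm _ x i).2 hx)
  obtain ⟨hred, hinj, hrng, hgre⟩ := wind_free h ps wm Tn hR hn
  have hGG : G ≤ newG w n G Tn := le_sup_left
  have h1R : 1 ≤ cR κ δ := by unfold cR; omega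
  have hWNb : ∀ x ∈ W, ∀ R, x ∈ Nb ℓ W R := fun x hx R => ⟨x, hx, by rw [h.gd_self]; omega⟩
  refine ⟨tr (newG w n G Tn) (Nb ℓ W (cR κ δ) ∪ NL ℓ w W L (cR κ δ)), newG w n G Tn,
    tr (newG w n G Tn) (L ∪ NL ℓ w W L (cR κ δ)), T ∪ Tn, ?_, ?_, ?_, ?_, hGG,
    Set.subset_union_left⟩
  · constructor
    · exact ⟨1, Subgroup.one_mem _, 1, Or.inl (hWNb 1 wm.one_mem _), by rw [one_mul]⟩
    · rintro g hg x ⟨g', hg', s, hs, rfl⟩
      exact ⟨g * g', Subgroup.mul_mem _ hg hg', s, hs, by rw [mul_assoc]⟩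
    · rintro g hg x ⟨g', hg', s, hs, rfl⟩
      exact ⟨g * g', Subgroup.mul_mem _ hg hg', s, hs, by rw [mul_assoc]⟩
    · rintro x ⟨g', hg', s, hs, rfl⟩ i
      refine ⟨g', hg', s * w ^ i, ?_, by rw [mul_assoc]⟩
      rcases hs with hs | hs
      · exact Or.inl (wm.wL s hs i)
      · exact Or.inr ((NL_right h wm _ s i).2 hs)
    · exact wind_qc h hyp ps wm Tn hR hn hred
    · exact wind_pr h hyp ps wm Tn hR hn hred
    · exact hinj
    · exact hrng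
    · rintro t (ht | ht)
      · exact ⟨1, Subgroup.one_mem _, t, Or.inl (wm.TL ht), by rw [one_mul]⟩
      · exact ⟨1, Subgroup.one_mem _, t, Or.inr (hR.sub ht), by rw [one_mul]⟩
    · rintro x ⟨g', hg', s, hs, rfl⟩
      rcases hs with hs | hs
      · obtain ⟨g, hg, t, ht, i, rfl⟩ := wm.cov s hs
        exact ⟨g' * g, Subgroup.mul_mem _ hg' (hGG hg), t, Or.inl ht, i, by simp only [mul_assoc]⟩
      · obtain ⟨g, hg, t, ht, i, rfl⟩ := hR.cov s hs
        exact ⟨g' * g, Subgroup.mul_mem _ hg' (hGG hg), t, Or.inr ht, i, by simp only [mul_assoc]⟩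
    · exact hgre
  · rintro x ⟨u, hu, hxu⟩
    exact ⟨1, Subgroup.one_mem _, x, Or.inl ⟨u, hu, hxu.trans h1R⟩, by rw [one_mul]⟩
  · intro u hu
    refine ⟨1, Subgroup.one_mem _, u, ?_, by rw [one_mul]⟩
    by_cases huL : u ∈ L
    · exact Or.inl huL
    · exact Or.inr ⟨huL, 0, u, hu, by rw [zpow_zero, mul_one, h.gd_self]; omega⟩
  · intro u hu
    exact ⟨1, Subgroup.one_mem _, u, Or.inl hu, by rw [one_mul]⟩

end L2B
end

section

namespace L2B
variable {A : Type*} [Group A] {ℓ : A → ℕ}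

/-- the trivial windmill -/
private theorem windF_base (h : GNorm ℓ) (w : A) (e : A → ℤ) (κ δ n : ℕ) :
    WM ℓ w e κ δ n ({1} : Set A) ⊥ ∅ ∅ where
  one_mem := rfl
  gW := by
    intro g hg x hx
    rw [Subgroup.mem_bot.1 hg, Set.mem_singleton_iff.1 hx]
    simp
  gL := by
    intro g _ x hx
    exact absurd hx (Set.notMem_empty x)
  wL := by
    intro x hx
    exact absurd hx (Set.notMem_empty x)
  qc := by
    intro x hx y hy z hz
    rw [Set.mem_singleton_iff.1 hx, Set.mem_singleton_iff.1 hy] at hz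
    refine ⟨1, rfl, ?_⟩
    unfold Btw at hz
    rw [h.gd_self] at hz
    omega
  pr := by
    intro Y _ x hx y hy
    rw [Set.mem_singleton_iff.1 hx, Set.mem_singleton_iff.1 hy]
    unfold dl
    rw [sub_self, abs_zero]
    positivity
  inj := Function.injective_of_subsingleton _
  rng := by
    rw [eq_bot_iff]
    refine FreeGroup.range_lift_le ?_
    rintro _ ⟨t, rfl⟩
    exact absurd t.2 (Set.notMem_empty _)
  TL := le_rfl
  cov := by
    intro x hx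
    exact absurd hx (Set.notMem_empty x)
  gre := by
    intro g hg hg1
    exact absurd (Subgroup.mem_bot.1 hg) hg1

/-- the sequence of windmills -/
private theorem windF_seq (h : GNorm ℓ) {δ : ℕ} (hyp : Hyp ℓ δ) {w : A} {e : A → ℤ} {κ n : ℕ}
    (ps : PS ℓ w κ e) (hn : 2 * cB κ δ + 4 * κ < n) :
    ∃ (W : ℕ → Set A) (G : ℕ → Subgroup A) (L T : ℕ → Set A),
      (∀ s, WM ℓ w e κ δ n (W s) (G s) (L s) (T s)) ∧ (∀ s, Nb ℓ (W s) 1 ⊆ W (s + 1)) ∧
      (∀ s, W s ⊆ L (s + 1)) ∧ Monotone G ∧ Monotone T := by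
  classical
  let P := {p : Set A × Subgroup A × Set A × Set A //
    WM ℓ w e κ δ n p.1 p.2.1 p.2.2.1 p.2.2.2}
  have step : ∀ p : P, ∃ p' : P, Nb ℓ p.1.1 1 ⊆ p'.1.1 ∧ p.1.1 ⊆ p'.1.2.2.1 ∧
      p.1.2.1 ≤ p'.1.2.1 ∧ p.1.2.2.2 ⊆ p'.1.2.2.2 := by
    intro p
    obtain ⟨W', G', L', T', h1, h2, h3, _, h5, h6⟩ := wind_step h hyp ps p.2 hn
    exact ⟨⟨(W', G', L', T'), h1⟩, h2, h3, h5, h6⟩
  choose nxt hnxt using step
  let p0 : P := ⟨(({1} : Set A), ⊥, ∅, ∅), windF_base h w e κ δ n⟩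
  let sq : ℕ → P := fun s => Nat.rec p0 (fun _ p => nxt p) s
  have hsq : ∀ s, sq (s + 1) = nxt (sq s) := fun s => rfl
  refine ⟨fun s => (sq s).1.1, fun s => (sq s).1.2.1, fun s => (sq s).1.2.2.1,
    fun s => (sq s).1.2.2.2, fun s => (sq s).2, fun s => ?_, fun s => ?_,
    monotone_nat_of_le_succ fun s => ?_, monotone_nat_of_le_succ fun s => ?_⟩
  · simp only [hsq]
    exact (hnxt (sq s)).1
  · simp only [hsq]
    exact (hnxt (sq s)).2.1
  · simp only [hsq]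
    exact (hnxt (sq s)).2.2.1
  · simp only [hsq]
    exact (hnxt (sq s)).2.2.2

/-- balls are contained in the windmills -/
private theorem windF_ball (h : GNorm ℓ) {W : ℕ → Set A} (h1 : ∀ s, (1 : A) ∈ W s)
    (hW : ∀ s, Nb ℓ (W s) 1 ⊆ W (s + 1)) : ∀ s x, ℓ x ≤ s → x ∈ W s := by
  intro s
  induction s with
  | zero =>
    intro x hx
    rw [h.eq_one x (by omega)]
    exact h1 0
  | succ s ih =>
    intro x hx
    apply hW s
    rcases Nat.lt_or_ge s (ℓ x) with hlt | hle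
    · obtain ⟨z, hz1, hz2⟩ := h.exists_btw 1 x s (by rw [gd_one]; omega)
      refine ⟨z, ih z ?_, ?_⟩
      · rw [← gd_one ℓ z, hz1]
      · unfold Btw at hz2
        rw [h.gd_comm x z]
        rw [hz1, gd_one] at hz2
        omega
    · exact ⟨x, ih x hle, by rw [h.gd_self]; omega⟩

omit [Group A] in
/-- an element of the free group over an increasing union comes from one of the sets -/
private theorem windF_free {T : ℕ → Set A} (hT : Monotone T) (a : FreeGroup (⋃ s, T s : Set A)) :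
    ∃ (s : ℕ) (b : FreeGroup (T s)),
      FreeGroup.map (Set.inclusion (Set.subset_iUnion T s)) b = a := by
  have up : ∀ {s s' : ℕ} (_ : s ≤ s') (b : FreeGroup (T s)), ∃ b' : FreeGroup (T s'),
      FreeGroup.map (Set.inclusion (Set.subset_iUnion T s')) b' =
        FreeGroup.map (Set.inclusion (Set.subset_iUnion T s)) b := by
    intro s s' hs b
    refine ⟨FreeGroup.map (Set.inclusion (hT hs)) b, ?_⟩
    rw [FreeGroup.map.comp]
    rfl
  induction a using FreeGroup.induction_on with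
  | C1 => exact ⟨0, 1, map_one _⟩
  | of x =>
    obtain ⟨s, hs⟩ := Set.mem_iUnion.1 x.2
    exact ⟨s, FreeGroup.of ⟨x.1, hs⟩, rfl⟩
  | inv_of x ih =>
    obtain ⟨s, b, hb⟩ := ih
    exact ⟨s, b⁻¹, by rw [map_inv, hb]⟩
  | mul x y ihx ihy =>
    obtain ⟨s, b, hb⟩ := ihx
    obtain ⟨s', b', hb'⟩ := ihy
    obtain ⟨c, hc⟩ := up (le_max_left s s') b
    obtain ⟨c', hc'⟩ := up (le_max_right s s') b'
    exact ⟨max s s', c * c', by rw [map_mul, hc, hc', hb, hb']⟩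

/-- Theorem W -/
theorem windmill (h : GNorm ℓ) {δ : ℕ} (hyp : Hyp ℓ δ) {w : A} {e : A → ℤ} {κ n : ℕ}
    (ps : PS ℓ w κ e) (hn : 2 * cB κ δ + 4 * κ < n) :
    Green w e n (cG κ δ) ∧ CohLyn w n := by
  obtain ⟨W, G, L, T, wm, hNb, hWL, hG, hT⟩ := windF_seq h hyp ps hn
  have hKn : (KK w n).Normal := Subgroup.normalClosure_normal
  have hgen : ∀ t : A, t * w ^ n * t⁻¹ ∈ KK w n := fun t =>
    hKn.conj_mem _ (Subgroup.subset_normalClosure rfl) t
  have hball := windF_ball h (fun s => (wm s).one_mem) hNb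
  have hL : ∀ g : A, ∃ s, g ∈ L s := fun g => ⟨ℓ g + 1, hWL _ (hball _ g le_rfl)⟩
  have hGK : ∀ s, G s ≤ KK w n := by
    intro s
    rw [← (wm s).rng]
    refine FreeGroup.range_lift_le ?_
    rintro _ ⟨t, rfl⟩
    exact hgen _
  have htG : ∀ s, ∀ t ∈ T s, t * w ^ n * t⁻¹ ∈ G s := by
    intro s t ht
    rw [← (wm s).rng]
    exact ⟨FreeGroup.of ⟨t, ht⟩, by rw [FreeGroup.lift_apply_of]⟩
  have hKG : ∀ k ∈ KK w n, ∃ s, k ∈ G s := by
    have hle : KK w n ≤ ⨆ s, G s := by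
      unfold KK Subgroup.normalClosure
      rw [Subgroup.closure_le]
      intro x hx
      obtain ⟨y, hy, hc⟩ := Group.mem_conjugatesOfSet_iff.1 hx
      rw [Set.mem_singleton_iff.1 hy] at hc
      obtain ⟨g, rfl⟩ := isConj_iff.1 hc
      obtain ⟨s, hs⟩ := hL g
      obtain ⟨γ, hγ, t, ht, i, rfl⟩ := (wm s).cov g hs
      have e1 : γ * t * w ^ i * w ^ n * (γ * t * w ^ i)⁻¹ = γ * (t * w ^ n * t⁻¹) * γ⁻¹ := by
        have e2 : w ^ i * w ^ n = w ^ n * w ^ i := by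
          rw [← zpow_natCast w n, ← zpow_add, ← zpow_add, add_comm]
        rw [mul_assoc (γ * t) (w ^ i) (w ^ n), e2]
        group
      rw [e1]
      exact Subgroup.mem_iSup_of_mem s
        ((G s).mul_mem ((G s).mul_mem hγ (htG s t ht)) ((G s).inv_mem hγ))
    intro k hk
    exact (Subgroup.mem_iSup_of_directed hG.directed_le).1 (hle hk)
  refine ⟨?_, ?_⟩
  · intro k hk hk1 x
    have h1 : x⁻¹ * k * x ∈ KK w n := by
      have := hKn.conj_mem k hk x⁻¹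
      rwa [inv_inv] at this
    obtain ⟨s, hs⟩ := hKG _ h1
    have h2 : x⁻¹ * k * x ≠ 1 := by
      intro h2
      apply hk1
      have h3 : k = x * (x⁻¹ * k * x) * x⁻¹ := by group
      rw [h3, h2]
      group
    obtain ⟨Y, hY⟩ := (wm s).gre _ hs h2
    refine ⟨x * Y, ?_⟩
    have h3 : dl e (x * Y) x (k * x) = dl e Y 1 (x⁻¹ * k * x) := by
      unfold dl
      congr 2 <;> group
    rw [h3]
    exact hY
  · have hcomp : ∀ (s : ℕ) (b : FreeGroup (T s)),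
        FreeGroup.lift (fun t : (⋃ s, T s : Set A) => (t : A) * w ^ n * (t : A)⁻¹)
          (FreeGroup.map (Set.inclusion (Set.subset_iUnion T s)) b) =
        FreeGroup.lift (fun t : T s => (t : A) * w ^ n * (t : A)⁻¹) b := by
      intro s b
      have h1 := FreeGroup.lift_unique (f := fun t : T s => (t : A) * w ^ n * (t : A)⁻¹)
        ((FreeGroup.lift (fun t : (⋃ s, T s : Set A) => (t : A) * w ^ n * (t : A)⁻¹)).comp
          (FreeGroup.map (Set.inclusion (Set.subset_iUnion T s))))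
        (fun x => by
          rw [MonoidHom.comp_apply, FreeGroup.map.of, FreeGroup.lift_apply_of]) (x := b)
      exact h1
    refine ⟨⋃ s, T s, ?_, ?_, ?_⟩
    · rw [injective_iff_map_eq_one]
      intro a ha
      obtain ⟨s, b, rfl⟩ := windF_free hT a
      rw [hcomp] at ha
      rw [(injective_iff_map_eq_one _).1 (wm s).inj b ha, map_one]
    · apply le_antisymm
      · refine FreeGroup.range_lift_le ?_
        rintro _ ⟨t, rfl⟩
        exact hgen _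
      · intro k hk
        obtain ⟨s, hs⟩ := hKG k hk
        rw [← (wm s).rng] at hs
        obtain ⟨b, rfl⟩ := hs
        exact ⟨_, hcomp s b⟩
    · intro g
      obtain ⟨s, hs⟩ := hL g
      obtain ⟨γ, hγ, t, ht, i, hg⟩ := (wm s).cov g hs
      exact ⟨γ, hGK s hγ, t, Set.mem_iUnion.2 ⟨s, ht⟩, i, hg⟩

end L2B
end
end
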