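import Pool.Agent.Lib.MP_42532b_al.StepQ
import Pool.Agent.Lib.MP_42532b_al.L2.Indep
import Pool.Agent.Lib.MP_42532b_al.DehnQuot
import Pool.Agent.Lib.MP_42532b_al.TdGood
import Pool.Agent.Lib.MP_42532b_al.WindF
import Pool.Agent.Lib.MP_42532b_al.BettiDef
import Pool.Agent.Lib.MP_42532b_al.L2.Grad

section

section

namespace L2B

private theorem start_mk_inj {a b : F2} (h : (a : F2 ⧸ (⊥ : Subgroup F2)) = b) : a = b := by
  have h1 := QuotientGroup.eq.1 h
  rw [Subgroup.mem_bot] at h1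
  exact inv_mul_eq_one.1 h1

private theorem start_nrm (g : F2) :
    nrm (⊥ : Subgroup F2) (QuotientGroup.mk' (⊥ : Subgroup F2) g) = g.norm := by
  obtain ⟨g', h1, h2⟩ := (nrm_spec (⊥ : Subgroup F2)).lift (QuotientGroup.mk' (⊥ : Subgroup F2) g)
  have h3 : g' = g := start_mk_inj h1
  rw [← h2, h3]

private theorem start_gd (a b : F2) :
    gd (nrm (⊥ : Subgroup F2)) (QuotientGroup.mk' (⊥ : Subgroup F2) a)
      (QuotientGroup.mk' (⊥ : Subgroup F2) b) = gd (fun g : F2 => g.norm) a b := by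
  unfold gd
  rw [← map_inv, ← map_mul, start_nrm]

private theorem start_dehn : DehnP (nrm (⊥ : Subgroup F2)) 2 := by
  intro m v hm hv hstep
  choose u hu using fun i => QuotientGroup.mk'_surjective (⊥ : Subgroup F2) (v i)
  have hgd : ∀ i j, gd (nrm (⊥ : Subgroup F2)) (v i) (v j) =
      gd (fun g : F2 => g.norm) (u i) (u j) := by
    intro i j
    rw [← hu i, ← hu j, start_gd]
  obtain ⟨i, j, h1, h2, h3, h4⟩ := dehn_free m u hm
    (start_mk_inj (by
      have h5 : QuotientGroup.mk' (⊥ : Subgroup F2) (u m) =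
          QuotientGroup.mk' (⊥ : Subgroup F2) (u 0) := by rw [hu, hu, hv]
      exact h5))
    (fun i hi => by rw [← hgd]; exact hstep i hi)
  exact ⟨i, j, h1, h2, h3, by rw [hgd]; exact h4⟩

private theorem start_img : img (MonoidHom.id F2) (⊥ : Subgroup F2) = ⊤ := by
  rw [eq_top_iff]
  intro x _
  obtain ⟨g, rfl⟩ := QuotientGroup.mk'_surjective (⊥ : Subgroup F2) x
  exact ⟨g, rfl⟩

/-- the initial stage -/
theorem inv_start : Inv 0 (⊥ : Subgroup F2) {MonoidHom.id F2} := by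
  refine ⟨⟨?_, Empty, Empty.elim, Empty.elim, ?_⟩, ?_, Finset.mem_singleton_self _,
    ∅, ⟨?_, ?_, ?_⟩, ?_⟩
  · exact hyp_of_dehn (nrm_gnorm _) start_dehn
  · refine ⟨fun i => i.elim, fun i => i.elim, fun i => i.elim, ?_, fun i => i.elim⟩
    rw [Set.range_eq_empty, eq_comm, eq_bot_iff]
    exact Subgroup.normalClosure_le_normal (Set.empty_subset _)
  · intro ψ hψ
    rw [Finset.mem_singleton] at hψ
    subst hψ
    refine ⟨⟨0, ?_⟩, ?_⟩
    · intro x _ y _ z _
      refine ⟨z, ?_, ?_⟩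
      · rw [start_img]; exact Subgroup.mem_top z
      · rw [(nrm_gnorm _).gd_self]
    · intro b h _ _ _
      rw [start_img]
      exact Subgroup.mem_top b
  · rw [Finset.coe_empty, Set.image_empty]
    apply le_antisymm
    · intro x hx
      rw [Subgroup.mem_comap] at hx
      have h1 : x = 1 := hx
      rw [h1]
      exact one_mem _
    · exact Subgroup.normalClosure_le_normal (Set.empty_subset _)
  · intro q hq
    exact absurd hq (Finset.notMem_empty q)
  · intro q hq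
    exact absurd hq (Finset.notMem_empty q)
  · unfold wt
    norm_num

end L2B
end

section

namespace L2B
variable {A : Type*} [Group A] {ℓ : A → ℕ}

private theorem bc_zpow_ne_one {w : A} (hw : InfOrd w) {m : ℤ} (hm : m ≠ 0) : w ^ m ≠ 1 := by
  intro h
  have hpos : 0 < m.natAbs := Int.natAbs_pos.2 hm
  rcases Int.natAbs_eq m with e | e
  · rw [e, zpow_natCast] at h
    exact hw _ hpos h
  · rw [e, zpow_neg, inv_eq_one, zpow_natCast] at h
    exact hw _ hpos h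

/-- section 9 -/
theorem base_case (h : GNorm ℓ) {δ : ℕ} (hyp : Hyp ℓ δ) (hT : TorsGood A) (B : Subgroup A)
    (hB : (B : Set A).Infinite) (hBc : ¬ ∃ c : A, B ≤ Subgroup.zpowers c) :
    ∃ x ∈ B, ∃ y ∈ B, Function.Injective (FreeGroup.lift ![x, y]) ∧
      MN (Subgroup.closure {x, y}) ∧
      ∃ c' : ℕ, QCs ℓ ((Subgroup.closure {x, y} : Subgroup A) : Set A) c' := by
  obtain ⟨u, huB, hul⟩ := exists_lox_of_infinite h hyp B hB
  have hui : InfOrd u := Lox.infOrd h hul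
  obtain ⟨c, hc, s, hs⟩ := exists_root h hyp hT hui
  have hs0 : s ≠ 0 := by
    rintro rfl
    rw [zpow_zero] at hs
    exact hui 1 one_pos (by rw [pow_one, hs])
  have hBc' : ¬ B ≤ Subgroup.zpowers c := fun hle => hBc ⟨c, hle⟩
  obtain ⟨g, hgB, hgc⟩ := SetLike.not_le_iff_exists.1 hBc'
  let f : Fin 4 → A := fun i => u ^ ((i : ℕ) : ℤ) * g
  have hf : ∀ i j, i ≠ j → ¬ SameL c (f i) (f j) := by
    rintro i j hij ⟨k, hk⟩
    have hk' : u ^ ((j : ℕ) : ℤ) * g = u ^ ((i : ℕ) : ℤ) * g * c ^ k := hk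
    have e1 : g⁻¹ * c ^ (s * (((j : ℕ) : ℤ) - ((i : ℕ) : ℤ))) * (g⁻¹)⁻¹ = c ^ k := by
      have e2 : c ^ (s * (((j : ℕ) : ℤ) - ((i : ℕ) : ℤ))) =
          (u ^ ((i : ℕ) : ℤ))⁻¹ * u ^ ((j : ℕ) : ℤ) := by
        rw [zpow_mul, ← hs, ← zpow_neg, ← zpow_add]; congr 1; ring
      have e3 : u ^ ((j : ℕ) : ℤ) = u ^ ((i : ℕ) : ℤ) * g * c ^ k * g⁻¹ := by
        rw [← hk']; group
      rw [e2, e3]; group
    have hij' : (((j : ℕ) : ℤ) - ((i : ℕ) : ℤ)) ≠ 0 := by
      intro h0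
      apply hij
      apply Fin.ext
      omega
    have hm : s * (((j : ℕ) : ℤ) - ((i : ℕ) : ℤ)) ≠ 0 := mul_ne_zero hs0 hij'
    have hk0 : k ≠ 0 := by
      rintro rfl
      rw [zpow_zero] at e1
      have e4 : c ^ (s * (((j : ℕ) : ℤ) - ((i : ℕ) : ℤ))) = 1 := by
        have e5 : c ^ (s * (((j : ℕ) : ℤ) - ((i : ℕ) : ℤ))) =
          g * (g⁻¹ * c ^ (s * (((j : ℕ) : ℤ) - ((i : ℕ) : ℤ))) * (g⁻¹)⁻¹) * g⁻¹ := by group
        rw [e5, e1]; group
      exact bc_zpow_ne_one hc.1 hm e4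
    obtain ⟨t, ht⟩ := hc.2 g⁻¹ ⟨_, _, hm, hk0, e1⟩
    apply hgc
    rw [Subgroup.mem_zpowers_iff]
    exact ⟨-t, by rw [zpow_neg, ← ht, inv_inv]⟩
  obtain ⟨κ, e, ps, _⟩ := exists_PS h hyp hc
  obtain ⟨E1, hE1⟩ := base_free_qc h hyp ps f hf
  obtain ⟨E2, hE2⟩ := base_mn h hyp hc ps f hf
  let N : Fin 4 → ℕ := fun i => s.natAbs * (E1 + E2) * ((i : ℕ) + 1)
  have hsn : 1 ≤ s.natAbs := Int.natAbs_pos.2 hs0
  have hSE : E1 + E2 ≤ s.natAbs * (E1 + E2) := Nat.le_mul_of_pos_left _ hsn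
  have hN1 : ∀ i, E1 + E2 ≤ N i := by
    intro i
    exact hSE.trans (Nat.le_mul_of_pos_right _ (Nat.succ_pos _))
  have hN2 : ∀ i j, i < j → N i + E2 ≤ N j := by
    intro i j hij
    have h1 : (i : ℕ) + 1 ≤ (j : ℕ) := hij
    have h2 : s.natAbs * (E1 + E2) * ((i : ℕ) + 1 + 1) ≤ s.natAbs * (E1 + E2) * ((j : ℕ) + 1) :=
      Nat.mul_le_mul_left _ (by omega)
    have h3 : s.natAbs * (E1 + E2) * ((i : ℕ) + 1 + 1) =
        s.natAbs * (E1 + E2) * ((i : ℕ) + 1) + s.natAbs * (E1 + E2) := by ring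
    show s.natAbs * (E1 + E2) * ((i : ℕ) + 1) + E2 ≤ s.natAbs * (E1 + E2) * ((j : ℕ) + 1)
    omega
  have hcB : c ^ s.natAbs ∈ B := by
    rcases Int.natAbs_eq s with e1 | e1
    · have : c ^ s.natAbs = u := by
        rw [hs]; conv_rhs => rw [e1, zpow_natCast]
      rw [this]; exact huB
    · have : c ^ s.natAbs = u⁻¹ := by
        rw [hs]; conv_rhs => rw [e1, zpow_neg, zpow_natCast, inv_inv]
      rw [this]; exact B.inv_mem huB
  have hUB : ∀ i, Uu c f N i ∈ B := by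
    intro i
    have h1 : f i ∈ B := B.mul_mem (B.zpow_mem huB _) hgB
    have h2 : c ^ N i ∈ B := by
      have e1 : N i = s.natAbs * ((E1 + E2) * ((i : ℕ) + 1)) := by
        show s.natAbs * (E1 + E2) * ((i : ℕ) + 1) = _
        ring
      rw [e1, pow_mul]
      exact B.pow_mem hcB _
    exact B.mul_mem (B.mul_mem h1 h2) (B.inv_mem h1)
  obtain ⟨hinj, c', hqc⟩ := hE1 N (fun i => le_trans (Nat.le_add_right _ _) (hN1 i))
  exact ⟨Uu c f N 0 * Uu c f N 1, B.mul_mem (hUB 0) (hUB 1), Uu c f N 2 * Uu c f N 3,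
    B.mul_mem (hUB 2) (hUB 3), hinj,
    hE2 N (fun i => le_trans (Nat.le_add_left _ _) (hN1 i)) hN2, c', hqc⟩

/-- elements of infinite order in cosets of normal subgroups of finite index (T2) -/
theorem exists_inf_in_coset (h : GNorm ℓ) {δ : ℕ} (hyp : Hyp ℓ δ) (hT : TorsGood A)
    (hinf : Infinite A) (M : Subgroup A) [M.Normal] [M.FiniteIndex] (x : A) :
    ∃ a ∈ M, InfOrd (x * a) := by
  have hMinf : (M : Set A).Infinite := by
    intro hfin
    have : Finite M := hfin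
    have : Finite (A ⧸ M) := Subgroup.finite_quotient_of_finiteIndex
    have : Finite A := Finite.of_equiv _ (Subgroup.groupEquivQuotientProdSubgroup (s := M)).symm
    exact not_finite A
  obtain ⟨u, huM, hul⟩ := exists_lox_of_infinite h hyp M hMinf
  have hui : InfOrd u := Lox.infOrd h hul
  obtain ⟨c, hc, s, hs⟩ := exists_root h hyp hT hui
  have hs0 : s ≠ 0 := by
    rintro rfl
    rw [zpow_zero] at hs
    exact hui 1 one_pos (by rw [pow_one, hs])
  by_cases hx : ∃ t : ℤ, x = c ^ t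
  · obtain ⟨t, rfl⟩ := hx
    obtain ⟨i, hi⟩ : ∃ i : ℤ, t + s * i ≠ 0 := by
      by_cases ht : t = 0
      · exact ⟨1, by rw [ht, mul_one, zero_add]; exact hs0⟩
      · exact ⟨0, by rw [mul_zero, add_zero]; exact ht⟩
    refine ⟨u ^ i, M.zpow_mem huM i, ?_⟩
    intro m hm h1
    rw [hs, ← zpow_mul, ← zpow_add, ← zpow_natCast, ← zpow_mul] at h1
    exact bc_zpow_ne_one hc.1 (mul_ne_zero hi (by exact_mod_cast hm.ne')) h1
  · push Not at hx
    obtain ⟨κ, e, ps, _⟩ := exists_PS h hyp hc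
    set K : ℤ := |e x| + |e x⁻¹| + 5 * κ + 1 with hK
    have hK0 : 0 ≤ K := by positivity
    refine ⟨u ^ K, M.zpow_mem huM K, ?_⟩
    have hNabs : K ≤ |s * K| := by
      rw [abs_mul, abs_of_nonneg hK0]
      have : 1 ≤ |s| := Int.one_le_abs hs0
      nlinarith
    set N : ℤ := s * K with hN
    have hg : x * u ^ K = x * c ^ N := by rw [hs, ← zpow_mul]
    rw [hg]
    set g := x * c ^ N with hgdef
    -- `x` and `x⁻¹` are not on the line of `1`
    have hx1 : ¬ SameL c 1 x := by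
      rintro ⟨k, hk⟩
      exact hx k (by rw [hk, one_mul])
    have hx2 : ¬ SameL c 1 x⁻¹ := by
      rintro ⟨k, hk⟩
      apply hx (-k)
      rw [one_mul] at hk
      rw [zpow_neg, ← hk, inv_inv]
    -- the basic estimate
    have hfar : ∀ (i : ℕ) (a b : ℤ), |N| - |e x| - |e x⁻¹| - 2 * κ ≤
        |dl e (g ^ (i + 1)) (g ^ i * c ^ a) (g ^ (i + 2) * c ^ b)| := by
      intro i a b
      have e1 : (g ^ (i + 1))⁻¹ * (g ^ (i + 2) * c ^ b) = x * c ^ (N + b) := by
        rw [pow_succ g (i + 1), mul_assoc, inv_mul_cancel_left, hgdef, zpow_add, mul_assoc]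
      have e2 : (g ^ (i + 1))⁻¹ * (g ^ i * c ^ a) = c ^ (-N) * (x⁻¹ * c ^ a) := by
        rw [pow_succ g i, mul_inv_rev, mul_assoc, inv_mul_cancel_left, hgdef, mul_inv_rev,
          zpow_neg, mul_assoc]
      have o1 := ps.overlap x hx1 (N + b) 0
      have o2 := ps.overlap x⁻¹ hx2 a 0
      rw [zpow_zero, mul_one] at o1 o2
      have o3 := ps.shift (-N) (x⁻¹ * c ^ a)
      unfold dl
      rw [e1, e2, o3]
      have a1 := abs_le.1 o1
      have a2 := abs_le.1 o2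
      rcases abs_cases N with ⟨hN1, hN2⟩ | ⟨hN1, hN2⟩ <;>
      rcases abs_cases (e x) with ⟨b1, b2⟩ | ⟨b1, b2⟩ <;>
      rcases abs_cases (e x⁻¹) with ⟨d1, d2⟩ | ⟨d1, d2⟩ <;>
      rcases abs_cases (e (x * c ^ (N + b)) - (e (x⁻¹ * c ^ a) + -N)) with ⟨f1, f2⟩ | ⟨f1, f2⟩ <;>
      omega
    intro m hm h1
    rcases Nat.lt_or_ge m 2 with hm2 | hm2
    · have : m = 1 := by omega
      subst this
      rw [pow_one] at h1
      apply hx (-N)
      rw [zpow_neg]
      exact eq_inv_of_mul_eq_one_left h1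
    · obtain ⟨m', rfl⟩ : ∃ m', m = m' + 1 := ⟨m - 1, by omega⟩
      have hm' : 1 ≤ m' := by omega
      let S : ℕ → Set A := fun j => if j = 0 then {1} else if j = m' + 1 then {g ^ (m' + 1)}
        else Ln c (g ^ j)
      have hSsub : ∀ j, S j ⊆ Ln c (g ^ j) := by
        intro j v hv
        simp only [S] at hv
        split_ifs at hv with h0 h2
        · refine ⟨0, ?_⟩
          rw [h0, pow_zero, zpow_zero, mul_one]
          exact hv
        · refine ⟨0, ?_⟩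
          rw [h2, zpow_zero, mul_one]
          exact hv
        · exact hv
      have hchain : Chain c e (|N| - |e x| - |e x⁻¹| - 2 * κ) m' S (fun j => g ^ j) := by
        refine ⟨?_, ?_, ?_⟩
        · intro i hi1 hi2
          simp only [S]
          rw [if_neg (by omega), if_neg (by omega)]
        · rintro i hi1 hi2 ⟨k, hk⟩
          have hk2 : g ^ (i + 1) = g ^ i * c ^ k := hk
          rw [pow_succ] at hk2
          have hk3 := mul_left_cancel hk2
          apply hx (k - N)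
          rw [hgdef] at hk3
          rw [zpow_sub, ← hk3, mul_inv_cancel_right]
        · intro i hi v hv v' hv'
          obtain ⟨a, rfl⟩ := hSsub _ hv
          obtain ⟨b, rfl⟩ := hSsub _ hv'
          exact hfar i a b
      have hA := chainA h ps (Λ := |N| - |e x| - |e x⁻¹| - 2 * κ) (by omega) hchain 1
        (g ^ (m' + 1)) (by simp [S]) (by simp [S]) 1 le_rfl hm'
      have hA3 := hA.2.2
      rw [h1, dl_self, abs_zero] at hA3
      omega

end L2B
end

section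

namespace L2B

/-- lower bound for the image of `ψ`, finitely many relators -/
theorem pres_infinite {R : Subgroup F2} [R.Normal] {S : Finset (F2 × ℕ)}
    (hS : Pres (MonoidHom.id F2) R S) (hw : wt S < 1) : Infinite (F2 ⧸ R) := by
  by_contra hinf
  have hfin : Finite (F2 ⧸ R) := not_infinite_iff_finite.1 hinf
  let s : Fin 2 → F2 ⧸ R := fun i => QuotientGroup.mk' R (FreeGroup.of i)
  have hlift : FreeGroup.lift s = QuotientGroup.mk' R := by
    refine FreeGroup.ext_hom _ _ fun i => ?_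
    simp [s]
  have hsurj : Function.Surjective (FreeGroup.lift s) := by
    rw [hlift]
    exact QuotientGroup.mk'_surjective R
  have h := MP42532b.L2.beta_ge s (J := {q : F2 × ℕ // q ∈ S}) hsurj (fun j => j.1.1)
    (fun j => j.1.2) (fun j => hS.pos _ j.2) (fun j => by
      rw [hlift]
      refine Nat.dvd_antisymm (orderOf_dvd_of_pow_eq_one ?_) ?_
      · rw [← map_pow]
        have := (hS.ord j.1 j.2 (j.1.2 : ℤ)).2 dvd_rfl
        rw [MonoidHom.id_apply, zpow_natCast] at this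
        rw [QuotientGroup.mk'_apply]
        exact (QuotientGroup.eq_one_iff _).2 this
      · have h1 : (QuotientGroup.mk' R j.1.1) ^ orderOf (QuotientGroup.mk' R j.1.1) = 1 :=
          pow_orderOf_eq_one _
        rw [← map_pow] at h1
        have h2 : j.1.1 ^ orderOf (QuotientGroup.mk' R j.1.1) ∈ R := by
          rw [QuotientGroup.mk'_apply] at h1
          exact (QuotientGroup.eq_one_iff _).1 h1
        have h3 := (hS.ord j.1 j.2 ((orderOf (QuotientGroup.mk' R j.1.1) : ℕ) : ℤ)).1 (by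
          rw [MonoidHom.id_apply, zpow_natCast]
          exact h2)
        exact_mod_cast h3) (by
      rw [hlift, QuotientGroup.ker_mk']
      have hk := hS.ker
      rw [Subgroup.comap_id] at hk
      rw [hk]
      congr 1
      ext x
      simp only [Set.mem_image, Finset.mem_coe, Set.mem_range, Subtype.exists]
      constructor
      · rintro ⟨q, hq, rfl⟩
        exact ⟨q, hq, rfl⟩
      · rintro ⟨q, hq, rfl⟩
        exact ⟨q, hq, rfl⟩) (wt S) (fun F => by
      unfold wt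
      rw [← Finset.sum_coe_sort S]
      exact Finset.sum_le_sum_of_subset_of_nonneg (Finset.subset_univ F)
        fun _ _ _ => by positivity)
  rw [MP42532b.L2.beta_eq_zero_of_finite] at h
  norm_num at h
  linarith

theorem Inv.infinite {k : ℕ} {R : Subgroup F2} [R.Normal] {Ψ : Finset (F2 →* F2)}
    (hi : Inv k R Ψ) : Infinite (F2 ⧸ R) := by
  obtain ⟨S, h1, h2⟩ := hi.pres
  refine pres_infinite h1 ?_
  have : (0:ℝ) < 1 / 4 * (1 / 2) ^ k := by positivity
  linarith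

end L2B
end

section

namespace L2B

/-- everything about the root `v` that the step needs, for all large `n` -/
theorem step_pack (R : Subgroup F2) [R.Normal] (st : Stage R) (v : F2)
    (hv : IsRoot (v : F2 ⧸ R)) :
    ∃ (δ κ : ℕ) (e : F2 ⧸ R → ℤ), Hyp (nrm R) δ ∧ PS (nrm R) (v : F2 ⧸ R) κ e ∧
      ∃ C N : ℕ, ∀ n, N ≤ n → Green (v : F2 ⧸ R) e n C ∧ CohLyn (v : F2 ⧸ R) n ∧
        (∀ j : ℤ, (v : F2 ⧸ R) ^ j ∈ KK (v : F2 ⧸ R) n ↔ (n : ℤ) ∣ j) ∧
        (∀ t : F2 ⧸ R, t ≠ 1 → (∃ m : ℕ, 0 < m ∧ t ^ m = 1) → t ∉ KK (v : F2 ⧸ R) n) := by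
  have hg := nrm_gnorm R
  obtain ⟨δ, hδ⟩ := st.hyp
  obtain ⟨κ, e, ps, -⟩ := exists_PS hg hδ hv
  refine ⟨δ, κ, e, hδ, ps, cG κ δ, 2 * cB κ δ + 4 * κ + κ + 2 * cG κ δ + κ * (18 * δ + 5) + 1, ?_⟩
  intro n hn
  have h1 := windmill hg hδ ps (n := n) (by omega)
  exact ⟨h1.1, h1.2, w_order ps h1.1 hv.1 (by omega),
    fun t ht hf => fin_not_mem hg hδ ps h1.1 (by omega) t ht hf⟩

/-- the next stage -/
theorem step_stage (R : Subgroup F2) [R.Normal] (st : Stage R) (v : F2)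
    (hv : IsRoot (v : F2 ⧸ R)) : ∃ N : ℕ, ∀ p, N ≤ p → p.Prime → Stage (adj R v p) := by
  have hg := nrm_gnorm R
  obtain ⟨δ, κ, e, hδ, ps, C, N1, hN1⟩ := step_pack R st v hv
  obtain ⟨N2, hN2⟩ := dehn_quot hg hδ ps C
  refine ⟨N1 + N2 + 3, fun p hp hpp => ?_⟩
  obtain ⟨hG, hCL, hord, htor⟩ := hN1 p (by omega)
  obtain ⟨R0, hR0⟩ := hN2 p (by omega) hG (F2 ⧸ adj R v p) (qm (le_adj R v p)) (nrm (adj R v p))
    (qm_surj _) (qm_ker_adj R v p) (qm_qnorm _)
  obtain ⟨ι, w, n, td⟩ := st.td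
  exact ⟨hyp_of_dehn (nrm_gnorm _) hR0,
    ⟨_, _, _, td_step R td v p hpp (by omega) hCL hord htor⟩⟩

end L2B
end

section

namespace L2B

/-- presentations of certificates: few new relators -/
theorem step_pres (R : Subgroup F2) [R.Normal] (st : Stage R) (v : F2)
    (hv : IsRoot (v : F2 ⧸ R)) (ψ : F2 →* F2) (hψ : Cert ψ R) (η : ℝ) (hη : 0 < η) :
    ∃ N : ℕ, ∀ p, N ≤ p → ∀ S, Pres ψ R S →
      ∃ S', S ⊆ S' ∧ Pres ψ (adj R v p) S' ∧ wt S' ≤ wt S + η := by
  classical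
  obtain ⟨δ, κ, e, hyp, ps, C, N0, hN0⟩ := step_pack R st v hv
  obtain ⟨c, hc⟩ := hψ.qc
  obtain ⟨N1, hN1⟩ := ker_gen (nrm_gnorm R) hyp ps hv.1 (img ψ R) c hc hψ.mn C
  obtain ⟨w, hw⟩ : ∃ w : F2 ⧸ R, w = (v : F2 ⧸ R) := ⟨_, rfl⟩
  rw [← hw] at hN0 hN1 ps
  -- the finite set of conjugators
  have hfin : {f : F2 ⧸ R | f * w * f⁻¹ ∈ img ψ R ∧ nrm R f ≤ cY κ δ c}.Finite :=
    ((nrm_gnorm R).fin (cY κ δ c)).subset (fun f hf => hf.2)
  obtain ⟨Φ, hΦ⟩ : ∃ Φ : Finset (F2 ⧸ R), ∀ f, f ∈ Φ ↔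
      f * w * f⁻¹ ∈ img ψ R ∧ nrm R f ≤ cY κ δ c := ⟨hfin.toFinset, fun f => by simp⟩
  obtain ⟨θ, hθ⟩ : ∃ θ : F2 →* F2 ⧸ R, θ = (QuotientGroup.mk' R).comp ψ := ⟨_, rfl⟩
  have hθa : ∀ x, QuotientGroup.mk' R (ψ x) = θ x := fun x => by rw [hθ]; rfl
  have himg : ∀ y, y ∈ img ψ R ↔ ∃ x, θ x = y := fun y => by
    rw [hθ]; exact MonoidHom.mem_range
  have hvf : ∀ f : F2 ⧸ R, ∃ u : F2, f ∈ Φ → θ u = f * w * f⁻¹ := by
    intro f
    by_cases hf : f ∈ Φ
    · obtain ⟨u, hu⟩ := (himg _).1 ((hΦ f).1 hf).1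
      exact ⟨u, fun _ => hu⟩
    · exact ⟨1, fun h => absurd h hf⟩
  choose u hu using hvf
  obtain ⟨N2, hN2⟩ := exists_nat_gt ((Φ.card : ℝ) / η)
  refine ⟨max (max N0 N1) (max N2 1), fun p hp S hS => ?_⟩
  have hp0 : N0 ≤ p := le_trans (le_trans (le_max_left _ _) (le_max_left _ _)) hp
  have hp1 : N1 ≤ p := le_trans (le_trans (le_max_right _ _) (le_max_left _ _)) hp
  have hp2 : N2 ≤ p := le_trans (le_trans (le_max_left _ _) (le_max_right _ _)) hp
  have hp3 : 1 ≤ p := le_trans (le_trans (le_max_right _ _) (le_max_right _ _)) hp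
  obtain ⟨hG, -, hord, htor⟩ := hN0 p hp0
  have hker := hN1 p hp1 hG
  have hKn : (KK w p).Normal := by unfold KK; infer_instance
  have hwp : w ^ p ∈ KK w p := Subgroup.subset_normalClosure rfl
  -- membership
  have hadj : ∀ x, ψ x ∈ adj R v p ↔ θ x ∈ KK w p := by
    intro x
    rw [adj_eq, Subgroup.mem_comap, hθa, hw]
  have hRθ : ∀ x, ψ x ∈ R ↔ θ x = 1 := by
    intro x
    rw [← hθa]
    exact (QuotientGroup.eq_one_iff _).symm
  have hcp : ∀ f (j : ℤ), (f * w * f⁻¹) ^ j ∈ KK w p ↔ w ^ j ∈ KK w p := by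
    intro f j
    rw [conj_zpow]
    constructor
    · intro h
      have := hKn.conj_mem _ h f⁻¹
      have e1 : f⁻¹ * (f * w ^ j * f⁻¹) * f⁻¹⁻¹ = w ^ j := by group
      rwa [e1] at this
    · intro h
      exact hKn.conj_mem _ h f
  refine ⟨S ∪ Φ.image (fun f => (u f, p)), Finset.subset_union_left, ⟨?_, ?_, ?_⟩, ?_⟩
  · -- the kernel
    have hSsub : R.comap ψ ≤ Subgroup.normalClosure ((fun q : F2 × ℕ => q.1 ^ q.2) ''
        ((S ∪ Φ.image (fun f => (u f, p)) : Finset (F2 × ℕ)) : Set (F2 × ℕ))) := by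
      rw [hS.ker]
      exact Subgroup.normalClosure_mono (Set.image_mono (by
        intro q hq; exact Finset.mem_coe.2 (Finset.mem_union_left _ (Finset.mem_coe.1 hq))))
    have hnew : ∀ f ∈ Φ, (u f) ^ p ∈ Subgroup.normalClosure ((fun q : F2 × ℕ => q.1 ^ q.2) ''
        ((S ∪ Φ.image (fun f => (u f, p)) : Finset (F2 × ℕ)) : Set (F2 × ℕ))) := by
      intro f hf
      refine Subgroup.subset_normalClosure ⟨(u f, p), ?_, rfl⟩
      exact Finset.mem_coe.2 (Finset.mem_union_right _ (Finset.mem_image.2 ⟨f, hf, rfl⟩))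
    obtain ⟨D, hD⟩ : ∃ D, D = Subgroup.normalClosure ((fun q : F2 × ℕ => q.1 ^ q.2) ''
        ((S ∪ Φ.image (fun f => (u f, p)) : Finset (F2 × ℕ)) : Set (F2 × ℕ))) := ⟨_, rfl⟩
    have hDn : D.Normal := by rw [hD]; infer_instance
    rw [← hD] at hSsub hnew ⊢
    apply le_antisymm
    · intro x hx
      have hx1 : θ x ∈ KK w p := (hadj x).1 hx
      have hx2 := hker (θ x) ((himg _).2 ⟨x, rfl⟩) hx1
      have hx3 : θ x ∈ D.map θ := by
        refine (Subgroup.closure_le (D.map θ)).2 ?_ hx2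
        rintro _ ⟨a, ha, f, hf1, hf2, rfl⟩
        obtain ⟨y, rfl⟩ := (himg _).1 ha
        refine ⟨y * (u f) ^ p * y⁻¹, hDn.conj_mem _ (hnew f ((hΦ f).2 ⟨hf1, hf2⟩)) y, ?_⟩
        rw [map_mul, map_mul, map_inv, map_pow, hu f ((hΦ f).2 ⟨hf1, hf2⟩), conj_pow]
      obtain ⟨d, hd, hdx⟩ := Subgroup.mem_map.1 hx3
      have h1 : x * d⁻¹ ∈ R.comap ψ := by
        rw [Subgroup.mem_comap, hRθ, map_mul, map_inv, hdx, mul_inv_cancel]
      have h2 := mul_mem (hSsub h1) hd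
      rwa [inv_mul_cancel_right] at h2
    · rw [hD]
      have : ((adj R v p).comap ψ).Normal := inferInstance
      apply Subgroup.normalClosure_le_normal
      rintro _ ⟨q, hq, rfl⟩
      rw [Finset.mem_coe, Finset.mem_union, Finset.mem_image] at hq
      rcases hq with hq | ⟨f, hf, rfl⟩
      · have h1 : q.1 ^ q.2 ∈ R.comap ψ := by
          rw [hS.ker]
          exact Subgroup.subset_normalClosure ⟨q, Finset.mem_coe.2 hq, rfl⟩
        exact le_adj R v p h1
      · show ψ ((u f) ^ p) ∈ adj R v p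
        rw [hadj, map_pow, hu f hf, conj_pow]
        exact hKn.conj_mem _ hwp f
  · intro q hq
    rw [Finset.mem_union, Finset.mem_image] at hq
    rcases hq with hq | ⟨f, hf, rfl⟩
    · exact hS.pos q hq
    · exact hp3
  · intro q hq j
    rw [Finset.mem_union, Finset.mem_image] at hq
    rcases hq with hq | ⟨f, hf, rfl⟩
    · have h1 : ψ q.1 ^ j = ψ (q.1 ^ j) := (map_zpow ψ _ _).symm
      rw [← hS.ord q hq j, h1, hadj, hRθ]
      constructor
      · intro h2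
        by_contra h3
        refine htor _ h3 ⟨q.2, hS.pos q hq, ?_⟩ h2
        rw [← map_pow, ← hRθ, map_pow, map_zpow, ← zpow_natCast, ← zpow_mul]
        exact (hS.ord q hq _).2 (Dvd.intro_left j rfl)
      · intro h2
        rw [h2]
        exact one_mem _
    · show ψ (u f) ^ j ∈ adj R v p ↔ (p : ℤ) ∣ j
      rw [← map_zpow, hadj, map_zpow, hu f hf, hcp, hord]
  · -- the weight
    have h1 : wt (S ∪ Φ.image (fun f => (u f, p))) ≤ wt S + wt (Φ.image (fun f => (u f, p))) := by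
      unfold wt
      rw [← Finset.sum_union_inter]
      have : (0:ℝ) ≤ ∑ q ∈ S ∩ Φ.image (fun f => (u f, p)), (1 : ℝ) / q.2 :=
        Finset.sum_nonneg (fun q _ => by positivity)
      linarith
    have h2 : wt (Φ.image (fun f => (u f, p))) ≤ Φ.card * (1 / (p : ℝ)) := by
      unfold wt
      have h3 : ∑ q ∈ Φ.image (fun f => (u f, p)), (1 : ℝ) / q.2 =
          ∑ q ∈ Φ.image (fun f => (u f, p)), (1 : ℝ) / p := by
        apply Finset.sum_congr rfl
        intro q hq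
        obtain ⟨f, -, rfl⟩ := Finset.mem_image.1 hq
        rfl
      rw [h3, Finset.sum_const, nsmul_eq_mul]
      apply mul_le_mul_of_nonneg_right _ (by positivity)
      exact_mod_cast Finset.card_image_le
    have h3 : (Φ.card : ℝ) * (1 / (p : ℝ)) ≤ η := by
      have hpp : (0 : ℝ) < p := by exact_mod_cast hp3
      rw [mul_one_div, div_le_iff₀ hpp]
      rw [div_lt_iff₀ hη] at hN2
      have h4 : (N2 : ℝ) ≤ p := by exact_mod_cast hp2
      nlinarith
    linarith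

end L2B
end

section

namespace L2B

/-- certificates survive -/
theorem step_cert (R : Subgroup F2) [R.Normal] (st : Stage R) (v : F2)
    (hv : IsRoot (v : F2 ⧸ R)) (ψ : F2 →* F2) (hψ : Cert ψ R) :
    ∃ N : ℕ, ∀ p, N ≤ p → Cert ψ (adj R v p) := by
  obtain ⟨δ, κ, e, hyp, ps, C, N0, hN0⟩ := step_pack R st v hv
  obtain ⟨c, hc⟩ := hψ.qc
  obtain ⟨N1, hN1⟩ := qc_quot (nrm_gnorm R) hyp ps hv.1 (img ψ R) c hc hψ.mn C
  obtain ⟨N2, hN2⟩ := mn_quot (nrm_gnorm R) hyp ps hv.1 (img ψ R) c hc hψ.mn C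
  refine ⟨max N0 (max N1 N2), fun p hp => ?_⟩
  have hp0 : N0 ≤ p := le_trans (le_max_left _ _) hp
  have hp1 : N1 ≤ p := le_trans (le_trans (le_max_left _ _) (le_max_right _ _)) hp
  have hp2 : N2 ≤ p := le_trans (le_trans (le_max_right _ _) (le_max_right _ _)) hp
  have hG := (hN0 p hp0).1
  have hle := le_adj R v p
  have h1 := hN1 p hp1 hG (F2 ⧸ adj R v p) (qm hle) (nrm (adj R v p)) (qm_surj hle)
    (qm_ker_adj R v p) (qm_qnorm hle)
  have h2 := hN2 p hp2 hG (F2 ⧸ adj R v p) (qm hle) (nrm (adj R v p)) (qm_surj hle)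
    (qm_ker_adj R v p) (qm_qnorm hle)
  rw [img_map] at h1 h2
  exact ⟨⟨c, h1⟩, h2⟩

end L2B
end

section

namespace L2B

private theorem finset_thr {α : Type*} (s : Finset α) (P : α → ℕ → Prop)
    (h : ∀ a ∈ s, ∃ N : ℕ, ∀ p, N ≤ p → P a p) : ∃ N : ℕ, ∀ p, N ≤ p → ∀ a ∈ s, P a p := by
  have h1 : ∀ᶠ p in Filter.atTop, ∀ a ∈ s, P a p := by
    rw [Filter.eventually_all_finset]
    intro a ha
    exact Filter.eventually_atTop.mpr (h a ha)
  exact Filter.eventually_atTop.mp h1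

/-- the step of the construction, adding `v ^ p` for a large prime `p` -/
theorem step_all (k : ℕ) (R : Subgroup F2) [R.Normal] (Ψ : Finset (F2 →* F2)) (hi : Inv k R Ψ)
    (v : F2) (hv : IsRoot (v : F2 ⧸ R)) (N : ℕ) :
    ∃ p, N ≤ p ∧ p.Prime ∧ Inv (k+1) (adj R v p) Ψ ∧
      Nxt (1 / 4 * (1 / 2) ^ (k + 1)) R (adj R v p) Ψ Ψ := by
  have hη : (0 : ℝ) < 1 / 4 * (1 / 2) ^ (k + 1) := by positivity
  obtain ⟨N1, h1⟩ := step_stage R hi.stage v hv
  obtain ⟨N2, h2⟩ := finset_thr Ψ (fun ψ p => Cert ψ (adj R v p))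
    (fun ψ hψ => step_cert R hi.stage v hv ψ (hi.cert ψ hψ))
  obtain ⟨N3, h3⟩ := finset_thr Ψ
    (fun ψ p => ∀ S, Pres ψ R S →
      ∃ S', S ⊆ S' ∧ Pres ψ (adj R v p) S' ∧ wt S' ≤ wt S + 1 / 4 * (1 / 2) ^ (k + 1))
    (fun ψ hψ => step_pres R hi.stage v hv ψ (hi.cert ψ hψ) _ hη)
  obtain ⟨p, hp, hpp⟩ := Nat.exists_infinite_primes (max N (max N1 (max N2 N3)))
  have hpN : N ≤ p := le_trans (le_max_left _ _) hp
  have hp1 : N1 ≤ p := le_trans (le_trans (le_max_left _ _) (le_max_right _ _)) hp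
  have hp2 : N2 ≤ p := le_trans (le_trans (le_max_left _ _) (le_trans (le_max_right _ _)
    (le_max_right _ _))) hp
  have hp3 : N3 ≤ p := le_trans (le_trans (le_max_right _ _) (le_trans (le_max_right _ _)
    (le_max_right _ _))) hp
  refine ⟨p, hpN, hpp, ⟨h1 p hp1 hpp, h2 p hp2, hi.idm, ?_⟩, ⟨le_adj R v p, subset_rfl, h3 p hp3,
    fun ψ h h' => absurd h h'⟩⟩
  obtain ⟨S, hS, hw⟩ := hi.pres
  obtain ⟨S', -, hS', hw'⟩ := h3 p hp3 _ hi.idm S hS
  refine ⟨S', hS', hw'.trans ?_⟩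
  have h4 : (1 / 4 : ℝ) * (1 / 2) ^ k = 2 * (1 / 4 * (1 / 2) ^ (k + 1)) := by
    rw [pow_succ]; ring
  linarith

end L2B
end

section

namespace L2B

private theorem tk_wt {k : ℕ} {x : ℝ} (h : x ≤ 1 / 4 - 1 / 4 * (1 / 2) ^ k) :
    x ≤ 1 / 4 - 1 / 4 * (1 / 2) ^ (k + 1) := by
  have h1 : (0 : ℝ) < (1 / 2) ^ k := by positivity
  rw [pow_succ]
  linarith

/-- T0: do nothing -/
theorem task_skip (k : ℕ) (R : Subgroup F2) [R.Normal] (Ψ : Finset (F2 →* F2))
    (hi : Inv k R Ψ) : Inv (k+1) R Ψ ∧ Nxt (1 / 4 * (1 / 2) ^ (k + 1)) R R Ψ Ψ := by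
  refine ⟨⟨hi.stage, hi.cert, hi.idm, ?_⟩, ⟨le_rfl, subset_rfl, ?_, ?_⟩⟩
  · obtain ⟨S, h1, h2⟩ := hi.pres
    exact ⟨S, h1, tk_wt h2⟩
  · intro ψ _ S hS
    refine ⟨S, subset_rfl, hS, ?_⟩
    have : (0 : ℝ) ≤ 1 / 4 * (1 / 2) ^ (k + 1) := by positivity
    linarith
  · intro ψ h1 h2
    exact absurd h1 h2

/-- torsion in a stage is good -/
private theorem tk_good {R : Subgroup F2} [R.Normal] (st : Stage R) : TorsGood (F2 ⧸ R) := by
  obtain ⟨ι, w, n, td⟩ := st.td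
  exact td_good R td

/-- the `p`-th power of a power of the root is killed -/
private theorem tk_pow_mem {R : Subgroup F2} [R.Normal] {g v : F2} {p : ℕ} {i : ℤ}
    (h : (g : F2 ⧸ R) = (v : F2 ⧸ R) ^ i) : g ^ p ∈ adj R v p := by
  have h1 : (g : F2 ⧸ adj R v p) = (v : F2 ⧸ adj R v p) ^ i := by
    have h2 := congrArg (qm (le_adj R v p)) h
    rw [map_zpow, qm_mk, qm_mk] at h2
    exact h2
  have h3 : ((v ^ p : F2) : F2 ⧸ adj R v p) = 1 :=
    (QuotientGroup.eq_one_iff _).2 (pow_mem_adj R v p)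
  rw [← QuotientGroup.eq_one_iff]
  have h4 : ((g ^ p : F2) : F2 ⧸ adj R v p) = ((v ^ p : F2) : F2 ⧸ adj R v p) ^ i := by
    rw [QuotientGroup.mk_pow, QuotientGroup.mk_pow, h1, ← zpow_natCast, ← zpow_natCast,
      ← zpow_mul, ← zpow_mul, mul_comm]
  rw [h4, h3, one_zpow]

/-- T1: make `g` torsion -/
theorem task_tors (k : ℕ) (R : Subgroup F2) [R.Normal] (Ψ : Finset (F2 →* F2))
    (hi : Inv k R Ψ) (g : F2) : ∃ (R' : Subgroup F2) (_ : R'.Normal), Inv (k+1) R' Ψ ∧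
      Nxt (1 / 4 * (1 / 2) ^ (k + 1)) R R' Ψ Ψ ∧ ∃ m : ℕ, 0 < m ∧ g ^ m ∈ R' := by
  by_cases hg : ∃ m : ℕ, 0 < m ∧ g ^ m ∈ R
  · exact ⟨R, inferInstance, (task_skip k R Ψ hi).1, (task_skip k R Ψ hi).2, hg⟩
  · have hinf : InfOrd (g : F2 ⧸ R) := by
      intro m hm h1
      apply hg
      refine ⟨m, hm, ?_⟩
      rw [← QuotientGroup.eq_one_iff, QuotientGroup.mk_pow]
      exact h1
    obtain ⟨δ, hδ⟩ := hi.stage.hyp
    obtain ⟨w, hw, i, hgi⟩ := exists_root (nrm_gnorm R) hδ (tk_good hi.stage) hinf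
    obtain ⟨v, rfl⟩ := QuotientGroup.mk_surjective w
    obtain ⟨p, _, hp, h1, h2⟩ := step_all k R Ψ hi v hw 1
    exact ⟨adj R v p, inferInstance, h1, h2, p, hp.pos, tk_pow_mem hgi⟩

/-- a subgroup of finite index contained in all normal subgroups of index at most `s` -/
private theorem tk_char (s : ℕ) : ∃ M : Subgroup F2, M.Normal ∧ M.FiniteIndex ∧
    ∀ N : Subgroup F2, N.Normal → N.index ≠ 0 → N.index ≤ s → M ≤ N := by
  classical
  have hfin : Finite (F2 →* Equiv.Perm (Fin s)) :=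
    Finite.of_equiv (Fin 2 → Equiv.Perm (Fin s)) FreeGroup.lift
  refine ⟨⨅ θ : F2 →* Equiv.Perm (Fin s), θ.ker, ?_, ?_, ?_⟩
  · exact Subgroup.normal_iInf_normal fun θ => inferInstance
  · exact Subgroup.finiteIndex_iInf fun θ => Subgroup.finiteIndex_ker θ
  · intro N hN h0 hs
    have : N.FiniteIndex := ⟨h0⟩
    have hfq : Finite (F2 ⧸ N) := Subgroup.finite_quotient_of_finiteIndex
    have : Fintype (F2 ⧸ N) := Fintype.ofFinite _
    have hcard : Fintype.card (F2 ⧸ N) ≤ Fintype.card (Fin s) := by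
      rw [Fintype.card_fin, ← Nat.card_eq_fintype_card]
      exact hs
    obtain ⟨emb⟩ := Function.Embedding.nonempty_of_card_le hcard
    set θ : F2 →* Equiv.Perm (Fin s) :=
      (Equiv.Perm.viaEmbeddingHom emb).comp (MulAction.toPermHom F2 (F2 ⧸ N)) with hθ
    refine (iInf_le _ θ).trans ?_
    intro g hg
    rw [MonoidHom.mem_ker, hθ, MonoidHom.comp_apply] at hg
    have h1 : MulAction.toPermHom F2 (F2 ⧸ N) g = 1 := by
      apply Equiv.Perm.viaEmbeddingHom_injective emb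
      rw [hg, map_one]
    have h2 := congrArg (fun σ : Equiv.Perm (F2 ⧸ N) => σ ((1 : F2) : F2 ⧸ N)) h1
    simp only [MulAction.toPermHom_apply, MulAction.toPerm_apply, Equiv.Perm.coe_one, id_eq,
      MulAction.Quotient.smul_coe, smul_eq_mul, mul_one] at h2
    exact (QuotientGroup.eq_one_iff g).1 h2

/-- T2: put `x` into all normal subgroups of index at most `s` -/
theorem task_index (k : ℕ) (R : Subgroup F2) [R.Normal] (Ψ : Finset (F2 →* F2))
    (hi : Inv k R Ψ) (x : F2) (s : ℕ) : ∃ (R' : Subgroup F2) (_ : R'.Normal), Inv (k+1) R' Ψ ∧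
      Nxt (1 / 4 * (1 / 2) ^ (k + 1)) R R' Ψ Ψ ∧
      ∀ N : Subgroup F2, N.Normal → R' ≤ N → N.index ≠ 0 → N.index ≤ s → x ∈ N := by
  obtain ⟨M, hM, hMf, hMN⟩ := tk_char s
  obtain ⟨δ, hδ⟩ := hi.stage.hyp
  have hsurj : Function.Surjective (QuotientGroup.mk' R) := QuotientGroup.mk'_surjective R
  have hMn' : (M.map (QuotientGroup.mk' R)).Normal := hM.map _ hsurj
  have hMf' : (M.map (QuotientGroup.mk' R)).FiniteIndex := by
    refine ⟨fun h0 => ?_⟩
    have h1 := M.index_map_dvd hsurj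
    rw [h0, zero_dvd_iff] at h1
    exact hMf.index_ne_zero h1
  obtain ⟨a, ha, hinf⟩ := exists_inf_in_coset (nrm_gnorm R) hδ (tk_good hi.stage) hi.infinite
    (M.map (QuotientGroup.mk' R)) (x : F2 ⧸ R)
  obtain ⟨κ, hκ, rfl⟩ := Subgroup.mem_map.1 ha
  have hinf' : InfOrd ((x * κ : F2) : F2 ⧸ R) := hinf
  obtain ⟨w, hw, i, hgi⟩ := exists_root (nrm_gnorm R) hδ (tk_good hi.stage) hinf'
  obtain ⟨v, rfl⟩ := QuotientGroup.mk_surjective w
  obtain ⟨p, hsp, hp, h1, h2⟩ := step_all k R Ψ hi v hw (s + 1)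
  refine ⟨adj R v p, inferInstance, h1, h2, ?_⟩
  intro N hN hle h0 hs
  have h3 : (x * κ) ^ p ∈ N := hle (tk_pow_mem hgi)
  have h4 : (x * κ) ^ N.index ∈ N := by
    have := Subgroup.pow_index_mem N (x * κ)
    exact this
  have hcop : Nat.Coprime p N.index := by
    rw [Nat.Prime.coprime_iff_not_dvd hp]
    intro hd
    have := Nat.le_of_dvd (Nat.pos_of_ne_zero h0) hd
    omega
  have h5 : x * κ ∈ N := by
    rw [← QuotientGroup.eq_one_iff] at h3 h4 ⊢
    rw [QuotientGroup.mk_pow] at h3 h4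
    have h6 := orderOf_dvd_of_pow_eq_one h3
    have h7 := orderOf_dvd_of_pow_eq_one h4
    have h8 := Nat.dvd_gcd h6 h7
    rw [hcop, Nat.dvd_one, orderOf_eq_one_iff] at h8
    exact h8
  have h9 : κ ∈ N := hMN N hN h0 hs hκ
  have h10 := N.mul_mem h5 (N.inv_mem h9)
  rwa [mul_inv_cancel_right] at h10

/-- T3: register a certificate inside `⟨a, b⟩` -/
theorem task_cert (k : ℕ) (R : Subgroup F2) [R.Normal] (Ψ : Finset (F2 →* F2))
    (hi : Inv k R Ψ) (a b : F2)
    (h1 : ((Subgroup.closure {(a : F2 ⧸ R), (b : F2 ⧸ R)} : Subgroup (F2 ⧸ R)) :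
      Set (F2 ⧸ R)).Infinite)
    (h2 : ¬ ∃ c : F2 ⧸ R, Subgroup.closure {(a : F2 ⧸ R), (b : F2 ⧸ R)} ≤ Subgroup.zpowers c) :
    ∃ Ψ', Inv (k+1) R Ψ' ∧ Nxt (1 / 4 * (1 / 2) ^ (k + 1)) R R Ψ Ψ' ∧
      ∃ ψ ∈ Ψ', ∀ z, ψ z ∈ Subgroup.closure {a, b} := by
  classical
  obtain ⟨δ, hδ⟩ := hi.stage.hyp
  obtain ⟨x, hx, y, hy, hinj, hmn, c, hqc⟩ := base_case (nrm_gnorm R) hδ (tk_good hi.stage)
    (Subgroup.closure {(a : F2 ⧸ R), (b : F2 ⧸ R)}) h1 h2
  have hmap : Subgroup.closure {(a : F2 ⧸ R), (b : F2 ⧸ R)} =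
      (Subgroup.closure {a, b}).map (QuotientGroup.mk' R) := by
    rw [MonoidHom.map_closure, Set.image_pair]
    rfl
  rw [hmap] at hx hy
  obtain ⟨x', hx', rfl⟩ := Subgroup.mem_map.1 hx
  obtain ⟨y', hy', rfl⟩ := Subgroup.mem_map.1 hy
  set ψ : F2 →* F2 := FreeGroup.lift ![x', y'] with hψ
  have hcomp : (QuotientGroup.mk' R).comp ψ =
      FreeGroup.lift ![QuotientGroup.mk' R x', QuotientGroup.mk' R y'] := by
    apply FreeGroup.ext_hom
    intro j
    rw [MonoidHom.comp_apply, hψ, FreeGroup.lift_apply_of, FreeGroup.lift_apply_of]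
    fin_cases j <;> rfl
  have himg : img ψ R = Subgroup.closure {QuotientGroup.mk' R x', QuotientGroup.mk' R y'} := by
    unfold img
    rw [hcomp, FreeGroup.range_lift_eq_closure]
    congr 1
    rw [Matrix.range_cons, Matrix.range_cons, Matrix.range_empty, Set.union_empty]
    rfl
  have hψB : ∀ z, ψ z ∈ Subgroup.closure {a, b} := by
    intro z
    have h3 : ψ.range ≤ Subgroup.closure {a, b} := by
      rw [hψ]
      apply FreeGroup.range_lift_le
      rintro _ ⟨j, rfl⟩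
      fin_cases j
      · exact hx'
      · exact hy'
    exact h3 ⟨z, rfl⟩
  have hcert : Cert ψ R := by
    refine ⟨⟨c, ?_⟩, ?_⟩
    · rw [himg]
      exact hqc
    · rw [himg]
      exact hmn
  have hpres : Pres ψ R ∅ := by
    refine ⟨?_, ?_, ?_⟩
    · rw [Finset.coe_empty, Set.image_empty, Subgroup.normalClosure_empty]
      rw [eq_bot_iff]
      intro z hz
      rw [Subgroup.mem_comap, ← QuotientGroup.eq_one_iff] at hz
      have h4 : FreeGroup.lift ![QuotientGroup.mk' R x', QuotientGroup.mk' R y'] z = 1 := by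
        rw [← hcomp]
        exact hz
      rw [Subgroup.mem_bot]
      apply hinj
      rw [h4, map_one]
    · intro q hq
      simp at hq
    · intro q hq
      simp at hq
  refine ⟨insert ψ Ψ, ⟨hi.stage, ?_, Finset.mem_insert_of_mem hi.idm, ?_⟩, ⟨le_rfl,
    Finset.subset_insert _ _, ?_, ?_⟩, ψ, Finset.mem_insert_self _ _, hψB⟩
  · intro ψ' hψ'
    rcases Finset.mem_insert.1 hψ' with rfl | h
    · exact hcert
    · exact hi.cert ψ' h
  · exact (task_skip k R Ψ hi).1.pres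
  · exact (task_skip k R Ψ hi).2.pres
  · intro ψ' h3 h4
    rcases Finset.mem_insert.1 h3 with rfl | h
    · exact hpres
    · exact absurd h h4

end L2B
end

section

namespace L2B

/-- the sequence of stages -/
structure Tower (R : ℕ → Subgroup F2) (nor : ∀ k, (R k).Normal) (Ψ : ℕ → Finset (F2 →* F2)) :
    Prop where
  zero : Ψ 0 = {MonoidHom.id F2}
  inv : ∀ k, haveI := nor k; Inv k (R k) (Ψ k)
  nxt : ∀ k, Nxt (1 / 4 * (1 / 2) ^ (k + 1)) (R k) (R (k+1)) (Ψ k) (Ψ (k+1))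
  tors : ∀ g : F2, ∃ k, ∃ m : ℕ, 0 < m ∧ g ^ m ∈ R k
  index : ∀ (x : F2) (s : ℕ), ∃ k, ∀ N : Subgroup F2, N.Normal → R k ≤ N → N.index ≠ 0 →
    N.index ≤ s → x ∈ N
  certs : ∀ a b : F2, ∃ k, haveI := nor k;
    ((Subgroup.closure {(a : F2 ⧸ R k), (b : F2 ⧸ R k)} : Subgroup (F2 ⧸ R k)) :
      Set (F2 ⧸ R k)).Infinite →
    (¬ ∃ c : F2 ⧸ R k, Subgroup.closure {(a : F2 ⧸ R k), (b : F2 ⧸ R k)} ≤ Subgroup.zpowers c) →
    ∃ ψ ∈ Ψ (k+1), ∀ z, ψ z ∈ Subgroup.closure {a, b}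

/-- the state of the construction at time `k` -/
structure TwSt (k : ℕ) where
  R : Subgroup F2
  nor : R.Normal
  Ψ : Finset (F2 →* F2)
  inv : haveI := nor; Inv k R Ψ

/-- the tasks -/
abbrev TwTask : Type := F2 ⊕ ((F2 × ℕ) ⊕ (F2 × F2))

/-- the step from `s` to `s'` deals with the torsion tasks -/
def TwTors (t : TwTask) {k : ℕ} (s' : TwSt (k+1)) : Prop :=
  ∀ g : F2, t = Sum.inl g → ∃ m : ℕ, 0 < m ∧ g ^ m ∈ s'.R

/-- the step from `s` to `s'` deals with the index tasks -/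
def TwIdx (t : TwTask) {k : ℕ} (s' : TwSt (k+1)) : Prop :=
  ∀ (x : F2) (n : ℕ), t = Sum.inr (Sum.inl (x, n)) → ∀ N : Subgroup F2, N.Normal → s'.R ≤ N →
    N.index ≠ 0 → N.index ≤ n → x ∈ N

/-- the step from `s` to `s'` deals with the certificate tasks -/
def TwCrt (t : TwTask) {k : ℕ} (s : TwSt k) (s' : TwSt (k+1)) : Prop :=
  ∀ (a b : F2), t = Sum.inr (Sum.inr (a, b)) → haveI := s.nor;
    ((Subgroup.closure {(a : F2 ⧸ s.R), (b : F2 ⧸ s.R)} : Subgroup (F2 ⧸ s.R)) :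
      Set (F2 ⧸ s.R)).Infinite →
    (¬ ∃ c : F2 ⧸ s.R, Subgroup.closure {(a : F2 ⧸ s.R), (b : F2 ⧸ s.R)} ≤
      Subgroup.zpowers c) →
    ∃ ψ ∈ s'.Ψ, ∀ z, ψ z ∈ Subgroup.closure {a, b}

/-- one step -/
theorem tw_step (k : ℕ) (s : TwSt k) (t : TwTask) : ∃ s' : TwSt (k+1),
    Nxt (1 / 4 * (1 / 2) ^ (k + 1)) s.R s'.R s.Ψ s'.Ψ ∧ TwTors t s' ∧ TwIdx t s' ∧
      TwCrt t s s' := by
  obtain ⟨R, nor, Ψ, hi⟩ := s
  haveI := nor
  rcases t with g | ⟨x, n⟩ | ⟨a, b⟩
  · obtain ⟨R', nor', h1, h2, h3⟩ := task_tors k R Ψ hi g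
    refine ⟨⟨R', nor', Ψ, h1⟩, h2, ?_, ?_, ?_⟩
    · intro g' hg'
      cases hg'
      exact h3
    · intro x n h
      cases h
    · intro a b h
      cases h
  · obtain ⟨R', nor', h1, h2, h3⟩ := task_index k R Ψ hi x n
    refine ⟨⟨R', nor', Ψ, h1⟩, h2, ?_, ?_, ?_⟩
    · intro g' hg'
      cases hg'
    · intro x' n' h
      cases h
      exact h3
    · intro a b h
      cases h
  · by_cases hc : ((Subgroup.closure {(a : F2 ⧸ R), (b : F2 ⧸ R)} : Subgroup (F2 ⧸ R)) :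
        Set (F2 ⧸ R)).Infinite ∧
        (¬ ∃ c : F2 ⧸ R, Subgroup.closure {(a : F2 ⧸ R), (b : F2 ⧸ R)} ≤ Subgroup.zpowers c)
    · obtain ⟨Ψ', h1, h2, h3⟩ := task_cert k R Ψ hi a b hc.1 hc.2
      refine ⟨⟨R, nor, Ψ', h1⟩, h2, ?_, ?_, ?_⟩
      · intro g' hg'
        cases hg'
      · intro x' n' h
        cases h
      · intro a' b' h
        cases h
        intro _ _
        exact h3
    · obtain ⟨h1, h2⟩ := task_skip k R Ψ hi
      refine ⟨⟨R, nor, Ψ, h1⟩, h2, ?_, ?_, ?_⟩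
      · intro g' hg'
        cases hg'
      · intro x' n' h
        cases h
      · intro a' b' h
        cases h
        intro g1 g2
        exact absurd ⟨g1, g2⟩ hc

/-- the sequence of states -/
noncomputable def twSeq (t : ℕ → TwTask) : (k : ℕ) → TwSt k
  | 0 => ⟨⊥, inferInstance, {MonoidHom.id F2}, inv_start⟩
  | k + 1 => Classical.choose (tw_step k (twSeq t k) (t k))

theorem twSeq_spec (t : ℕ → TwTask) (k : ℕ) :
    Nxt (1 / 4 * (1 / 2) ^ (k + 1)) (twSeq t k).R (twSeq t (k+1)).R (twSeq t k).Ψ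
      (twSeq t (k+1)).Ψ ∧ TwTors (t k) (twSeq t (k+1)) ∧ TwIdx (t k) (twSeq t (k+1)) ∧
      TwCrt (t k) (twSeq t k) (twSeq t (k+1)) :=
  Classical.choose_spec (tw_step k (twSeq t k) (t k))

theorem exists_tower : ∃ (R : ℕ → Subgroup F2) (nor : ∀ k, (R k).Normal)
    (Ψ : ℕ → Finset (F2 →* F2)), Tower R nor Ψ := by
  haveI : Countable F2 := inferInstance
  haveI : Nonempty TwTask := ⟨Sum.inl 1⟩
  obtain ⟨t, ht⟩ := exists_surjective_nat TwTask
  refine ⟨fun k => (twSeq t k).R, fun k => (twSeq t k).nor, fun k => (twSeq t k).Ψ, ?_⟩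
  refine ⟨rfl, fun k => (twSeq t k).inv, fun k => (twSeq_spec t k).1, ?_, ?_, ?_⟩
  · intro g
    obtain ⟨k, hk⟩ := ht (Sum.inl g)
    exact ⟨k + 1, (twSeq_spec t k).2.1 g hk⟩
  · intro x s
    obtain ⟨k, hk⟩ := ht (Sum.inr (Sum.inl (x, s)))
    exact ⟨k + 1, (twSeq_spec t k).2.2.1 x s hk⟩
  · intro a b
    obtain ⟨k, hk⟩ := ht (Sum.inr (Sum.inr (a, b)))
    exact ⟨k, (twSeq_spec t k).2.2.2 a b hk⟩

end L2B
end

section

namespace L2B

theorem Tower.mono {R : ℕ → Subgroup F2} {nor : ∀ k, (R k).Normal} {Ψ : ℕ → Finset (F2 →* F2)}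
    (T : Tower R nor Ψ) : Monotone R := monotone_nat_of_le_succ fun k => (T.nxt k).le

/-- the kernel of the limit group -/
def lim (R : ℕ → Subgroup F2) : Subgroup F2 := ⨆ k, R k

theorem Tower.mem_lim {R : ℕ → Subgroup F2} {nor : ∀ k, (R k).Normal}
    {Ψ : ℕ → Finset (F2 →* F2)} (T : Tower R nor Ψ) (x : F2) : x ∈ lim R ↔ ∃ k, x ∈ R k :=
  Subgroup.mem_iSup_of_directed T.mono.directed_le

theorem Tower.normal {R : ℕ → Subgroup F2} {nor : ∀ k, (R k).Normal}
    {Ψ : ℕ → Finset (F2 →* F2)} (T : Tower R nor Ψ) : (lim R).Normal := by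
  refine ⟨fun x hx g => ?_⟩
  obtain ⟨k, hk⟩ := (T.mem_lim x).1 hx
  exact (T.mem_lim _).2 ⟨k, (nor k).conj_mem x hk g⟩

private theorem psi_mono {R : ℕ → Subgroup F2} {nor : ∀ k, (R k).Normal}
    {Ψ : ℕ → Finset (F2 →* F2)} (T : Tower R nor Ψ) : Monotone Ψ :=
  monotone_nat_of_le_succ fun k => (T.nxt k).sub

private theorem limpres_base {R : ℕ → Subgroup F2} {nor : ∀ k, (R k).Normal}
    {Ψ : ℕ → Finset (F2 →* F2)} (T : Tower R nor Ψ) (ψ : F2 →* F2) (k : ℕ) (hψ : ψ ∈ Ψ k) :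
    ∃ k0, ψ ∈ Ψ k0 ∧ ∃ S0, Pres ψ (R k0) S0 ∧ wt S0 ≤ 0 := by
  classical
  have hex : ∃ m, ψ ∈ Ψ m := ⟨k, hψ⟩
  have h1 : ψ ∈ Ψ (Nat.find hex) := Nat.find_spec hex
  refine ⟨Nat.find hex, h1, ?_⟩
  rcases hj : Nat.find hex with _ | j
  · rw [hj, T.zero, Finset.mem_singleton] at h1
    subst h1
    haveI := nor 0
    obtain ⟨S, hS, hw⟩ := (T.inv 0).pres
    refine ⟨S, hS, ?_⟩
    norm_num at hw
    exact hw
  · have h2 : ψ ∉ Ψ j := Nat.find_min hex (by omega)
    rw [hj] at h1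
    exact ⟨∅, (T.nxt j).new ψ h1 h2, by simp [wt]⟩

/-- presentation of the image of a certificate in the limit group -/
theorem Tower.lim_pres {R : ℕ → Subgroup F2} {nor : ∀ k, (R k).Normal}
    {Ψ : ℕ → Finset (F2 →* F2)} (T : Tower R nor Ψ) (ψ : F2 →* F2) (k : ℕ) (hψ : ψ ∈ Ψ k) :
    ∃ J : Set (F2 × ℕ),
      (lim R).comap ψ = Subgroup.normalClosure ((fun q : F2 × ℕ => q.1 ^ q.2) '' J) ∧
      (∀ q ∈ J, 0 < q.2 ∧ ∀ j : ℤ, ψ q.1 ^ j ∈ lim R ↔ (q.2 : ℤ) ∣ j) ∧
      ∀ S : Finset (F2 × ℕ), (S : Set (F2 × ℕ)) ⊆ J → wt S ≤ 1 / 4 := by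
  classical
  obtain ⟨k0, hk0, S0, hS0, hw0⟩ := limpres_base T ψ k hψ
  let P : ℕ → Finset (F2 × ℕ) → Prop := fun i S =>
    Pres ψ (R (k0 + i)) S ∧ wt S ≤ 1 / 4 * (1 / 2) ^ k0 - 1 / 4 * (1 / 2) ^ (k0 + i)
  have hstep : ∀ i (S : {S // P i S}), ∃ S' : {S // P (i + 1) S}, S.1 ⊆ S'.1 := by
    intro i S
    obtain ⟨S', h1, h2, h3⟩ := (T.nxt (k0 + i)).pres ψ
      (psi_mono T (Nat.le_add_right k0 i) hk0) S.1 S.2.1
    refine ⟨⟨S', h2, ?_⟩, h1⟩
    have h4 := S.2.2
    have h5 : (1 / 4 : ℝ) * (1 / 2) ^ (k0 + i + 1) = 1 / 4 * (1 / 2) ^ (k0 + i) / 2 := by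
      rw [pow_succ]; ring
    have h6 : k0 + (i + 1) = k0 + i + 1 := rfl
    rw [h6, h5]
    rw [h5] at h3
    linarith
  choose stp hstp using hstep
  let s : ∀ i, {S // P i S} := fun i => Nat.rec (motive := fun i => {S // P i S})
    ⟨S0, hS0, by simpa using hw0⟩ (fun i S => stp i S) i
  have hs : Monotone (fun i => (s i).1) := monotone_nat_of_le_succ fun i => hstp i (s i)
  have hpres : ∀ i, Pres ψ (R (k0 + i)) (s i).1 := fun i => (s i).2.1
  haveI := T.normal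
  refine ⟨⋃ i, ((s i).1 : Set (F2 × ℕ)), ?_, ?_, ?_⟩
  · apply le_antisymm
    · intro x hx
      rw [Subgroup.mem_comap, T.mem_lim] at hx
      obtain ⟨m, hm⟩ := hx
      have h1 : x ∈ (R (k0 + m)).comap ψ := by
        rw [Subgroup.mem_comap]
        exact T.mono (Nat.le_add_left m k0) hm
      rw [(hpres m).ker] at h1
      refine Subgroup.normalClosure_mono ?_ h1
      exact Set.image_mono (Set.subset_iUnion (fun i => ((s i).1 : Set (F2 × ℕ))) m)
    · haveI : ((lim R).comap ψ).Normal := Subgroup.Normal.comap T.normal ψ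
      apply Subgroup.normalClosure_le_normal
      rintro _ ⟨q, hq, rfl⟩
      obtain ⟨i, hi⟩ := Set.mem_iUnion.1 hq
      have h1 : q.1 ^ q.2 ∈ (R (k0 + i)).comap ψ := by
        rw [(hpres i).ker]
        exact Subgroup.subset_normalClosure ⟨q, hi, rfl⟩
      rw [SetLike.mem_coe, Subgroup.mem_comap, T.mem_lim]
      exact ⟨k0 + i, h1⟩
  · intro q hq
    obtain ⟨i, hi⟩ := Set.mem_iUnion.1 hq
    refine ⟨(hpres i).pos q hi, fun j => ?_⟩
    rw [T.mem_lim]
    constructor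
    · rintro ⟨m, hm⟩
      have h1 : q ∈ (s (max i m)).1 := hs (le_max_left i m) hi
      refine ((hpres (max i m)).ord q h1 j).1 (T.mono ?_ hm)
      exact le_trans (le_max_right i m) (Nat.le_add_left _ _)
    · intro h
      exact ⟨k0 + i, ((hpres i).ord q hi j).2 h⟩
  · intro S hS
    have h1 : ∀ q ∈ S, ∃ i, q ∈ (s i).1 := fun q hq => Set.mem_iUnion.1 (hS hq)
    choose! f hf using h1
    have h2 : S ⊆ (s (S.sup f)).1 := fun q hq => hs (Finset.le_sup hq) (hf q hq)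
    have h3 : wt S ≤ wt (s (S.sup f)).1 :=
      Finset.sum_le_sum_of_subset_of_nonneg h2 (fun _ _ _ => by positivity)
    refine h3.trans ((s (S.sup f)).2.2.trans ?_)
    have h4 : (1 / 2 : ℝ) ^ k0 ≤ 1 := pow_le_one₀ (by norm_num) (by norm_num)
    have h5 : (0 : ℝ) ≤ (1 / 2) ^ (k0 + S.sup f) := by positivity
    linarith

end L2B
end

section

namespace L2B

private theorem lg_le {R : ℕ → Subgroup F2} {nor : ∀ k, (R k).Normal}
    {Ψ : ℕ → Finset (F2 →* F2)} (T : Tower R nor Ψ) (k : ℕ) : R k ≤ lim R :=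
  fun x hx => (T.mem_lim x).2 ⟨k, hx⟩

/-- the limit group is a torsion group -/
theorem lim_torsion {R : ℕ → Subgroup F2} {nor : ∀ k, (R k).Normal}
    {Ψ : ℕ → Finset (F2 →* F2)} (T : Tower R nor Ψ) [(lim R).Normal] (g : F2 ⧸ lim R) :
    ∃ m : ℕ, 0 < m ∧ g ^ m = 1 := by
  induction g using QuotientGroup.induction_on with
  | H x =>
    obtain ⟨k, m, hm, hx⟩ := T.tors x
    refine ⟨m, hm, ?_⟩
    rw [← QuotientGroup.mk_pow, QuotientGroup.eq_one_iff]
    exact lg_le T k hx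

/-- the limit group has no proper subgroup of finite index -/
theorem lim_index {R : ℕ → Subgroup F2} {nor : ∀ k, (R k).Normal}
    {Ψ : ℕ → Finset (F2 →* F2)} (T : Tower R nor Ψ) [(lim R).Normal]
    (M : Subgroup (F2 ⧸ lim R)) (hM : M.index ≠ 0) : M = ⊤ := by
  have hMf : M.FiniteIndex := ⟨hM⟩
  have hcore : M.normalCore.FiniteIndex := inferInstance
  set N : Subgroup F2 := M.normalCore.comap (QuotientGroup.mk' (lim R)) with hN
  have hNi : N.index = M.normalCore.index :=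
    Subgroup.index_comap_of_surjective _ (QuotientGroup.mk'_surjective (lim R))
  have hN0 : N.index ≠ 0 := by
    rw [hNi]
    exact hcore.index_ne_zero
  have hNn : N.Normal := by
    rw [hN]
    infer_instance
  have hall : ∀ x : F2, x ∈ N := by
    intro x
    obtain ⟨k, hk⟩ := T.index x N.index
    refine hk N hNn ?_ hN0 le_rfl
    intro y hy
    have h1 : (QuotientGroup.mk' (lim R)) y = 1 := by
      rw [QuotientGroup.mk'_apply, QuotientGroup.eq_one_iff]
      exact lg_le T k hy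
    rw [hN, Subgroup.mem_comap, h1]
    exact Subgroup.one_mem _
  rw [eq_top_iff]
  intro g _
  induction g using QuotientGroup.induction_on with
  | H x =>
    have h1 := hall x
    rw [hN, Subgroup.mem_comap] at h1
    exact Subgroup.normalCore_le M h1

private theorem lg_range (R : Subgroup F2) [R.Normal] (a b : F2) :
    ((QuotientGroup.mk' R).comp (FreeGroup.lift ![a, b])).range =
      Subgroup.closure {(a : F2 ⧸ R), (b : F2 ⧸ R)} := by
  rw [MonoidHom.range_comp, FreeGroup.range_lift_eq_closure, MonoidHom.map_closure]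
  congr 1
  ext z
  simp only [Matrix.range_cons, Matrix.range_empty, Set.union_empty, Set.singleton_union,
    Set.mem_image, Set.mem_insert_iff, Set.mem_singleton_iff]
  constructor
  · rintro ⟨y, rfl | rfl, rfl⟩
    · exact Or.inl rfl
    · exact Or.inr rfl
  · rintro (rfl | rfl)
    · exact ⟨a, Or.inl rfl, rfl⟩
    · exact ⟨b, Or.inr rfl, rfl⟩

/-- finite two generator subgroups of the limit group are cyclic of prime order -/
theorem lim_finite {R : ℕ → Subgroup F2} {nor : ∀ k, (R k).Normal}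
    {Ψ : ℕ → Finset (F2 →* F2)} (T : Tower R nor Ψ) [(lim R).Normal] (a b : F2)
    (ha : (a : F2 ⧸ lim R) ≠ 1)
    (hfin : ((Subgroup.closure {(a : F2 ⧸ lim R), (b : F2 ⧸ lim R)} :
      Subgroup (F2 ⧸ lim R)) : Set (F2 ⧸ lim R)).Finite) :
    (b : F2 ⧸ lim R) ∈ Subgroup.zpowers (a : F2 ⧸ lim R) := by
  classical
  set φ : F2 →* F2 := FreeGroup.lift ![a, b] with hφ
  set θ : F2 →* F2 ⧸ lim R := (QuotientGroup.mk' (lim R)).comp φ with hθ
  have hθr : Finite θ.range := by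
    have h1 := lg_range (lim R) a b
    rw [hθ, hφ, h1]
    exact hfin
  have hker : θ.ker.FiniteIndex := inferInstance
  have hfg : Group.FG θ.ker := inferInstance
  obtain ⟨S, hS⟩ := (Group.fg_iff_subgroup_fg _).1 hfg
  have hSk : ∀ s ∈ S, ∃ k, φ s ∈ R k := by
    intro s hs
    have h1 : s ∈ θ.ker := by
      rw [← hS]
      exact Subgroup.subset_closure hs
    rw [MonoidHom.mem_ker, hθ, MonoidHom.comp_apply, QuotientGroup.mk'_apply,
      QuotientGroup.eq_one_iff] at h1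
    exact (T.mem_lim _).1 h1
  choose! kk hkk using hSk
  set k := S.sup kk with hk
  have hle : ∀ s ∈ S, φ s ∈ R k := fun s hs => T.mono (Finset.le_sup hs) (hkk s hs)
  have hnor := nor k
  have hsub : θ.ker ≤ ((QuotientGroup.mk' (R k)).comp φ).ker := by
    rw [← hS, Subgroup.closure_le]
    intro s hs
    rw [SetLike.mem_coe, MonoidHom.mem_ker, MonoidHom.comp_apply, QuotientGroup.mk'_apply,
      QuotientGroup.eq_one_iff]
    exact hle s hs
  set P : Subgroup (F2 ⧸ R k) := ((QuotientGroup.mk' (R k)).comp φ).range with hP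
  have hPfin : Finite P := by
    apply Nat.finite_of_card_ne_zero
    have h1 : ((QuotientGroup.mk' (R k)).comp φ).ker.index = Nat.card P :=
      Subgroup.index_ker _
    rw [← h1]
    have h2 : ((QuotientGroup.mk' (R k)).comp φ).ker.FiniteIndex :=
      Subgroup.finiteIndex_of_le hsub
    exact h2.index_ne_zero
  have hφa : φ (FreeGroup.of 0) = a := by
    rw [hφ, FreeGroup.lift_apply_of]
    rfl
  have hφb : φ (FreeGroup.of 1) = b := by
    rw [hφ, FreeGroup.lift_apply_of]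
    rfl
  have haP : (a : F2 ⧸ R k) ∈ P := ⟨FreeGroup.of 0, by
    rw [MonoidHom.comp_apply, hφa]
    rfl⟩
  have hbP : (b : F2 ⧸ R k) ∈ P := ⟨FreeGroup.of 1, by
    rw [MonoidHom.comp_apply, hφb]
    rfl⟩
  have ha1 : (a : F2 ⧸ R k) ≠ 1 := by
    intro h
    apply ha
    rw [QuotientGroup.eq_one_iff] at h ⊢
    exact lg_le T k h
  have hPne : P ≠ ⊥ := by
    intro h
    rw [h, Subgroup.mem_bot] at haP
    exact ha1 haP
  obtain ⟨ι, w, n, td⟩ := (T.inv k).stage.td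
  have hprime : (Nat.card P).Prime := td_finite (R k) td P hPfin hPne
  have hfact : Fact (Nat.card P).Prime := ⟨hprime⟩
  have hgen : Subgroup.zpowers (⟨(a : F2 ⧸ R k), haP⟩ : P) = ⊤ := by
    apply zpowers_eq_top_of_prime_card (p := Nat.card P) rfl
    intro h
    exact ha1 (congrArg Subtype.val h)
  have hbz : (⟨(b : F2 ⧸ R k), hbP⟩ : P) ∈ Subgroup.zpowers (⟨(a : F2 ⧸ R k), haP⟩ : P) := by
    rw [hgen]
    exact Subgroup.mem_top _
  obtain ⟨i, hi⟩ := Subgroup.mem_zpowers_iff.1 hbz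
  refine Subgroup.mem_zpowers_iff.2 ⟨i, ?_⟩
  have hi2 : (a : F2 ⧸ R k) ^ i = (b : F2 ⧸ R k) := by
    have := congrArg Subtype.val hi
    simpa using this
  rw [← QuotientGroup.mk_zpow, QuotientGroup.eq] at hi2 ⊢
  exact lg_le T k hi2

/-- infinite two generator subgroups of the limit group contain the image of a certificate -/
theorem lim_cert {R : ℕ → Subgroup F2} {nor : ∀ k, (R k).Normal}
    {Ψ : ℕ → Finset (F2 →* F2)} (T : Tower R nor Ψ) [(lim R).Normal] (a b : F2)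
    (hinf : ((Subgroup.closure {(a : F2 ⧸ lim R), (b : F2 ⧸ lim R)} :
      Subgroup (F2 ⧸ lim R)) : Set (F2 ⧸ lim R)).Infinite) :
    ∃ k, ∃ ψ ∈ Ψ k, ∀ z, ψ z ∈ Subgroup.closure {a, b} := by
  obtain ⟨k, hk⟩ := T.certs a b
  have hnor := nor k
  set π : F2 ⧸ R k →* F2 ⧸ lim R := QuotientGroup.map (R k) (lim R) (MonoidHom.id F2)
    (lg_le T k) with hπ
  have hmap : (Subgroup.closure {(a : F2 ⧸ R k), (b : F2 ⧸ R k)}).map π =
      Subgroup.closure {(a : F2 ⧸ lim R), (b : F2 ⧸ lim R)} := by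
    rw [MonoidHom.map_closure, Set.image_insert_eq, Set.image_singleton]
    rfl
  have h1 : ((Subgroup.closure {(a : F2 ⧸ R k), (b : F2 ⧸ R k)} : Subgroup (F2 ⧸ R k)) :
      Set (F2 ⧸ R k)).Infinite := by
    intro hf
    apply hinf
    rw [← hmap, Subgroup.coe_map]
    exact hf.image _
  have h2 : ¬ ∃ c : F2 ⧸ R k,
      Subgroup.closure {(a : F2 ⧸ R k), (b : F2 ⧸ R k)} ≤ Subgroup.zpowers c := by
    rintro ⟨c, hc⟩
    apply hinf
    have h3 : Subgroup.closure {(a : F2 ⧸ lim R), (b : F2 ⧸ lim R)} ≤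
        Subgroup.zpowers (π c) := by
      rw [← hmap, ← MonoidHom.map_zpowers]
      exact Subgroup.map_mono hc
    refine Set.Finite.subset ?_ h3
    obtain ⟨m, hm, hmc⟩ := lim_torsion T (π c)
    have h4 : IsOfFinOrder (π c) := isOfFinOrder_iff_pow_eq_one.2 ⟨m, hm, hmc⟩
    exact h4.finite_zpowers
  obtain ⟨ψ, hψ, hz⟩ := hk h1 h2
  exact ⟨k + 1, ψ, hψ, hz⟩

end L2B
end

section

namespace L2B

open MP42532b.L2

/-- the canonical map is the quotient map -/
private theorem lift_of_eq_mk (N : Subgroup F2) [N.Normal] :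
    FreeGroup.lift (fun i : Fin 2 => ((FreeGroup.of i : F2) : F2 ⧸ N)) = QuotientGroup.mk' N := by
  refine FreeGroup.ext_hom _ _ fun i => ?_
  rw [FreeGroup.lift_apply_of]
  rfl

/-- lower bound from a presentation, for a subgroup `N` -/
private theorem beta_of_pres_aux (N : Subgroup F2) [N.Normal] (J : Set (F2 × ℕ))
    (h1 : N = Subgroup.normalClosure ((fun q : F2 × ℕ => q.1 ^ q.2) '' J))
    (h2 : ∀ q ∈ J, 0 < q.2 ∧ ∀ j : ℤ, q.1 ^ j ∈ N ↔ (q.2 : ℤ) ∣ j)
    (h3 : ∀ S : Finset (F2 × ℕ), (S : Set (F2 × ℕ)) ⊆ J → wt S ≤ 1 / 4) :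
    3 / 4 ≤ beta (fun i : Fin 2 => ((FreeGroup.of i : F2) : F2 ⧸ N)) := by
  have hl := lift_of_eq_mk N
  have hs : Function.Surjective
      (FreeGroup.lift (fun i : Fin 2 => ((FreeGroup.of i : F2) : F2 ⧸ N))) := by
    rw [hl]
    exact QuotientGroup.mk'_surjective N
  have h := beta_ge (fun i : Fin 2 => ((FreeGroup.of i : F2) : F2 ⧸ N)) hs
    (fun j : J => j.1.1) (fun j : J => j.1.2) (fun j => (h2 j.1 j.2).1) (fun j => ?_) ?_ (1 / 4)
    (fun F => ?_)
  · norm_num at h ⊢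
    linarith
  · rw [hl]
    have hpos := (h2 j.1 j.2).1
    refine Nat.dvd_antisymm ?_ ?_
    · rw [orderOf_dvd_iff_pow_eq_one, ← map_pow]
      have := ((h2 j.1 j.2).2 (j.1.2 : ℤ)).2 (dvd_refl _)
      rw [zpow_natCast] at this
      exact (QuotientGroup.eq_one_iff _).2 this
    · have h4 : QuotientGroup.mk' N (j.1.1 ^ (orderOf (QuotientGroup.mk' N j.1.1))) = 1 := by
        rw [map_pow]
        exact pow_orderOf_eq_one _
      have h5 : j.1.1 ^ (orderOf (QuotientGroup.mk' N j.1.1)) ∈ N :=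
        (QuotientGroup.eq_one_iff _).1 h4
      have h6 := ((h2 j.1 j.2).2 ((orderOf (QuotientGroup.mk' N j.1.1) : ℕ) : ℤ)).1 (by
        rw [zpow_natCast]
        exact h5)
      exact Int.natCast_dvd_natCast.1 h6
  · rw [hl, QuotientGroup.ker_mk']
    conv_lhs => rw [h1]
    congr 1
    ext x
    constructor
    · rintro ⟨q, hq, rfl⟩
      exact ⟨⟨q, hq⟩, rfl⟩
    · rintro ⟨q, rfl⟩
      exact ⟨q.1, q.2, rfl⟩
  · have h7 := h3 (F.map (Function.Embedding.subtype _)) (by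
      intro x hx
      rw [Finset.mem_coe, Finset.mem_map] at hx
      obtain ⟨y, -, rfl⟩ := hx
      exact y.2)
    unfold wt at h7
    rw [Finset.sum_map] at h7
    exact h7

/-- lower bound from a presentation -/
theorem beta_of_pres (R : Subgroup F2) [R.Normal] (ψ : F2 →* F2) (J : Set (F2 × ℕ))
    (h1 : R.comap ψ = Subgroup.normalClosure ((fun q : F2 × ℕ => q.1 ^ q.2) '' J))
    (h2 : ∀ q ∈ J, 0 < q.2 ∧ ∀ j : ℤ, ψ q.1 ^ j ∈ R ↔ (q.2 : ℤ) ∣ j)
    (h3 : ∀ S : Finset (F2 × ℕ), (S : Set (F2 × ℕ)) ⊆ J → wt S ≤ 1 / 4) :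
    3 / 4 ≤ beta (fun i : Fin 2 => ((FreeGroup.of i : F2) : F2 ⧸ R.comap ψ)) := by
  refine beta_of_pres_aux (R.comap ψ) J h1 (fun q hq => ⟨(h2 q hq).1, fun j => ?_⟩) h3
  rw [Subgroup.mem_comap, map_zpow]
  exact (h2 q hq).2 j

/-- the image of a certificate is not amenable -/
theorem not_amen_of_cert {R : ℕ → Subgroup F2} {nor : ∀ k, (R k).Normal}
    {Ψ : ℕ → Finset (F2 →* F2)} (T : Tower R nor Ψ) (ψ : F2 →* F2) (k : ℕ) (hψ : ψ ∈ Ψ k)
    [(lim R).Normal] (L : Subgroup (F2 ⧸ lim R))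
    (hL : ∀ z, ((ψ z : F2) : F2 ⧸ lim R) ∈ L) : ¬ Amen L := by
  intro hA
  obtain ⟨J, h1, h2, h3⟩ := T.lim_pres ψ k hψ
  have hb := beta_of_pres (lim R) ψ J h1 h2 h3
  let f : F2 →* L := ((QuotientGroup.mk' (lim R)).comp ψ).codRestrict L hL
  have hf : (lim R).comap ψ = f.ker := by
    ext z
    rw [Subgroup.mem_comap, MonoidHom.mem_ker]
    constructor
    · intro hz
      exact Subtype.ext ((QuotientGroup.eq_one_iff _).2 hz)
    · intro hz
      exact (QuotientGroup.eq_one_iff _).1 (congrArg Subtype.val hz)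
  let g : F2 ⧸ (lim R).comap ψ →* L := QuotientGroup.lift ((lim R).comap ψ) f (le_of_eq hf)
  have hg : Function.Injective g := by
    rw [injective_iff_map_eq_one]
    intro x
    obtain ⟨z, rfl⟩ := QuotientGroup.mk'_surjective _ x
    intro hz
    have h4 : f z = 1 := hz
    have h5 : z ∈ (lim R).comap ψ := by
      rw [hf]
      exact h4
    exact (QuotientGroup.eq_one_iff _).2 h5
  have hs : Function.Surjective (FreeGroup.lift
      (fun i : Fin 2 => ((FreeGroup.of i : F2) : F2 ⧸ (lim R).comap ψ))) := by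
    rw [lift_of_eq_mk]
    exact QuotientGroup.mk'_surjective _
  have h0 := beta_eq_zero_of_amen' _ hs (hA.of_injective g hg)
  rw [h0] at hb
  norm_num at hb

theorem beta_lim {R : ℕ → Subgroup F2} {nor : ∀ k, (R k).Normal}
    {Ψ : ℕ → Finset (F2 →* F2)} (T : Tower R nor Ψ) [(lim R).Normal] :
    3 / 4 ≤ beta (fun i : Fin 2 => ((FreeGroup.of i : F2) : F2 ⧸ lim R)) := by
  obtain ⟨J, h1, h2, h3⟩ := T.lim_pres (MonoidHom.id F2) 0 (by
    rw [T.zero]
    exact Finset.mem_singleton_self _)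
  rw [Subgroup.comap_id] at h1
  exact beta_of_pres_aux (lim R) J h1 h2 h3

end L2B
end

section

namespace L2B

open MP42532b.L2

/-- the group -/
theorem main_group : ∃ (G : Type) (_ : Group G) (s : Fin 2 → G),
    Function.Surjective (FreeGroup.lift s) ∧ (∀ g : G, ∃ m : ℕ, 0 < m ∧ g ^ m = 1) ∧
    (∀ M : Subgroup G, M.index ≠ 0 → M = ⊤) ∧ (∀ L : Subgroup G, Amen L → Finite L) ∧
    0 < beta s ∧ beta s < 1 := by
  obtain ⟨R, nor, Ψ, T⟩ := exists_tower
  haveI : (lim R).Normal := T.normal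
  have htor : ∀ g : F2 ⧸ lim R, ∃ m : ℕ, 0 < m ∧ g ^ m = 1 := fun g => lim_torsion T g
  have hfo : ∀ g : F2 ⧸ lim R, IsOfFinOrder g := fun g => by
    obtain ⟨m, hm, hg⟩ := htor g
    exact isOfFinOrder_iff_pow_eq_one.2 ⟨m, hm, hg⟩
  have hlift : FreeGroup.lift (fun i : Fin 2 => ((FreeGroup.of i : F2) : F2 ⧸ lim R)) =
      QuotientGroup.mk' (lim R) := by
    ext i
    simp
  have hsurj : Function.Surjective
      (FreeGroup.lift (fun i : Fin 2 => ((FreeGroup.of i : F2) : F2 ⧸ lim R))) := by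
    rw [hlift]
    exact QuotientGroup.mk'_surjective _
  refine ⟨F2 ⧸ lim R, inferInstance, fun i => ((FreeGroup.of i : F2) : F2 ⧸ lim R), hsurj, htor,
    fun M hM => lim_index T M hM, ?_, ?_, ?_⟩
  · intro L hL
    by_contra hinf
    rw [not_finite_iff_infinite] at hinf
    obtain ⟨t, ht⟩ := exists_ne (1 : L)
    have ht1 : (t : F2 ⧸ lim R) ≠ 1 := fun h => ht (Subtype.ext h)
    have hfin : ((Subgroup.zpowers (t : F2 ⧸ lim R) : Subgroup (F2 ⧸ lim R)) :
        Set (F2 ⧸ lim R)).Finite := (hfo t).finite_zpowers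
    obtain ⟨b, hbL, hb⟩ : ∃ b ∈ L, b ∉ Subgroup.zpowers (t : F2 ⧸ lim R) := by
      by_contra h
      push Not at h
      have h1 : (L : Set (F2 ⧸ lim R)).Finite := hfin.subset fun x hx => h x hx
      have h2 : Finite L := h1
      exact not_finite_iff_infinite.2 hinf h2
    obtain ⟨a', ha'⟩ := QuotientGroup.mk'_surjective (lim R) (t : F2 ⧸ lim R)
    obtain ⟨b', hb'⟩ := QuotientGroup.mk'_surjective (lim R) b
    have ha2 : (a' : F2 ⧸ lim R) = t := ha'
    have hb2 : (b' : F2 ⧸ lim R) = b := hb'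
    have hcl : ((Subgroup.closure {(a' : F2 ⧸ lim R), (b' : F2 ⧸ lim R)} :
        Subgroup (F2 ⧸ lim R)) : Set (F2 ⧸ lim R)).Infinite := by
      intro hf
      apply hb
      have h1 := lim_finite T a' b' (by rw [ha2]; exact ht1) hf
      rw [ha2, hb2] at h1
      exact h1
    obtain ⟨k, ψ, hψ, hz⟩ := lim_cert T a' b' hcl
    refine not_amen_of_cert T ψ k hψ L (fun z => ?_) hL
    have h2 : Subgroup.closure {a', b'} ≤ L.comap (QuotientGroup.mk' (lim R)) := by
      rw [Subgroup.closure_le]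
      intro x hx
      rcases hx with rfl | hx
      · exact Subgroup.mem_comap.2 (by rw [ha']; exact t.2)
      · rw [Set.mem_singleton_iff.1 hx]
        exact Subgroup.mem_comap.2 (by rw [hb']; exact hbL)
    exact h2 (hz z)
  · have h1 := beta_lim T
    linarith
  · have h1 := beta_lt_of_isOfFinOrder
      (fun i : Fin 2 => ((FreeGroup.of i : F2) : F2 ⧸ lim R)) hsurj le_rfl 0
      ((hfo _).orderOf_pos)
    norm_num at h1
    exact h1

end L2B
end
end

section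

/-! # the cohomological definition agrees with the one through harmonic Dirichlet functions -/

noncomputable section

namespace Pool.Agent.Lib.MP_42532b_al

open MP42532b.L2 (Hi ee harmS gradS IsHarm)
open scoped InnerProductSpace

variable {G : Type*} [Group G] {d : ℕ}

/-- domination of square summable families -/
private theorem be_mem {α β E : Type*} [NormedAddCommGroup E] (σ : α → β)
    (hσ : Function.Injective σ)
    (w : lp (fun _ : β => E) 2) {F : Type*} [NormedAddCommGroup F] (f : α → F)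
    (hf : ∀ a, ‖f a‖ ≤ ‖w (σ a)‖) : Memℓp (E := fun _ : α => F) f 2 := by
  have h := lp.memℓp w
  rw [memℓp_gen_iff (by norm_num)] at h ⊢
  have h2 : Summable fun a => ‖w (σ a)‖ ^ ENNReal.toReal 2 := h.comp_injective hσ
  refine Summable.of_nonneg_of_le (fun a => by positivity) (fun a => ?_) h2
  exact Real.rpow_le_rpow (norm_nonneg _) (hf a) (by norm_num)

/-- inversion on `G × Fin d` -/
private def sig (G : Type*) [Group G] (d : ℕ) : G × Fin d ≃ G × Fin d :=
  (Equiv.inv G).prodCongr (Equiv.refl (Fin d))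

@[simp] private theorem sig_apply (x : G) (i : Fin d) : sig G d (x, i) = (x⁻¹, i) := rfl

/-- complexification and inversion -/
private def iot (p : Hi G (Fin d)) : SqSumPow G d :=
  ⟨fun q => ((p (sig G d q) : ℝ) : ℂ), be_mem (sig G d) (sig G d).injective p _ fun a => by
    rw [Complex.norm_real]⟩

private theorem iot_apply (p : Hi G (Fin d)) (q : G × Fin d) :
    iot p q = ((p (sig G d q) : ℝ) : ℂ) := rfl

/-- real part and inversion -/
private def reP (w : SqSumPow G d) : Hi G (Fin d) :=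
  ⟨fun q => (w (sig G d q)).re, be_mem (sig G d) (sig G d).injective w _ fun a => by
    rw [Real.norm_eq_abs]
    exact Complex.abs_re_le_norm _⟩

private theorem reP_apply (w : SqSumPow G d) (q : G × Fin d) :
    reP w q = (w (sig G d q)).re := rfl

/-- imaginary part and inversion -/
private def imP (w : SqSumPow G d) : Hi G (Fin d) :=
  ⟨fun q => (w (sig G d q)).im, be_mem (sig G d) (sig G d).injective w _ fun a => by
    rw [Real.norm_eq_abs]
    exact Complex.abs_im_le_norm _⟩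

private theorem imP_apply (w : SqSumPow G d) (q : G × Fin d) :
    imP w q = (w (sig G d q)).im := rfl

@[simp] private theorem sig_sig (q : G × Fin d) : sig G d (sig G d q) = q := by
  obtain ⟨x, i⟩ := q
  rw [sig_apply, sig_apply, inv_inv]

private theorem re_inner_iot (p : Hi G (Fin d)) (w : SqSumPow G d) :
    (⟪iot p, w⟫_ℂ).re = ⟪p, reP w⟫_ℝ := by
  have h1 : HasSum (fun q => ⟪iot p q, w q⟫_ℂ) ⟪iot p, w⟫_ℂ := lp.hasSum_inner _ _
  have h2 : HasSum (fun q => ⟪p q, reP w q⟫_ℝ) ⟪p, reP w⟫_ℝ := lp.hasSum_inner _ _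
  have h3 := Complex.hasSum_re h1
  have h4 : HasSum (fun q => ⟪p (sig G d q), reP w (sig G d q)⟫_ℝ) ⟪p, reP w⟫_ℝ :=
    ((sig G d).hasSum_iff (f := fun q => ⟪p q, reP w q⟫_ℝ)).2 h2
  have e : (fun q => (⟪iot p q, w q⟫_ℂ).re) =
      fun q => ⟪p (sig G d q), reP w (sig G d q)⟫_ℝ := by
    funext q
    rw [reP_apply, sig_sig, iot_apply]
    simp [RCLike.inner_apply]
  rw [e] at h3
  exact h3.unique h4

private theorem im_inner_iot (p : Hi G (Fin d)) (w : SqSumPow G d) :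
    (⟪iot p, w⟫_ℂ).im = ⟪p, imP w⟫_ℝ := by
  have h1 : HasSum (fun q => ⟪iot p q, w q⟫_ℂ) ⟪iot p, w⟫_ℂ := lp.hasSum_inner _ _
  have h2 : HasSum (fun q => ⟪p q, imP w q⟫_ℝ) ⟪p, imP w⟫_ℝ := lp.hasSum_inner _ _
  have h3 := Complex.hasSum_im h1
  have h4 : HasSum (fun q => ⟪p (sig G d q), imP w (sig G d q)⟫_ℝ) ⟪p, imP w⟫_ℝ :=
    ((sig G d).hasSum_iff (f := fun q => ⟪p q, imP w q⟫_ℝ)).2 h2
  have e : (fun q => (⟪iot p q, w q⟫_ℂ).im) =
      fun q => ⟪p (sig G d q), imP w (sig G d q)⟫_ℝ := by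
    funext q
    rw [imP_apply, sig_sig, iot_apply]
    simp [RCLike.inner_apply]
  rw [e] at h3
  exact h3.unique h4

private theorem inner_iot_eq_zero {p : Hi G (Fin d)} {w : SqSumPow G d}
    (h1 : ⟪p, reP w⟫_ℝ = 0) (h2 : ⟪p, imP w⟫_ℝ = 0) : ⟪iot p, w⟫_ℂ = 0 := by
  apply Complex.ext
  · rw [re_inner_iot, h1]; rfl
  · rw [im_inner_iot, h2]; rfl

private theorem norm_iot (p : Hi G (Fin d)) : ‖iot p‖ = ‖p‖ := by
  have h1 : reP (iot p) = p := by
    ext q
    rw [reP_apply, iot_apply, sig_sig, Complex.ofReal_re]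
  have h2 : ‖iot p‖ ^ 2 = ‖p‖ ^ 2 := by
    have e1 : (⟪iot p, iot p⟫_ℂ).re = ‖p‖ ^ 2 := by
      rw [re_inner_iot, h1, real_inner_self_eq_norm_sq]
    have e2 : (⟪iot p, iot p⟫_ℂ).re = ‖iot p‖ ^ 2 := inner_self_eq_norm_sq (𝕜 := ℂ) (iot p)
    rw [← e1, e2]
  have h3 := norm_nonneg (iot p)
  have h4 := norm_nonneg p
  exact (sq_eq_sq₀ h3 h4).1 h2

private theorem iot_sub (p q : Hi G (Fin d)) : iot (p - q) = iot p - iot q := by
  ext x
  change (((p - q) (sig G d x) : ℝ) : ℂ) = ((p (sig G d x) : ℝ) : ℂ) - ((q (sig G d x) : ℝ) : ℂ)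
  rw [← Complex.ofReal_sub]
  rfl

open Classical in
private theorem iot_ee (i : Fin d) :
    (lp.single 2 ((1 : G), i) (1 : ℂ) : SqSumPow G d) = iot (ee 1 i) := by
  ext q
  obtain ⟨x, j⟩ := q
  rw [iot_apply, sig_apply, MP42532b.L2.ee_apply, lp.single_apply]
  by_cases h : (x, j) = (1, i)
  · obtain ⟨rfl, rfl⟩ := Prod.mk.inj h
    rw [inv_one, if_pos rfl, Pi.single_eq_same, Complex.ofReal_one]
  · rw [Pi.single_eq_of_ne h, if_neg, Complex.ofReal_zero]
    intro h1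
    apply h
    obtain ⟨h2, h3⟩ := Prod.mk.inj h1
    rw [inv_eq_one] at h2
    rw [h2, h3]

/-! ### from cohomology to harmonic gradients -/

/-- the coboundary of a basis vector -/
private theorem cob_single_mem [DecidableEq G] (s : Fin d → G) (h : G) :
    ∃ v ∈ coboundarySpace s, ∀ w : SqSumPow G d,
      ⟪v, w⟫_ℂ = ∑ i, (w (s i * h, i) - w (h, i)) := by
  classical
  refine ⟨∑ i, (lp.single 2 (s i * h, i) (1 : ℂ) - lp.single 2 (h, i) (1 : ℂ)), ?_, ?_⟩
  · refine ⟨lp.single 2 h (1 : ℂ), ?_⟩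
    intro x i
    have e1 : (∑ i, (lp.single 2 (s i * h, i) (1 : ℂ) - lp.single 2 (h, i) (1 : ℂ)) :
        SqSumPow G d) (x, i) =
        ∑ j, ((lp.single 2 (s j * h, j) (1 : ℂ) : SqSumPow G d) (x, i) -
          (lp.single 2 (h, j) (1 : ℂ) : SqSumPow G d) (x, i)) := by
      rw [lp.coeFn_sum, Finset.sum_apply]
      rfl
    rw [e1, Finset.sum_eq_single i]
    · rw [lp.single_apply, lp.single_apply, lp.single_apply, lp.single_apply]
      have e2 : (Pi.single (s i * h, i) (1 : ℂ) : G × Fin d → ℂ) (x, i) =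
          (Pi.single h (1 : ℂ) : G → ℂ) ((s i)⁻¹ * x) := by
        by_cases hx : x = s i * h
        · rw [hx, Pi.single_eq_same, inv_mul_cancel_left, Pi.single_eq_same]
        · rw [Pi.single_eq_of_ne, Pi.single_eq_of_ne]
          · intro h1
            apply hx
            rw [← h1, mul_inv_cancel_left]
          · intro h1
            exact hx (Prod.mk.inj h1).1
      have e3 : (Pi.single (h, i) (1 : ℂ) : G × Fin d → ℂ) (x, i) =
          (Pi.single h (1 : ℂ) : G → ℂ) x := by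
        by_cases hx : x = h
        · rw [hx, Pi.single_eq_same, Pi.single_eq_same]
        · rw [Pi.single_eq_of_ne hx, Pi.single_eq_of_ne]
          intro h1
          exact hx (Prod.mk.inj h1).1
      rw [e2, e3]
    · intro j _ hj
      rw [lp.single_apply, lp.single_apply, Pi.single_eq_of_ne, Pi.single_eq_of_ne, sub_self]
      · intro h1
        exact hj (Prod.mk.inj h1).2.symm
      · intro h1
        exact hj (Prod.mk.inj h1).2.symm
    · intro hi
      exact absurd (Finset.mem_univ i) hi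
  · intro w
    rw [sum_inner]
    refine Finset.sum_congr rfl fun i _ => ?_
    rw [inner_sub_left, lp.inner_single_left, lp.inner_single_left]
    simp

private theorem mem_harmS_of (s : Fin d → G) (q : Hi G (Fin d)) (f : G → ℝ)
    (hf : ∀ g i, q (g, i) = f (g * s i) - f g)
    (hq : ∀ g, ∑ i, (q (g * (s i)⁻¹, i) - q (g, i)) = 0) : q ∈ harmS s := by
  refine ⟨f, fun g => ?_, hf⟩
  have h1 := hq g
  have h2 : ∑ i, (q (g * (s i)⁻¹, i) - q (g, i)) =
      -∑ i, ((f (g * s i) - f g) + (f (g * (s i)⁻¹) - f g)) := by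
    rw [← Finset.sum_neg_distrib]
    refine Finset.sum_congr rfl fun i _ => ?_
    rw [hf, hf, inv_mul_cancel_right]
    ring
  rw [h2, neg_eq_zero] at h1
  exact h1

private theorem div_eq_zero [DecidableEq G] (s : Fin d → G) {w : SqSumPow G d}
    (hw : w ∈ (coboundarySpace s)ᗮ) (g : G) :
    ∑ i, (w ((g * (s i)⁻¹)⁻¹, i) - w (g⁻¹, i)) = 0 := by
  obtain ⟨v, hv, hvw⟩ := cob_single_mem s g⁻¹
  have h1 := (Submodule.mem_orthogonal _ _).1 hw v hv
  rw [hvw] at h1
  rw [← h1]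
  refine Finset.sum_congr rfl fun i _ => ?_
  rw [mul_inv_rev, inv_inv]

private theorem parts_mem (s : Fin d → G) {w : SqSumPow G d}
    (hw : w ∈ cocycleSpace s ⊓ (coboundarySpace s)ᗮ) : reP w ∈ harmS s ∧ imP w ∈ harmS s := by
  classical
  obtain ⟨⟨c, hc, hcw⟩, hw2⟩ := Submodule.mem_inf.1 hw
  have h1 : ∀ g i, w (g⁻¹, i) = c (g * s i) 1 - c g 1 := by
    intro g i
    rw [hcw, hc g (s i) 1, mul_one]
    ring
  constructor
  · refine mem_harmS_of s _ (fun g => (c g 1).re) ?_ ?_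
    · intro g i
      rw [reP_apply, sig_apply, h1, Complex.sub_re]
    · intro g
      have h2 := congrArg Complex.re (div_eq_zero s hw2 g)
      rw [Complex.re_sum, Complex.zero_re] at h2
      rw [← h2]
      refine Finset.sum_congr rfl fun i _ => ?_
      rw [Complex.sub_re]
      rfl
  · refine mem_harmS_of s _ (fun g => (c g 1).im) ?_ ?_
    · intro g i
      rw [imP_apply, sig_apply, h1, Complex.sub_im]
    · intro g
      have h2 := congrArg Complex.im (div_eq_zero s hw2 g)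
      rw [Complex.im_sum, Complex.zero_im] at h2
      rw [← h2]
      refine Finset.sum_congr rfl fun i _ => ?_
      rw [Complex.sub_im]
      rfl

/-! ### from harmonic gradients to cohomology -/

private theorem memℓp_grad (s : Fin d → G) (hs : Function.Surjective (FreeGroup.lift s))
    (p : Hi G (Fin d)) (f : G → ℝ) (hf : ∀ g i, p (g, i) = f (g * s i) - f g) (h : G) :
    Memℓp (E := fun _ : G => ℂ) (fun x => ((f (x⁻¹ * h) - f x⁻¹ : ℝ) : ℂ)) 2 := by
  have htr : ∀ (σ : G → G), Function.Injective σ → ∀ φ : G → ℂ,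
      Memℓp (E := fun _ : G => ℂ) φ 2 →
      Memℓp (E := fun _ : G => ℂ) (fun x => φ (σ x)) 2 := fun σ hσ φ hφ =>
    be_mem σ hσ (⟨φ, hφ⟩ : lp (fun _ : G => ℂ) 2) _ fun a => le_rfl
  set S : Subgroup G :=
    { carrier := {h | Memℓp (E := fun _ : G => ℂ) (fun x => ((f (x⁻¹ * h) - f x⁻¹ : ℝ) : ℂ)) 2}
      mul_mem' := by
        intro g h hg hh
        have h1 := (htr (fun x => g⁻¹ * x) (mul_right_injective _) _ hh).add hg
        have e : (fun x : G => ((f (x⁻¹ * (g * h)) - f x⁻¹ : ℝ) : ℂ)) =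
            (fun x : G => ((f ((g⁻¹ * x)⁻¹ * h) - f (g⁻¹ * x)⁻¹ : ℝ) : ℂ)) +
            (fun x : G => ((f (x⁻¹ * g) - f x⁻¹ : ℝ) : ℂ)) := by
          funext x
          rw [Pi.add_apply, ← Complex.ofReal_add, mul_inv_rev, inv_inv, mul_assoc]
          congr 1
          ring
        change Memℓp (E := fun _ : G => ℂ) (fun x : G => ((f (x⁻¹ * (g * h)) - f x⁻¹ : ℝ) : ℂ)) 2
        rw [e]
        exact h1
      one_mem' := by
        have e : (fun x : G => ((f (x⁻¹ * 1) - f x⁻¹ : ℝ) : ℂ)) = 0 := by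
          funext x
          rw [mul_one, sub_self]
          rfl
        change Memℓp (E := fun _ : G => ℂ) (fun x : G => ((f (x⁻¹ * 1) - f x⁻¹ : ℝ) : ℂ)) 2
        rw [e]
        exact zero_memℓp
      inv_mem' := by
        intro h hh
        have h1 := (htr (fun x => h * x) (mul_right_injective _) _ hh).neg
        have e : (fun x : G => ((f (x⁻¹ * h⁻¹) - f x⁻¹ : ℝ) : ℂ)) =
            -(fun x : G => ((f ((h * x)⁻¹ * h) - f (h * x)⁻¹ : ℝ) : ℂ)) := by
          funext x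
          rw [Pi.neg_apply, ← Complex.ofReal_neg, mul_inv_rev, inv_mul_cancel_right]
          congr 1
          ring
        change Memℓp (E := fun _ : G => ℂ) (fun x : G => ((f (x⁻¹ * h⁻¹) - f x⁻¹ : ℝ) : ℂ)) 2
        rw [e]
        exact h1 } with hS
  have hmem : ∀ i, s i ∈ S := by
    intro i
    change Memℓp (E := fun _ : G => ℂ) (fun x : G => ((f (x⁻¹ * s i) - f x⁻¹ : ℝ) : ℂ)) 2
    refine be_mem (fun x : G => (x, i)) (fun x y hxy => (Prod.mk.inj hxy).1) (iot p) _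
      fun a => ?_
    rw [iot_apply, sig_apply, hf]
  have htop : S = ⊤ := by
    rw [eq_top_iff, ← FreeGroup.lift_surjective_iff_closure_range_eq_top.1 hs]
    rw [Subgroup.closure_le]
    rintro _ ⟨i, rfl⟩
    exact hmem i
  have : h ∈ S := by
    rw [htop]
    trivial
  exact this

private theorem iot_mem (s : Fin d → G) (hs : Function.Surjective (FreeGroup.lift s))
    {p : Hi G (Fin d)} (hp : p ∈ harmS s) :
    iot p ∈ cocycleSpace s ⊓ (coboundarySpace s)ᗮ := by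
  obtain ⟨A, hA', hA⟩ := MP42532b.L2.exists_gradOp s
  have hp2 : p ∈ ((A : Hi G Unit →ₗ[ℝ] Hi G (Fin d)).range)ᗮ := by
    rw [MP42532b.L2.harmS_eq s hA] at hp
    exact hp.2
  refine Submodule.mem_inf.2 ⟨?_, ?_⟩
  · obtain ⟨f, -, hf⟩ := hp
    refine ⟨fun h => ⟨_, memℓp_grad s hs p f hf h⟩, ?_, ?_⟩
    · intro g h x
      change ((f (x⁻¹ * (g * h)) - f x⁻¹ : ℝ) : ℂ) = ((f (x⁻¹ * g) - f x⁻¹ : ℝ) : ℂ) +
        ((f ((g⁻¹ * x)⁻¹ * h) - f (g⁻¹ * x)⁻¹ : ℝ) : ℂ)
      rw [← Complex.ofReal_add, mul_inv_rev, inv_inv, mul_assoc]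
      congr 1
      ring
    · intro x i
      rw [iot_apply, sig_apply, hf]
  · rw [Submodule.mem_orthogonal']
    rintro v ⟨u, hu⟩
    apply inner_iot_eq_zero
    · have h1 : reP v = A ⟨fun q => (u q.1⁻¹).re,
          be_mem (fun q : G × Unit => q.1⁻¹) (by
            rintro ⟨x, a⟩ ⟨y, b⟩ hxy
            simp only [inv_inj] at hxy
            rw [hxy]) u _ fun a => by
              rw [Real.norm_eq_abs]
              exact Complex.abs_re_le_norm _⟩ := by
        ext q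
        obtain ⟨x, i⟩ := q
        rw [hA, reP_apply, sig_apply, hu, Complex.sub_re]
        change _ = (u (x * s i)⁻¹).re - (u x⁻¹).re
        rw [mul_inv_rev]
      rw [h1, real_inner_comm]
      exact (Submodule.mem_orthogonal _ _).1 hp2 _ ⟨_, rfl⟩
    · have h1 : imP v = A ⟨fun q => (u q.1⁻¹).im,
          be_mem (fun q : G × Unit => q.1⁻¹) (by
            rintro ⟨x, a⟩ ⟨y, b⟩ hxy
            simp only [inv_inj] at hxy
            rw [hxy]) u _ fun a => by
              rw [Real.norm_eq_abs]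
              exact Complex.abs_im_le_norm _⟩ := by
        ext q
        obtain ⟨x, i⟩ := q
        rw [hA, imP_apply, sig_apply, hu, Complex.sub_im]
        change _ = (u (x * s i)⁻¹).im - (u x⁻¹).im
        rw [mul_inv_rev]
      rw [h1, real_inner_comm]
      exact (Submodule.mem_orthogonal _ _).1 hp2 _ ⟨_, rfl⟩

theorem bettiOne_eq_beta (s : Fin d → G) (hs : Function.Surjective (FreeGroup.lift s)) :
    bettiOne s = MP42532b.L2.beta s := by
  classical
  have hcl : (harmS s).topologicalClosure = harmS s :=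
    (MP42532b.L2.isClosed_harmS s hs).submodule_topologicalClosure_eq
  unfold bettiOne vnDim MP42532b.L2.beta MP42532b.L2.vdim
  refine Finset.sum_congr rfl fun i _ => ?_
  set p := (harmS s).topologicalClosure.starProjection (ee 1 i) with hp
  have hpm : p ∈ harmS s := by
    have h1 := (harmS s).topologicalClosure.starProjection_apply_mem (ee 1 i)
    rw [← hp] at h1
    rw [hcl] at h1
    exact h1
  have hpo : ∀ q ∈ harmS s, ⟪ee 1 i - p, q⟫_ℝ = 0 := by
    intro q hq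
    exact (harmS s).topologicalClosure.starProjection_inner_eq_zero (ee 1 i) q
      ((harmS s).le_topologicalClosure hq)
  have key : (cocycleSpace s ⊓ (coboundarySpace s)ᗮ).topologicalClosure.starProjection
      (lp.single 2 ((1 : G), i) (1 : ℂ)) = iot p := by
    refine Submodule.eq_starProjection_of_mem_of_inner_eq_zero
      (Submodule.le_topologicalClosure _ (iot_mem s hs hpm)) ?_
    have h1 : (lp.single 2 ((1 : G), i) (1 : ℂ) - iot p : SqSumPow G d) ∈
        (cocycleSpace s ⊓ (coboundarySpace s)ᗮ)ᗮ := by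
      rw [Submodule.mem_orthogonal']
      intro w hw
      obtain ⟨h2, h3⟩ := parts_mem s hw
      rw [iot_ee, ← iot_sub]
      exact inner_iot_eq_zero (hpo _ h2) (hpo _ h3)
    rw [← Submodule.orthogonal_closure] at h1
    exact (Submodule.mem_orthogonal' _ _).1 h1
  rw [key, norm_iot]

end Pool.Agent.Lib.MP_42532b_al
end
end
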