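import Pool.Agent.Lib.MP_42532b_al.L2.Basic
import Pool.Agent.Lib.MP_42532b_al.TD
import Pool.Agent.Lib.MP_42532b_al.L2.Grad

section

section

namespace L2B
variable {A : Type*} [Group A] {ℓ : A → ℕ}

theorem Av.out {p : A} {ρ : ℕ} {x y : A} {m : ℕ} (H : Av ℓ p ρ x y m) :
    ρ ≤ gd ℓ p x ∧ ρ ≤ gd ℓ p y := by
  induction H with
  | refl hx => exact ⟨hx, hx⟩
  | step y z m _ _ hp ih => exact ⟨ih.1, hp⟩

theorem Av.trans {p : A} {ρ : ℕ} {x y z : A} {m m' : ℕ} (H : Av ℓ p ρ x y m)
    (H' : Av ℓ p ρ y z m') : Av ℓ p ρ x z (m + m') := by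
  induction H' with
  | refl hx => exact H
  | step y z m _ hz hp ih => exact Av.step _ _ _ _ ih hz hp

/-- prolonging an avoiding path at its beginning -/
theorem Av.cons {p : A} {ρ : ℕ} {x y z : A} {m : ℕ} (hxy : gd ℓ x y ≤ 1) (hx : ρ ≤ gd ℓ p x)
    (H : Av ℓ p ρ y z m) : Av ℓ p ρ x z (m + 1) := by
  induction H with
  | refl hy => exact Av.step _ _ _ _ (Av.refl _ hx) hxy hy
  | step y z m _ hz hp ih => exact Av.step _ _ _ _ ih hz hp

theorem Av.symm (h : GNorm ℓ) {p : A} {ρ : ℕ} {x y : A} {m : ℕ} (H : Av ℓ p ρ x y m) :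
    Av ℓ p ρ y x m := by
  induction H with
  | refl hx => exact Av.refl _ hx
  | step y z m _ hz hp ih => exact Av.cons (by rw [h.gd_comm]; exact hz) hp ih

/-- existence of geodesic paths -/
theorem exists_GP (h : GNorm ℓ) (x y : A) : ∃ α, GP ℓ α (gd ℓ x y) x y := by
  generalize hn : gd ℓ x y = n
  induction n generalizing y with
  | zero =>
    have hxy := h.gd_eq_zero hn
    subst hxy
    exact ⟨fun _ => x, rfl, rfl, fun i j hij hj => by
      have : j = 0 := by omega
      subst this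
      simp [h.gd_self]⟩
  | succ n ih =>
    obtain ⟨z, hz1, hz2⟩ := h.exists_btw x y n (by omega)
    have hz3 : gd ℓ z y = 1 := by unfold Btw at hz2; omega
    obtain ⟨α, hα⟩ := ih z hz1
    refine ⟨fun i => if i ≤ n then α i else y, ?_, ?_, ?_⟩
    · simp [hα.zero]
    · simp
    · intro i j hij hj
      by_cases hjn : j ≤ n
      · have hin : i ≤ n := by omega
        simp only [hin, hjn, if_true]
        exact hα.geo i j hij hjn
      · have hj' : j = n + 1 := by omega
        subst hj'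
        by_cases hin : i ≤ n
        · simp only [hin, hjn, if_true, if_false]
          have g1 := hα.geo 0 i (by omega) hin
          have g2 := hα.geo i n hin le_rfl
          rw [hα.zero] at g1
          rw [hα.last] at g2
          have t1 := h.gd_tri x (α i) y
          have t2 := h.gd_tri (α i) z y
          omega
        · have hi' : i = n + 1 := by omega
          subst hi'
          simp only [hin, if_false, h.gd_self]
          omega

/-- sub-paths of geodesics -/
theorem av_GP {p : A} {ρ : ℕ} {α : ℕ → A} {N : ℕ} {x y : A} (hα : GP ℓ α N x y) (i j : ℕ)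
    (hij : i ≤ j) (hj : j ≤ N) (hout : ∀ k, i ≤ k → k ≤ j → ρ ≤ gd ℓ p (α k)) :
    Av ℓ p ρ (α i) (α j) (j - i) := by
  obtain ⟨n, rfl⟩ := Nat.exists_eq_add_of_le hij
  have e : i + n - i = n := by omega
  rw [e]
  clear e
  induction n with
  | zero => exact Av.refl _ (hout i le_rfl (by omega))
  | succ n ih =>
    have := ih (by omega) (by omega) (fun k hk hk' => hout k hk (by omega))
    refine Av.step _ _ _ _ this ?_ (hout _ (by omega) (by omega))
    have g := hα.geo (i + n) (i + (n + 1)) (by omega) hj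
    omega

/-- short geodesics far from `p` -/
theorem av_short (h : GNorm ℓ) (p : A) (ρ : ℕ) (x y : A) (hx : ρ + gd ℓ x y ≤ gd ℓ p x) :
    Av ℓ p ρ x y (gd ℓ x y) := by
  obtain ⟨α, hα⟩ := exists_GP h x y
  have := av_GP (p := p) (ρ := ρ) hα 0 (gd ℓ x y) (by omega) le_rfl (by
    intro k _ hk
    have g := hα.geo 0 k (by omega) hk
    rw [hα.zero] at g
    have t := h.gd_tri p (α k) x
    have c := h.gd_comm (α k) x
    omega)
  rw [hα.zero, hα.last] at this
  simpa using this

/-! ### path integrals -/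

/-- path of length `m` from `x` to `y` with integral `I` of `F df` (times two) -/
private inductive PI (ℓ : A → ℕ) (f F : A → ℤ) : A → A → ℕ → ℤ → Prop
  | refl (x : A) : PI ℓ f F x x 0 0
  | step (x y z : A) (m : ℕ) (I : ℤ) (h : PI ℓ f F x y m I) (hz : gd ℓ y z ≤ 1) :
      PI ℓ f F x z (m + 1) (I + (f z - f y) * (F y + F z))

private theorem PI.trans {f F : A → ℤ} {x y z : A} {m m' : ℕ} {I I' : ℤ}
    (H : PI ℓ f F x y m I) (H' : PI ℓ f F y z m' I') : PI ℓ f F x z (m + m') (I + I') := by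
  induction H' with
  | refl => simpa using H
  | step y z m' I' _ hz ih =>
    have := PI.step _ _ _ _ _ ih hz
    rw [add_assoc I I'] at this
    exact this

private theorem PI.symm (h : GNorm ℓ) {f F : A → ℤ} {x y : A} {m : ℕ} {I : ℤ}
    (H : PI ℓ f F x y m I) : PI ℓ f F y x m (-I) := by
  induction H with
  | refl => simpa using PI.refl (ℓ := ℓ) (f := f) (F := F) _
  | step y z m I _ hz ih =>
    have h1 : PI ℓ f F z y 1 (0 + (f y - f z) * (F z + F y)) :=
      PI.step _ _ _ _ _ (PI.refl z) (by rw [h.gd_comm]; exact hz)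
    have := PI.trans h1 ih
    rw [add_comm m 1]
    convert this using 1
    ring

private theorem PI.lip (h : GNorm ℓ) {f F g : A → ℤ} (hg : ∀ u v, |g u - g v| ≤ gd ℓ u v)
    {x y : A} {m : ℕ} {I : ℤ} (H : PI ℓ f F x y m I) : |g y - g x| ≤ m := by
  induction H with
  | refl => simp
  | step y z m I _ hz ih =>
    have h1 := hg z y
    rw [h.gd_comm] at h1
    have h2 : ((gd ℓ y z : ℕ) : ℤ) ≤ 1 := by exact_mod_cast hz
    push_cast
    rw [abs_le] at *
    omega

private theorem PI.small (h : GNorm ℓ) {f F : A → ℤ} (hf : ∀ u v, |f u - f v| ≤ gd ℓ u v)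
    (hF : ∀ u v, |F u - F v| ≤ gd ℓ u v)
    {x y : A} {m : ℕ} {I : ℤ} (H : PI ℓ f F x y m I) :
    |I - 2 * F x * (f y - f x)| ≤ (m : ℤ) ^ 2 := by
  induction H with
  | refl => simp
  | step y z m I H' hz ih =>
    have h1 := hf z y
    have h3 := hF z y
    rw [h.gd_comm] at h1 h3
    have h2 : ((gd ℓ y z : ℕ) : ℤ) ≤ 1 := by exact_mod_cast hz
    have h4 := PI.lip h hF H'
    have h5 : |f z - f y| ≤ 1 := h1.trans h2
    have h6 : |F y + F z - 2 * F x| ≤ 2 * m + 1 := by
      have h7 : |F z - F y| ≤ 1 := h3.trans h2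
      rw [abs_le] at *
      omega
    have e : I + (f z - f y) * (F y + F z) - 2 * F x * (f z - f x) =
        (I - 2 * F x * (f y - f x)) + (f z - f y) * (F y + F z - 2 * F x) := by ring
    rw [e]
    have h8 : |(f z - f y) * (F y + F z - 2 * F x)| ≤ 1 * (2 * m + 1) := by
      rw [abs_mul]
      exact mul_le_mul h5 h6 (abs_nonneg _) (by norm_num)
    calc |(I - 2 * F x * (f y - f x)) + (f z - f y) * (F y + F z - 2 * F x)|
        ≤ |I - 2 * F x * (f y - f x)| + |(f z - f y) * (F y + F z - 2 * F x)| := abs_add_le _ _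
      _ ≤ (m : ℤ) ^ 2 + 1 * (2 * m + 1) := add_le_add ih h8
      _ = ((m + 1 : ℕ) : ℤ) ^ 2 := by push_cast; ring

private theorem PI.exists_fun {f F : A → ℤ} {x y : A} {m : ℕ} {I : ℤ}
    (H : PI ℓ f F x y m I) : ∃ v : ℕ → A, v 0 = x ∧ v m = y ∧
      (∀ i < m, gd ℓ (v i) (v (i+1)) ≤ 1) ∧
      I = ∑ i ∈ Finset.range m, (f (v (i+1)) - f (v i)) * (F (v i) + F (v (i+1))) := by
  induction H with
  | refl => exact ⟨fun _ => x, rfl, rfl, by simp, by simp⟩
  | step y z m I _ hz ih =>
    obtain ⟨v, h0, h1, h2, h3⟩ := ih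
    refine ⟨fun i => if i ≤ m then v i else z, by simp [h0], by simp, ?_, ?_⟩
    · intro i hi
      by_cases him : i < m
      · have a1 : i ≤ m := by omega
        have a2 : i + 1 ≤ m := by omega
        simp only [a1, a2, if_true]
        exact h2 i him
      · have a1 : i = m := by omega
        subst a1
        simp [h1, hz]
    · rw [Finset.sum_range_succ]
      have e1 : ∑ i ∈ Finset.range m, (f (if i + 1 ≤ m then v (i+1) else z) -
          f (if i ≤ m then v i else z)) * (F (if i ≤ m then v i else z) +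
          F (if i + 1 ≤ m then v (i+1) else z)) = I := by
        rw [h3]
        refine Finset.sum_congr rfl fun i hi => ?_
        have him := Finset.mem_range.mp hi
        have a1 : i ≤ m := by omega
        have a2 : i + 1 ≤ m := by omega
        simp only [a1, a2, if_true]
      rw [e1]
      simp [h1]

private theorem PI.of_fun {f F : A → ℤ} {v : ℕ → A} {m : ℕ}
    (hv : ∀ i < m, gd ℓ (v i) (v (i+1)) ≤ 1) (i n : ℕ) (hin : i + n ≤ m) :
    PI ℓ f F (v i) (v (i + n)) n (∑ k ∈ Finset.Ico i (i + n),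
      (f (v (k+1)) - f (v k)) * (F (v k) + F (v (k+1)))) := by
  induction n with
  | zero => simpa using PI.refl (ℓ := ℓ) (f := f) (F := F) _
  | succ n ih =>
    have := PI.step _ _ _ _ _ (ih (by omega)) (hv (i + n) (by omega))
    rw [← add_assoc, Finset.sum_Ico_succ_top (by omega)]
    exact this

private theorem PI.area (h : GNorm ℓ) {R : ℕ} (hR : DehnP ℓ R) {f F : A → ℤ}
    (hf : ∀ u v, |f u - f v| ≤ gd ℓ u v) (hF : ∀ u v, |F u - F v| ≤ gd ℓ u v) (m : ℕ) :
    ∀ (x : A) (I : ℤ), PI ℓ f F x x m I → |I| ≤ 8 * (R : ℤ) ^ 2 * m := by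
  induction m using Nat.strong_induction_on with
  | _ m ih =>
  intro x I H
  obtain ⟨v, hv0, hvm, hv, hI⟩ := H.exists_fun
  rcases Nat.eq_zero_or_pos m with hm | hm
  · subst hm
    simp at hI
    simp [hI]
  obtain ⟨i, j, hij, hjm, hjR, hs⟩ := hR m v hm (by rw [hvm, hv0]) hv
  obtain ⟨β, hβ⟩ := exists_GP h (v i) (v j)
  set s := gd ℓ (v i) (v j) with hsdef
  have P1 := PI.of_fun (f := f) (F := F) hv 0 i (by omega)
  have P2 := PI.of_fun (f := f) (F := F) hv i (j - i) (by omega)
  have P3 := PI.of_fun (f := f) (F := F) hv j (m - j) (by omega)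
  have hβs : ∀ k < s, gd ℓ (β k) (β (k+1)) ≤ 1 := fun k hk => by
    have := hβ.geo k (k+1) (by omega) (by omega)
    omega
  have PB := PI.of_fun (f := f) (F := F) hβs 0 s (by omega)
  have e1 : i + (j - i) = j := by omega
  have e2 : j + (m - j) = m := by omega
  rw [e1] at P2
  rw [e2] at P3
  rw [zero_add] at P1 PB
  rw [hβ.zero, hβ.last] at PB
  generalize hI1 : ∑ k ∈ Finset.Ico 0 i,
      (f (v (k+1)) - f (v k)) * (F (v k) + F (v (k+1))) = I1 at P1
  generalize hI2 : ∑ k ∈ Finset.Ico i j,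
      (f (v (k+1)) - f (v k)) * (F (v k) + F (v (k+1))) = I2 at P2
  generalize hI3 : ∑ k ∈ Finset.Ico j m,
      (f (v (k+1)) - f (v k)) * (F (v k) + F (v (k+1))) = I3 at P3
  generalize ∑ k ∈ Finset.Ico 0 s,
      (f (β (k+1)) - f (β k)) * (F (β k) + F (β (k+1))) = IB at PB
  have hsum : I = I1 + I2 + I3 := by
    rw [hI, ← hI1, ← hI2, ← hI3, Finset.sum_Ico_consecutive _ (by omega) (by omega),
      Finset.sum_Ico_consecutive _ (by omega) (by omega), Finset.range_eq_Ico]
  have Q := PI.trans (PI.trans P1 PB) P3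
  rw [hvm, hv0] at Q
  have b1 := ih (i + s + (m - j)) (by omega) x _ Q
  have Q2 := PI.trans P2 (PI.symm h PB)
  have b2 := PI.small h hf hF Q2
  have hL : ((j - i + s : ℕ) : ℤ) ≤ 2 * R := by
    have : j - i + s ≤ 2 * R := by omega
    exact_mod_cast this
  have hL0 : (0 : ℤ) ≤ ((j - i + s : ℕ) : ℤ) := by positivity
  have b3 : ((j - i + s : ℕ) : ℤ) ^ 2 ≤ 8 * (R : ℤ) ^ 2 := by nlinarith
  have b4 : |I2 + -IB| ≤ 8 * (R : ℤ) ^ 2 := by
    refine le_trans ?_ b3
    simpa using b2
  have b5 : ((i + s + (m - j) : ℕ) : ℤ) ≤ m - 1 := by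
    have : i + s + (m - j) + 1 ≤ m := by omega
    have : (((i + s + (m - j) + 1 : ℕ)) : ℤ) ≤ m := by exact_mod_cast this
    push_cast at this ⊢
    omega
  have b6 : 8 * (R : ℤ) ^ 2 * ((i + s + (m - j) : ℕ) : ℤ) ≤ 8 * (R : ℤ) ^ 2 * (m - 1) :=
    mul_le_mul_of_nonneg_left b5 (by positivity)
  have e : I = (I1 + IB + I3) + (I2 + -IB) := by rw [hsum]; ring
  rw [e]
  refine (abs_add_le _ _).trans ?_
  linarith

/-- (7.3) and the loop inequality: if a geodesic segment through `p = α t` (with `ρ` room on both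
sides) is closed up by a path of length `M` avoiding the open `ρ`-ball around `p`, then `ρ` is
small compared with the total length. -/
theorem loop_bound (h : GNorm ℓ) {R : ℕ} (hR : DehnP ℓ R) {α : ℕ → A} {N : ℕ} {x y : A}
    (hα : GP ℓ α N x y) (t ρ M : ℕ) (h1 : ρ ≤ t) (h2 : t + ρ ≤ N)
    (hM : Av ℓ (α t) ρ y x M) : 2 * ρ ^ 2 ≤ 8 * R ^ 2 * (N + M) := by
  let f : A → ℤ := fun u => (gd ℓ x u : ℤ)
  let F : A → ℤ := fun u => max ((ρ : ℤ) - gd ℓ (α t) u) 0
  have hf : ∀ u v, |f u - f v| ≤ gd ℓ u v := by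
    intro u v
    have t1 := h.gd_tri x u v
    have t2 := h.gd_tri x v u
    have c := h.gd_comm u v
    simp only [f]
    rw [abs_le]
    omega
  have hF : ∀ u v, |F u - F v| ≤ gd ℓ u v := by
    intro u v
    have t1 := h.gd_tri (α t) u v
    have t2 := h.gd_tri (α t) v u
    have c := h.gd_comm u v
    simp only [F]
    rw [abs_le]
    omega
  -- the integral over the geodesic
  have key : ∀ n, n ≤ N → PI ℓ f F (α 0) (α n) n
      (if n ≤ t then (max ((n : ℤ) + ρ - t) 0) ^ 2
        else 2 * (ρ : ℤ) ^ 2 - (max ((ρ : ℤ) - (n - t)) 0) ^ 2) := by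
    intro n
    induction n with
    | zero =>
      intro _
      have e : max (((0 : ℕ) : ℤ) + ρ - t) 0 = 0 := by
        rw [max_eq_right]; push_cast; omega
      simp only [Nat.zero_le, if_true]
      rw [e]
      simpa using PI.refl (ℓ := ℓ) (f := f) (F := F) _
    | succ n ih =>
      intro hn
      have P := PI.step _ _ (α (n+1)) _ _ (ih (by omega)) (by
        have := hα.geo n (n+1) (by omega) hn
        omega)
      convert P using 1
      have f1 : f (α (n+1)) - f (α n) = 1 := by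
        have g1 := hα.geo 0 n (by omega) (by omega)
        have g2 := hα.geo 0 (n+1) (by omega) hn
        rw [hα.zero] at g1 g2
        simp only [f, g1, g2]
        push_cast
        omega
      rw [f1, one_mul]
      by_cases hc : n + 1 ≤ t
      · have hc' : n ≤ t := by omega
        simp only [hc, hc', if_true]
        have g1 := hα.geo n t (by omega) (by omega)
        have g2 := hα.geo (n+1) t (by omega) (by omega)
        have c1 := h.gd_comm (α n) (α t)
        have c2 := h.gd_comm (α (n+1)) (α t)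
        have F1 : F (α n) = max ((n : ℤ) + ρ - t) 0 := by
          simp only [F]
          congr 1
          omega
        have F2 : F (α (n+1)) = max ((n : ℤ) + 1 + ρ - t) 0 := by
          simp only [F]
          congr 1
          omega
        rw [F1, F2]
        push_cast
        rcases le_or_gt 0 ((n : ℤ) + ρ - t) with h0 | h0
        · rw [max_eq_left h0, max_eq_left (by omega)]
          ring
        · rw [max_eq_right h0.le, max_eq_right (by omega)]
          ring
      · have F1 : F (α n) = max ((ρ : ℤ) - (n - t)) 0 := by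
          simp only [F]
          have g1 := hα.geo t n (by omega) (by omega)
          congr 1
          omega
        have F2 : F (α (n+1)) = max ((ρ : ℤ) - (n + 1 - t)) 0 := by
          simp only [F]
          have g1 := hα.geo t (n+1) (by omega) (by omega)
          congr 1
          omega
        rw [F1, F2]
        by_cases hc' : n ≤ t
        · have hnt : n = t := by omega
          simp only [hc, hc', if_true, if_false]
          subst hnt
          push_cast
          have e1 : (n : ℤ) + ρ - n = ρ := by ring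
          have e2 : (ρ : ℤ) - (n - n) = ρ := by ring
          have e3 : (ρ : ℤ) - (n + 1 - n) = ρ - 1 := by ring
          rw [e1, e2, e3, max_eq_left (Int.natCast_nonneg ρ)]
          rcases Nat.eq_zero_or_pos ρ with h0 | h0
          · subst h0; simp
          · rw [max_eq_left (by omega)]
            ring
        · simp only [hc, hc', if_false]
          push_cast
          have e3 : (ρ : ℤ) - (n + 1 - t) = (ρ - (n - t)) - 1 := by ring
          rw [e3]
          generalize (ρ : ℤ) - (n - t) = b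
          rcases le_or_gt 1 b with h0 | h0
          · rw [max_eq_left (by omega), max_eq_left (by omega)]
            ring
          · rw [max_eq_right (by omega), max_eq_right (by omega)]
            ring
  have kN := key N le_rfl
  have eN : (if N ≤ t then (max ((N : ℤ) + ρ - t) 0) ^ 2
        else 2 * (ρ : ℤ) ^ 2 - (max ((ρ : ℤ) - (N - t)) 0) ^ 2) = 2 * (ρ : ℤ) ^ 2 := by
    by_cases hc : N ≤ t
    · have h0 : ρ = 0 := by omega
      have h3 : N = t := by omega
      subst h0
      subst h3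
      simp
    · simp only [hc, if_false]
      rw [max_eq_right (by omega)]
      ring
  rw [eN, hα.zero, hα.last] at kN
  -- the integral over the avoiding path
  have kM : ∀ {u w : A} {m : ℕ}, Av ℓ (α t) ρ u w m → PI ℓ f F u w m 0 := by
    intro u w m H
    induction H with
    | refl => exact PI.refl _
    | step y z m H' hz hp ih =>
      have P := PI.step _ _ _ _ _ ih hz
      have o := H'.out.2
      have F1 : F y = 0 := by
        simp only [F]; rw [max_eq_right]; omega
      have F2 : F z = 0 := by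
        simp only [F]; rw [max_eq_right]; omega
      rw [F1, F2] at P
      simpa using P
  have P := PI.trans kN (kM hM)
  have b := PI.area h hR hf hF _ _ _ P
  have b0 : (0 : ℤ) ≤ 2 * (ρ : ℤ) ^ 2 := by positivity
  rw [add_zero, abs_of_nonneg b0] at b
  exact_mod_cast b

end L2B
end

section

namespace L2B
variable {A : Type*} [Group A] {ℓ : A → ℕ}

/-- (7.4) near bigons -/
theorem near_bigon (h : GNorm ℓ) {R : ℕ} (hR : DehnP ℓ R) {α β : ℕ → A} {N M : ℕ} {x a b : A}
    (hα : GP ℓ α N x a) (hβ : GP ℓ β M x b) (D : ℕ) (hD : gd ℓ a b ≤ D) (i : ℕ) (hi : i ≤ N) :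
    ∃ j ≤ M, gd ℓ (α i) (β j) ≤ max (2 * D) (192 * R ^ 2) := by
  -- nearest points
  have hnear : ∀ i, ∃ j, j ≤ M ∧ ∀ j', j' ≤ M → gd ℓ (α i) (β j) ≤ gd ℓ (α i) (β j') := by
    intro i
    obtain ⟨j, hj, hmin⟩ := Finset.exists_min_image (Finset.range (M + 1))
      (fun j => gd ℓ (α i) (β j)) ⟨0, Finset.mem_range.2 (by omega)⟩
    refine ⟨j, by have := Finset.mem_range.1 hj; omega, fun j' hj' => ?_⟩
    exact hmin j' (Finset.mem_range.2 (by omega))
  choose J hJM hJmin using hnear
  obtain ⟨i₀, hi₀m, hmax⟩ := Finset.exists_max_image (Finset.range (N + 1))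
      (fun i => gd ℓ (α i) (β (J i))) ⟨0, Finset.mem_range.2 (by omega)⟩
  have hi₀ : i₀ ≤ N := by have := Finset.mem_range.1 hi₀m; omega
  have hmax' : ∀ k, k ≤ N → gd ℓ (α k) (β (J k)) ≤ gd ℓ (α i₀) (β (J i₀)) := fun k hk =>
    hmax k (Finset.mem_range.2 (by omega))
  clear hmax hi₀m
  refine ⟨J i, hJM i, ?_⟩
  refine (hmax' i hi).trans ?_
  by_contra hcon
  have hcon' : max (2 * D) (192 * R ^ 2) < gd ℓ (α i₀) (β (J i₀)) := not_le.1 hcon
  obtain ⟨E, hE⟩ : ∃ E, E = gd ℓ (α i₀) (β (J i₀)) := ⟨_, rfl⟩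
  rw [← hE] at hcon' hmax'
  have hE1 : 2 * D < E := lt_of_le_of_lt (le_max_left _ _) hcon'
  have hE2 : 192 * R ^ 2 < E := lt_of_le_of_lt (le_max_right _ _) hcon'
  have hfar : ∀ j, j ≤ M → E ≤ gd ℓ (α i₀) (β j) := fun j hj => by
    rw [hE]; exact hJmin i₀ j hj
  -- endpoints
  have hx0 : gd ℓ (α i₀) x = i₀ := by
    rw [h.gd_comm, ← hα.zero]
    have := hα.geo 0 i₀ (by omega) hi₀
    rw [this]; omega
  have hxE : E ≤ i₀ := by
    have h1 := hfar 0 (by omega)
    rw [hβ.zero, hx0] at h1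
    exact h1
  have haN : gd ℓ (α i₀) a = N - i₀ := by
    rw [← hα.last]
    exact hα.geo i₀ N hi₀ le_rfl
  have hbE : E ≤ gd ℓ (α i₀) b := by
    have h1 := hfar M le_rfl
    rwa [hβ.last] at h1
  have haE : E - D ≤ N - i₀ := by
    have h1 := h.gd_tri (α i₀) a b
    omega
  -- the sub-geodesic
  obtain ⟨im, him⟩ : ∃ im, im = i₀ - 2 * E := ⟨_, rfl⟩
  obtain ⟨ip, hip⟩ : ∃ ip, ip = min (i₀ + 2 * E) N := ⟨_, rfl⟩
  have hip1 : ip ≤ i₀ + 2 * E := hip ▸ min_le_left _ _
  have hip2 : ip ≤ N := hip ▸ min_le_right _ _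
  have hip3 : i₀ ≤ ip := by rw [hip]; exact le_min (by omega) hi₀
  have hip4 : i₀ + (E - D) ≤ ip := by rw [hip]; exact le_min (by omega) (by omega)
  have hsub : GP ℓ (fun k => α (im + k)) (ip - im) (α im) (α ip) := by
    refine ⟨by simp, ?_, ?_⟩
    · show α (im + (ip - im)) = α ip
      congr 1; omega
    · intro k l hkl hl
      show gd ℓ (α (im + k)) (α (im + l)) = l - k
      rw [hα.geo (im + k) (im + l) (by omega) (by omega)]
      omega
  -- the point `q-`
  obtain ⟨jm, hjmM, hjm1, m3, hm3, hav3⟩ : ∃ jm, jm ≤ M ∧ gd ℓ (α im) (β jm) ≤ E ∧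
      ∃ m3, m3 ≤ E ∧ Av ℓ (α i₀) (E - D) (β jm) (α im) m3 := by
    by_cases hc : i₀ ≤ 2 * E
    · have him0 : im = 0 := by omega
      refine ⟨0, by omega, ?_, 0, by omega, ?_⟩
      · rw [him0, hβ.zero, hα.zero, h.gd_self]; omega
      · rw [him0, hβ.zero, hα.zero]
        exact Av.refl _ (by rw [hx0]; omega)
    · refine ⟨J im, hJM im, hmax' im (by omega), gd ℓ (α im) (β (J im)), hmax' im (by omega), ?_⟩
      refine Av.symm h (av_short h _ _ _ _ ?_)
      have h1 : gd ℓ (α i₀) (α im) = 2 * E := by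
        rw [h.gd_comm, hα.geo im i₀ (by omega) hi₀]; omega
      have h2 := hmax' im (by omega)
      omega
  -- the point `q+`
  obtain ⟨jp, hjpM, hjp1, m1, hm1, hav1⟩ : ∃ jp, jp ≤ M ∧ gd ℓ (α ip) (β jp) ≤ E ∧
      ∃ m1, m1 ≤ E ∧ Av ℓ (α i₀) (E - D) (α ip) (β jp) m1 := by
    by_cases hc : i₀ + 2 * E ≤ N
    · have hipe : ip = i₀ + 2 * E := by rw [hip, min_eq_left hc]
      refine ⟨J ip, hJM ip, hmax' ip hip2, gd ℓ (α ip) (β (J ip)), hmax' ip hip2, ?_⟩
      refine av_short h _ _ _ _ ?_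
      have h1 : gd ℓ (α i₀) (α ip) = 2 * E := by
        rw [hα.geo i₀ ip hip3 hip2]; omega
      have h2 := hmax' ip hip2
      omega
    · have hipe : ip = N := by rw [hip, min_eq_right (by omega)]
      refine ⟨M, le_rfl, ?_, gd ℓ b a, ?_, ?_⟩
      · rw [hipe, hβ.last, hα.last]; omega
      · rw [h.gd_comm]; omega
      · rw [hipe, hβ.last, hα.last]
        refine Av.symm h (av_short h _ _ _ _ ?_)
        rw [h.gd_comm b a]
        omega
  -- the path along `β`
  obtain ⟨m2, hm2, hav2⟩ : ∃ m2, m2 ≤ 6 * E ∧ Av ℓ (α i₀) (E - D) (β jp) (β jm) m2 := by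
    have hlen : gd ℓ (β jp) (β jm) ≤ 6 * E := by
      have h1 := h.gd_tri (β jp) (α ip) (β jm)
      have h2 := h.gd_tri (α ip) (α im) (β jm)
      have h3 := h.gd_comm (β jp) (α ip)
      have h4 := h.gd_comm (α ip) (α im)
      have h5 := hα.geo im ip (by omega) hip2
      omega
    rcases le_total jm jp with hc | hc
    · refine ⟨jp - jm, ?_, ?_⟩
      · have h1 := hβ.geo jm jp hc hjpM
        rw [h.gd_comm, h1] at hlen
        exact hlen
      · refine Av.symm h (av_GP hβ jm jp hc hjpM ?_)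
        intro k _ hk
        have := hfar k (by omega)
        omega
    · refine ⟨jm - jp, ?_, ?_⟩
      · have h1 := hβ.geo jp jm hc hjmM
        rw [h1] at hlen
        exact hlen
      · refine av_GP hβ jp jm hc hjmM ?_
        intro k _ hk
        have := hfar k (by omega)
        omega
  have htot : Av ℓ (α i₀) (E - D) (α ip) (α im) (m1 + m2 + m3) := (hav1.trans hav2).trans hav3
  have hloop := loop_bound h hR hsub (i₀ - im) (E - D) (m1 + m2 + m3) (by omega) (by omega)
    (by
      show Av ℓ (α (im + (i₀ - im))) (E - D) (α ip) (α im) (m1 + m2 + m3)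
      have : im + (i₀ - im) = i₀ := by omega
      rw [this]; exact htot)
  have hL : (ip - im) + (m1 + m2 + m3) ≤ 12 * E := by omega
  have h1 : 2 * (E - D) ^ 2 ≤ 8 * R ^ 2 * (12 * E) :=
    hloop.trans (Nat.mul_le_mul_left _ hL)
  have h2 : E < 2 * (E - D) := by omega
  obtain ⟨ρ, hρ⟩ : ∃ ρ, ρ = E - D := ⟨_, rfl⟩
  rw [← hρ] at h1 h2
  have h3 : E * E < (2 * ρ) * (2 * ρ) := Nat.mul_self_lt_mul_self h2
  have h4 : 192 * R ^ 2 * E < E * E := Nat.mul_lt_mul_of_pos_right hE2 (by omega)
  nlinarith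

end L2B
end

section

namespace L2B
variable {A : Type*} [Group A] {ℓ : A → ℕ}

private theorem tri_sub {α : ℕ → A} {a : ℕ} {x y : A} (hα : GP ℓ α a x y) (s e : ℕ)
    (hse : s ≤ e) (he : e ≤ a) : GP ℓ (fun k => α (s + k)) (e - s) (α s) (α e) where
  zero := by simp
  last := by
    show α (s + (e - s)) = α e
    congr 1; omega
  geo := by
    intro i j hij hj
    have := hα.geo (s + i) (s + j) (by omega) (by omega)
    show gd ℓ (α (s + i)) (α (s + j)) = j - i
    omega

private theorem tri_rev (h : GNorm ℓ) {α : ℕ → A} {a : ℕ} {x y : A} (hα : GP ℓ α a x y) :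
    GP ℓ (fun k => α (a - k)) a y x where
  zero := by
    show α (a - 0) = y
    rw [Nat.sub_zero, hα.last]
  last := by
    show α (a - a) = x
    rw [Nat.sub_self, hα.zero]
  geo := by
    intro i j hij hj
    have := hα.geo (a - j) (a - i) (by omega) (by omega)
    show gd ℓ (α (a - i)) (α (a - j)) = j - i
    rw [h.gd_comm, this]
    omega

/-- closeness to a path -/
private def Nr (ℓ : A → ℕ) (α : ℕ → A) (a : ℕ) (v : A) (D : ℕ) : Prop :=
  ∃ j ≤ a, gd ℓ v (α j) ≤ D

private theorem nr_rev {α : ℕ → A} {a : ℕ} {v : A} {D : ℕ} (hn : Nr ℓ α a v D) :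
    Nr ℓ (fun k => α (a - k)) a v D := by
  obtain ⟨j, hj, hd⟩ := hn
  refine ⟨a - j, by omega, ?_⟩
  show gd ℓ v (α (a - (a - j))) ≤ D
  have : a - (a - j) = j := by omega
  rw [this]
  exact hd

/-- a path along a geodesic between two indices in any order -/
private theorem tri_along (h : GNorm ℓ) {p : A} {ρ : ℕ} {β : ℕ → A} {b : ℕ} {x z : A}
    (hβ : GP ℓ β b x z) (hout : ∀ k ≤ b, ρ ≤ gd ℓ p (β k)) (i j : ℕ) (hi : i ≤ b) (hj : j ≤ b) :
    Av ℓ p ρ (β i) (β j) (gd ℓ (β i) (β j)) := by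
  rcases le_total i j with hij | hij
  · rw [hβ.geo i j hij hj]
    exact av_GP hβ i j hij hj (fun k _ hk => hout k (by omega))
  · rw [h.gd_comm, hβ.geo j i hij hi]
    exact (av_GP hβ j i hij hi (fun k _ hk => hout k (by omega))).symm h

/-- the numerical contradiction -/
private theorem tri_num {R D T : ℕ} (hD : 248 * R ^ 2 < D) (hT : T ≤ 62 * D)
    (hb : 2 * D ^ 2 ≤ 8 * R ^ 2 * T) : False := by
  have h1 : 8 * R ^ 2 * T ≤ 8 * R ^ 2 * (62 * D) := Nat.mul_le_mul_left _ hT
  have h2 : 2 * D ^ 2 ≤ 8 * R ^ 2 * (62 * D) := hb.trans h1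
  have hpos : 0 < D := by omega
  have h3 : D * (2 * D) ≤ D * (496 * R ^ 2) := by
    calc D * (2 * D) = 2 * D ^ 2 := by ring
      _ ≤ 8 * R ^ 2 * (62 * D) := h2
      _ = D * (496 * R ^ 2) := by ring
  have h4 := Nat.le_of_mul_le_mul_left h3 hpos
  omega

private theorem tri_core (h : GNorm ℓ) {R : ℕ} (hR : DehnP ℓ R) {α β γ : ℕ → A} {a b c : ℕ}
    {x y z : A} (hα : GP ℓ α a x y) (hβ : GP ℓ β b x z) (hγ : GP ℓ γ c z y) (D t : ℕ)
    (hA : ∀ i ≤ a, Nr ℓ β b (α i) D ∨ Nr ℓ γ c (α i) D)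
    (hB : ∀ j ≤ b, Nr ℓ α a (β j) D ∨ Nr ℓ γ c (β j) D)
    (ht : t ≤ a) (fβ : ∀ j ≤ b, D ≤ gd ℓ (α t) (β j)) (fγ : ∀ k ≤ c, D ≤ gd ℓ (α t) (γ k)) :
    D ≤ 248 * R ^ 2 := by
  by_contra hcon
  push Not at hcon
  have hD : 0 < D := by omega
  set p := α t with hp
  -- room
  have t1 : D ≤ t := by
    have h1 := fβ 0 (by omega)
    have h2 : gd ℓ (α 0) p = t - 0 := hα.geo 0 t (by omega) ht
    rw [hβ.zero, ← hα.zero, h.gd_comm] at h1
    omega
  have t2 : t + D ≤ a := by
    have h1 := fγ c le_rfl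
    have h2 : gd ℓ p (α a) = a - t := hα.geo t a ht le_rfl
    rw [hγ.last, ← hα.last] at h1
    omega
  -- the points `p-` and `p+`
  obtain ⟨s, hs1, hs2, hs3⟩ : ∃ s, s + D ≤ t ∧ t ≤ s + 4 * D ∧ (s = 0 ∨ s + 4 * D = t) := by
    by_cases hc : t ≤ 4 * D
    · exact ⟨0, by omega, by omega, Or.inl rfl⟩
    · exact ⟨t - 4 * D, by omega, by omega, Or.inr (by omega)⟩
  obtain ⟨e, he1, he2, he3, he4⟩ : ∃ e, t + D ≤ e ∧ e ≤ t + 4 * D ∧ e ≤ a ∧
      (e = a ∨ e = t + 4 * D) := by
    by_cases hc : a ≤ t + 4 * D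
    · exact ⟨a, by omega, by omega, le_rfl, Or.inl rfl⟩
    · exact ⟨t + 4 * D, by omega, by omega, by omega, Or.inr rfl⟩
  have hps : gd ℓ p (α s) = t - s := by
    rw [h.gd_comm, hα.geo s t (by omega) ht]
  have hpe : gd ℓ p (α e) = e - t := hα.geo t e (by omega) he3
  have hse : gd ℓ (α s) (α e) = e - s := hα.geo s e (by omega) he3
  -- the loop through `p-` and `p+`
  have hloop : ∀ M, Av ℓ p D (α e) (α s) M → e - s + M ≤ 62 * D → False := by
    intro M hM hT
    have hsub := tri_sub hα s e (by omega) he3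
    have hpt : α (s + (t - s)) = p := by
      rw [hp]
      congr 1; omega
    have := loop_bound h hR hsub (t - s) D M (by omega) (by omega) (by rw [hpt]; exact hM)
    exact tri_num hcon hT this
  -- `q-` with a path to `p-`
  have hqm : (∃ j ≤ b, gd ℓ (α s) (β j) ≤ D ∧ Av ℓ p D (β j) (α s) (gd ℓ (α s) (β j))) ∨
      (s + 4 * D = t ∧ ∃ k ≤ c, gd ℓ (α s) (γ k) ≤ D ∧
        Av ℓ p D (γ k) (α s) (gd ℓ (α s) (γ k))) := by
    rcases hs3 with hs0 | hs4
    · left
      refine ⟨0, by omega, ?_, ?_⟩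
      · rw [hs0, hα.zero, hβ.zero, h.gd_self]; omega
      · rw [hs0, hα.zero, hβ.zero, h.gd_self]
        refine Av.refl x ?_
        have := fβ 0 (by omega)
        rwa [hβ.zero] at this
    · rcases hA s (by omega) with ⟨j, hj, hd⟩ | ⟨j, hj, hd⟩
      · left
        exact ⟨j, hj, hd, (av_short h p D (α s) (β j) (by omega)).symm h⟩
      · right
        exact ⟨hs4, j, hj, hd, (av_short h p D (α s) (γ j) (by omega)).symm h⟩
  have hqp : (∃ k ≤ c, gd ℓ (α e) (γ k) ≤ D ∧ Av ℓ p D (α e) (γ k) (gd ℓ (α e) (γ k))) ∨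
      (e = t + 4 * D ∧ ∃ j ≤ b, gd ℓ (α e) (β j) ≤ D ∧
        Av ℓ p D (α e) (β j) (gd ℓ (α e) (β j))) := by
    rcases he4 with he0 | he4
    · left
      refine ⟨c, le_rfl, ?_, ?_⟩
      · rw [he0, hα.last, hγ.last, h.gd_self]; omega
      · rw [he0, hα.last, hγ.last, h.gd_self]
        refine Av.refl y ?_
        have := fγ c le_rfl
        rwa [hγ.last] at this
    · rcases hA e (by omega) with ⟨j, hj, hd⟩ | ⟨j, hj, hd⟩
      · right
        exact ⟨he4, j, hj, hd, av_short h p D (α e) (β j) (by omega)⟩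
      · left
        exact ⟨j, hj, hd, av_short h p D (α e) (γ j) (by omega)⟩
  rcases hqm with ⟨jm, hjm, dm, am⟩ | ⟨hs4, km, hkm, dm, am⟩
  · rcases hqp with ⟨kp, hkp, dp, ap⟩ | ⟨he5, jp, hjp, dp, ap⟩
    · -- case (ii)
      have dq : gd ℓ (β jm) (γ kp) ≤ 10 * D := by
        have u1 := h.gd_tri (β jm) (α s) (γ kp)
        have u2 := h.gd_tri (α s) (α e) (γ kp)
        have u3 := h.gd_comm (β jm) (α s)
        omega
      have gz : gd ℓ (β jm) z = b - jm := by
        have := hβ.geo jm b hjm le_rfl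
        rwa [hβ.last] at this
      by_cases hz : b - jm ≤ 20 * D
      · -- close along `γ` and `β` through `z`
        have a1 := tri_along h hγ fγ kp 0 hkp (by omega)
        have a2 := tri_along h hβ fβ b jm le_rfl hjm
        rw [hγ.zero] at a1
        rw [hβ.last] at a2
        refine hloop _ (((ap.trans a1).trans a2).trans am) ?_
        have u1 := h.gd_tri (γ kp) (β jm) z
        have u2 := h.gd_comm (γ kp) (β jm)
        have u3 := h.gd_comm z (β jm)
        omega
      · push Not at hz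
        set jr := jm + 20 * D with hjr
        have hjrb : jr ≤ b := by omega
        have g1 : gd ℓ (β jm) (β jr) = 20 * D := by
          rw [hβ.geo jm jr (by omega) hjrb]; omega
        have a2 := tri_along h hβ fβ jr jm hjrb hjm
        have g2 : gd ℓ (β jr) (β jm) = 20 * D := by rw [h.gd_comm, g1]
        rw [g2] at a2
        rcases hB jr hjrb with ⟨t', ht', hd⟩ | ⟨k', hk', hd⟩
        · -- near `α`
          have e1 := hα.geo 0 t' (by omega) ht'
          have e2 := hβ.geo 0 jr (by omega) hjrb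
          have e3 := hβ.geo 0 jm (by omega) hjm
          have e4 := hα.geo 0 s (by omega) (by omega)
          rw [hα.zero] at e1 e4
          rw [hβ.zero] at e2 e3
          have u1 := h.gd_tri x (α t') (β jr)
          have u2 := h.gd_comm (α t') (β jr)
          have u3 := h.gd_tri x (β jm) (α s)
          have u4 := h.gd_comm (β jm) (α s)
          have htt : t + 14 * D ≤ t' := by omega
          have e5 := hα.geo s t' (by omega) ht'
          have u5 := h.gd_tri (α s) (β jm) (α t')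
          have u6 := h.gd_tri (β jm) (β jr) (α t')
          have e6 := hα.geo t t' (by omega) ht'
          have e7 : gd ℓ p (α t') = t' - t := e6
          have a3 := av_short h p D (α t') (β jr) (by omega)
          have hM := (a3.trans a2).trans am
          have hsub := tri_sub hα s t' (by omega) ht'
          have hpt : α (s + (t - s)) = p := by
            rw [hp]
            congr 1; omega
          have hb := loop_bound h hR hsub (t - s) D _ (by omega) (by omega)
            (by rw [hpt]; exact hM)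
          exact tri_num hcon (by omega) hb
        · -- near `γ`
          have u1 := h.gd_tri (γ kp) (β jm) (γ k')
          have u2 := h.gd_comm (γ kp) (β jm)
          have u3 := h.gd_tri (β jm) (β jr) (γ k')
          have a1 := tri_along h hγ fγ kp k' hkp hk'
          have u4 := h.gd_tri (β jm) p (β jr)
          have u5 := h.gd_tri (β jm) (α s) p
          have u6 := h.gd_comm (β jm) (α s)
          have u7 := h.gd_comm p (α s)
          have a3 := (av_short h p D (β jr) (γ k') (by omega)).symm h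
          refine hloop _ ((((ap.trans a1).trans a3).trans a2).trans am) ?_
          omega
    · -- both on `β`
      have a1 := tri_along h hβ fβ jp jm hjp hjm
      refine hloop _ ((ap.trans a1).trans am) ?_
      have u1 := h.gd_tri (β jp) (α e) (β jm)
      have u2 := h.gd_tri (α e) (α s) (β jm)
      have u3 := h.gd_comm (β jp) (α e)
      have u4 := h.gd_comm (α e) (α s)
      omega
  · rcases hqp with ⟨kp, hkp, dp, ap⟩ | ⟨he5, jp, hjp, dp, ap⟩
    · -- both on `γ`
      have a1 := tri_along h hγ fγ kp km hkp hkm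
      refine hloop _ ((ap.trans a1).trans am) ?_
      have u1 := h.gd_tri (γ kp) (α e) (γ km)
      have u2 := h.gd_tri (α e) (α s) (γ km)
      have u3 := h.gd_comm (γ kp) (α e)
      have u4 := h.gd_comm (α e) (α s)
      omega
    · -- case (iii)
      have s1 := tri_sub hα 0 e (by omega) he3
      have s2 := tri_sub hβ 0 jp (by omega) hjp
      rw [hα.zero] at s1
      rw [hβ.zero] at s2
      obtain ⟨j', hj', hd'⟩ := near_bigon h hR s1 s2 D dp s (by omega)
      have hmax : max (2 * D) (192 * R ^ 2) ≤ 2 * D := max_le le_rfl (by omega)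
      have hd2 : gd ℓ (α s) (β j') ≤ 2 * D := by
        have h3 : gd ℓ (α (0 + s)) (β (0 + j')) ≤ max (2 * D) (192 * R ^ 2) := hd'
        rw [Nat.zero_add, Nat.zero_add] at h3
        omega
      have a1 := tri_along h hβ fβ jp j' hjp (by omega)
      have a2 := (av_short h p D (α s) (β j') (by omega)).symm h
      refine hloop _ ((ap.trans a1).trans a2) ?_
      have u1 := h.gd_tri (β jp) (α e) (β j')
      have u2 := h.gd_tri (α e) (α s) (β j')
      have u3 := h.gd_comm (β jp) (α e)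
      have u4 := h.gd_comm (α e) (α s)
      omega

/-- all three sides are close to the union of the two others -/
private def Cl (ℓ : A → ℕ) (α β γ : ℕ → A) (a b c D : ℕ) : Prop :=
  (∀ i ≤ a, Nr ℓ β b (α i) D ∨ Nr ℓ γ c (α i) D) ∧
  (∀ j ≤ b, Nr ℓ α a (β j) D ∨ Nr ℓ γ c (β j) D) ∧
  (∀ k ≤ c, Nr ℓ α a (γ k) D ∨ Nr ℓ β b (γ k) D)

/-- (7.5) geodesic triangles are thin -/
theorem thin_of_dehn (h : GNorm ℓ) {R : ℕ} (hR : DehnP ℓ R) {α β γ : ℕ → A} {a b c : ℕ}
    {x y z : A} (hα : GP ℓ α a x y) (hβ : GP ℓ β b x z) (hγ : GP ℓ γ c z y) (i : ℕ)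
    (hi : i ≤ a) :
    (∃ j ≤ b, gd ℓ (α i) (β j) ≤ 248 * R ^ 2) ∨ (∃ j ≤ c, gd ℓ (α i) (γ j) ≤ 248 * R ^ 2) := by
  classical
  -- some `D` works
  have hex : ∃ D, Cl ℓ α β γ a b c D := by
    refine ⟨a + b + c, ?_, ?_, ?_⟩
    · intro k hk
      refine Or.inl ⟨0, by omega, ?_⟩
      have g1 := hα.geo 0 k (by omega) hk
      rw [hβ.zero, ← hα.zero, h.gd_comm]
      omega
    · intro k hk
      refine Or.inl ⟨0, by omega, ?_⟩
      have g1 := hβ.geo 0 k (by omega) hk
      rw [hα.zero, ← hβ.zero, h.gd_comm]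
      omega
    · intro k hk
      refine Or.inl ⟨a, le_rfl, ?_⟩
      have g1 := hγ.geo k c hk le_rfl
      rw [hα.last, ← hγ.last]
      omega
  have hspec := Nat.find_spec hex
  have hmin := fun k (hk : k < Nat.find hex) => Nat.find_min hex hk
  set D := Nat.find hex with hDdef
  obtain ⟨cA, cB, cC⟩ := hspec
  suffices hD : D ≤ 248 * R ^ 2 by
    rcases cA i hi with ⟨j, hj, hd⟩ | ⟨j, hj, hd⟩
    · exact Or.inl ⟨j, hj, hd.trans hD⟩
    · exact Or.inr ⟨j, hj, hd.trans hD⟩
  rcases Nat.eq_zero_or_pos D with h0 | hpos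
  · omega
  have hnot := hmin (D - 1) (by omega)
  have far : ∀ {α' : ℕ → A} {a' : ℕ} {v : A}, ¬ Nr ℓ α' a' v (D - 1) →
      ∀ j ≤ a', D ≤ gd ℓ v (α' j) := by
    intro α' a' v hn j hj
    by_contra hcon
    exact hn ⟨j, hj, by omega⟩
  unfold Cl at hnot
  by_cases n1 : ∀ i ≤ a, Nr ℓ β b (α i) (D - 1) ∨ Nr ℓ γ c (α i) (D - 1)
  · by_cases n2 : ∀ j ≤ b, Nr ℓ α a (β j) (D - 1) ∨ Nr ℓ γ c (β j) (D - 1)
    · have n3 : ¬ ∀ k ≤ c, Nr ℓ α a (γ k) (D - 1) ∨ Nr ℓ β b (γ k) (D - 1) :=
        fun n3 => hnot ⟨n1, n2, n3⟩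
      push Not at n3
      obtain ⟨t, ht, f1, f2⟩ := n3
      -- `α' = γ`, `β' = reverse of β`, `γ' = α`
      refine tri_core h hR (α := γ) (β := fun k => β (b - k)) (γ := α) (a := c) (b := b) (c := a)
        (x := z) (y := y) (z := x) hγ (tri_rev h hβ) hα D t ?_ ?_ ht ?_ ?_
      · intro k hk
        rcases cC k hk with h1 | h1
        · exact Or.inr h1
        · exact Or.inl (nr_rev h1)
      · intro j hj
        rcases cB (b - j) (by omega) with h1 | h1
        · exact Or.inr h1
        · exact Or.inl h1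
      · intro j hj
        exact far f2 (b - j) (by omega)
      · intro j hj
        exact far f1 j hj
    · push Not at n2
      obtain ⟨t, ht, f1, f2⟩ := n2
      -- `α' = β`, `β' = α`, `γ' = reverse of γ`
      refine tri_core h hR (α := β) (β := α) (γ := fun k => γ (c - k)) (a := b) (b := a) (c := c)
        (x := x) (y := z) (z := y) hβ hα (tri_rev h hγ) D t ?_ ?_ ht ?_ ?_
      · intro k hk
        rcases cB k hk with h1 | h1
        · exact Or.inl h1
        · exact Or.inr (nr_rev h1)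
      · intro j hj
        rcases cA j hj with h1 | h1
        · exact Or.inl h1
        · exact Or.inr (nr_rev h1)
      · intro j hj
        exact far f1 j hj
      · intro j hj
        exact far f2 (c - j) (by omega)
  · push Not at n1
    obtain ⟨t, ht, f1, f2⟩ := n1
    exact tri_core h hR hα hβ hγ D t cA cB ht (far f1) (far f2)

end L2B
end

section

namespace L2B
variable {A : Type*} [Group A] {ℓ : A → ℕ}

private theorem hyp_of_thin_aux (h : GNorm ℓ) (D : ℕ)
    (hT : ∀ (α β γ : ℕ → A) (a b c : ℕ) (x y z : A), GP ℓ α a x y → GP ℓ β b x z →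
      GP ℓ γ c z y → ∀ i ≤ a, (∃ j ≤ b, gd ℓ (α i) (β j) ≤ D) ∨ (∃ j ≤ c, gd ℓ (α i) (γ j) ≤ D))
    {α : ℕ → A} {a : ℕ} {x y : A} (hα : GP ℓ α a x y) (z : A) :
    ∃ i ≤ a, gd ℓ x (α i) + gd ℓ (α i) z ≤ gd ℓ x z + 2 * D ∧
      gd ℓ z (α i) + gd ℓ (α i) y ≤ gd ℓ z y + 2 * D + 2 := by
  classical
  obtain ⟨β, hβ⟩ := exists_GP h x z
  obtain ⟨γ, hγ⟩ := exists_GP h z y
  have H := hT α β γ a _ _ x y z hα hβ hγ
  set b := gd ℓ x z with hb
  set c := gd ℓ z y with hc
  -- from closeness to the inequalities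
  have hP : ∀ i, (∃ j ≤ b, gd ℓ (α i) (β j) ≤ D) →
      gd ℓ x (α i) + gd ℓ (α i) z ≤ b + 2 * D := by
    rintro i ⟨j, hj, hd⟩
    have g1 := hβ.geo 0 j (by omega) hj
    have g2 := hβ.geo j b hj le_rfl
    rw [hβ.zero] at g1
    rw [hβ.last] at g2
    have t1 := h.gd_tri x (β j) (α i)
    have t2 := h.gd_tri (α i) (β j) z
    have t3 := h.gd_comm (β j) (α i)
    omega
  have hQ : ∀ i E, (∃ j ≤ c, gd ℓ (α i) (γ j) ≤ E) →
      gd ℓ z (α i) + gd ℓ (α i) y ≤ c + 2 * E := by
    rintro i E ⟨j, hj, hd⟩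
    have g1 := hγ.geo 0 j (by omega) hj
    have g2 := hγ.geo j c hj le_rfl
    rw [hγ.zero] at g1
    rw [hγ.last] at g2
    have t1 := h.gd_tri z (γ j) (α i)
    have t2 := h.gd_tri (α i) (γ j) y
    have t3 := h.gd_comm (γ j) (α i)
    omega
  have hP0 : ∃ j ≤ b, gd ℓ (α 0) (β j) ≤ D := by
    refine ⟨0, by omega, ?_⟩
    rw [hα.zero, hβ.zero, h.gd_self]
    omega
  have hQa : ∃ j ≤ c, gd ℓ (α a) (γ j) ≤ D := by
    refine ⟨c, le_rfl, ?_⟩
    rw [hα.last, hγ.last, h.gd_self]
    omega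
  by_cases hall : ∀ i ≤ a, (∃ j ≤ b, gd ℓ (α i) (β j) ≤ D)
  · refine ⟨a, le_rfl, hP a (hall a le_rfl), ?_⟩
    have := hQ a D hQa
    omega
  · push Not at hall
    -- the least index which is not close to `β`
    have hex : ∃ i, i ≤ a ∧ ¬ ∃ j ≤ b, gd ℓ (α i) (β j) ≤ D := by
      obtain ⟨i, hi, hn⟩ := hall
      refine ⟨i, hi, ?_⟩
      rintro ⟨j, hj, hd⟩
      have := hn j hj
      omega
    obtain ⟨hia, hin⟩ := Nat.find_spec hex
    have hmin := fun k (hk : k < Nat.find hex) => Nat.find_min hex hk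
    set i := Nat.find hex with hi
    have hipos : i ≠ 0 := by
      intro h0
      rw [h0] at hin
      exact hin hP0
    obtain ⟨k, hk⟩ := Nat.exists_eq_succ_of_ne_zero hipos
    have hkP : ∃ j ≤ b, gd ℓ (α k) (β j) ≤ D := by
      by_contra hcon
      exact hmin k (by omega) ⟨by omega, hcon⟩
    have hiQ : ∃ j ≤ c, gd ℓ (α i) (γ j) ≤ D := (H i hia).resolve_left hin
    refine ⟨k, by omega, hP k hkP, ?_⟩
    have := hQ k (D + 1) (by
      obtain ⟨j, hj, hd⟩ := hiQ
      refine ⟨j, hj, ?_⟩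
      have g1 := hα.geo k i (by omega) hia
      have t1 := h.gd_tri (α k) (α i) (γ j)
      omega)
    omega

/-- (7.6) thin triangles imply the four point condition -/
theorem hyp_of_thin (h : GNorm ℓ) (D : ℕ)
    (hT : ∀ (α β γ : ℕ → A) (a b c : ℕ) (x y z : A), GP ℓ α a x y → GP ℓ β b x z →
      GP ℓ γ c z y → ∀ i ≤ a, (∃ j ≤ b, gd ℓ (α i) (β j) ≤ D) ∨ (∃ j ≤ c, gd ℓ (α i) (γ j) ≤ D)) :
    Hyp ℓ (3 * D + 1) := by
  intro x y z t
  obtain ⟨α, hα⟩ := exists_GP h x y
  obtain ⟨i, hi, i1, i2⟩ := hyp_of_thin_aux h D hT hα z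
  obtain ⟨j, hj, j1, j2⟩ := hyp_of_thin_aux h D hT hα t
  have a1 := hα.geo 0 i (by omega) hi
  have a2 := hα.geo i _ hi le_rfl
  have a3 := hα.geo 0 j (by omega) hj
  have a4 := hα.geo j _ hj le_rfl
  rw [hα.zero] at a1 a3
  rw [hα.last] at a2 a4
  have c1 := h.gd_comm (α i) z
  have c2 := h.gd_comm (α j) t
  have c3 := h.gd_comm z y
  have c4 := h.gd_comm t y
  rcases le_total i j with hij | hij
  · have a5 := hα.geo i j hij hj
    have t1 := h.gd_tri z (α i) t
    have t2 := h.gd_tri (α i) (α j) t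
    have := le_max_right (gd ℓ x z + gd ℓ y t) (gd ℓ x t + gd ℓ y z)
    omega
  · have a5 := hα.geo j i hij hi
    have t1 := h.gd_tri z (α i) t
    have t2 := h.gd_tri (α i) (α j) t
    have c5 := h.gd_comm (α i) (α j)
    have := le_max_left (gd ℓ x z + gd ℓ y t) (gd ℓ x t + gd ℓ y z)
    omega

theorem hyp_of_dehn (h : GNorm ℓ) {R : ℕ} (hR : DehnP ℓ R) : ∃ δ, Hyp ℓ δ :=
  ⟨_, hyp_of_thin h (248 * R ^ 2) (fun _ _ _ _ _ _ _ _ _ hα hβ hγ i hi =>
    thin_of_dehn h hR hα hβ hγ i hi)⟩

end L2B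
end
end

section

/-!
# Stages of the construction
-/

namespace L2B

abbrev F2 : Type := FreeGroup (Fin 2)

/-- the word norm on `F2 ⧸ R` -/
noncomputable def nrm (R : Subgroup F2) [R.Normal] : F2 ⧸ R → ℕ :=
  qnorm (QuotientGroup.mk' R) (fun g : F2 => g.norm)

theorem nrm_spec (R : Subgroup F2) [R.Normal] :
    QNorm (QuotientGroup.mk' R) (fun g : F2 => g.norm) (nrm R) :=
  qnorm_spec _ (QuotientGroup.mk'_surjective R) _

theorem nrm_gnorm (R : Subgroup F2) [R.Normal] : GNorm (nrm R) :=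
  (nrm_spec R).gnorm (QuotientGroup.mk'_surjective R) gnorm_free

/-- a stage: hyperbolic quotient with torsion data -/
structure Stage (R : Subgroup F2) [R.Normal] : Prop where
  hyp : ∃ δ, Hyp (nrm R) δ
  td : ∃ (ι : Type) (w : ι → F2) (n : ι → ℕ), TD R w n

/-- the image of `ψ` in the quotient -/
def img (ψ : F2 →* F2) (R : Subgroup F2) [R.Normal] : Subgroup (F2 ⧸ R) :=
  ((QuotientGroup.mk' R).comp ψ).range

/-- certificates: malnormal quasiconvex subgroups -/
structure Cert (ψ : F2 →* F2) (R : Subgroup F2) [R.Normal] : Prop where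
  qc : ∃ c, QCs (nrm R) (img ψ R : Set (F2 ⧸ R)) c
  mn : MN (img ψ R)

/-- presentations of the image of `ψ` by relators `v ^ m` with `m` the exact order of `v` -/
structure Pres (ψ : F2 →* F2) (R : Subgroup F2) (S : Finset (F2 × ℕ)) : Prop where
  ker : R.comap ψ = Subgroup.normalClosure ((fun q : F2 × ℕ => q.1 ^ q.2) '' (S : Set (F2 × ℕ)))
  pos : ∀ q ∈ S, 0 < q.2
  ord : ∀ q ∈ S, ∀ j : ℤ, ψ q.1 ^ j ∈ R ↔ (q.2 : ℤ) ∣ j

/-- sum of the inverses of the exponents -/
noncomputable def wt (S : Finset (F2 × ℕ)) : ℝ := ∑ q ∈ S, (1 : ℝ) / q.2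

/-- what we require of the `k`-th stage -/
structure Inv (k : ℕ) (R : Subgroup F2) [R.Normal] (Ψ : Finset (F2 →* F2)) : Prop where
  stage : Stage R
  cert : ∀ ψ ∈ Ψ, Cert ψ R
  idm : MonoidHom.id F2 ∈ Ψ
  pres : ∃ S, Pres (MonoidHom.id F2) R S ∧ wt S ≤ 1 / 4 - 1 / 4 * (1 / 2) ^ k

/-- the relation between consecutive stages -/
structure Nxt (η : ℝ) (R R' : Subgroup F2) (Ψ Ψ' : Finset (F2 →* F2)) : Prop where
  le : R ≤ R'
  sub : Ψ ⊆ Ψ'
  pres : ∀ ψ ∈ Ψ, ∀ S, Pres ψ R S → ∃ S', S ⊆ S' ∧ Pres ψ R' S' ∧ wt S' ≤ wt S + η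
  new : ∀ ψ ∈ Ψ', ψ ∉ Ψ → Pres ψ R' ∅

instance adj_normal (R : Subgroup F2) (v : F2) (p : ℕ) : (adj R v p).Normal := by
  unfold adj; infer_instance

end L2B
end

section

section

namespace L2B

variable {F : Type} [Group F]

/-- the normal closure of `R` and `v ^ p` is the preimage of the normal closure of the image -/
theorem adj_eq (R : Subgroup F) [R.Normal] (v : F) (p : ℕ) :
    adj R v p = (KK (v : F ⧸ R) p).comap (QuotientGroup.mk' R) := by
  unfold adj KK
  apply le_antisymm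
  · apply Subgroup.normalClosure_le_normal
    rintro x (hx | hx)
    · rw [SetLike.mem_coe, Subgroup.mem_comap]
      have : QuotientGroup.mk' R x = 1 := (QuotientGroup.eq_one_iff x).2 hx
      rw [this]
      exact Subgroup.one_mem _
    · rw [SetLike.mem_coe, Subgroup.mem_comap]
      rw [Set.mem_singleton_iff] at hx
      rw [hx, map_pow]
      exact Subgroup.subset_normalClosure rfl
  · intro x hx
    rw [Subgroup.mem_comap] at hx
    have h1 : (Subgroup.normalClosure {v ^ p}).map (QuotientGroup.mk' R) =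
        Subgroup.normalClosure {(v : F ⧸ R) ^ p} := by
      rw [Subgroup.map_normalClosure _ _ (QuotientGroup.mk'_surjective R), Set.image_singleton,
        map_pow]
      rfl
    rw [← h1] at hx
    obtain ⟨y, hy, hyx⟩ := Subgroup.mem_map.1 hx
    have h2 : y⁻¹ * x ∈ R := (QuotientGroup.eq (s := R)).1 hyx
    have h3 : x = y * (y⁻¹ * x) := by group
    rw [h3]
    refine Subgroup.mul_mem _ ?_ ?_
    · exact Subgroup.normalClosure_mono Set.subset_union_right hy
    · exact Subgroup.subset_normalClosure (Or.inl h2)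

/-- conjugation by `g⁻¹` on a normal subgroup -/
private def cj (R : Subgroup F) [hR : R.Normal] (g : F) : R →* R where
  toFun r := ⟨g⁻¹ * r * g, by simpa using hR.conj_mem r r.2 g⁻¹⟩
  map_one' := by ext; simp
  map_mul' x y := by ext; simp [mul_assoc]

private theorem cj_cj (R : Subgroup F) [hR : R.Normal] (g h : F) (r : R) :
    cj R h (cj R g r) = cj R (g * h) r := by
  ext; simp [cj, mul_assoc]

private theorem conj_comm {G M : Type*} [Group G] [CommGroup M] (χ : G →* M) (a b : G) :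
    χ (a * b * a⁻¹) = χ b := by
  rw [map_mul, map_mul, map_inv, mul_comm (χ a), mul_assoc, mul_inv_cancel, mul_one]

private theorem td_finite (R : Subgroup F) [hRn : R.Normal] {ι : Type} {w : ι → F} {n : ι → ℕ}
    (td : TD R w n) {L : Type} [Group L] (s : L →* F) (i : ι)
    (φ : R →* Multiplicative ℤ)
    (h2 : ∀ g (hg : g * w i ^ n i * g⁻¹ ∈ R), g ∉ EE R (w i) → φ ⟨_, hg⟩ = 1)
    (h3 : ∀ j, j ≠ i → ∀ g (hg : g * w j ^ n j * g⁻¹ ∈ R), φ ⟨_, hg⟩ = 1)
    (huniq : ∀ g l l', (s l)⁻¹ * g ∈ EE R (w i) → (s l')⁻¹ * g ∈ EE R (w i) → l = l') (r : R) :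
    (Function.mulSupport fun l => φ (cj R (s l) r)).Finite := by
  have hgen : ∀ x ∈ Subgroup.normalClosure (Set.range fun j => w j ^ n j), ∀ hx : x ∈ R,
      (Function.mulSupport fun l => φ (cj R (s l) ⟨x, hx⟩)).Finite := by
    intro x hx
    have hle : Subgroup.normalClosure (Set.range fun j => w j ^ n j) ≤ R := td.gen.ge
    unfold Subgroup.normalClosure at hx hle
    induction hx using Subgroup.closure_induction with
    | mem x hx =>
      intro hxR
      obtain ⟨a, ⟨j, rfl⟩, hax⟩ := Group.mem_conjugatesOfSet_iff.1 hx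
      obtain ⟨g, hg⟩ := isConj_iff.1 hax
      have hg' : g * w j ^ n j * g⁻¹ = x := hg
      subst hg'
      by_cases hji : j = i
      · subst hji
        apply Set.Subsingleton.finite
        intro l hl l' hl'
        have key : ∀ l : L, l ∈ (Function.mulSupport fun l =>
            φ (cj R (s l) ⟨g * w j ^ n j * g⁻¹, hxR⟩)) → (s l)⁻¹ * g ∈ EE R (w j) := by
          intro l hl
          by_contra hcon
          apply hl
          have hm : (s l)⁻¹ * g * w j ^ n j * ((s l)⁻¹ * g)⁻¹ ∈ R := by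
            have := (cj R (s l) ⟨g * w j ^ n j * g⁻¹, hxR⟩).2
            convert this using 1
            simp [cj, mul_assoc]
          have := h2 ((s l)⁻¹ * g) hm hcon
          rw [← this]
          congr 1
          ext
          simp [cj, mul_assoc]
        exact huniq g l l' (key l hl) (key l' hl')
      · have : (Function.mulSupport fun l => φ (cj R (s l) ⟨g * w j ^ n j * g⁻¹, hxR⟩)) = ∅ := by
          rw [Function.mulSupport_eq_empty_iff]
          funext l
          have hm : (s l)⁻¹ * g * w j ^ n j * ((s l)⁻¹ * g)⁻¹ ∈ R := by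
            have := (cj R (s l) ⟨g * w j ^ n j * g⁻¹, hxR⟩).2
            convert this using 1
            simp [cj, mul_assoc]
          have := h3 j hji ((s l)⁻¹ * g) hm
          show φ (cj R (s l) ⟨g * w j ^ n j * g⁻¹, hxR⟩) = 1
          rw [← this]
          congr 1
          ext
          simp [cj, mul_assoc]
        rw [this]
        exact Set.finite_empty
    | one =>
      intro h1
      have : (Function.mulSupport fun l => φ (cj R (s l) ⟨1, h1⟩)) = ∅ := by
        rw [Function.mulSupport_eq_empty_iff]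
        funext l
        show φ (cj R (s l) 1) = 1
        rw [map_one, map_one]
      rw [this]
      exact Set.finite_empty
    | mul x y hx hy ihx ihy =>
      intro hxy
      have hxR := hle hx
      have hyR := hle hy
      refine ((ihx hxR).union (ihy hyR)).subset ?_
      intro l hl
      by_contra hcon
      rw [Set.mem_union, not_or, Function.notMem_mulSupport, Function.notMem_mulSupport] at hcon
      apply hl
      show φ (cj R (s l) (⟨x, hxR⟩ * ⟨y, hyR⟩)) = 1
      rw [map_mul, map_mul, hcon.1, hcon.2, mul_one]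
    | inv x hx ihx =>
      intro hxi
      have hxR := hle hx
      refine (ihx hxR).subset ?_
      intro l hl
      by_contra hcon
      rw [Function.notMem_mulSupport] at hcon
      apply hl
      show φ (cj R (s l) (⟨x, hxR⟩)⁻¹) = 1
      rw [map_inv, map_inv, hcon, inv_one]
  have := hgen r.1 (td.gen ▸ r.2) r.2
  exact this

/-- (10.1) -/
theorem td_step (R : Subgroup F) [R.Normal] {ι : Type} {w : ι → F} {n : ι → ℕ}
    (td : TD R w n) (v : F) (p : ℕ) (hp : p.Prime) (hp2 : p ≠ 2)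
    (hCL : CohLyn (v : F ⧸ R) p)
    (hord : ∀ j : ℤ, (v : F ⧸ R) ^ j ∈ KK (v : F ⧸ R) p ↔ (p : ℤ) ∣ j)
    (htor : ∀ t : F ⧸ R, t ≠ 1 → (∃ m : ℕ, 0 < m ∧ t ^ m = 1) → t ∉ KK (v : F ⧸ R) p) :
    TD (adj R v p) (fun o : Option ι => o.elim v w) (fun o : Option ι => o.elim p n) := by
  classical
  have hmem : ∀ x : F, x ∈ adj R v p ↔ (x : F ⧸ R) ∈ KK (v : F ⧸ R) p := by
    intro x
    rw [adj_eq, Subgroup.mem_comap]
    rfl
  have hRle : R ≤ adj R v p := by
    intro x hx
    exact Subgroup.subset_normalClosure (Or.inl hx)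
  have hadjn : (adj R v p).Normal := Subgroup.normalClosure_normal
  have hwtor : ∀ (i : ι) (j : ℤ), (w i : F ⧸ R) ^ j ∈ KK (v : F ⧸ R) p →
      (w i : F ⧸ R) ^ j = 1 := by
    intro i j hj
    by_contra hne
    refine htor _ hne ⟨n i, (td.prime i).pos, ?_⟩ hj
    have h1 : w i ^ (n i : ℤ) ∈ R := (td.ord i _).2 dvd_rfl
    have h2 : (w i : F ⧸ R) ^ (n i : ℤ) = 1 := by
      rw [← QuotientGroup.mk_zpow]
      exact (QuotientGroup.eq_one_iff _).2 h1
    rw [← zpow_natCast, ← zpow_mul, mul_comm, zpow_mul, h2, one_zpow]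
  obtain ⟨T, hinj, hrange, hcov⟩ := hCL
  set Ψ : FreeGroup T →* F ⧸ R :=
    FreeGroup.lift (fun t : T => (t : F ⧸ R) * (v : F ⧸ R) ^ p * (t : F ⧸ R)⁻¹) with hΨ
  have hΨof : ∀ t : T, Ψ (FreeGroup.of t) = (t : F ⧸ R) * (v : F ⧸ R) ^ p * (t : F ⧸ R)⁻¹ := by
    intro t
    rw [hΨ, FreeGroup.lift_apply_of]
  have hΨK : ∀ m, Ψ m ∈ KK (v : F ⧸ R) p := by
    intro m
    rw [← hrange]
    exact ⟨m, rfl⟩
  have hKΨ : ∀ k ∈ KK (v : F ⧸ R) p, ∃ m, Ψ m = k := by
    intro k hk
    rw [← hrange] at hk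
    exact hk
  -- coordinates
  choose c0 hc0 using fun x : adj R v p => hKΨ (x.1 : F ⧸ R) ((hmem x.1).1 x.2)
  let c : adj R v p →* FreeGroup T := MonoidHom.mk' c0 (by
    intro x y
    apply hinj
    rw [map_mul, hc0, hc0, hc0]
    rfl)
  have hc : ∀ x : adj R v p, Ψ (c x) = (x.1 : F ⧸ R) := hc0
  have hcR : ∀ x : adj R v p, x.1 ∈ R → c x = 1 := by
    intro x hx
    apply hinj
    rw [hc, map_one]
    exact (QuotientGroup.eq_one_iff _).2 hx
  refine ⟨?_, ?_, ?_, ?_, ?_⟩
  · rintro (_ | i)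
    · exact hp
    · exact td.prime i
  · rintro (_ | i)
    · exact hp2
    · exact td.odd i
  · rintro (_ | i) j
    · show v ^ j ∈ adj R v p ↔ (p : ℤ) ∣ j
      rw [hmem, QuotientGroup.mk_zpow]
      exact hord j
    · show w i ^ j ∈ adj R v p ↔ (n i : ℤ) ∣ j
      rw [← td.ord i j]
      constructor
      · intro h1
        rw [hmem, QuotientGroup.mk_zpow] at h1
        have := hwtor i j h1
        rw [← QuotientGroup.mk_zpow] at this
        exact (QuotientGroup.eq_one_iff _).1 this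
      · intro h1
        exact hRle h1
  · apply le_antisymm
    · apply Subgroup.normalClosure_le_normal
      rintro x (hx | hx)
      · have h1 : R ≤ Subgroup.normalClosure (Set.range fun o : Option ι =>
            (o.elim v w : F) ^ (o.elim p n : ℕ)) := by
          conv_lhs => rw [td.gen]
          apply Subgroup.normalClosure_mono
          rintro _ ⟨i, rfl⟩
          exact ⟨some i, rfl⟩
        exact h1 hx
      · rw [Set.mem_singleton_iff] at hx
        rw [hx]
        exact Subgroup.subset_normalClosure ⟨none, rfl⟩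
    · apply Subgroup.normalClosure_le_normal
      rintro _ ⟨(_ | i), rfl⟩
      · exact Subgroup.subset_normalClosure (Or.inr rfl)
      · apply hRle
        have h1 : w i ^ (n i : ℤ) ∈ R := (td.ord i _).2 dvd_rfl
        rw [zpow_natCast] at h1
        exact h1
  · rintro (_ | i)
    · -- new index
      obtain ⟨k0, hk0, t0, ht0, s0, h0⟩ := hcov 1
      obtain ⟨m0, hm0⟩ := hKΨ k0 hk0
      let χ : FreeGroup T →* Multiplicative ℤ :=
        FreeGroup.lift (fun t : T => if t = ⟨t0, ht0⟩ then Multiplicative.ofAdd (1 : ℤ) else 1)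
      have hvp : (v : F ⧸ R) ^ p = Ψ (m0 * FreeGroup.of ⟨t0, ht0⟩ * m0⁻¹) := by
        rw [map_mul, map_mul, map_inv, hm0, hΨof]
        have e1 : t0 = k0⁻¹ * (v : F ⧸ R) ^ (-s0) := by
          have : k0⁻¹ * (1 : F ⧸ R) * (v : F ⧸ R) ^ (-s0) = t0 := by
            conv_lhs => rw [h0]
            group
          rw [← this, mul_one]
        show (v : F ⧸ R) ^ p = k0 * (t0 * (v : F ⧸ R) ^ p * t0⁻¹) * k0⁻¹
        rw [e1]
        have e2 : k0 * (k0⁻¹ * (v : F ⧸ R) ^ (-s0) * (v : F ⧸ R) ^ p *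
            (k0⁻¹ * (v : F ⧸ R) ^ (-s0))⁻¹) * k0⁻¹ =
            (v : F ⧸ R) ^ (-s0) * (v : F ⧸ R) ^ p * ((v : F ⧸ R) ^ (-s0))⁻¹ := by group
        rw [e2, ← zpow_natCast, ← zpow_add, ← zpow_neg, ← zpow_add]
        congr 1
        ring
      refine ⟨χ.comp c, ?_, ?_, ?_⟩
      · intro g hg hgE
        obtain ⟨k, hk⟩ := (mem_EE _ _ _).1 hgE
        have hk' : g * v ^ k ∈ adj R v p := hk
        rw [hmem] at hk'
        obtain ⟨m1, hm1⟩ := hKΨ _ hk'
        have hcg : c ⟨_, hg⟩ = m1 * (m0 * FreeGroup.of ⟨t0, ht0⟩ * m0⁻¹) * m1⁻¹ := by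
          apply hinj
          rw [hc, map_mul, map_mul, map_inv, ← hvp, hm1]
          show ((g * v ^ p * g⁻¹ : F) : F ⧸ R) = ((g * v ^ k : F) : F ⧸ R) * (v : F ⧸ R) ^ p *
            (((g * v ^ k : F) : F ⧸ R))⁻¹
          rw [← QuotientGroup.mk_pow, ← QuotientGroup.mk_inv, ← QuotientGroup.mk_mul,
            ← QuotientGroup.mk_mul]
          congr 1
          have e3 : g * v ^ k * v ^ p * (g * v ^ k)⁻¹ = g * (v ^ k * v ^ (p : ℤ) * v ^ (-k)) * g⁻¹ := by
            rw [zpow_natCast]; group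
          rw [e3, ← zpow_add, ← zpow_add]
          have e4 : k + (p : ℤ) + -k = (p : ℤ) := by ring
          rw [e4, zpow_natCast]
        show χ (c ⟨_, hg⟩) = _
        rw [hcg, conj_comm, conj_comm]
        simp only [χ]
        rw [FreeGroup.lift_apply_of, if_pos rfl]
      · intro g hg hgE
        obtain ⟨k, hk, t, ht, s, hgk⟩ := hcov (g : F ⧸ R)
        obtain ⟨m, hm⟩ := hKΨ k hk
        have hcg : c ⟨_, hg⟩ = m * FreeGroup.of ⟨t, ht⟩ * m⁻¹ := by
          apply hinj
          rw [hc, map_mul, map_mul, map_inv, hΨof, hm]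
          show ((g * v ^ p * g⁻¹ : F) : F ⧸ R) = k * (t * (v : F ⧸ R) ^ p * t⁻¹) * k⁻¹
          rw [QuotientGroup.mk_mul, QuotientGroup.mk_mul, QuotientGroup.mk_inv,
            QuotientGroup.mk_pow, hgk]
          have e3 : k * t * (v : F ⧸ R) ^ s * (v : F ⧸ R) ^ p * (k * t * (v : F ⧸ R) ^ s)⁻¹ =
              k * (t * ((v : F ⧸ R) ^ s * (v : F ⧸ R) ^ (p : ℤ) * (v : F ⧸ R) ^ (-s)) * t⁻¹) *
                k⁻¹ := by
            rw [zpow_natCast]; group
          rw [e3, ← zpow_add, ← zpow_add]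
          have e4 : s + (p : ℤ) + -s = (p : ℤ) := by ring
          rw [e4, zpow_natCast]
        have htne : t ≠ t0 := by
          rintro rfl
          apply hgE
          rw [mem_EE]
          refine ⟨s0 - s, ?_⟩
          show g * v ^ (s0 - s) ∈ adj R v p
          rw [hmem, QuotientGroup.mk_mul, QuotientGroup.mk_zpow, hgk]
          have e5 : t = k0⁻¹ * (v : F ⧸ R) ^ (-s0) := by
            have : k0⁻¹ * (1 : F ⧸ R) * (v : F ⧸ R) ^ (-s0) = t := by
              conv_lhs => rw [h0]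
              group
            rw [← this, mul_one]
          have e6 : k * t * (v : F ⧸ R) ^ s * (v : F ⧸ R) ^ (s0 - s) = k * k0⁻¹ := by
            rw [e5]
            have e7 : k * (k0⁻¹ * (v : F ⧸ R) ^ (-s0)) * (v : F ⧸ R) ^ s * (v : F ⧸ R) ^ (s0 - s) =
              k * k0⁻¹ * ((v : F ⧸ R) ^ (-s0) * (v : F ⧸ R) ^ s * (v : F ⧸ R) ^ (s0 - s)) := by
              simp only [mul_assoc]
            rw [e7, ← zpow_add, ← zpow_add]
            have e8 : -s0 + s + (s0 - s) = 0 := by ring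
            rw [e8, zpow_zero, mul_one]
          rw [e6]
          exact Subgroup.mul_mem _ hk (Subgroup.inv_mem _ hk0)
        show χ (c ⟨_, hg⟩) = _
        rw [hcg, conj_comm]
        simp only [χ]
        rw [FreeGroup.lift_apply_of, if_neg]
        intro h9
        exact htne (congrArg Subtype.val h9)
      · rintro (_ | j) hj g hg
        · exact absurd rfl hj
        · show χ (c ⟨_, hg⟩) = _
          have : c ⟨_, hg⟩ = 1 := by
            apply hcR
            have h1 : w j ^ (n j : ℤ) ∈ R := (td.ord j _).2 dvd_rfl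
            rw [zpow_natCast] at h1
            exact Subgroup.Normal.conj_mem inferInstance _ h1 g
          rw [this, map_one]
    · -- old index
      obtain ⟨φ, h1, h2, h3⟩ := td.inv i
      let tt : T → F := fun t => Quotient.out (t : F ⧸ R)
      have htt : ∀ t : T, ((tt t : F) : F ⧸ R) = t := fun t => QuotientGroup.out_eq' _
      let s : FreeGroup T →* F := FreeGroup.lift (fun t => tt t * v ^ p * (tt t)⁻¹)
      have hs : ∀ m, ((s m : F) : F ⧸ R) = Ψ m := by
        intro m
        have : (QuotientGroup.mk' R).comp s = Ψ := by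
          apply FreeGroup.ext_hom
          intro t
          rw [MonoidHom.comp_apply, hΨof]
          simp only [s]
          rw [FreeGroup.lift_apply_of]
          show ((tt t * v ^ p * (tt t)⁻¹ : F) : F ⧸ R) = _
          rw [QuotientGroup.mk_mul, QuotientGroup.mk_mul, QuotientGroup.mk_inv,
            QuotientGroup.mk_pow, htt]
        exact DFunLike.congr_fun this m
      have hsR' : ∀ m, s m ∈ adj R v p := fun m => by rw [hmem, hs]; exact hΨK m
      have hcs : ∀ m, c ⟨s m, hsR' m⟩ = m := by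
        intro m
        apply hinj
        rw [hc]
        exact hs m
      have huniq : ∀ g l l', (s l)⁻¹ * g ∈ EE R (w i) → (s l')⁻¹ * g ∈ EE R (w i) → l = l' := by
        intro g l l' hl hl'
        obtain ⟨k, hk⟩ := (mem_EE _ _ _).1 hl
        obtain ⟨k', hk'⟩ := (mem_EE _ _ _).1 hl'
        have e1 : (g : F ⧸ R) * (w i : F ⧸ R) ^ k = Ψ l := by
          rw [← hs, ← QuotientGroup.mk_zpow, ← QuotientGroup.mk_mul]
          symm
          apply QuotientGroup.eq.2
          rw [← mul_assoc]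
          exact hk
        have e2 : (g : F ⧸ R) * (w i : F ⧸ R) ^ k' = Ψ l' := by
          rw [← hs, ← QuotientGroup.mk_zpow, ← QuotientGroup.mk_mul]
          symm
          apply QuotientGroup.eq.2
          rw [← mul_assoc]
          exact hk'
        have e3 : (w i : F ⧸ R) ^ (k' - k) = Ψ (l⁻¹ * l') := by
          rw [map_mul, map_inv, ← e1, ← e2]
          group
        have e4 := hwtor i (k' - k) (by rw [e3]; exact hΨK _)
        rw [e3] at e4
        have e5 : l⁻¹ * l' = 1 := hinj (by rw [e4, map_one])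
        exact (inv_mul_eq_one.1 e5)
      have hfin := td_finite R td s i φ h2 h3 huniq
      let Φ : R →* Multiplicative ℤ :=
        { toFun := fun r => ∏ᶠ l, φ (cj R (s l) r)
          map_one' := by
            apply finprod_eq_one_of_forall_eq_one
            intro l
            rw [map_one, map_one]
          map_mul' := by
            intro x y
            rw [← finprod_mul_distrib (hfin x) (hfin y)]
            apply finprod_congr
            intro l
            rw [map_mul, map_mul] }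
      have hΦ : ∀ r, Φ r = ∏ᶠ l, φ (cj R (s l) r) := fun r => rfl
      have hΦconj : ∀ (m : FreeGroup T) (r : R), Φ (cj R (s m) r) = Φ r := by
        intro m r
        have hre := finprod_comp_equiv (Equiv.mulLeft m) (f := fun l => φ (cj R (s l) r))
        rw [hΦ, hΦ, ← hre]
        apply finprod_congr
        intro l
        rw [cj_cj, Equiv.coe_mulLeft, map_mul]
      -- the remainder
      have hrem : ∀ x : adj R v p, x.1 * (s (c x))⁻¹ ∈ R := by
        intro x
        rw [← QuotientGroup.eq_one_iff, QuotientGroup.mk_mul, QuotientGroup.mk_inv, hs, hc,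
          mul_inv_cancel]
      let φ' : adj R v p →* Multiplicative ℤ := MonoidHom.mk'
        (fun x => Φ ⟨x.1 * (s (c x))⁻¹, hrem x⟩) (by
          intro x y
          show Φ ⟨(x * y).1 * (s (c (x * y)))⁻¹, hrem (x * y)⟩ =
            Φ ⟨x.1 * (s (c x))⁻¹, hrem x⟩ * Φ ⟨y.1 * (s (c y))⁻¹, hrem y⟩
          rw [← hΦconj (c x)⁻¹ ⟨y.1 * (s (c y))⁻¹, hrem y⟩, ← map_mul Φ]
          congr 1
          ext
          simp [cj, mul_assoc])
      have hφ'R : ∀ x : adj R v p, ∀ hx : x.1 ∈ R, φ' x = Φ ⟨x.1, hx⟩ := by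
        intro x hx
        show Φ ⟨x.1 * (s (c x))⁻¹, hrem x⟩ = Φ ⟨x.1, hx⟩
        congr 1
        ext
        show x.1 * (s (c x))⁻¹ = x.1
        rw [hcR x hx, map_one, inv_one, mul_one]
      have hφ's : ∀ m, φ' ⟨s m, hsR' m⟩ = 1 := by
        intro m
        show Φ ⟨s m * (s (c ⟨s m, hsR' m⟩))⁻¹, hrem ⟨s m, hsR' m⟩⟩ = 1
        have : (⟨s m * (s (c ⟨s m, hsR' m⟩))⁻¹, hrem ⟨s m, hsR' m⟩⟩ : R) = 1 := by
          ext
          show s m * (s (c ⟨s m, hsR' m⟩))⁻¹ = 1
          rw [hcs, mul_inv_cancel]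
        rw [this, map_one]
      have hpowR : ∀ j, w j ^ n j ∈ R := by
        intro j
        have h9 : w j ^ (n j : ℤ) ∈ R := (td.ord j _).2 dvd_rfl
        rwa [zpow_natCast] at h9
      have hconjR : ∀ j (g : F), g * w j ^ n j * g⁻¹ ∈ R := fun j g =>
        Subgroup.Normal.conj_mem inferInstance _ (hpowR j) g
      have hcjval : ∀ j (g : F) (l : FreeGroup T),
          cj R (s l) ⟨g * w j ^ n j * g⁻¹, hconjR j g⟩ =
            ⟨(s l)⁻¹ * g * w j ^ n j * ((s l)⁻¹ * g)⁻¹, hconjR j _⟩ := by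
        intro j g l
        ext
        simp [cj, mul_assoc]
      refine ⟨φ', ?_, ?_, ?_⟩
      · intro g hg hgE
        obtain ⟨k, hk⟩ := (mem_EE _ _ _).1 hgE
        have hk' : g * w i ^ k ∈ adj R v p := hk
        rw [hmem] at hk'
        obtain ⟨m, hm⟩ := hKΨ _ hk'
        have hmE : (s m)⁻¹ * g ∈ EE R (w i) := by
          rw [mem_EE]
          refine ⟨k, ?_⟩
          rw [mul_assoc]
          apply QuotientGroup.eq.1
          rw [hs, hm]
        rw [hφ'R ⟨_, hg⟩ (hconjR i g), hΦ]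
        rw [finprod_eq_single _ m]
        · show φ (cj R (s m) ⟨g * w i ^ n i * g⁻¹, hconjR i g⟩) = _
          rw [hcjval i g m]
          exact h1 _ _ hmE
        · intro l hl
          show φ (cj R (s l) ⟨g * w i ^ n i * g⁻¹, hconjR i g⟩) = _
          rw [hcjval i g l]
          apply h2
          intro hlE
          exact hl (huniq g l m hlE hmE)
      · intro g hg hgE
        rw [hφ'R ⟨_, hg⟩ (hconjR i g), hΦ]
        apply finprod_eq_one_of_forall_eq_one
        intro l
        show φ (cj R (s l) ⟨g * w i ^ n i * g⁻¹, hconjR i g⟩) = _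
        rw [hcjval i g l]
        apply h2
        intro hlE
        apply hgE
        obtain ⟨k, hk⟩ := (mem_EE _ _ _).1 hlE
        rw [mem_EE]
        refine ⟨k, ?_⟩
        show g * w i ^ k ∈ adj R v p
        have e1 : g * w i ^ k = s l * ((s l)⁻¹ * g * w i ^ k) := by group
        rw [e1]
        exact Subgroup.mul_mem _ (hsR' l) (hRle hk)
      · rintro (_ | j) hj g hg
        · -- new relators
          have hg' : g * v ^ p * g⁻¹ ∈ adj R v p := hg
          show φ' ⟨g * v ^ p * g⁻¹, hg'⟩ = 1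
          obtain ⟨k, hk, t, ht, a, hgk⟩ := hcov (g : F ⧸ R)
          obtain ⟨m, hm⟩ := hKΨ k hk
          set u : F := g * (s m * tt ⟨t, ht⟩ * v ^ a)⁻¹ with hu
          have huR : u ∈ R := by
            rw [← QuotientGroup.eq_one_iff, hu, QuotientGroup.mk_mul, QuotientGroup.mk_inv,
              QuotientGroup.mk_mul, QuotientGroup.mk_mul, hs, hm, htt, QuotientGroup.mk_zpow, hgk,
              mul_inv_cancel]
          have hu' : g = u * (s m * tt ⟨t, ht⟩ * v ^ a) := by rw [hu]; group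
          have e1 : g * v ^ p * g⁻¹ = u * s (m * FreeGroup.of ⟨t, ht⟩ * m⁻¹) * u⁻¹ := by
            have e2 : s (FreeGroup.of ⟨t, ht⟩) = tt ⟨t, ht⟩ * v ^ p * (tt ⟨t, ht⟩)⁻¹ := by
              simp only [s]
              rw [FreeGroup.lift_apply_of]
            rw [map_mul, map_mul, map_inv, e2]
            conv_lhs => rw [hu']
            have e3 : u * (s m * tt ⟨t, ht⟩ * v ^ a) * v ^ p *
                (u * (s m * tt ⟨t, ht⟩ * v ^ a))⁻¹ =
                u * (s m * (tt ⟨t, ht⟩ * (v ^ a * v ^ (p : ℤ) * v ^ (-a)) * (tt ⟨t, ht⟩)⁻¹) *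
                  (s m)⁻¹) * u⁻¹ := by
              rw [zpow_natCast]; group
            rw [e3, ← zpow_add, ← zpow_add]
            have e4 : a + (p : ℤ) + -a = (p : ℤ) := by ring
            rw [e4, zpow_natCast]
          have e5 : (⟨g * v ^ p * g⁻¹, hg'⟩ : adj R v p) =
              ⟨u, hRle huR⟩ * ⟨s (m * FreeGroup.of ⟨t, ht⟩ * m⁻¹), hsR' _⟩ * ⟨u, hRle huR⟩⁻¹ := by
            ext
            exact e1
          rw [e5, conj_comm, hφ's]
        · have hji : j ≠ i := fun h9 => hj (by rw [h9])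
          rw [hφ'R ⟨_, hg⟩ (hconjR j g), hΦ]
          apply finprod_eq_one_of_forall_eq_one
          intro l
          show φ (cj R (s l) ⟨g * w j ^ n j * g⁻¹, hconjR j g⟩) = _
          rw [hcjval j g l]
          exact h3 j hji _ _

end L2B
end

section

namespace L2B

/-- the quotient map `F2 ⧸ R → F2 ⧸ R'` -/
def qm {R R' : Subgroup F2} [R.Normal] [R'.Normal] (hle : R ≤ R') : F2 ⧸ R →* F2 ⧸ R' :=
  QuotientGroup.map R R' (MonoidHom.id F2) (by simpa using hle)

@[simp] theorem qm_mk {R R' : Subgroup F2} [R.Normal] [R'.Normal] (hle : R ≤ R') (g : F2) :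
    qm hle (g : F2 ⧸ R) = (g : F2 ⧸ R') := rfl

theorem qm_surj {R R' : Subgroup F2} [R.Normal] [R'.Normal] (hle : R ≤ R') :
    Function.Surjective (qm hle) := by
  intro x'
  obtain ⟨g, rfl⟩ := QuotientGroup.mk_surjective x'
  exact ⟨(g : F2 ⧸ R), rfl⟩

theorem qm_qnorm {R R' : Subgroup F2} [R.Normal] [R'.Normal] (hle : R ≤ R') :
    QNorm (qm hle) (nrm R) (nrm R') := by
  have hle' : ∀ a : F2 ⧸ R, nrm R' (qm hle a) ≤ nrm R a := by
    intro a
    obtain ⟨g, rfl, hl⟩ := (nrm_spec R).lift a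
    have h1 := (nrm_spec R').le g
    rw [← hl]
    exact h1
  refine ⟨hle', fun x' => ?_⟩
  obtain ⟨g, rfl, hl⟩ := (nrm_spec R').lift x'
  have h2 : nrm R' (QuotientGroup.mk' R' g) ≤ nrm R (QuotientGroup.mk' R g) :=
    hle' (QuotientGroup.mk' R g)
  refine ⟨QuotientGroup.mk' R g, rfl, le_antisymm ?_ h2⟩
  have h1 := (nrm_spec R).le g
  rw [hl] at h1
  exact h1

theorem le_adj (R : Subgroup F2) (v : F2) (p : ℕ) : R ≤ adj R v p := by
  intro x hx
  exact Subgroup.subset_normalClosure (Or.inl hx)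

theorem pow_mem_adj (R : Subgroup F2) (v : F2) (p : ℕ) : v ^ p ∈ adj R v p := by
  exact Subgroup.subset_normalClosure (Or.inr rfl)

theorem qm_ker_adj (R : Subgroup F2) [R.Normal] (v : F2) (p : ℕ) :
    (qm (le_adj R v p)).ker = KK (v : F2 ⧸ R) p := by
  ext a
  obtain ⟨g, rfl⟩ := QuotientGroup.mk_surjective a
  rw [MonoidHom.mem_ker, qm_mk, QuotientGroup.eq_one_iff]
  have h1 : g ∈ adj R v p ↔ g ∈ (KK (v : F2 ⧸ R) p).comap (QuotientGroup.mk' R) := by
    rw [← adj_eq R v p]
  rw [h1, Subgroup.mem_comap]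
  rfl

theorem img_map {R R' : Subgroup F2} [R.Normal] [R'.Normal] (hle : R ≤ R') (ψ : F2 →* F2) :
    (img ψ R).map (qm hle) = img ψ R' := by
  ext x
  constructor
  · rintro ⟨_, ⟨g, rfl⟩, rfl⟩
    exact ⟨g, rfl⟩
  · rintro ⟨g, rfl⟩
    exact ⟨_, ⟨g, rfl⟩, rfl⟩

end L2B
end
end
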